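import Pool.Agent.Lib.MP_263316_co.LV2.Spec

set_option autoImplicit false

namespace Pool.Agent.LV2

open Finset Pool.Agent.SWC Pool.Agent.SWK Pool.Agent.HOOK

private theorem adm_nb {g : ℕ → ℕ} (hg : Monotone g) {n : ℕ} (hc : Cn g n) (u w : ℕ) (huw : u < w)
    (hwn : w < n) : w ≤ g u ↔ w - ld g w ≤ u := by
  have h := (NL_range hg (by omega : 0 < w) (hc w (by omega) hwn)).1
  have h1 : u ∈ NL g (range w) w ↔ u ∈ Ico (w - ld g w) w := by rw [h]
  unfold NL at h1
  rw [Finset.mem_filter, Finset.mem_range, Finset.mem_Ico] at h1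
  constructor
  · intro h2
    exact (h1.1 ⟨huw, huw, h2⟩).1
  · intro h2
    exact (h1.2 ⟨h2, huw⟩).2.2

theorem tADM : S_ADM := by
  intro g hg n hc
  refine ⟨⟨Nat.le_zero.mp (ld_le g 0), ?_⟩, adm_nb hg hc, ?_, rfl⟩
  · intro j hj
    refine ⟨(NL_range hg (by omega) (hc (j + 1) (by omega) hj)).2, ?_⟩
    have h1 := ld_le g (j + 1)
    by_contra hcon
    have hp : (j + 1) - ld g (j + 1) < j := by omega
    have h2 := (adm_nb hg hc ((j + 1) - ld g (j + 1)) (j + 1) (by omega) hj).2 le_rfl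
    have h3 := (adm_nb hg hc ((j + 1) - ld g (j + 1)) j hp (by omega)).1 (by omega)
    omega
  · have h := eE_Ez g n
    unfold Ez at h
    unfold EL
    have h2 : ((∑ j ∈ range n, ld g j : ℕ) : ℤ) = (eE g (range n) : ℤ) := by
      rw [h]
      push_cast
      rfl
    exact_mod_cast h2

end Pool.Agent.LV2
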