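import Pool.Agent.Lib.MP_263316_co.LV2.Spec

/-!
MP_263316_co, project LV2: the solution of the triangular system has coefficients in the cone.
-/

set_option autoImplicit false

namespace Pool.Agent.LV2

open Finset Pool.Agent.SWC Pool.Agent.SWK Pool.Agent.HOOK

namespace AUQAux

/-- the exponent vector `(a, b)` -/
noncomputable def ex (a b : ℕ) : Fin 2 →₀ ℕ := Finsupp.single 0 a + Finsupp.single 1 b

theorem ex_one (a b : ℕ) : ex a b 1 = b := by
  unfold ex
  simp

theorem mon (c : ℂ) (a b : ℕ) : (MvPolynomial.C c * MvPolynomial.X 0 ^ a * MvPolynomial.X 1 ^ b : R2)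
    = MvPolynomial.monomial (ex a b) c := by
  rw [MvPolynomial.C_mul_X_pow_eq_monomial, MvPolynomial.X_pow_eq_monomial,
    MvPolynomial.monomial_mul, mul_one]
  rfl

/-- the coefficients of the elements of the cone `C2` -/
theorem coeff_mem (v : ℂ) (d : ℕ) (p : R2) (hp : p ∈ C2 v d) (e : Fin 2 →₀ ℕ) :
    MvPolynomial.coeff e p ∈ SC v d := by
  unfold C2 at hp
  induction hp using AddSubmonoid.closure_induction with
  | mem x hx =>
    obtain ⟨m, a, b, hm, rfl⟩ := hx
    rw [mon, MvPolynomial.coeff_monomial]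
    split_ifs
    · exact AddSubmonoid.subset_closure ⟨m, hm, rfl⟩
    · exact AddSubmonoid.zero_mem _
  | zero =>
    rw [MvPolynomial.coeff_zero]
    exact AddSubmonoid.zero_mem _
  | add x y _ _ hx hy =>
    rw [MvPolynomial.coeff_add]
    exact AddSubmonoid.add_mem _ hx hy

/-- the polynomial with the coefficients `a (lvP n m b)` -/
noncomputable def PA (n : ℕ) (a : n.Partition → ℂ) (m : ℕ) : R2 :=
  ∑ b ∈ range (n + 1), if h : 1 ≤ m ∧ m + 2 * b ≤ n then
    MvPolynomial.monomial (ex (n - m - 2 * b) b) (a (lvP n m b h.1 h.2)) else 0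

theorem eval_PA (n : ℕ) (a : n.Partition → ℂ) (m : ℕ) (x : Fin 2 → ℂ) :
    MvPolynomial.eval x (PA n a m) = AA n a m (x 0) (x 1) := by
  unfold PA AA
  rw [map_sum]
  refine Finset.sum_congr rfl fun b _ => ?_
  by_cases h : 1 ≤ m ∧ m + 2 * b ≤ n
  · rw [dif_pos h, dif_pos h, ← mon]
    simp
  · rw [dif_neg h, dif_neg h, map_zero]

theorem coeff_PA (n : ℕ) (a : n.Partition → ℂ) (m b : ℕ) (h1 : 1 ≤ m) (h2 : m + 2 * b ≤ n) :
    MvPolynomial.coeff (ex (n - m - 2 * b) b) (PA n a m) = a (lvP n m b h1 h2) := by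
  unfold PA
  rw [MvPolynomial.coeff_sum, Finset.sum_eq_single b]
  · rw [dif_pos ⟨h1, h2⟩, MvPolynomial.coeff_monomial, if_pos rfl]
  · intro c _ hc
    by_cases h : 1 ≤ m ∧ m + 2 * c ≤ n
    · rw [dif_pos h, MvPolynomial.coeff_monomial, if_neg]
      intro he
      have h3 := congrArg (fun f : Fin 2 →₀ ℕ => f 1) he
      simp only [ex_one] at h3
      exact hc h3
    · rw [dif_neg h, MvPolynomial.coeff_zero]
  · intro hb
    exact absurd (Finset.mem_range.2 (by omega)) hb

theorem AA_zero (n : ℕ) (a : n.Partition → ℂ) (m : ℕ) (hm : n < m) (s1 s2 : ℂ) :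
    AA n a m s1 s2 = 0 := by
  unfold AA
  refine Finset.sum_eq_zero fun b _ => ?_
  rw [dif_neg]
  rintro ⟨_, h⟩
  omega

theorem solve (v : ℂ) (n : ℕ) (s : QQ) (A : ℕ → R2) (hA0 : ∀ m, n < m → A m = 0)
    (hA : ∀ m, 3 ≤ m → m ≤ n →
      A m + MvPolynomial.X 0 * A (m + 1) + MvPolynomial.X 1 * A (m + 2) =
        MvPolynomial.C (br v m) * s.coeff (n - m)) (a : n.Partition → ℂ)
    (ha : ∀ m, 3 ≤ m → m ≤ n → ∀ s1 s2 : ℂ, AA n a m s1 s2 + s1 * AA n a (m + 1) s1 s2 +
      s2 * AA n a (m + 2) s1 s2 = br v m * MvPolynomial.eval ![s1, s2] (s.coeff (n - m)))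
    (s1 s2 : ℂ) (k : ℕ) : ∀ m, 3 ≤ m → n < m + k →
      MvPolynomial.eval ![s1, s2] (A m) = AA n a m s1 s2 := by
  induction k with
  | zero =>
    intro m _ hm
    rw [hA0 m hm, AA_zero n a m hm, map_zero]
  | succ k ih =>
    intro m h3 hm
    rcases Nat.lt_or_ge n m with h | h
    · rw [hA0 m h, AA_zero n a m h, map_zero]
    · have e1 := congrArg (MvPolynomial.eval ![s1, s2]) (hA m h3 h)
      rw [map_add, map_add, map_mul, map_mul, map_mul, MvPolynomial.eval_X, MvPolynomial.eval_X,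
        MvPolynomial.eval_C, ih (m + 1) (by omega) (by omega), ih (m + 2) (by omega) (by omega),
        ← ha m h3 h s1 s2] at e1
      simp only [Matrix.cons_val_zero, Matrix.cons_val_one] at e1
      linear_combination e1

end AUQAux

open AUQAux

theorem tAUQ : S_AUQ := by
  intro v n d s hs a ha m b h3 h1 h2
  obtain ⟨A, hA1, hA0, hA⟩ := hs
  have e1 : A m = PA n a m := by
    refine MvPolynomial.funext fun x => ?_
    have hx : x = ![x 0, x 1] := by
      funext i
      fin_cases i <;> rfl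
    rw [eval_PA]
    have h4 := solve v n s A hA0 hA a ha (x 0) (x 1) (n + 1) m h3 (by omega)
    rw [← hx] at h4
    exact h4
  have h5 := coeff_mem v d (A m) (hA1 m) (ex (n - m - 2 * b) b)
  rw [e1, coeff_PA n a m b h1 h2] at h5
  exact h5

end Pool.Agent.LV2
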