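import Pool.Agent.Lib.MP_263316_co.LV2.Spec

set_option autoImplicit false

/-! Project LV2: divisibility of `BS i`, `kp i i i`, ... by `BS c` after a cut `c`. -/

namespace Pool.Agent.LV2

open Finset Pool.Agent.SWC Pool.Agent.SWK Pool.Agent.HOOK

namespace BETAAux

theorem last_one (l : ℕ → ℕ) (c : ℕ) (hc : l c = 1) : ∀ i, c < i →
    ∃ c', c ≤ c' ∧ c' < i ∧ l c' = 1 ∧ ∀ j, c' < j → j < i → l j ≠ 1 := by
  intro i
  induction i with
  | zero => intro h; omega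
  | succ i ih =>
    intro h
    by_cases hi : l i = 1
    · exact ⟨i, by omega, by omega, hi, fun j h1 h2 => by omega⟩
    · have hne : c ≠ i := fun h0 => hi (h0 ▸ hc)
      obtain ⟨c', h1, h2, h3, h4⟩ := ih (by omega)
      refine ⟨c', h1, by omega, h3, fun j h5 h6 => ?_⟩
      rcases Nat.lt_or_ge j i with h7 | h7
      · exact h4 j h5 h7
      · have : j = i := by omega
        rw [this]; exact hi

theorem cast_mem {v : ℂ} (hS : S_SCM) (hv : Gen v) {x : QQ} {d d' : ℕ} (h : d % 2 = d' % 2)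
    (hx : x ∈ CQ v d) : x ∈ CQ v d' := by
  rw [← ((hS v hv).2.1 d d' h).2.1]; exact hx

theorem EL_succ (l : ℕ → ℕ) (i : ℕ) : EL l (i + 1) = EL l i + l i := by
  unfold EL
  rw [Finset.sum_range_succ]

theorem br2_mem {v : ℂ} (hS : S_SCM) (hv : Gen v) {x : QQ} {d : ℕ} (hx : x ∈ CQ v d) :
    cc (br v 2) * E2 * x ∈ CQ v (d + 1) := by
  obtain ⟨-, -, -, -, -, -, -, -, h7, h8⟩ := hS v hv
  have h1 := (h8 d x hx).2
  have h2 := h7 d 2 (E2 * x) h1
  rw [mul_assoc]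
  exact cast_mem hS hv (by omega) h2

end BETAAux

open BETAAux in
theorem tBETA : S_SCM → S_BLK → S_INB → S_BETA := by
  intro hS hB hI v l n r hv hA hT c hrc hlc i
  induction i using Nat.strong_induction_on with
  | _ i ih =>
  intro hci hin
  have hS' := hS v hv
  obtain ⟨-, hpar, hmul, -, hone, -, -, -, -, h8⟩ := hS'
  rcases Nat.eq_or_lt_of_le hci with h0 | h0
  · subst h0
    refine ⟨⟨1, cast_mem hS hv (by omega) hone, (mul_one _).symm⟩, ?_⟩
    rintro ⟨j, h1, h2, -⟩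
    omega
  obtain ⟨c', hc1, hc2, hc3, hc4⟩ := last_one l c hlc i h0
  obtain ⟨k, rfl⟩ : ∃ k, i = k + 1 := ⟨i - 1, by omega⟩
  rcases Nat.eq_or_lt_of_le (Nat.lt_succ_iff.mp hc2) with hk | hk
  · -- case A
    subst hk
    obtain ⟨⟨b1, b2, b3, b4⟩, -, -⟩ := hB v l n r hv hA hT c' (by omega) (by omega) hc3
    obtain ⟨⟨U, hU, hU'⟩, ih2⟩ := ih c' (by omega) hc1 (by omega)
    have hEL : EL l (c' + 1) = EL l c' + 1 := by rw [EL_succ, hc3]
    refine ⟨⟨U, cast_mem hS hv (by rw [hEL]; omega) hU, b1.trans hU'⟩, ?_⟩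
    rintro ⟨j, h1, h2, h3⟩
    have hj : j ≠ c' := by
      rintro rfl
      omega
    obtain ⟨⟨U1, m1, e1⟩, ⟨U2, m2, e2⟩, ⟨U3, m3, e3⟩⟩ := ih2 ⟨j, h1, by omega, h3⟩
    rw [Nat.add_sub_cancel]
    refine ⟨⟨U1 + E1 * U2 + cc (br v 2) * E2 * U3, ?_, ?_⟩, ⟨E2 * U3, ?_, ?_⟩, ⟨U2, ?_, ?_⟩⟩
    · refine add_mem (add_mem (cast_mem hS hv ?_ m1) (cast_mem hS hv ?_ (h8 _ _ m2).1))
        (cast_mem hS hv ?_ (br2_mem hS hv m3)) <;> rw [hEL] <;> omega
    · rw [b2, e1, e2, e3]; ring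
    · exact cast_mem hS hv (by rw [hEL]; omega) (h8 _ _ m3).2
    · rw [b3, e3]; ring
    · exact cast_mem hS hv (by rw [hEL]; omega) m2
    · rw [b4, e2]
  · -- case B
    have hj : ∀ j, c' < j → j < k + 1 → 2 ≤ l j := by
      intro j h1 h2
      have h3 := (hA.2 (j - 1) (by omega)).1
      rw [show j - 1 + 1 = j by omega] at h3
      have h4 := hc4 j h1 h2
      omega
    have hI' := hI v l n r hv hA hT c' (by omega) hc3 (k + 1) (by omega) hin hj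
    obtain ⟨U1, -, m1, -, e1, -⟩ := hI' (k + 1) (k + 1) (by omega) le_rfl le_rfl (by omega)
    obtain ⟨U2, U3, m2, m3, e2, e3⟩ := hI' (k + 1) k (by omega) (by omega) le_rfl (by omega)
    obtain ⟨U4, -, m4, -, e4, -⟩ := hI' k k (by omega) le_rfl (by omega) (by omega)
    obtain ⟨⟨V, hV, hV'⟩, -⟩ := ih c' (by omega) hc1 (by omega)
    refine ⟨⟨V * (U1 + E1 * U2 + cc (br v 2) * E2 * U3 + E2 * U4), ?_, ?_⟩, fun _ => ?_⟩
    · refine cast_mem hS hv ?_ (hmul _ (EL l (k + 1) + (k + 1) + EL l c' + c') _ _ hV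
        (add_mem (add_mem (add_mem (cast_mem hS hv ?_ m1) (cast_mem hS hv ?_ (h8 _ _ m2).1))
          (cast_mem hS hv ?_ (br2_mem hS hv m3))) (cast_mem hS hv ?_ (h8 _ _ m4).2))) <;> omega
    · rw [BS, Nat.add_sub_cancel, e1, e2, e3, e4, hV']; ring
    · rw [Nat.add_sub_cancel]
      refine ⟨⟨V * U1, ?_, ?_⟩, ⟨V * U2, ?_, ?_⟩, ⟨V * U3, ?_, ?_⟩⟩
      · exact cast_mem hS hv (by omega) (hmul _ _ _ _ hV m1)
      · rw [e1, hV']; ring
      · exact cast_mem hS hv (by omega) (hmul _ _ _ _ hV m2)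
      · rw [e2, hV']; ring
      · exact cast_mem hS hv (by omega) (hmul _ _ _ _ hV m3)
      · rw [e3, hV']; ring

end Pool.Agent.LV2
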