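import Pool.Agent.Lib.MP_263316_co.LV2.Spec

/-!
MP_263316_co, project LV2: task BKF (facts on `bk`, `eta`).
-/

set_option autoImplicit false

namespace Pool.Agent.LV2

open Finset Pool.Agent.SWC Pool.Agent.SWK Pool.Agent.HOOK

namespace BKFAux

lemma cc_add (x y : ℂ) : cc (x + y) = cc x + cc y := by
  simp only [cc, map_add]

lemma cc_mul (x y : ℂ) : cc (x * y) = cc x * cc y := by
  simp only [cc, map_mul]

lemma cc_sub (x y : ℂ) : cc (x - y) = cc x - cc y := by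
  simp only [cc, map_sub]

lemma cc_zero : cc 0 = 0 := by
  simp only [cc, map_zero]

lemma cc_two : cc 2 = 2 := by
  simp only [cc, map_ofNat]

lemma sub_inv_ne {v : ℂ} (hv : Gen v) : v - v⁻¹ ≠ 0 := by
  intro h
  have h0 := hv.1
  have h1 : v ^ 2 = 1 := by
    have h2 : v = v⁻¹ := sub_eq_zero.mp h
    calc v ^ 2 = v * v := sq v
      _ = v * v⁻¹ := by rw [← h2]
      _ = 1 := mul_inv_cancel₀ h0
  exact hv.2 2 (by norm_num) h1

/-- (b2) -/
lemma br_two_mul {v : ℂ} (hv : Gen v) (n : ℤ) :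
    br v 2 * br v n = br v (n + 1) + br v (n - 1) := by
  have h0 := hv.1
  have hd := sub_inv_ne hv
  have e1 : v ^ (n + 1) = v ^ n * v := by rw [zpow_add₀ h0, zpow_one]
  have e2 : v ^ (n - 1) = v ^ n * v⁻¹ := by rw [zpow_sub₀ h0, zpow_one, div_eq_mul_inv]
  have e3 : v ^ (-(n + 1)) = (v ^ n)⁻¹ * v⁻¹ := by rw [zpow_neg, e1, mul_inv]
  have e4 : v ^ (-(n - 1)) = (v ^ n)⁻¹ * v := by rw [zpow_neg, e2, mul_inv, inv_inv]
  have e5 : v ^ (2 : ℤ) = v ^ 2 := by norm_cast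
  have e6 : v ^ (-2 : ℤ) = (v ^ 2)⁻¹ := by rw [zpow_neg, e5]
  have hn : v ^ n ≠ 0 := zpow_ne_zero _ h0
  have e7 : v ^ (-n) = (v ^ n)⁻¹ := zpow_neg v n
  unfold br
  rw [e1, e2, e3, e4, e5, e6, e7]
  generalize v ^ n = a at hn ⊢
  have hd2 : v ^ 2 - 1 ≠ 0 := by
    intro h
    apply hd
    have h1 : v * (v - v⁻¹) = 0 := by
      rw [mul_sub, mul_inv_cancel₀ h0]; linear_combination h
    rcases mul_eq_zero.mp h1 with h2 | h2
    · exact absurd h2 h0
    · exact h2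
  rw [div_mul_div_comm, ← add_div, div_eq_div_iff (mul_ne_zero hd hd) hd]
  field_simp
  ring

/-- (b4) -/
lemma br_b4 {v : ℂ} (hv : Gen v) (x y : ℤ) :
    br v (x - 1) * br v y - br v (x - 2) * br v (y + 1) = br v (y - x + 2) := by
  have h0 := hv.1
  have hd := sub_inv_ne hv
  have e5 : v ^ (2 : ℤ) = v ^ 2 := by norm_cast
  have e1 : v ^ (x - 1) = v ^ x * v⁻¹ := by rw [zpow_sub₀ h0, zpow_one, div_eq_mul_inv]
  have e2 : v ^ (x - 2) = v ^ x * (v ^ 2)⁻¹ := by rw [zpow_sub₀ h0, e5, div_eq_mul_inv]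
  have e3 : v ^ (y + 1) = v ^ y * v := by rw [zpow_add₀ h0, zpow_one]
  have e4 : v ^ (y - x + 2) = v ^ y * (v ^ x)⁻¹ * v ^ 2 := by
    rw [zpow_add₀ h0, zpow_sub₀ h0, e5, div_eq_mul_inv]
  have hx : v ^ x ≠ 0 := zpow_ne_zero _ h0
  have hy : v ^ y ≠ 0 := zpow_ne_zero _ h0
  unfold br
  rw [zpow_neg v (x - 1), zpow_neg v (x - 2), zpow_neg v (y + 1), zpow_neg v (y - x + 2),
    zpow_neg v y, e1, e2, e3, e4]
  generalize v ^ x = a at hx ⊢
  generalize v ^ y = b at hy ⊢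
  rw [div_mul_div_comm, div_mul_div_comm, ← sub_div, div_eq_div_iff (mul_ne_zero hd hd) hd]
  field_simp
  ring

lemma bk_add (v : ℂ) (E E' : Polynomial ℂ) (n : ℤ) :
    bk v (E + E') n = bk v E n + bk v E' n := by
  unfold bk
  refine Polynomial.sum_add_index E E' _ (fun i => ?_) (fun i a b => ?_)
  · rw [zero_mul, cc_zero, zero_mul]
  · rw [add_mul, cc_add, add_mul]

lemma bk_mono (v : ℂ) (s : ℕ) (c : ℂ) (n : ℤ) :
    bk v (Polynomial.monomial s c) n = cc (c * br v (n - s)) * E1 ^ s := by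
  unfold bk
  rw [Polynomial.sum_monomial_index]
  rw [zero_mul, cc_zero, zero_mul]

lemma bk_smul (v : ℂ) (z : ℂ) (E : Polynomial ℂ) (n : ℤ) :
    bk v (Polynomial.C z * E) n = cc z * bk v E n := by
  induction E using Polynomial.induction_on' with
  | add p q hp hq => rw [mul_add, bk_add, bk_add, hp, hq, mul_add]
  | monomial s c =>
    rw [Polynomial.C_mul_monomial, bk_mono, bk_mono, cc_mul, cc_mul, cc_mul]
    ring

lemma bk_one_add (v : ℂ) (E : Polynomial ℂ) (n : ℤ) :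
    bk v ((1 + Polynomial.X) * E) n = bk v E n + E1 * bk v E (n - 1) := by
  induction E using Polynomial.induction_on' with
  | add p q hp hq => rw [mul_add, bk_add, bk_add, bk_add, hp, hq]; ring
  | monomial s c =>
    rw [add_mul, one_mul, Polynomial.X_mul_monomial, bk_add, bk_mono, bk_mono, bk_mono]
    have h : n - ((s + 1 : ℕ) : ℤ) = n - 1 - (s : ℤ) := by push_cast; ring
    rw [h, pow_succ]
    ring

lemma bk_C (v : ℂ) (z : ℂ) (n : ℤ) : bk v (Polynomial.C z) n = cc (z * br v n) := by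
  have h := bk_mono v 0 z n
  rw [Polynomial.monomial_zero_left] at h
  rw [h, pow_zero, mul_one, Nat.cast_zero, sub_zero]

lemma bk_zero (v : ℂ) (n : ℤ) : bk v 0 n = 0 := by
  have h := bk_C v 0 n
  rw [map_zero, zero_mul, cc_zero] at h
  exact h

lemma bk_b4 {v : ℂ} (hv : Gen v) (E : Polynomial ℂ) (x n : ℤ) :
    cc (br v (x - 1)) * bk v E n - cc (br v (x - 2)) * bk v E (n + 1) =
      bk v E (n - x + 2) := by
  induction E using Polynomial.induction_on' with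
  | add p q hp hq => rw [bk_add, bk_add, bk_add, ← hp, ← hq]; ring
  | monomial s c =>
    rw [bk_mono, bk_mono, bk_mono]
    have h1 : n + 1 - (s : ℤ) = n - s + 1 := by ring
    have h2 : n - x + 2 - (s : ℤ) = n - s - x + 2 := by ring
    rw [h1, h2, ← br_b4 hv x (n - s)]
    rw [cc_mul, cc_mul, cc_mul, cc_sub, cc_mul, cc_mul]
    ring

lemma bk_b2 {v : ℂ} (hv : Gen v) (E : Polynomial ℂ) (n : ℤ) :
    bk v E (n + 1) + bk v E (n - 1) = cc (br v 2) * bk v E n := by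
  induction E using Polynomial.induction_on' with
  | add p q hp hq => rw [bk_add, bk_add, bk_add, mul_add, ← hp, ← hq]; ring
  | monomial s c =>
    rw [bk_mono, bk_mono, bk_mono]
    have h1 : n + 1 - (s : ℤ) = n - s + 1 := by ring
    have h2 : n - 1 - (s : ℤ) = n - s - 1 := by ring
    have h3 := congrArg cc (br_two_mul hv (n - s))
    rw [cc_mul, cc_add] at h3
    rw [h1, h2, cc_mul, cc_mul, cc_mul]
    linear_combination (-(cc c * E1 ^ s)) * h3

lemma br_two {v : ℂ} (hv : Gen v) : br v 2 * br v 2 = (v ^ 2 + v ^ (-2 : ℤ)) + 2 := by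
  have h0 := hv.1
  have hd := sub_inv_ne hv
  have e5 : v ^ (2 : ℤ) = v ^ 2 := by norm_cast
  have e6 : v ^ (-2 : ℤ) = (v ^ 2)⁻¹ := by rw [zpow_neg, e5]
  have h1 : br v 2 = v + v⁻¹ := by
    unfold br
    rw [e5, e6, div_eq_iff hd, ← inv_pow]
    ring
  rw [h1, e6]
  field_simp
  ring

lemma bk_F4 {v : ℂ} (hv : Gen v) (E : Polynomial ℂ) (n : ℤ) :
    F4 v * bk v E (n - 1) = eta v ((1 + Polynomial.X) * E) (n + 2) + E2 * eta v E n := by
  have a1 := bk_b2 hv E (n - 1)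
  have a2 := bk_b2 hv E n
  have a3 := bk_b2 hv E (n - 2)
  have a4 := congrArg cc (br_two hv)
  rw [cc_mul, cc_add, cc_two] at a4
  have i1 : n - 1 + 1 = n := by ring
  have i2 : n - 1 - 1 = n - 2 := by ring
  have i3 : n - 2 + 1 = n - 1 := by ring
  have i4 : n - 2 - 1 = n - 3 := by ring
  have i5 : n + 2 - 3 = n - 1 := by ring
  have i6 : n + 2 - 2 = n := by ring
  have i7 : n + 2 - 1 = n + 1 := by ring
  have i8 : n + 1 - 1 = n := by ring
  rw [i1, i2] at a1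
  rw [i3, i4] at a3
  unfold eta
  rw [i5, i6, i7, bk_one_add, bk_one_add, bk_one_add, i2, i8]
  unfold F4
  linear_combination (-(E1 + cc (br v 2) * E2 + E1 * E2)) * a1 - E2 * a2 - E2 * a3 -
    (E2 * bk v E (n - 1)) * a4

end BKFAux

open BKFAux in
theorem tBKF : S_SCM → S_BKF := by
  intro hSCM v hv
  obtain ⟨s1, s2, s3, s4, s5, s6, s7, s8, s9⟩ := hSCM v hv
  refine ⟨bk_add v, bk_smul v, bk_one_add v, fun z n => ⟨bk_C v z n, bk_zero v n⟩,
    bk_b4 hv, bk_b2 hv, bk_F4 hv, ?_⟩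
  intro E n d hE hs
  have hpow : ∀ s : ℕ, E1 ^ s ∈ CQ v s := by
    intro s
    induction s with
    | zero => rw [pow_zero]; exact s5
    | succ s ih => rw [pow_succ]; exact s3 s 1 _ _ ih s6
  unfold bk
  rw [Polynomial.sum_def]
  refine AddSubmonoid.sum_mem _ (fun s hsm => ?_)
  have hsn : s ≤ n := hs s (Polynomial.mem_support_iff.mp hsm)
  have h1 : (n : ℤ) - (s : ℤ) = ((n - s : ℕ) : ℤ) := by omega
  have h2 : d + n + 1 = (d + (n - s + 1)) + s := by omega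
  rw [h1, h2]
  exact s3 _ _ _ _ (s8 _ _ (s1 _ _ _ _ (hE s) (s4 (n - s)).1)) (hpow s)

end Pool.Agent.LV2
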