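import Pool.Agent.Lib.MP_263316_co.LV2.Spec

/-!
MP_263316_co, project LV2: the theorem `tBLK` (helper43).
-/

set_option autoImplicit false

namespace Pool.Agent.LV2

open Finset Pool.Agent.SWC Pool.Agent.SWK Pool.Agent.HOOK

namespace BLKAux

theorem den_ne {v : ℂ} (hv : Gen v) : v - v⁻¹ ≠ 0 := by
  intro h
  have h0 : v ≠ 0 := hv.1
  have h2 := hv.2 2 (by norm_num)
  apply h2
  have h3 : v = v⁻¹ := sub_eq_zero.mp h
  calc v ^ 2 = v * v := by ring
    _ = v * v⁻¹ := by rw [← h3]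
    _ = 1 := mul_inv_cancel₀ h0

theorem br_one {v : ℂ} (hv : Gen v) : br v 1 = 1 := by
  have h := den_ne hv
  unfold br
  rw [zpow_one, zpow_neg, zpow_one, div_self h]

theorem br_zero (v : ℂ) : br v 0 = 0 := by
  unfold br
  simp

theorem br_neg_one {v : ℂ} (hv : Gen v) : br v (-1) = -1 := by
  have h := den_ne hv
  unfold br
  rw [zpow_neg, zpow_one, neg_neg, zpow_one, ← neg_sub, neg_div, div_self h]

theorem cc_one : cc 1 = 1 := by
  unfold cc
  simp

theorem cc_zero : cc 0 = 0 := by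
  unfold cc
  simp

theorem cc_neg_one : cc (-1) = -1 := by
  unfold cc
  simp

theorem kn_diag (v : ℂ) (l : ℕ → ℕ) (i : ℕ) : kn v l (i + 1) (i + 1) (i + 1) = 0 := by
  unfold kn KF K
  simp

end BLKAux

open BLKAux in
theorem tBLK : S_SYS → S_ID → S_BLK := by
  intro hS hI v l n r hv had ht c hc hcn hl
  obtain ⟨d, rfl⟩ : ∃ d, c = d + 1 := ⟨c - 1, by omega⟩
  have hd1 : d + 1 - 1 = d := rfl
  have hd2 : d + 1 + 1 - 1 = d + 1 := rfl
  have hd3 : d + 1 + 1 - 2 = d := rfl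
  obtain ⟨A1, A2, A3, A4, -, -, -, -, -⟩ := hS v l n r hv had ht (d + 1) hc hcn
  have hid := hI v l hv d
  rw [hl] at A1 A2 A3
  have e1 : ((1 : ℕ) : ℤ) - 2 = -1 := by norm_num
  have e2 : ((1 : ℕ) : ℤ) - 1 = 0 := by norm_num
  have e3 : ((1 : ℕ) : ℤ) = 1 := by norm_num
  rw [e1] at A1
  rw [e2] at A2
  rw [e3] at A3
  simp only [br_neg_one hv, br_zero, br_one hv, cc_neg_one, cc_zero, cc_one, hd1, one_mul,
    zero_mul, zero_add] at A1 A2 A3
  -- values at level c + 1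
  have D1 : Dom l r (d + 1 + 1) (d + 1) := by
    refine ⟨by omega, by omega, ?_⟩
    rw [hd2, hl]
    omega
  have D2 : Dom l r (d + 1 + 1) d := by
    refine ⟨by omega, by omega, ?_⟩
    rw [hd2, hl]
    omega
  have D3 : Dom l r (d + 1) (d + 1) := ⟨by omega, by omega, by omega⟩
  have D4 : Dom l r (d + 1) d := ⟨by omega, by omega, by omega⟩
  have D5 : Dom l r d d := ⟨by omega, by omega, by omega⟩
  obtain ⟨B1, B2⟩ := A2 (d + 1) D1 (by omega)
  obtain ⟨B3, B4⟩ := A2 d D2 (by omega)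
  obtain ⟨B5, B6⟩ := A1 (d + 1) (d + 1) D3 (by omega)
  obtain ⟨B7, B8⟩ := A1 (d + 1) d D4 (by omega)
  obtain ⟨B9, B10⟩ := A1 d d D5 (by omega)
  have B11 := A4 d
  rw [B11, mul_zero] at B3
  refine ⟨⟨?_, ?_, ?_, ?_⟩, ?_, ?_⟩
  · unfold BS
    rw [hd1, hd2, A3, B1, B2, B5, hid]
    ring
  · rw [hd1]; exact A3
  · rw [hd1]; exact B1
  · rw [hd1]; exact B2
  · intro hn hl1
    obtain ⟨-, -, C3, -, -, -, -, -, -⟩ := hS v l n r hv had ht (d + 1 + 1) (by omega) hn
    rw [hl1, e3] at C3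
    simp only [br_one hv, cc_one, hd2, one_mul] at C3
    unfold BS
    rw [hd1, show d + 1 + 2 = d + 1 + 1 + 1 from rfl, C3, A3, B1, B2, hid]
    ring
  · intro hn hl2
    obtain ⟨C1, C2, C3, C4, -, -, -, -, -⟩ := hS v l n r hv had ht (d + 1 + 1) (by omega) hn
    rw [hl2] at C1 C2 C3
    have e4 : ((2 : ℕ) : ℤ) - 2 = 0 := by norm_num
    have e5 : ((2 : ℕ) : ℤ) - 1 = 1 := by norm_num
    have e6 : ((2 : ℕ) : ℤ) = 2 := by norm_num
    rw [e4] at C1
    rw [e5] at C2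
    rw [e6] at C3
    simp only [br_zero, br_one hv, cc_zero, cc_one, hd3, one_mul, zero_mul] at C1 C2 C3
    have F1 : Dom l r (d + 1 + 1 + 1) (d + 1 + 1) := by
      refine ⟨by omega, by omega, ?_⟩
      rw [show d + 1 + 1 + 1 - 1 = d + 1 + 1 from rfl, hl2]
      omega
    have F2 : Dom l r (d + 1 + 1 + 1) (d + 1) := by
      refine ⟨by omega, by omega, ?_⟩
      rw [show d + 1 + 1 + 1 - 1 = d + 1 + 1 from rfl, hl2]
      omega
    have F3 : Dom l r (d + 1 + 1 + 1) d := by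
      refine ⟨by omega, by omega, ?_⟩
      rw [show d + 1 + 1 + 1 - 1 = d + 1 + 1 from rfl, hl2]
      omega
    obtain ⟨G1, G2⟩ := C2 (d + 1 + 1) F1 (by omega)
    obtain ⟨G3, G4⟩ := C2 (d + 1) F2 (by omega)
    obtain ⟨G5, G6⟩ := C2 d F3 (by omega)
    have G7 := C4 (d + 1 + 1)
    have G8 := C4 d
    refine ⟨?_, ?_, ?_, kn_diag v l (d + 1 + 1), ?_⟩
    · unfold BS
      rw [hd1, show d + 1 + 2 = d + 1 + 1 + 1 from rfl, C3, A3, B3, B4]
      ring
    · unfold BS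
      rw [hd1, show d + 1 + 2 = d + 1 + 1 + 1 from rfl, G1, A3, B4]
    · rw [show d + 1 + 2 = d + 1 + 1 + 1 from rfl, G2, G7, B3, add_zero]
    · intro a b h1 h2 h3 h4
      rw [hd1] at h1
      rcases Nat.lt_or_ge (d + 1 + 1) a with h5 | h5
      · have ha : a = d + 1 + 1 + 1 := by omega
        subst ha
        have hb : b = d ∨ b = d + 1 := by omega
        rcases hb with rfl | rfl
        · refine ⟨?_, ?_⟩
          · rw [show b + 1 + 2 = b + 1 + 1 + 1 from rfl, G5, B3, G8, mul_zero, add_zero]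
          · rw [show b + 1 + 2 = b + 1 + 1 + 1 from rfl, G6, B4, B9]
            ring
        · refine ⟨?_, ?_⟩
          · rw [show d + 1 + 2 = d + 1 + 1 + 1 from rfl, G3, B1, B8]
            ring
          · rw [show d + 1 + 2 = d + 1 + 1 + 1 from rfl, G4, B2, B7]
            ring
      · apply C1 a b _ h5
        refine ⟨by omega, h2, ?_⟩
        rcases Nat.lt_or_ge (a - 1) (d + 1) with h6 | h6
        · omega
        · have h7 : a - 1 = d + 1 := by omega
          rw [h7, hl]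
          omega

end Pool.Agent.LV2
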