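import Pool.Agent.Lib.MP_263316_co.LV2.Spec

/-!
MP_263316_co, project LV2 (owner helper30), module BLOCK (helper75): the decomposition of the first
block, by induction on the number of vertices.
-/

set_option autoImplicit false

namespace Pool.Agent.LV2

open Finset Pool.Agent.SWC Pool.Agent.SWK Pool.Agent.HOOK

namespace BLOCKAux

theorem br_one {v : ℂ} (hv : Gen v) : br v 1 = 1 := by
  have h0 : v ≠ 0 := hv.1
  have h2 : v ^ 2 ≠ 1 := hv.2 2 (by norm_num)
  have hd : v - v⁻¹ ≠ 0 := by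
    intro h
    apply h2
    have h3 : v = v⁻¹ := sub_eq_zero.1 h
    calc v ^ 2 = v * v := by ring
      _ = v * v⁻¹ := by rw [← h3]
      _ = 1 := mul_inv_cancel₀ h0
  unfold br
  rw [zpow_one, zpow_neg, zpow_one]
  exact div_self hd

theorem eta_zero (hB : S_BKF) {v : ℂ} (hv : Gen v) (n : ℤ) : eta v 0 n = 0 := by
  obtain ⟨_, _, _, h4, _⟩ := hB v hv
  unfold eta
  rw [(h4 0 _).2, (h4 0 _).2, (h4 0 _).2]
  ring

theorem cc_one : cc 1 = 1 := by
  unfold cc
  rw [map_one, map_one]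

/-- the base of the induction -/
theorem base (hS : S_SCM) (hB : S_BKF) (h1 : S_INI1) (h2 : S_INI2) (v : ℂ) (l : ℕ → ℕ) (n r : ℕ)
    (hv : Gen v) (hA : Adm l n) (hT : Tri l r) (hr : r ≤ 1) :
    ∃ (D : ℕ → Polynomial ℂ) (μ : ℂ) (P Q : ℕ → ℕ → QQ), DP v l r (r + 3) D μ ∧
    (∀ a b, Dom l r a b → a ≤ r + 3 → P a b ∈ CQ v (EL l (r + 3) + (r + 3) + a + b + 1) ∧
      Q a b ∈ CQ v (EL l (r + 3) + (r + 3) + a + b + 1)) ∧
    (∀ a b, Dom l r a b → a ≤ r + 3 →
      kp v l (r + 3) a b = F4 v * P a b + hp v (ED v r D μ a) (ED v r D μ b) (rh r μ) a b ∧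
      kn v l (r + 3) a b =
        F4 v * Q a b + hn v (ED v r D μ a) (ED v r D μ b) (rh r μ) a b) := by
  obtain ⟨_, hpar, _, hbr, _⟩ := hS v hv
  obtain ⟨_, _, _, h4, _⟩ := hB v hv
  have hl0 : l 0 = 0 := hA.1
  have hl1 : l 1 = 1 := hT.1 1 le_rfl (by omega)
  have hmu : (1 : ℂ) ∈ SC v 2 := by
    have := (hbr 1).1
    rwa [Nat.cast_one, br_one hv] at this
  have hyy : ∀ (s a b : ℤ), YY v s 0 0 a b = 0 := by
    intro s a b
    unfold YY
    rw [(h4 0 _).2, (h4 0 _).2]
    ring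
  refine ⟨fun _ => 0, 1, fun _ _ => 0, fun _ _ => 0, ⟨?_, ?_, ?_, ?_⟩, ?_, ?_⟩
  · intro a s h
    exact absurd (by simp) h
  · intro a _ s
    simp only [Polynomial.coeff_zero]
    exact zero_mem _
  · have hr' : r = 0 ∨ r = 1 := by omega
    rcases hr' with rfl | rfl
    · have hl2 : l 2 = 2 := hT.2
      have he : EL l (0 + 3) + (0 + 3) = 6 := by
        simp [EL, Finset.sum_range_succ, hl0, hl1, hl2]
      rw [he, (hpar 6 2 (by norm_num)).1]
      exact hmu
    · have hl2 : l 2 = 1 := hT.1 2 (by norm_num) (by norm_num)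
      have hl3 : l 3 = 2 := hT.2
      have he : EL l (1 + 3) + (1 + 3) = 8 := by
        simp [EL, Finset.sum_range_succ, hl0, hl1, hl2, hl3]
      rw [he, (hpar 8 2 (by norm_num)).1]
      exact hmu
  · intro a b s _ _ _ _
    rw [hyy]
    exact zero_mem _
  · intro a b _ _
    exact ⟨zero_mem _, zero_mem _⟩
  · intro a b hD ha
    have hr' : r = 0 ∨ r = 1 := by omega
    rcases hr' with rfl | rfl
    · have hl2 : l 2 = 2 := hT.2
      obtain ⟨hk, hk2⟩ := (h1 v l hv hl0 hl1 hl2).1 a b hD.2.1 ha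
      have e1 : ∀ x : ℕ, ED v 0 (fun _ => (0 : Polynomial ℂ)) 1 x = 0 := fun x => by
        simp [ED]
      have e2 : rh 0 1 = 1 := by simp [rh]
      rw [e1, e1, e2, mul_zero, zero_add]
      refine ⟨?_, ?_⟩
      · show kp v l 3 a b = _
        rw [hk]
        unfold hp
        rw [mul_zero, eta_zero hB hv, eta_zero hB hv, cc_one]
        ring
      · show kn v l 3 a b = _
        rw [hk2]
        unfold hn
        rw [eta_zero hB hv, eta_zero hB hv, one_mul]
        ring
    · have hl2 : l 2 = 1 := hT.1 2 (by norm_num) (by norm_num)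
      have hl3 : l 3 = 2 := hT.2
      obtain ⟨hk, hk2⟩ := h2 v l hv hl0 hl1 hl2 hl3 a b hD.1 hD.2.1 ha
      have e2 : rh 1 1 = -1 := by simp [rh]
      rw [e2, mul_zero, zero_add, zero_add]
      exact ⟨hk, hk2⟩

end BLOCKAux

open BLOCKAux in
theorem tBLOCK : S_SCM → S_SYS → S_BKF → S_INI1 → S_INI2 → S_STEPK → S_DPOS → S_EREC →
    S_BLOCK := by
  intro hS hY hB hI1 hI2 hK hP hE v l n r hv hA hT hr i hi
  induction i, hi using Nat.le_induction with
  | base =>
    intro _ _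
    exact base hS hB hI1 hI2 v l n r hv hA hT hr
  | succ i hi ih =>
    intro hin hl
    obtain ⟨D, μ, P, Q, hDP, hpos, hform⟩ := ih (by omega) (fun j h1 h2 => hl j h1 (by omega))
    have hli : 2 ≤ l i := hl i (by omega) (by omega)
    have hlt : i < n := by omega
    obtain ⟨_, _, _, _, hDom, hDii, hDip, hpi, hle⟩ := hY v l n r hv hA hT i hi hlt
    obtain ⟨hyp, hrec⟩ := hE v l n r hv hA hT hr i hi (by omega) D μ hDP
    obtain ⟨_, hpar, _, hbr, _, _, _, _, hmul, hE12⟩ := hS v hv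
    have hc1 : ((l i : ℤ) - 1) = ((l i - 1 : ℕ) : ℤ) := by omega
    have hc2 : ((l i : ℤ) - 2) = ((l i - 2 : ℕ) : ℤ) := by omega
    have hci : ((i - l i : ℕ) : ℤ) = (i : ℤ) - l i := by omega
    have hEL : EL l (i + 1) = EL l i + l i := by
      unfold EL
      rw [Finset.sum_range_succ]
    have hCQ : ∀ {d d' : ℕ} {x : QQ}, x ∈ CQ v d → d % 2 = d' % 2 → x ∈ CQ v d' := by
      intro d d' x hx h
      rw [← (hpar d d' h).2.1]
      exact hx
    -- the new data
    obtain ⟨D', hD1, hD2, hD3⟩ : ∃ D' : ℕ → Polynomial ℂ,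
        (∀ a, a ≤ i → D' a = Polynomial.C (br v ((l i : ℤ) - 2)) * D a) ∧
        (D' (i + 1) = Polynomial.C (br v ((l i : ℤ) - 1)) * D i +
          (1 + Polynomial.X) * D (i - l i) +
            Polynomial.C (br v ((i - l i - 2 * r : ℕ) : ℤ) * μ)) ∧
        (∀ a, i + 1 < a → D' a = 0) := by
      refine ⟨fun a => if a ≤ i then Polynomial.C (br v ((l i : ℤ) - 2)) * D a else
        if a = i + 1 then Polynomial.C (br v ((l i : ℤ) - 1)) * D i +
          (1 + Polynomial.X) * D (i - l i) +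
            Polynomial.C (br v ((i - l i - 2 * r : ℕ) : ℤ) * μ) else 0, ?_, ?_, ?_⟩
      · intro a ha
        exact if_pos ha
      · show (if i + 1 ≤ i then _ else _) = _
        rw [if_neg (by omega), if_pos rfl]
      · intro a ha
        show (if a ≤ i then _ else _) = _
        rw [if_neg (by omega), if_neg (by omega)]
    obtain ⟨hr1, hr2, hr3⟩ := hrec hlt D' (br v ((l i : ℤ) - 2) * μ) hD1 hD2 rfl
    have hYY : ∀ b, Dom l r b (i - l i) → b ≤ i →
        YY v 1 (ED v r D μ b) (ED v r D μ (i - l i)) b ((i : ℤ) - l i) ∈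
          CQ v (EL l i + i + b + (i - l i) + 1) := by
      intro b hb hbi
      have := hyp b (i - l i) hb hbi
      rwa [hci] at this
    obtain ⟨P', hP1, hP2, hP3⟩ : ∃ P' : ℕ → ℕ → QQ,
        (∀ a b, a ≤ i → P' a b = cc (br v ((l i : ℤ) - 2)) * P a b) ∧
        (∀ b, b ≤ i → P' (i + 1) b = cc (br v ((l i : ℤ) - 1)) * P i b + E2 * Q b (i - l i) +
          YY v 1 (ED v r D μ b) (ED v r D μ (i - l i)) b ((i : ℤ) - l i)) ∧
        P' (i + 1) (i + 1) = cc (br v (l i : ℤ)) * P i i + E1 * P i (i - l i) +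
          cc (br v 2) * E2 * Q i (i - l i) +
          cc (br v 2) * YY v 1 (ED v r D μ i) (ED v r D μ (i - l i)) i ((i : ℤ) - l i) := by
      refine ⟨fun a b => if a ≤ i then cc (br v ((l i : ℤ) - 2)) * P a b else
        if b ≤ i then cc (br v ((l i : ℤ) - 1)) * P i b + E2 * Q b (i - l i) +
          YY v 1 (ED v r D μ b) (ED v r D μ (i - l i)) b ((i : ℤ) - l i) else
          cc (br v (l i : ℤ)) * P i i + E1 * P i (i - l i) +
          cc (br v 2) * E2 * Q i (i - l i) +
          cc (br v 2) * YY v 1 (ED v r D μ i) (ED v r D μ (i - l i)) i ((i : ℤ) - l i),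
        ?_, ?_, ?_⟩
      · intro a b ha
        exact if_pos ha
      · intro b hb
        show (if i + 1 ≤ i then _ else _) = _
        rw [if_neg (by omega), if_pos hb]
      · show (if i + 1 ≤ i then _ else _) = _
        rw [if_neg (by omega), if_neg (by omega)]
    obtain ⟨Q', hQ1, hQ2, hQ3⟩ : ∃ Q' : ℕ → ℕ → QQ,
        (∀ a b, a ≤ i → Q' a b = cc (br v ((l i : ℤ) - 2)) * Q a b) ∧
        (∀ b, b ≤ i → Q' (i + 1) b = cc (br v ((l i : ℤ) - 1)) * Q i b + P b (i - l i)) ∧
        Q' (i + 1) (i + 1) = 0 := by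
      refine ⟨fun a b => if a ≤ i then cc (br v ((l i : ℤ) - 2)) * Q a b else
        if b ≤ i then cc (br v ((l i : ℤ) - 1)) * Q i b + P b (i - l i) else 0, ?_, ?_, ?_⟩
      · intro a b ha
        exact if_pos ha
      · intro b hb
        show (if i + 1 ≤ i then _ else _) = _
        rw [if_neg (by omega), if_pos hb]
      · show (if i + 1 ≤ i then _ else _) = _
        rw [if_neg (by omega), if_neg (by omega)]
    have hstep := hK v l n r hv hA hT i hi hlt (ED v r D μ)
      (ED v r D' (br v ((l i : ℤ) - 2) * μ)) (rh r μ) (rh r (br v ((l i : ℤ) - 2) * μ))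
      P Q P' Q' hform hr1 hr2 hr3 (fun a b ha => ⟨hP1 a b ha, hQ1 a b ha⟩)
      (fun b hb => ⟨hP2 b hb, hQ2 b hb⟩) hP3 hQ3
    refine ⟨D', br v ((l i : ℤ) - 2) * μ, P', Q',
      hP v l n r hv hA hT hr i hi hlt hli D D' μ _ hDP hD1 hD2 hD3 rfl, ?_, hstep⟩
    intro a b hab ha
    rw [hEL]
    rcases Nat.lt_or_ge i a with h | h
    · have hai : a = i + 1 := by omega
      subst hai
      rcases Nat.lt_or_ge i b with h' | h'
      · have hbi : b = i + 1 := by have := hab.2.1; omega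
        subst hbi
        rw [hP3, hQ3]
        refine ⟨?_, zero_mem _⟩
        have m1 := hmul _ (l i) _ (hpos i i hDii le_rfl).1
        have m2 := (hE12 _ _ (hpos i (i - l i) hDip le_rfl).1).1
        have m3 := hmul _ 2 _ (hE12 _ _ (hpos i (i - l i) hDip le_rfl).2).2
        have m4 := hmul _ 2 _ (hYY i hDip le_rfl)
        have e3 : ((2 : ℕ) : ℤ) = 2 := rfl
        rw [e3] at m3 m4
        rw [mul_assoc (cc (br v 2)) E2]
        exact add_mem (add_mem (add_mem (hCQ m1 (by omega)) (hCQ m2 (by omega)))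
          (hCQ m3 (by omega))) (hCQ m4 (by omega))
      · obtain ⟨d1, d2⟩ := hDom b hab h'
        rw [hP2 b h', hQ2 b h', hc1]
        have m1 := hmul _ (l i - 1) _ (hpos i b d1 le_rfl).1
        have m2 := (hE12 _ _ (hpos b (i - l i) d2 h').2).2
        have m3 := hYY b d2 h'
        have m4 := hmul _ (l i - 1) _ (hpos i b d1 le_rfl).2
        have m5 := (hpos b (i - l i) d2 h').1
        exact ⟨add_mem (add_mem (hCQ m1 (by omega)) (hCQ m2 (by omega))) (hCQ m3 (by omega)),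
          add_mem (hCQ m4 (by omega)) (hCQ m5 (by omega))⟩
    · rw [hP1 a b h, hQ1 a b h, hc2]
      have m1 := hmul _ (l i - 2) _ (hpos a b hab h).1
      have m2 := hmul _ (l i - 2) _ (hpos a b hab h).2
      exact ⟨hCQ m1 (by omega), hCQ m2 (by omega)⟩

end Pool.Agent.LV2
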