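import Pool.Agent.Lib.MP_263316_co.LV2.Spec

/-! MP_263316_co, project LV2: partitions with at most one part larger than two. -/

set_option autoImplicit false

namespace Pool.Agent.LV2

open Finset Pool.Agent.SWC Pool.Agent.SWK Pool.Agent.HOOK

private theorem CLS_two (t : Multiset ℕ) (h : ∀ x ∈ t, x = 1 ∨ x = 2) :
    t = Multiset.replicate (t.count 2) 2 + Multiset.replicate (t.count 1) 1 := by
  ext a
  rw [Multiset.count_add, Multiset.count_replicate, Multiset.count_replicate]
  by_cases h2 : a = 2
  · subst h2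
    simp
  · by_cases h1 : a = 1
    · subst h1
      simp
    · rw [if_neg (Ne.symm h2), if_neg (Ne.symm h1)]
      refine Multiset.count_eq_zero.2 fun hm => ?_
      rcases h a hm with h | h
      · exact h1 h
      · exact h2 h

private theorem CLS_sum (b c : ℕ) :
    (Multiset.replicate b 2 + Multiset.replicate c 1).sum = 2 * b + c := by
  rw [Multiset.sum_add, Multiset.sum_replicate, Multiset.sum_replicate, smul_eq_mul, smul_eq_mul]
  omega

theorem tCLS : S_CLS := by
  intro n μ hμ
  unfold big3 at hμ
  have hs := Multiset.filter_add_not (fun p => 3 ≤ p) μ.parts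
  have ht := CLS_two (μ.parts.filter (fun p => ¬ 3 ≤ p)) (fun x hx => by
    have h1 := Multiset.mem_filter.1 hx
    have h2 := μ.parts_pos h1.1
    omega)
  have hsum := μ.parts_sum
  rcases Nat.lt_or_ge (Multiset.card (μ.parts.filter (fun p => 3 ≤ p))) 1 with h0 | h1
  · have h0' : μ.parts.filter (fun p => 3 ≤ p) = 0 := Multiset.card_eq_zero.1 (by omega)
    rw [h0', zero_add] at hs
    rw [← hs, ht, CLS_sum] at hsum
    left
    refine ⟨(μ.parts.filter (fun p => ¬ 3 ≤ p)).count 2, by omega, ?_⟩
    apply Nat.Partition.ext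
    show μ.parts = Multiset.replicate _ 2 + Multiset.replicate _ 1
    have e : n - 2 * (μ.parts.filter (fun p => ¬ 3 ≤ p)).count 2 =
        (μ.parts.filter (fun p => ¬ 3 ≤ p)).count 1 := by omega
    rw [e, ← ht, hs]
  · obtain ⟨m, hm⟩ := Multiset.card_eq_one.1 (le_antisymm hμ h1)
    have hm3 : 3 ≤ m := by
      have : m ∈ μ.parts.filter (fun p => 3 ≤ p) := by rw [hm]; exact Multiset.mem_singleton_self m
      exact (Multiset.mem_filter.1 this).2
    rw [hm] at hs
    have hsum' : m + (2 * (μ.parts.filter (fun p => ¬ 3 ≤ p)).count 2 +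
        (μ.parts.filter (fun p => ¬ 3 ≤ p)).count 1) = n := by
      refine Eq.trans ?_ hsum
      rw [← CLS_sum, ← ht]
      conv_rhs => rw [← hs]
      rw [Multiset.sum_add, Multiset.sum_singleton]
    right
    refine ⟨m, (μ.parts.filter (fun p => ¬ 3 ≤ p)).count 2, hm3, by omega, by omega, ?_⟩
    apply Nat.Partition.ext
    show μ.parts = m ::ₘ (Multiset.replicate _ 2 + Multiset.replicate _ 1)
    have e : n - m - 2 * (μ.parts.filter (fun p => ¬ 3 ≤ p)).count 2 =
        (μ.parts.filter (fun p => ¬ 3 ≤ p)).count 1 := by omega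
    rw [e, ← ht, ← Multiset.singleton_add, hs]

end Pool.Agent.LV2
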