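import Pool.Agent.Lib.MP_263316_co.LV2.Spec

/-!
MP_263316_co, project LV2: TASK COMB. Recurrences for the last vertex of the sums `G0, G1, G2,
G12, G21`, from `S_PSS` (comparison of the summands).
-/

set_option autoImplicit false

namespace Pool.Agent.LV2

open Finset Pool.Agent.SWC Pool.Agent.SWK Pool.Agent.HOOK

namespace COMBAux

section
variable {R : Type} [CommRing R] {m : ℕ → ℕ} {q ω y1 y2 : R} {D : Finset ℕ}

theorem PS_congr {c c' : Finset ℕ → Finset ℕ → R}
    (h : ∀ T, T ⊆ D → ind m T → ∀ T', T' ⊆ D \ T → ind m T' → c T T' = c' T T') :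
    PS m q ω y1 y2 D c = PS m q ω y1 y2 D c' := by
  unfold PS
  refine Finset.sum_congr rfl fun T hT => Finset.sum_congr rfl fun T' hT' => ?_
  rw [Finset.mem_filter, Finset.mem_powerset] at hT hT'
  rw [h T hT.1 hT.2 T' hT'.1 hT'.2]

theorem PS_add (c c' : Finset ℕ → Finset ℕ → R) :
    PS m q ω y1 y2 D c + PS m q ω y1 y2 D c' =
      PS m q ω y1 y2 D (fun T T' => c T T' + c' T T') := by
  unfold PS
  rw [← Finset.sum_add_distrib]
  refine Finset.sum_congr rfl fun T _ => ?_
  rw [← Finset.sum_add_distrib]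
  exact Finset.sum_congr rfl fun T' _ => (mul_add _ _ _).symm

theorem PS_mul (r : R) (c : Finset ℕ → Finset ℕ → R) :
    r * PS m q ω y1 y2 D c = PS m q ω y1 y2 D (fun T T' => r * c T T') := by
  unfold PS
  rw [Finset.mul_sum]
  refine Finset.sum_congr rfl fun T _ => ?_
  rw [Finset.mul_sum]
  exact Finset.sum_congr rfl fun T' _ => mul_left_comm _ _ _

theorem cu_left {y : R} {L T : Finset ℕ} {t : ℕ} (ht : t ∉ T) :
    cu y (insert t L) T = cu y L T := by
  unfold cu
  by_cases h : Disjoint T L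
  · rw [if_pos h, if_pos (Finset.disjoint_insert_right.mpr ⟨ht, h⟩)]
  · rw [if_neg h, if_neg (fun h' => h (Finset.disjoint_insert_right.mp h').2)]

theorem cb_left {y : R} {L T : Finset ℕ} {t : ℕ} (ht : t ∉ T) :
    cb y (insert t L) T = cb y L T := by
  unfold cb
  by_cases h : Disjoint T L
  · rw [if_pos h, if_pos (Finset.disjoint_insert_right.mpr ⟨ht, h⟩)]
  · rw [if_neg h, if_neg (fun h' => h (Finset.disjoint_insert_right.mp h').2)]

theorem cu_both (y : R) (L T : Finset ℕ) (t : ℕ) : cu y (insert t L) (insert t T) = -1 :=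
  if_neg fun h => Finset.disjoint_left.mp h (Finset.mem_insert_self t T)
    (Finset.mem_insert_self t L)

theorem cb_both (y : R) (L T : Finset ℕ) (t : ℕ) : cb y (insert t L) (insert t T) = y :=
  if_neg fun h => Finset.disjoint_left.mp h (Finset.mem_insert_self t T)
    (Finset.mem_insert_self t L)

theorem dich (t : ℕ) {T : Finset ℕ} (hT : T ⊆ D) (hi : ind m T) :
    (aL m T t = 0 ∧ Disjoint T (NL m D t)) ∨ (aL m T t = 1 ∧ ¬ Disjoint T (NL m D t)) := by
  by_cases h : Disjoint T (NL m D t)
  · exact Or.inl ⟨(aL_disj hT).mp h, h⟩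
  · refine Or.inr ⟨?_, h⟩
    have h1 := aL_ind_le (t := t) hi
    have h2 : aL m T t ≠ 0 := fun h' => h ((aL_disj hT).mpr h')
    omega

theorem cu_pos (y : R) {L T : Finset ℕ} (h : Disjoint T L) : cu y L T = y := if_pos h
theorem cu_neg (y : R) {L T : Finset ℕ} (h : ¬ Disjoint T L) : cu y L T = -1 := if_neg h
theorem cb_pos (y : R) {L T : Finset ℕ} (h : Disjoint T L) : cb y L T = 1 := if_pos h
theorem cb_neg (y : R) {L T : Finset ℕ} (h : ¬ Disjoint T L) : cb y L T = y := if_neg h

end

end COMBAux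

open COMBAux in
theorem tCOMB : S_PSS → S_COMB := by
  intro hP R _ m q ω y1 y2
  refine ⟨?_, ?_, ?_⟩
  · intro D t ht L M hL hM
    have htD : t ∉ D := fun h => absurd (ht t h) (lt_irrefl t)
    refine ⟨?_, ?_, ?_, ?_, ?_⟩
    · unfold G0 G1 G2
      rw [hP R m q ω y1 y2 D t ht, PS_mul, PS_add, PS_add]
      refine PS_congr fun T hT hi T' hT' hi' => ?_
      have hT2 : T' ⊆ D := hT'.trans Finset.sdiff_subset
      rcases dich t hT hi with ⟨a1, d1⟩ | ⟨a1, d1⟩ <;>
      rcases dich t hT2 hi' with ⟨a2, d2⟩ | ⟨a2, d2⟩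
      · rw [a1, a2, if_pos d1, if_pos d2, cu_pos _ d1, cu_pos _ d2, cb_pos _ d1]
        push_cast
        ring
      · rw [a1, a2, if_pos d1, if_neg d2, cu_pos _ d1, cu_neg _ d2, cb_pos _ d1]
        push_cast
        ring
      · rw [a1, a2, if_neg d1, if_pos d2, cu_neg _ d1, cu_pos _ d2, cb_neg _ d1]
        push_cast
        ring
      · rw [a1, a2, if_neg d1, if_neg d2, cu_neg _ d1, cu_neg _ d2, cb_neg _ d1]
        push_cast
        ring
    · unfold G1 G12
      rw [hP R m q ω y1 y2 D t ht, PS_mul, PS_add]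
      refine PS_congr fun T hT hi T' hT' hi' => ?_
      have hT2 : T' ⊆ D := hT'.trans Finset.sdiff_subset
      have ht1 : t ∉ T := fun h => htD (hT h)
      have ht2 : t ∉ T' := fun h => htD (hT2 h)
      rw [cu_both, cu_left ht1]
      rcases dich t hT hi with ⟨a1, d1⟩ | ⟨a1, d1⟩ <;>
      rcases dich t hT2 hi' with ⟨a2, d2⟩ | ⟨a2, d2⟩
      · rw [a1, a2, if_pos d1, if_pos d2, cu_pos _ d2, cb_pos _ d1, cu_pos _ (d1.mono_right hM)]
        push_cast
        ring
      · rw [a1, a2, if_pos d1, if_neg d2, cu_neg _ d2, cb_pos _ d1, cu_pos _ (d1.mono_right hM)]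
        push_cast
        ring
      · rw [a1, a2, if_neg d1, if_pos d2, cu_pos _ d2, cb_neg _ d1]
        push_cast
        ring
      · rw [a1, a2, if_neg d1, if_neg d2, cu_neg _ d2, cb_neg _ d1]
        push_cast
        ring
    · unfold G2 G21
      rw [hP R m q ω y1 y2 D t ht, PS_mul, PS_mul, PS_add]
      refine PS_congr fun T hT hi T' hT' hi' => ?_
      have hT2 : T' ⊆ D := hT'.trans Finset.sdiff_subset
      have ht1 : t ∉ T := fun h => htD (hT h)
      have ht2 : t ∉ T' := fun h => htD (hT2 h)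
      rw [cb_both, cb_left ht1, cu_both, cu_left ht2]
      rcases dich t hT hi with ⟨a1, d1⟩ | ⟨a1, d1⟩ <;>
      rcases dich t hT2 hi' with ⟨a2, d2⟩ | ⟨a2, d2⟩
      · rw [a1, a2, if_pos d1, if_pos d2, cu_pos _ d1, cu_pos _ (d2.mono_right hM),
          cb_pos _ (d1.mono_right hM)]
        push_cast
        ring
      · rw [a1, a2, if_pos d1, if_neg d2, cu_pos _ d1, cb_pos _ (d1.mono_right hM)]
        push_cast
        ring
      · rw [a1, a2, if_neg d1, if_pos d2, cu_neg _ d1, cu_pos _ (d2.mono_right hM)]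
        push_cast
        ring
      · rw [a1, a2, if_neg d1, if_neg d2, cu_neg _ d1]
        push_cast
        ring
    · unfold G12
      rw [hP R m q ω y1 y2 D t ht, PS_mul]
      refine PS_congr fun T hT hi T' hT' hi' => ?_
      have hT2 : T' ⊆ D := hT'.trans Finset.sdiff_subset
      have ht1 : t ∉ T := fun h => htD (hT h)
      have ht2 : t ∉ T' := fun h => htD (hT2 h)
      rw [cb_both, cb_left ht1, cu_both, cu_both, cu_left ht1, cu_left ht2]
      rcases dich t hT hi with ⟨a1, d1⟩ | ⟨a1, d1⟩ <;>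
      rcases dich t hT2 hi' with ⟨a2, d2⟩ | ⟨a2, d2⟩
      · rw [a1, a2, if_pos d1, if_pos d2, cu_pos _ (d1.mono_right hL),
          cu_pos _ (d2.mono_right hM), cb_pos _ (d1.mono_right hM)]
        push_cast
        ring
      · rw [a1, a2, if_pos d1, if_neg d2, cu_pos _ (d1.mono_right hL),
          cb_pos _ (d1.mono_right hM)]
        push_cast
        ring
      · rw [a1, a2, if_neg d1, if_pos d2, cu_pos _ (d2.mono_right hM)]
        push_cast
        ring
      · rw [a1, a2, if_neg d1, if_neg d2]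
        push_cast
        ring
    · unfold G21
      rw [hP R m q ω y1 y2 D t ht, PS_mul]
      refine PS_congr fun T hT hi T' hT' hi' => ?_
      have hT2 : T' ⊆ D := hT'.trans Finset.sdiff_subset
      have ht1 : t ∉ T := fun h => htD (hT h)
      have ht2 : t ∉ T' := fun h => htD (hT2 h)
      rw [cb_both, cb_left ht1, cu_both, cu_both, cu_left ht1, cu_left ht2]
      rcases dich t hT hi with ⟨a1, d1⟩ | ⟨a1, d1⟩ <;>
      rcases dich t hT2 hi' with ⟨a2, d2⟩ | ⟨a2, d2⟩
      · rw [a1, a2, if_pos d1, if_pos d2, cu_pos _ (d1.mono_right hM),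
          cu_pos _ (d2.mono_right hL), cb_pos _ (d1.mono_right hL)]
        push_cast
        ring
      · rw [a1, a2, if_pos d1, if_neg d2, cu_pos _ (d1.mono_right hM),
          cb_pos _ (d1.mono_right hL)]
        push_cast
        ring
      · rw [a1, a2, if_neg d1, if_pos d2, cu_pos _ (d2.mono_right hL)]
        push_cast
        ring
      · rw [a1, a2, if_neg d1, if_neg d2]
        push_cast
        ring
  · intro D M
    refine ⟨?_, ?_, ?_, ?_⟩
    · unfold G12 G2
      rw [PS_mul]
      refine PS_congr fun T _ _ T' _ _ => ?_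
      rw [cu_pos y1 (Finset.disjoint_empty_right T)]
      ring
    · unfold G21 G1
      rw [PS_mul]
      refine PS_congr fun T _ _ T' _ _ => ?_
      rw [cu_pos y2 (Finset.disjoint_empty_right T'), cb_pos q (Finset.disjoint_empty_right T)]
      ring
    · unfold G1 G0
      rw [PS_mul]
      refine PS_congr fun T _ _ T' _ _ => ?_
      rw [cu_pos y1 (Finset.disjoint_empty_right T)]
      ring
    · unfold G2 G0
      rw [PS_mul]
      refine PS_congr fun T _ _ T' _ _ => ?_
      rw [cu_pos y2 (Finset.disjoint_empty_right T'), cb_pos q (Finset.disjoint_empty_right T)]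
      ring
  · have h0 : ind m (∅ : Finset ℕ) := fun u hu => absurd hu (Finset.notMem_empty u)
    unfold G0 PS
    rw [Finset.powerset_empty, Finset.filter_singleton, if_pos h0, Finset.sum_singleton,
      Finset.sdiff_empty, Finset.powerset_empty, Finset.filter_singleton, if_pos h0,
      Finset.sum_singleton]
    simp [wo, ea]

end Pool.Agent.LV2
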