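import Pool.Agent.Lib.MP_263316_co.LV2.Spec

set_option autoImplicit false

namespace Pool.Agent.LV2

open Finset Pool.Agent.SWC Pool.Agent.SWK Pool.Agent.HOOK

namespace CONN3Aux

theorem gen_of_inj {v : ℂ} (hv : Function.Injective (Polynomial.aeval v : Polynomial ℤ → ℂ)) :
    Gen v := by
  constructor
  · intro h0
    have h1 : (Polynomial.aeval v (Polynomial.X : Polynomial ℤ) : ℂ) =
        Polynomial.aeval v (0 : Polynomial ℤ) := by
      rw [Polynomial.aeval_X, map_zero, h0]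
    exact Polynomial.X_ne_zero (hv h1)
  · intro k hk h
    have h1 : (Polynomial.aeval v ((Polynomial.X : Polynomial ℤ) ^ k) : ℂ) =
        Polynomial.aeval v (1 : Polynomial ℤ) := by
      rw [map_pow, Polynomial.aeval_X, map_one, h]
    have h2 := congrArg Polynomial.natDegree (hv h1)
    rw [Polynomial.natDegree_X_pow, Polynomial.natDegree_one] at h2
    omega

theorem inj_sq {v : ℂ} (hv : Function.Injective (Polynomial.aeval v : Polynomial ℤ → ℂ))
    (p : Polynomial ℤ) (h : Polynomial.aeval (v ^ 2) p = (0 : ℂ)) : p = 0 := by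
  have h1 : Polynomial.aeval v (Polynomial.expand ℤ 2 p) = (0 : ℂ) := by
    rw [Polynomial.expand_aeval, h]
  have h2 : Polynomial.expand ℤ 2 p = 0 := by
    apply hv
    rw [h1, map_zero]
  exact (Polynomial.expand_eq_zero (by norm_num)).1 h2

theorem br_qn {v : ℂ} (h0 : v ≠ 0) (h1 : v ^ 2 ≠ 1) (m : ℕ) :
    v ^ ((1 : ℤ) - m) * qn (v ^ 2) m = br v m := by
  have h2 : v ^ 2 - 1 ≠ 0 := sub_ne_zero.2 h1
  have h3 : v - v⁻¹ ≠ 0 := by
    intro h
    apply h2
    have : v * (v - v⁻¹) = v ^ 2 - 1 := by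
      field_simp
    rw [← this, h, mul_zero]
  have h4 : qn (v ^ 2) m = ((v ^ 2) ^ m - 1) / (v ^ 2 - 1) := by
    unfold qn
    exact geom_sum_eq h1 m
  have hw : v ^ m ≠ 0 := pow_ne_zero m h0
  have h5 : v ^ ((1 : ℤ) - m) = v * (v ^ m)⁻¹ := by
    rw [sub_eq_add_neg, zpow_add₀ h0, zpow_one, zpow_neg, zpow_natCast]
  have h6 : (v ^ 2) ^ m = (v ^ m) ^ 2 := by
    rw [← pow_mul, ← pow_mul, mul_comm]
  unfold br
  rw [h4, h5, h6, zpow_neg, zpow_natCast]
  have h7 : v - v⁻¹ = (v ^ 2 - 1) / v := by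
    field_simp
  rw [h7]
  field_simp

theorem AA_mul (n : ℕ) (c : ℂ) (a : n.Partition → ℂ) (m : ℕ) (s1 s2 : ℂ) :
    AA n (fun μ => c * a μ) m s1 s2 = c * AA n a m s1 s2 := by
  unfold AA
  rw [Finset.mul_sum]
  refine Finset.sum_congr rfl fun b _ => ?_
  split_ifs
  · ring
  · rw [mul_zero]

theorem exists_ab (s1 s2 : ℂ) : ∃ α β : ℂ, α + β = s1 ∧ α * β = s2 := by
  obtain ⟨d, hd⟩ := IsAlgClosed.exists_pow_nat_eq (s1 ^ 2 - 4 * s2) (n := 2) (by norm_num)
  refine ⟨(s1 + d) / 2, (s1 - d) / 2, by ring, ?_⟩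
  have : (s1 + d) / 2 * ((s1 - d) / 2) = (s1 ^ 2 - d ^ 2) / 4 := by ring
  rw [this, hd]
  ring

end CONN3Aux

open CONN3Aux

theorem tCONN3 : XFc → S_ADM → S_SK → S_REL3 → S_TWO → S_POS → S_AUQ → S_CLS → S_EXT →
    S_CONN3 := by
  intro hXF hADM hSK hREL hTWO hPOS hAUQ hCLS hEXT g hg n hc hj N hN
  obtain ⟨v, hv⟩ := exists_tr
  have hgen : Gen v := gen_of_inj hv
  have hv0 : v ≠ 0 := hgen.1
  have hq1 : v ^ 2 ≠ 1 := hgen.2 2 (by norm_num)
  have hq0 : v ^ 2 ≠ 0 := pow_ne_zero 2 hv0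
  obtain ⟨hAdm, hnb, hEL, hEn⟩ := hADM g hg n hc
  have hcard : (range n).card = n := Finset.card_range n
  have hh := XX_hom N g (range n)
  rw [hcard] at hh
  obtain ⟨a, ha⟩ := exists_exp N n (XX g (qq N) (xx N) (range n)) (XX_symm hXF g hg N (range n)) hh
  have hmem : ∀ μ : n.Partition, big3 μ.parts ≤ 1 → a μ ∈ PU (eE g (range n)) := by
    intro μ hb
    rcases hCLS n μ hb with ⟨b, h, rfl⟩ | ⟨m, b, hm3, h1, h2, rfl⟩
    · have htri : ∃ x ∈ range n, ∃ y ∈ range n, ∃ z ∈ range n, x < y ∧ y < z ∧ z ≤ g x := by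
        obtain ⟨j, hjn, hj2⟩ := hj
        have hle := ld_le g j
        refine ⟨j - 2, Finset.mem_range.2 (by omega), j - 1, Finset.mem_range.2 (by omega), j,
          Finset.mem_range.2 hjn, by omega, by omega, ?_⟩
        exact (hnb (j - 2) j (by omega) hjn).2 (by omega)
      have h3 := hTWO g hg N n (range n) hcard hN htri a ha (v ^ 2) b h
      rw [inj_sq hv _ h3]
      exact AddSubmonoid.zero_mem _
    · have hP := hPOS v (ld g) n hgen hAdm hj
      have hrel : ∀ m, 3 ≤ m → m ≤ n → ∀ s1 s2 : ℂ,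
          AA n (fun μ => v ^ (-(EL (ld g) n : ℤ)) * Polynomial.aeval (v ^ 2) (a μ)) m s1 s2 +
          s1 * AA n (fun μ => v ^ (-(EL (ld g) n : ℤ)) * Polynomial.aeval (v ^ 2) (a μ))
            (m + 1) s1 s2 +
          s2 * AA n (fun μ => v ^ (-(EL (ld g) n : ℤ)) * Polynomial.aeval (v ^ 2) (a μ))
            (m + 2) s1 s2 =
          br v m * MvPolynomial.eval ![s1, s2] ((SF v (ld g) n).coeff (n - m)) := by
        intro m hm3 hmn s1 s2
        obtain ⟨α, β, hs1, hs2⟩ := exists_ab s1 s2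
        have e1 := hREL g hg N n (range n) hcard hN a ha (v ^ 2) hq0 hq1 m hm3 hmn α β
        have e2 := hSK v hgen g hg n hc α β (n - m)
        rw [if_pos (by omega)] at e2
        rw [hs1, hs2] at e1 e2
        rw [AA_mul, AA_mul, AA_mul]
        have e3 : v ^ (-(EL (ld g) n : ℤ)) * v ^ ((En g n : ℤ) + 1 - n + ((n - m : ℕ) : ℤ)) =
            v ^ ((1 : ℤ) - m) := by
          rw [← zpow_add₀ hv0]
          congr 1
          rw [hEn, Nat.cast_sub hmn]
          ring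
        have e4 := br_qn hv0 hq1 m
        rw [e2] at e1
        rw [← e4, ← e3]
        linear_combination v ^ (-(EL (ld g) n : ℤ)) * e1
      have h4 := hAUQ v n (EL (ld g) n) (SF v (ld g) n) hP _ hrel m b hm3 h1 h2
      have h5 := hEXT v hv (EL (ld g) n) (a (lvP n m b h1 h2)) h4
      rw [hEL] at h5
      exact h5
  rw [ha]
  refine AddSubmonoid.sum_mem _ fun μ _ => AddSubmonoid.subset_closure
    ⟨μ.parts, a μ, μ.parts_sum, fun hb => hmem μ hb, rfl⟩

end Pool.Agent.LV2
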