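import Pool.Agent.Lib.MP_263316_co.LV2.Spec

/-!
MP_263316_co, project LV2: positivity step for the table `D` (module DPOS).
-/

set_option autoImplicit false

namespace Pool.Agent.LV2

open Finset Pool.Agent.SWC Pool.Agent.SWK Pool.Agent.HOOK

namespace DPOSAux

theorem co1 (F : Polynomial ℂ) (t : ℕ) :
    ((1 + Polynomial.X) * F).coeff (t + 1) = F.coeff (t + 1) + F.coeff t := by
  rw [add_mul, one_mul, Polynomial.coeff_add, Polynomial.coeff_X_mul]

theorem co0 (F : Polynomial ℂ) : ((1 + Polynomial.X) * F).coeff 0 = F.coeff 0 := by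
  rw [add_mul, one_mul, Polynomial.coeff_add, Polynomial.coeff_X_mul_zero, add_zero]

/-- support of `(1 + X) F` -/
theorem co_ne {F : Polynomial ℂ} {s : ℕ} (h : ((1 + Polynomial.X) * F).coeff s ≠ 0) :
    F.coeff s ≠ 0 ∨ (1 ≤ s ∧ F.coeff (s - 1) ≠ 0) := by
  rcases s with _ | t
  · left
    rwa [co0] at h
  · rw [co1] at h
    by_cases h1 : F.coeff (t + 1) = 0
    · right
      refine ⟨by omega, ?_⟩
      rwa [h1, zero_add] at h
    · left
      exact h1

/-- coefficients of `(1 + X) F` -/
theorem co_mem {v : ℂ} {F : Polynomial ℂ} {d : ℕ} (h : ∀ s, F.coeff s ∈ SC v d) (s : ℕ) :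
    ((1 + Polynomial.X) * F).coeff s ∈ SC v d := by
  rcases s with _ | t
  · rw [co0]
    exact h 0
  · rw [co1]
    exact add_mem (h _) (h _)

theorem br_zero (v : ℂ) : br v 0 = 0 := by
  unfold br
  simp

end DPOSAux

open DPOSAux in
theorem tDPOS : S_SCM → S_SYS → S_BKF → S_DPOS := by
  intro hSCM hSYS hBKF v l n r hv hA hT hr i hi hin hl D D' μ μ' hD h1 h2 h3 h4
  obtain ⟨hS, hpar, -, hbr, -, -, -, hcc, hccm, -⟩ := hSCM v hv
  obtain ⟨-, -, -, -, hdom, -, hDp, hpi, hli⟩ := hSYS v l n r hv hA hT i hi hin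
  obtain ⟨hb1, hb2, hb3, hb4, hb5, -, -, hb8⟩ := hBKF v hv
  obtain ⟨hd1, hd2, hd3, hd4⟩ := hD
  obtain ⟨p, hp⟩ : ∃ p, p = i - l i := ⟨_, rfl⟩
  rw [← hp] at hdom hDp hpi h2
  have hpl : p + l i = i := by omega
  obtain ⟨-, -, hmi⟩ := hDp
  have cS : ∀ (d d' : ℕ) (x : ℂ), d % 2 = d' % 2 → x ∈ SC v d → x ∈ SC v d' := by
    intro d d' x h hx
    rwa [(hpar d d' h).1] at hx
  have cQ : ∀ (d d' : ℕ) (x : QQ), d % 2 = d' % 2 → x ∈ CQ v d → x ∈ CQ v d' := by
    intro d d' x h hx
    rwa [(hpar d d' h).2.1] at hx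
  have e1 : (l i : ℤ) - 1 = ((l i - 1 : ℕ) : ℤ) := by omega
  have e2 : (l i : ℤ) - 2 = ((l i - 2 : ℕ) : ℤ) := by omega
  have hEL : EL l (i + 1) = EL l i + l i := Finset.sum_range_succ _ _
  -- the constant
  have hc0 : br v ((p - 2 * r : ℕ) : ℤ) * μ ≠ 0 → 2 * r + 1 ≤ p := by
    intro h
    by_contra h5
    rw [show p - 2 * r = 0 by omega, Nat.cast_zero, br_zero, zero_mul] at h
    exact h rfl
  have hcm : br v ((p - 2 * r : ℕ) : ℤ) * μ ∈ SC v (EL l i + l i + 1) := by
    by_cases h5 : br v ((p - 2 * r : ℕ) : ℤ) * μ = 0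
    · rw [h5]
      exact zero_mem _
    · have h6 := hc0 h5
      exact cS _ _ _ (by omega) (hS _ _ _ _ (hbr (p - 2 * r)).1 hd3)
  -- coefficients of the new polynomial
  have hco : ∀ s, (D' (i + 1)).coeff s = br v ((l i : ℤ) - 1) * (D i).coeff s +
      ((1 + Polynomial.X) * D p).coeff s +
      (if s = 0 then br v ((p - 2 * r : ℕ) : ℤ) * μ else 0) := by
    intro s
    rw [h2, Polynomial.coeff_add, Polynomial.coeff_add, Polynomial.coeff_C_mul,
      Polynomial.coeff_C]
  have hcl : ∀ a, a ≤ i → ∀ s, (D' a).coeff s = br v ((l i : ℤ) - 2) * (D a).coeff s := by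
    intro a ha s
    rw [h1 a ha, Polynomial.coeff_C_mul]
  refine ⟨?_, ?_, ?_, ?_⟩
  · intro a s hs
    rcases lt_trichotomy a (i + 1) with ha | ha | ha
    · rw [hcl a (by omega)] at hs
      exact hd1 a s (right_ne_zero_of_mul hs)
    · subst ha
      rw [Nat.add_sub_cancel, ← hp]
      rw [hco s] at hs
      by_cases hs1 : (D i).coeff s = 0
      · by_cases hs2 : ((1 + Polynomial.X) * D p).coeff s = 0
        · by_cases hs3 : s = 0
          · rw [hs1, hs2, if_pos hs3, mul_zero, zero_add, zero_add] at hs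
            exact ⟨by omega, hc0 hs, Or.inl hs3⟩
          · rw [hs1, hs2, if_neg hs3, mul_zero, zero_add, zero_add] at hs
            exact absurd rfl hs
        · rcases co_ne hs2 with h6 | ⟨h6, h7⟩
          · have h8 := hd1 p s h6
            omega
          · have h8 := hd1 p (s - 1) h7
            omega
      · have h8 := hd1 i s hs1
        omega
    · rw [h3 a ha, Polynomial.coeff_zero] at hs
      exact absurd rfl hs
  · intro a ha s
    rcases lt_or_eq_of_le ha with ha | ha
    · rw [hcl a (by omega), e2]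
      exact cS _ _ _ (by omega) (hS _ _ _ _ (hbr (l i - 2)).1 (hd2 a (by omega) s))
    · subst ha
      rw [hco s]
      refine add_mem (add_mem ?_ ?_) ?_
      · rw [e1]
        exact cS _ _ _ (by omega) (hS _ _ _ _ (hbr (l i - 1)).1 (hd2 i le_rfl s))
      · exact cS _ _ _ (by omega) (co_mem (hd2 p hpi.le) s)
      · split_ifs
        · exact cS _ _ _ (by omega) hcm
        · exact zero_mem _
  · rw [h4, e2]
    exact cS _ _ _ (by omega) (hS _ _ _ _ (hbr (l i - 2)).1 hd3)
  · intro a b s hab ha hs1 hs2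
    rcases lt_or_eq_of_le ha with ha | ha
    · have h5 : YY v s (D' a) (D' b) a b = cc (br v ((l i - 2 : ℕ) : ℤ)) *
          YY v s (D a) (D b) a b := by
        unfold YY
        rw [h1 a (by omega), h1 b (by have := hab.2.1; omega), hb2, hb2, e2]
        ring
      rw [h5]
      exact cQ _ _ _ (by omega) (hccm _ _ _ (hd4 a b s hab (by omega) hs1 hs2))
    · subst ha
      rcases lt_or_eq_of_le hab.2.1 with hb | hb
      · obtain ⟨hib, hbp⟩ := hdom b hab (by omega)
        have hpb : p ≤ b := hbp.2.1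
        have h7 : (i : ℤ) - s - (l i : ℤ) + 2 = ((p + 2 - s : ℕ) : ℤ) := by omega
        have h5 : YY v s (D' (i + 1)) (D' b) ((i + 1 : ℕ) : ℤ) b =
            cc (br v ((l i - 1 : ℕ) : ℤ)) * YY v s (D i) (D b) i b +
            bk v (D b) ((p + 2 - s : ℕ) : ℤ) + bk v ((1 + Polynomial.X) * D p) ((b : ℤ) - s) +
            cc (br v ((p - 2 * r : ℕ) : ℤ) * μ * br v ((b : ℤ) - s)) := by
          unfold YY
          rw [h1 b (by omega), h2, hb1, hb1, hb2, hb2, (hb4 _ _).1, ← h7, ← hb5, ← e1]
          rw [show (((i + 1 : ℕ) : ℤ) - (s : ℤ)) = (i : ℤ) - s + 1 by push_cast; ring]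
          ring
        rw [h5]
        refine add_mem (add_mem (add_mem ?_ ?_) ?_) ?_
        · exact cQ _ _ _ (by omega) (hccm _ _ _ (hd4 i b s hib le_rfl hs1 hs2))
        · refine cQ _ _ _ ?_ (hb8 (D b) (p + 2 - s) _ (hd2 b (by omega)) ?_)
          · omega
          · intro t ht
            have h8 := hd1 b t ht
            have h9 := hbp.2.2
            omega
        · by_cases h8 : D p = 0
          · rw [h8, mul_zero, (hb4 0 _).2]
            exact zero_mem _
          · obtain ⟨t0, ht0⟩ : ∃ t, (D p).coeff t ≠ 0 := by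
              by_contra h9
              refine h8 (Polynomial.ext fun t => ?_)
              rw [Polynomial.coeff_zero]
              by_contra h10
              exact h9 ⟨t, h10⟩
            have h9 := hd1 p t0 ht0
            rw [show (b : ℤ) - s = ((b - s : ℕ) : ℤ) by omega]
            refine cQ _ _ _ ?_ (hb8 _ (b - s) _ (co_mem (hd2 p hpi.le)) ?_)
            · omega
            · intro t ht
              rcases co_ne ht with h10 | ⟨h10, h11⟩
              · have h12 := hd1 p t h10
                omega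
              · have h12 := hd1 p (t - 1) h11
                omega
        · by_cases h8 : br v ((p - 2 * r : ℕ) : ℤ) * μ = 0
          · rw [h8, zero_mul]
            have h9 := hcc (EL l (i + 1) + (i + 1) + (i + 1) + b + s) 0 (zero_mem _)
            exact h9
          · have h9 := hc0 h8
            rw [show (b : ℤ) - s = ((b - s : ℕ) : ℤ) by omega]
            refine hcc _ _ (cS _ _ _ ?_ (hS _ _ _ _ hcm (hbr (b - s)).1))
            omega
      · rw [hb]
        unfold YY
        rw [sub_self]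
        exact zero_mem _

end Pool.Agent.LV2
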