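import Pool.Agent.Lib.MP_263316_co.LV2.Spec

/-!
MP_263316_co, project LV2, module DROP: the smallest variable set to zero.
-/

set_option autoImplicit false

namespace Pool.Agent.LV2

open Finset Pool.Agent.SWC Pool.Agent.SWK Pool.Agent.HOOK

namespace DROPAux

/-- the homomorphism which puts the variable `0` equal to zero -/
noncomputable def ph (N : ℕ) : AN (N + 1) →+* AN N :=
  MvPolynomial.eval₂Hom MvPolynomial.C (Fin.cons 0 (xx N))

theorem ph_C (N : ℕ) (p : Polynomial ℤ) : ph N (MvPolynomial.C p) = MvPolynomial.C p := by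
  unfold ph
  rw [MvPolynomial.eval₂Hom_C]

theorem ph_q (N : ℕ) : ph N (qq (N + 1)) = qq N := ph_C N _

theorem ph_x (N : ℕ) : (fun k => ph N (xx (N + 1) k)) = (Fin.cons 0 (xx N) : Fin (N + 1) → AN N) := by
  funext k
  unfold ph xx
  rw [MvPolynomial.eval₂Hom_X']

theorem ph_XX (hSPL : S_SPL) (N : ℕ) (g : ℕ → ℕ) (U : Finset ℕ) :
    ph N (XX g (qq (N + 1)) (xx (N + 1)) U) = XX g (qq N) (xx N) U := by
  have h1 : ph N (XX g (qq (N + 1)) (xx (N + 1)) U) =
      XX g (qq N) (Fin.cons 0 (xx N) : Fin (N + 1) → AN N) U := by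
    unfold XX
    rw [Z_map, ph_q]
    have h2 := ph_x N
    have h3 : (fun (_ : ℕ) (k : Fin (N + 1)) => ph N (xx (N + 1) k)) =
        fun (_ : ℕ) (k : Fin (N + 1)) => (Fin.cons 0 (xx N) : Fin (N + 1) → AN N) k := by
      funext _ k
      exact congrFun h2 k
    rw [h3]
  rw [h1, hSPL (AN N) N g (qq N) _ U]
  rw [Finset.sum_eq_single ∅]
  · have h4 : ea g U ∅ = 0 := by
      unfold ea
      refine Finset.sum_eq_zero fun v _ => ?_
      unfold aL
      simp
    rw [h4, Finset.card_empty, pow_zero, pow_zero, one_mul, one_mul, Finset.sdiff_empty]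
    rfl
  · intro T _ hT
    have h5 : T.card ≠ 0 := by
      rw [Ne, Finset.card_eq_zero]
      exact hT
    rw [Fin.cons_zero, zero_pow h5, zero_mul, zero_mul]
  · intro h6
    exfalso
    apply h6
    rw [Finset.mem_filter]
    refine ⟨Finset.empty_mem_powerset U, ?_⟩
    intro u hu
    simp at hu

theorem ph_es (hESZ : S_ESZ) (N k : ℕ) : ph N (es (xx (N + 1)) k) = es (xx N) k := by
  rw [es_map, ph_x]
  have h1 := hESZ.1 (AN N) N (Fin.cons 0 (xx N)) (k : ℤ)
  rw [Fin.cons_zero, zero_mul, add_zero] at h1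
  have h2 : ∀ (M : ℕ) (x : Fin M → AN N), esz x (k : ℤ) = es x k := by
    intro M x
    unfold esz
    simp
  rw [h2, h2] at h1
  rw [h1]
  rfl

end DROPAux

open DROPAux

theorem tDROP : S_SPL → S_ESZ → S_DROP := by
  intro hSPL hESZ N n d g U h
  rw [← ph_XX hSPL N g U]
  generalize XX g (qq (N + 1)) (xx (N + 1)) U = f at h
  unfold HC3 at h ⊢
  induction h using AddSubmonoid.closure_induction with
  | mem f hf =>
    obtain ⟨l, p, hl, hp, rfl⟩ := hf
    refine AddSubmonoid.subset_closure ⟨l, p, hl, hp, ?_⟩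
    rw [map_mul, ph_C, map_multiset_prod, Multiset.map_map]
    congr 2
    refine Multiset.map_congr rfl fun k _ => ?_
    exact ph_es hESZ N k
  | zero =>
    rw [map_zero]
    exact AddSubmonoid.zero_mem _
  | add a b _ _ ha hb =>
    rw [map_add]
    exact AddSubmonoid.add_mem _ ha hb

end Pool.Agent.LV2
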