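import Pool.Agent.Lib.MP_263316_co.LV2.Spec

/-!
MP_263316_co, project LV2 (helper30): `S_EXT`, from balanced integers back to the polynomials.
-/

set_option autoImplicit false

namespace Pool.Agent.LV2

open Finset Pool.Agent.SWC Pool.Agent.SWK Pool.Agent.HOOK

namespace EXTbAux

theorem exists_ms {v : ℂ} {E : ℕ} {x : ℂ} (hx : x ∈ SC v E) :
    ∃ s : Multiset ℕ, (∀ m ∈ s, 0 < m ∧ (m + 1 + E) % 2 = 0) ∧
      x = (s.map (fun m : ℕ => br v m)).sum := by
  unfold SC at hx
  induction hx using AddSubmonoid.closure_induction with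
  | mem x hx =>
    obtain ⟨m, hm, rfl⟩ := hx
    rcases Nat.eq_zero_or_pos m with h | h
    · subst h
      refine ⟨0, fun m hm => absurd hm (Multiset.notMem_zero m), ?_⟩
      simp [br]
    · refine ⟨{m}, fun m' hm' => ?_, ?_⟩
      · rw [Multiset.mem_singleton] at hm'
        rw [hm']
        exact ⟨h, hm⟩
      · rw [Multiset.map_singleton, Multiset.sum_singleton]
  | zero => exact ⟨0, fun m hm => absurd hm (Multiset.notMem_zero m), by simp⟩
  | add x y _ _ hx hy =>
    obtain ⟨s, hs, rfl⟩ := hx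
    obtain ⟨t, ht, rfl⟩ := hy
    refine ⟨s + t, fun m hm => ?_, ?_⟩
    · rw [Multiset.mem_add] at hm
      rcases hm with hm | hm
      · exact hs m hm
      · exact ht m hm
    · rw [Multiset.map_add, Multiset.sum_add]

theorem sq_ne {v : ℂ} (h : Function.Injective (Polynomial.aeval v : Polynomial ℤ → ℂ)) :
    v ≠ 0 ∧ v ^ 2 ≠ 1 := by
  constructor
  · intro h0
    have h1 : Polynomial.aeval v (Polynomial.X : Polynomial ℤ) =
        Polynomial.aeval v (0 : Polynomial ℤ) := by
      rw [Polynomial.aeval_X, map_zero, h0]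
    exact Polynomial.X_ne_zero (h h1)
  · intro h0
    have h1 : Polynomial.aeval v (Polynomial.X ^ 2 : Polynomial ℤ) =
        Polynomial.aeval v (1 : Polynomial ℤ) := by
      rw [map_pow, Polynomial.aeval_X, map_one, h0]
    have h2 := congrArg (fun p : Polynomial ℤ => p.coeff 0) (h h1)
    simp at h2

theorem br_eq {v : ℂ} (h0 : v ≠ 0) (h1 : v ^ 2 ≠ 1) (m : ℕ) :
    v * qn (v ^ 2) m = v ^ m * br v m := by
  have hv : v - v⁻¹ ≠ 0 := by
    intro h
    apply h1
    field_simp at h
    linear_combination h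
  have hgeom : (v ^ 2 - 1) * qn (v ^ 2) m = (v ^ 2) ^ m - 1 := by
    unfold qn
    rw [mul_comm]
    exact geom_sum_mul (v ^ 2) m
  unfold br
  rw [mul_div_assoc', eq_div_iff hv]
  have h2 : v ^ m * (v ^ (m : ℤ) - v ^ (-(m : ℤ))) = (v ^ 2) ^ m - 1 := by
    rw [zpow_natCast, zpow_neg, zpow_natCast, mul_sub, mul_inv_cancel₀ (pow_ne_zero m h0)]
    ring
  rw [h2, ← hgeom]
  field_simp

theorem qn_coeff_nonneg (m k : ℕ) : 0 ≤ (qn (Polynomial.X : Polynomial ℤ) m).coeff k := by
  unfold qn
  rw [Polynomial.finsetSum_coeff]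
  refine Finset.sum_nonneg fun i _ => ?_
  rw [Polynomial.coeff_X_pow]
  split_ifs
  · exact zero_le_one
  · exact le_rfl

theorem qn_coeff_zero {m : ℕ} (hm : 0 < m) : (qn (Polynomial.X : Polynomial ℤ) m).coeff 0 = 1 := by
  unfold qn
  rw [Polynomial.finsetSum_coeff, Finset.sum_eq_single 0]
  · rw [pow_zero, Polynomial.coeff_one_zero]
  · intro b _ hb
    rw [Polynomial.coeff_X_pow, if_neg (fun h => hb h.symm)]
  · intro h
    exact absurd (Finset.mem_range.2 hm) h

theorem term_nonneg (a m j : ℕ) : 0 ≤ (Polynomial.X ^ a *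
    Polynomial.expand ℤ 2 (qn (Polynomial.X : Polynomial ℤ) m)).coeff j := by
  rw [Polynomial.coeff_X_pow_mul']
  split_ifs
  · rw [Polynomial.coeff_expand (by norm_num)]
    split_ifs
    · exact qn_coeff_nonneg m _
    · exact le_rfl
  · exact le_rfl

theorem term_self {m : ℕ} (hm : 0 < m) (j : ℕ) : (Polynomial.X ^ j *
    Polynomial.expand ℤ 2 (qn (Polynomial.X : Polynomial ℤ) m)).coeff j = 1 := by
  rw [Polynomial.coeff_X_pow_mul', if_pos le_rfl, Polynomial.coeff_expand (by norm_num),
    Nat.sub_self, if_pos (dvd_zero 2), Nat.zero_div, qn_coeff_zero hm]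

end EXTbAux

open EXTbAux in
theorem tEXTb : S_EXT := by
  intro v hv E p hp
  obtain ⟨h0, h1⟩ := sq_ne hv
  obtain ⟨s, hs, hx⟩ := exists_ms hp
  obtain ⟨M, hM⟩ : ∃ M : ℕ, M = s.sum := ⟨_, rfl⟩
  have hle : ∀ m ∈ s, m ≤ M := fun m hm => by
    rw [hM]
    exact Multiset.le_sum_of_mem hm
  have hqn : ∀ m : ℕ, Polynomial.aeval v (Polynomial.expand ℤ 2 (qn (Polynomial.X : Polynomial ℤ) m)) =
      qn (v ^ 2) m := by
    intro m
    rw [Polynomial.expand_aeval]
    unfold qn
    rw [map_sum]
    exact Finset.sum_congr rfl fun i _ => by rw [map_pow, Polynomial.aeval_X]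
  have key : Polynomial.X ^ M * Polynomial.expand ℤ 2 p =
      (s.map (fun m => Polynomial.X ^ (M + E + 1 - m) *
        Polynomial.expand ℤ 2 (qn (Polynomial.X : Polynomial ℤ) m))).sum := by
    apply hv
    rw [map_mul, map_pow, Polynomial.aeval_X, Polynomial.expand_aeval, map_multiset_sum,
      Multiset.map_map]
    have h2 : s.map ((Polynomial.aeval v : Polynomial ℤ → ℂ) ∘ fun m => Polynomial.X ^ (M + E + 1 - m) *
        Polynomial.expand ℤ 2 (qn (Polynomial.X : Polynomial ℤ) m)) =
        s.map (fun m : ℕ => v ^ (M + E) * br v m) := by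
      refine Multiset.map_congr rfl fun m hm => ?_
      rw [Function.comp_apply, map_mul, map_pow, Polynomial.aeval_X, hqn]
      have h3 := hle m hm
      have h4 : M + E + 1 - m = (M + E - m) + 1 := by omega
      have h5 : v ^ (M + E) = v ^ (M + E - m) * v ^ m := by
        rw [← pow_add]
        congr 1
        omega
      rw [h4, pow_succ, mul_assoc, br_eq h0 h1, h5, mul_assoc]
    rw [h2, Multiset.sum_map_mul_left, ← hx, pow_add, zpow_neg, zpow_natCast, mul_assoc,
      mul_inv_cancel_left₀ (pow_ne_zero E h0)]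
  have hsmall : ∀ m ∈ s, m ≤ E + 1 := by
    intro m0 hm0
    by_contra hcon
    push Not at hcon
    have h2 := congrArg (Polynomial.lcoeff ℤ (M + E + 1 - m0)) key
    rw [map_multiset_sum, Multiset.map_map, Polynomial.lcoeff_apply, Polynomial.coeff_X_pow_mul',
      if_neg (by have := hle m0 hm0; omega)] at h2
    have h3 := Multiset.single_le_sum (s := s.map ((Polynomial.lcoeff ℤ (M + E + 1 - m0)) ∘ fun m =>
      Polynomial.X ^ (M + E + 1 - m) * Polynomial.expand ℤ 2 (qn (Polynomial.X : Polynomial ℤ) m)))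
      (by
        intro x hx
        rw [Multiset.mem_map] at hx
        obtain ⟨m, _, rfl⟩ := hx
        exact term_nonneg _ _ _) _ (Multiset.mem_map_of_mem _ hm0)
    rw [← h2, Function.comp_apply, Polynomial.lcoeff_apply, term_self (hs m0 hm0).1] at h3
    exact absurd h3 (by norm_num)
  have hp2 : p = (s.map (fun m => Polynomial.X ^ ((E + 1 - m) / 2) *
      qn (Polynomial.X : Polynomial ℤ) m)).sum := by
    apply Polynomial.expand_injective (show 0 < 2 by norm_num)
    apply mul_left_cancel₀ (pow_ne_zero M (Polynomial.X_ne_zero (R := ℤ)))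
    rw [key, map_multiset_sum, Multiset.map_map, ← Multiset.sum_map_mul_left]
    refine congrArg Multiset.sum (Multiset.map_congr rfl fun m hm => ?_)
    have h2 := hle m hm
    have h3 := hsmall m hm
    have h4 := (hs m hm).2
    rw [Function.comp_apply, map_mul, map_pow, Polynomial.expand_X, ← pow_mul, ← mul_assoc, ← pow_add]
    congr 2
    omega
  rw [hp2]
  refine AddSubmonoid.multiset_sum_mem _ _ fun x hx => ?_
  rw [Multiset.mem_map] at hx
  obtain ⟨m, hm, rfl⟩ := hx
  have h3 := hsmall m hm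
  have h4 := (hs m hm).2
  exact AddSubmonoid.subset_closure ⟨(E + 1 - m) / 2, m, by omega, rfl⟩

end Pool.Agent.LV2
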