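import Pool.Agent.Lib.MP_263316_co.LV2.Spec

/-!
MP_263316_co, project LV2 (helper30), task GOOD: the good natural unit interval graphs.
-/

set_option autoImplicit false

namespace Pool.Agent.LV2

open Finset Pool.Agent.SWC Pool.Agent.SWK Pool.Agent.HOOK

open Pool.Agent.SWC.MainAux in
theorem tGOOD : S_MAIN → S_Msum → S_GOOD := by
  intro hMAIN hMsum N n g hm hg
  rcases Nat.eq_zero_or_pos n with h0 | hpos
  · subst h0
    have h1 : XX g (qq N) (xx N) (range 0) = 1 := by simp [XX]
    have h2 : eE g (range 0) = 0 := by simp [eE]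
    rw [h1, h2]
    exact one_mem N
  · have hs : 0 ∈ range n := Finset.mem_range.mpr hpos
    have ht : n - 1 ∈ range n := Finset.mem_range.mpr (by omega)
    have h1 := hMAIN N g hm (range n) hg 0 (n - 1) hs ht
      (fun u hu => ⟨Nat.zero_le u, by have := Finset.mem_range.mp hu; omega⟩) 0
    rw [← FF_eq, Nat.zero_add, Nat.zero_add, Finset.card_range] at h1
    have h2 := hMsum N n (eE g (range n)) _ h1
    rw [sum_FF g (qq N) (xx N) (range n) (n - 1) ht] at h2
    exact h2

end Pool.Agent.LV2
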