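import Pool.Agent.Lib.MP_263316_co.LV2.Spec

/-!
MP_263316_co, project LV2, module INB (helper64): the table inside a block after a cut.
-/

set_option autoImplicit false

namespace Pool.Agent.LV2

open Finset Pool.Agent.SWC Pool.Agent.SWK Pool.Agent.HOOK

namespace INBAux

theorem cast_mem {v : ℂ} (hS : S_SCM) (hv : Gen v) {x : QQ} {d d' : ℕ} (h : d % 2 = d' % 2)
    (hx : x ∈ CQ v d) : x ∈ CQ v d' := by
  have h1 := ((hS v hv).2.1 d d' h).2.1
  rwa [h1] at hx

theorem EL_succ (l : ℕ → ℕ) (i : ℕ) : EL l (i + 1) = EL l i + l i := by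
  unfold EL
  exact Finset.sum_range_succ l i

theorem br_mem {v : ℂ} (hS : S_SCM) (hv : Gen v) {x : QQ} {d d' : ℕ} (m : ℕ) (z : ℤ)
    (hz : z = (m : ℤ)) (h : (d + m + 1) % 2 = d' % 2) (hx : x ∈ CQ v d) :
    cc (br v z) * x ∈ CQ v d' := by
  subst hz
  exact cast_mem hS hv h ((hS v hv).2.2.2.2.2.2.2.2.1 d m x hx)

theorem e1_mem {v : ℂ} (hS : S_SCM) (hv : Gen v) {x : QQ} {d d' : ℕ}
    (h : (d + 1) % 2 = d' % 2) (hx : x ∈ CQ v d) : E1 * x ∈ CQ v d' :=
  cast_mem hS hv h ((hS v hv).2.2.2.2.2.2.2.2.2 d x hx).1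

theorem e2_mem {v : ℂ} (hS : S_SCM) (hv : Gen v) {x : QQ} {d d' : ℕ}
    (h : d % 2 = d' % 2) (hx : x ∈ CQ v d) : E2 * x ∈ CQ v d' :=
  cast_mem hS hv h ((hS v hv).2.2.2.2.2.2.2.2.2 d x hx).2

theorem kn_diag (v : ℂ) (l : ℕ → ℕ) (i : ℕ) : kn v l (i + 1) (i + 1) (i + 1) = 0 := by
  unfold kn KF
  simp only [K]
  rw [if_neg (by omega), if_neg (by omega)]
  simp

theorem p_ge {l : ℕ → ℕ} {n c : ℕ} (hA : Adm l n) (hlc : l c = 1) :
    ∀ i, c ≤ i → i < n → c - 1 ≤ i - l i := by
  intro i hi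
  induction i, hi using Nat.le_induction with
  | base => intro _; omega
  | succ i hi ih =>
    intro hn
    have h1 := ih (by omega)
    have h2 := (hA.2 i hn).2
    omega

end INBAux

open INBAux in
theorem tINB : S_SCM → S_SYS → S_BLK → S_INB := by
  intro hS hSYS hB v l n r hv hA hT c hc hlc i hci
  induction i, hci using Nat.le_induction with
  | base =>
    intro hin hj a b hb1 hba hai hab
    have hl1 : l (c + 1) = 2 := by
      have h1 := hj (c + 1) (by omega) (by omega)
      have h2 := (hA.2 c (by omega)).2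
      omega
    have hEL : EL l (c + 2) = EL l c + 3 := by
      rw [show c + 2 = (c + 1) + 1 from rfl, EL_succ, EL_succ, hlc, hl1]
    obtain ⟨-, -, h3⟩ := hB v l n r hv hA hT c hc (by omega) hlc
    obtain ⟨h31, h32, h33, h34, h35⟩ := h3 (by omega) hl1
    by_cases hz : a ≤ c + 1 ∨ b ≤ c
    · obtain ⟨hp, hn⟩ := h35 a b hb1 hba hai hz
      refine ⟨0, 0, AddSubmonoid.zero_mem _, AddSubmonoid.zero_mem _, ?_, ?_⟩
      · rw [hp, mul_zero]
      · rw [hn, mul_zero]
    · push Not at hz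
      have ha : a = c + 2 := by omega
      subst ha
      by_cases hb : b = c + 1
      · subst hb
        refine ⟨1, 0, ?_, AddSubmonoid.zero_mem _, ?_, ?_⟩
        · refine cast_mem hS hv ?_ (hS v hv).2.2.2.2.1
          rw [hEL]; omega
        · rw [h32, mul_one]
        · rw [h33, mul_zero]
      · have hb' : b = c + 2 := by omega
        subst hb'
        refine ⟨cc (br v 2), 0, ?_, AddSubmonoid.zero_mem _, ?_, ?_⟩
        · have := ((hS v hv).2.2.2.1 2).2
          refine cast_mem hS hv ?_ this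
          rw [hEL]; omega
        · rw [h31, mul_comm]
        · rw [h34, mul_zero]
  | succ i hci ih =>
    intro hin hj a b hb1 hba hai hab
    have ih' := ih (by omega) (fun j h1 h2 => hj j h1 (by omega))
    have hli : 2 ≤ l i := hj i (by omega) (by omega)
    have hp := p_ge hA hlc i (by omega) (by omega)
    obtain ⟨s1, s2, s3, -, s5, s6, s7, s8, s9⟩ := hSYS v l n r hv hA hT i (by omega) (by omega)
    have hE : EL l (i + 1) = EL l i + l i := EL_succ l i
    by_cases h1 : a ≤ i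
    · obtain ⟨U, U', hU, hU', e1, e2⟩ := ih' a b hb1 hba h1 hab
      obtain ⟨t1, t2⟩ := s1 a b ⟨by omega, hba, hab⟩ h1
      refine ⟨cc (br v ((l i : ℤ) - 2)) * U, cc (br v ((l i : ℤ) - 2)) * U', ?_, ?_, ?_, ?_⟩
      · exact br_mem hS hv (l i - 2) _ (by omega) (by rw [hE]; omega) hU
      · exact br_mem hS hv (l i - 2) _ (by omega) (by rw [hE]; omega) hU'
      · rw [t1, e1]; ring
      · rw [t2, e2]; ring
    · have ha : a = i + 1 := by omega
      subst ha
      by_cases h2 : b ≤ i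
      · have hD : Dom l r (i + 1) b := ⟨by omega, hba, hab⟩
        obtain ⟨d1, d2⟩ := s5 b hD h2
        obtain ⟨t1, t2⟩ := s2 b hD h2
        obtain ⟨U, U', hU, hU', e1, e2⟩ := ih' i b hb1 h2 le_rfl d1.2.2
        obtain ⟨W, W', hW, hW', f1, f2⟩ := ih' b (i - l i) hp d2.2.1 h2 d2.2.2
        refine ⟨cc (br v ((l i : ℤ) - 1)) * U + E2 * W', cc (br v ((l i : ℤ) - 1)) * U' + W,
          ?_, ?_, ?_, ?_⟩
        · refine AddSubmonoid.add_mem _ ?_ ?_
          · exact br_mem hS hv (l i - 1) _ (by omega) (by rw [hE]; omega) hU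
          · exact e2_mem hS hv (by rw [hE]; omega) hW'
        · refine AddSubmonoid.add_mem _ ?_ ?_
          · exact br_mem hS hv (l i - 1) _ (by omega) (by rw [hE]; omega) hU'
          · exact cast_mem hS hv (by rw [hE]; omega) hW
        · rw [t1, e1, f2]; ring
        · rw [t2, e2, f1]; ring
      · have hb : b = i + 1 := by omega
        subst hb
        obtain ⟨U, U', hU, hU', e1, e2⟩ := ih' i i (by omega) le_rfl le_rfl (by omega)
        obtain ⟨W, W', hW, hW', f1, f2⟩ := ih' i (i - l i) hp (by omega) le_rfl s7.2.2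
        refine ⟨cc (br v (l i : ℤ)) * U + E1 * W + cc (br v 2) * (E2 * W'), 0, ?_,
          AddSubmonoid.zero_mem _, ?_, ?_⟩
        · refine AddSubmonoid.add_mem _ (AddSubmonoid.add_mem _ ?_ ?_) ?_
          · exact br_mem hS hv (l i) _ rfl (by rw [hE]; omega) hU
          · exact e1_mem hS hv (by rw [hE]; omega) hW
          · exact br_mem hS hv 2 _ rfl (by rw [hE]; omega) (e2_mem hS hv rfl hW')
        · rw [s3, e1, f1, f2]; ring
        · rw [kn_diag, mul_zero]

end Pool.Agent.LV2
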