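import Pool.Agent.Lib.MP_263316_co.LV2.Spec

set_option autoImplicit false
set_option linter.unusedSimpArgs false

namespace Pool.Agent.LV2

open Finset Pool.Agent.SWC Pool.Agent.SWK Pool.Agent.HOOK

namespace INI1Aux

theorem cc_mul (a b : ℂ) : cc (a * b) = cc a * cc b := by simp [cc]
theorem cc_add (a b : ℂ) : cc (a + b) = cc a + cc b := by simp [cc]
theorem cc_sub (a b : ℂ) : cc (a - b) = cc a - cc b := by simp [cc]
theorem cc_neg (a : ℂ) : cc (-a) = -cc a := by simp [cc]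
theorem cc_one : cc 1 = 1 := by simp [cc]
theorem cc_zero : cc 0 = 0 := by simp [cc]
theorem cc_pow (a : ℂ) (n : ℕ) : cc (a ^ n) = cc a ^ n := by simp [cc]
theorem cc_two : cc 2 = 2 := by
  rw [← one_add_one_eq_two, cc_add, cc_one, one_add_one_eq_two]

section
variable {v : ℂ} (hv : Gen v)

include hv in
theorem den : v - v⁻¹ ≠ 0 := by
  intro h
  have h0 := hv.1
  apply hv.2 2 (by norm_num)
  field_simp at h
  linear_combination h

theorem br0 (v : ℂ) : br v 0 = 0 := by simp [br]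

include hv in
theorem br1 : br v 1 = 1 := by
  have h := den hv
  rw [br, zpow_neg, zpow_one]
  exact div_self h

include hv in
theorem br2 : br v 2 = v + v⁻¹ := by
  have h := den hv
  have h0 := hv.1
  rw [br, zpow_neg, div_eq_iff h]
  have e : v ^ (2 : ℤ) = v ^ 2 := by norm_cast
  rw [e]
  field_simp
  ring

include hv in
theorem br3 : br v 3 = v ^ 2 + 1 + v⁻¹ ^ 2 := by
  have h := den hv
  have h0 := hv.1
  rw [br, zpow_neg, div_eq_iff h]
  have e : v ^ (3 : ℤ) = v ^ 3 := by norm_cast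
  rw [e]
  field_simp
  ring

theorem brn (v : ℂ) (n : ℤ) : br v (-n) = -br v n := by
  rw [br, br, neg_neg, ← neg_div, neg_sub]

end

end INI1Aux

open INI1Aux in
theorem tINI1 : S_REC → S_TB2 → S_INI1 := by
  intro hR hT v l hv h0 h1 h2
  obtain ⟨R1, R2, R3, _, R5⟩ := hR v l 2
  obtain ⟨⟨z00, z10, z11, z20, z21, z22⟩, ⟨y10, y20, y21⟩, ⟨k00, k10, k11, k20, k21, k22⟩,
    ⟨n10, n20, n21⟩⟩ := hT v l hv h0 h1
  have y00 := (R5 0).1
  have n00 := (R5 0).2
  have y11 := (R5 1).1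
  have n11 := (R5 1).2
  have y22 := (R5 2).1
  have n22 := (R5 2).2
  rw [h2] at R1 R2 R3
  have b0 := br0 v
  have b1 := br1 hv
  have b2 := br2 hv
  have b3 := br3 hv
  have bm1 : br v (-1) = -1 := by rw [brn, b1]
  have bm2 : br v (-2) = -(v + v⁻¹) := by rw [brn, b2]
  have hVW : cc v * cc v⁻¹ = 1 := by rw [← cc_mul, mul_inv_cancel₀ hv.1, cc_one]
  have A : ∀ a b, a ≤ 2 → kp v l 3 a b = cc v * zp v l 2 a b ∧
      kn v l 3 a b = cc v * zn v l 2 a b := by
    intro a b ha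
    obtain ⟨_, _, p, q⟩ := R1 a b ha
    have e1 : ((2 : ℕ) : ℤ) - 2 = 0 := by norm_num
    have e2 : ((2 : ℕ) : ℤ) - 1 = 1 := by norm_num
    rw [e1, e2, b0, cc_zero, zero_mul, zero_add, zpow_one] at p q
    exact ⟨p, q⟩
  have B : ∀ b, b ≤ 2 → kp v l 3 3 b = kp v l 2 2 b + cc v ^ 2 * zp v l 2 2 b +
      E2 * kn v l 2 b 0 ∧ kn v l 3 3 b = kn v l 2 2 b + cc v ^ 2 * zn v l 2 2 b +
        kp v l 2 b 0 := by
    intro b hb
    obtain ⟨_, _, p, q⟩ := R2 b hb
    have e1 : ((2 : ℕ) : ℤ) - 1 = 1 := by norm_num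
    have e2 : v ^ ((2 : ℕ) : ℤ) = v ^ 2 := by norm_cast
    rw [e1, e2, b1, cc_one, one_mul, cc_pow] at p q
    exact ⟨p, q⟩
  have C : kp v l 3 3 3 = (cc v + cc v⁻¹) * kp v l 2 2 2 + cc v ^ 3 * zp v l 2 2 2 +
      E1 * kp v l 2 2 0 + (cc v + cc v⁻¹) * E2 * kn v l 2 2 0 := by
    obtain ⟨_, p⟩ := R3
    have e1 : ((2 : ℕ) : ℤ) = 2 := by norm_num
    have e2 : v ^ ((2 : ℤ) + 1) = v ^ 3 := by norm_cast
    rw [e1, e2, b2, cc_pow, cc_add] at p
    exact p
  set V : QQ := cc v with hV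
  set W : QQ := cc v⁻¹ with hW
  have K : ∀ a b : ℕ, b ≤ a → a ≤ 3 → kp v l 3 a b = kappa v a b ∧
      kn v l 3 a b = -cc (br v ((a : ℤ) - b)) := by
    intro a b hba ha
    interval_cases a <;> interval_cases b
    · have e : kappa v ((0 : ℕ) : ℤ) ((0 : ℕ) : ℤ) =
          cc (br v (-1) * br v (-2)) + cc (br v 0 * br v (-2)) * E1 +
          cc (br v 0 * br v (-1)) * E2 := rfl
      have e1 : br v (((0 : ℕ) : ℤ) - ((0 : ℕ) : ℤ)) = br v 0 := rfl
      obtain ⟨p, q⟩ := A 0 0 (by norm_num)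
      rw [p, q, e, e1, z00, y00]
      simp only [b0, b1, b2, b3, bm1, bm2, cc_mul, cc_add, cc_sub, cc_neg, cc_one, cc_zero,
        cc_pow, cc_two, mul_zero, zero_mul, mul_one, one_mul, add_zero, zero_add, neg_zero, mul_neg,
        neg_mul, neg_neg, ← hV, ← hW]
      constructor
      · linear_combination (V + W) * hVW
      · trivial
    · have e : kappa v ((1 : ℕ) : ℤ) ((0 : ℕ) : ℤ) =
          cc (br v (-1) * br v (-1)) + cc (br v 0 * br v (-1)) * E1 +
          cc (br v 0 * br v 0) * E2 := rfl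
      have e1 : br v (((1 : ℕ) : ℤ) - ((0 : ℕ) : ℤ)) = br v 1 := rfl
      obtain ⟨p, q⟩ := A 1 0 (by norm_num)
      rw [p, q, e, e1, z10, y10]
      simp only [b0, b1, b2, b3, bm1, bm2, cc_mul, cc_add, cc_sub, cc_neg, cc_one, cc_zero,
        cc_pow, cc_two, mul_zero, zero_mul, mul_one, one_mul, add_zero, zero_add, neg_zero, mul_neg,
        neg_mul, neg_neg, ← hV, ← hW]
      constructor
      · linear_combination hVW
      · linear_combination -hVW
    · have e : kappa v ((1 : ℕ) : ℤ) ((1 : ℕ) : ℤ) =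
          cc (br v 0 * br v (-1)) + cc (br v 1 * br v (-1)) * E1 +
          cc (br v 1 * br v 0) * E2 := rfl
      have e1 : br v (((1 : ℕ) : ℤ) - ((1 : ℕ) : ℤ)) = br v 0 := rfl
      obtain ⟨p, q⟩ := A 1 1 (by norm_num)
      rw [p, q, e, e1, z11, y11]
      simp only [b0, b1, b2, b3, bm1, bm2, cc_mul, cc_add, cc_sub, cc_neg, cc_one, cc_zero,
        cc_pow, cc_two, mul_zero, zero_mul, mul_one, one_mul, add_zero, zero_add, neg_zero, mul_neg,
        neg_mul, neg_neg, ← hV, ← hW]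
      constructor
      · linear_combination -E1 * hVW
      · trivial
    · have e : kappa v ((2 : ℕ) : ℤ) ((0 : ℕ) : ℤ) =
          cc (br v (-1) * br v 0) + cc (br v 0 * br v 0) * E1 +
          cc (br v 0 * br v 1) * E2 := rfl
      have e1 : br v (((2 : ℕ) : ℤ) - ((0 : ℕ) : ℤ)) = br v 2 := rfl
      obtain ⟨p, q⟩ := A 2 0 (by norm_num)
      rw [p, q, e, e1, z20, y20]
      simp only [b0, b1, b2, b3, bm1, bm2, cc_mul, cc_add, cc_sub, cc_neg, cc_one, cc_zero,
        cc_pow, cc_two, mul_zero, zero_mul, mul_one, one_mul, add_zero, zero_add, neg_zero, mul_neg,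
        neg_mul, neg_neg, ← hV, ← hW]
      constructor
      · trivial
      · linear_combination -(V + W) * hVW
    · have e : kappa v ((2 : ℕ) : ℤ) ((1 : ℕ) : ℤ) =
          cc (br v 0 * br v 0) + cc (br v 1 * br v 0) * E1 +
          cc (br v 1 * br v 1) * E2 := rfl
      have e1 : br v (((2 : ℕ) : ℤ) - ((1 : ℕ) : ℤ)) = br v 1 := rfl
      obtain ⟨p, q⟩ := A 2 1 (by norm_num)
      rw [p, q, e, e1, z21, y21]
      simp only [b0, b1, b2, b3, bm1, bm2, cc_mul, cc_add, cc_sub, cc_neg, cc_one, cc_zero,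
        cc_pow, cc_two, mul_zero, zero_mul, mul_one, one_mul, add_zero, zero_add, neg_zero, mul_neg,
        neg_mul, neg_neg, ← hV, ← hW]
      constructor
      · linear_combination E2 * hVW
      · linear_combination -hVW
    · have e : kappa v ((2 : ℕ) : ℤ) ((2 : ℕ) : ℤ) =
          cc (br v 1 * br v 0) + cc (br v 2 * br v 0) * E1 +
          cc (br v 2 * br v 1) * E2 := rfl
      have e1 : br v (((2 : ℕ) : ℤ) - ((2 : ℕ) : ℤ)) = br v 0 := rfl
      obtain ⟨p, q⟩ := A 2 2 (by norm_num)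
      rw [p, q, e, e1, z22, y22]
      simp only [b0, b1, b2, b3, bm1, bm2, cc_mul, cc_add, cc_sub, cc_neg, cc_one, cc_zero,
        cc_pow, cc_two, mul_zero, zero_mul, mul_one, one_mul, add_zero, zero_add, neg_zero, mul_neg,
        neg_mul, neg_neg, ← hV, ← hW]
      constructor
      · linear_combination (V + W) * E2 * hVW
      · trivial
    · have e : kappa v ((3 : ℕ) : ℤ) ((0 : ℕ) : ℤ) =
          cc (br v (-1) * br v 1) + cc (br v 0 * br v 1) * E1 +
          cc (br v 0 * br v 2) * E2 := rfl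
      have e1 : br v (((3 : ℕ) : ℤ) - ((0 : ℕ) : ℤ)) = br v 3 := rfl
      obtain ⟨p, q⟩ := B 0 (by norm_num)
      rw [p, q, e, e1, k20, z20, n00, n20, y20, k00]
      simp only [b0, b1, b2, b3, bm1, bm2, cc_mul, cc_add, cc_sub, cc_neg, cc_one, cc_zero,
        cc_pow, cc_two, mul_zero, zero_mul, mul_one, one_mul, add_zero, zero_add, neg_zero, mul_neg,
        neg_mul, neg_neg, ← hV, ← hW]
      constructor
      · trivial
      · linear_combination (-(V ^ 2) - (V * W + 1)) * hVW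
    · have e : kappa v ((3 : ℕ) : ℤ) ((1 : ℕ) : ℤ) =
          cc (br v 0 * br v 1) + cc (br v 1 * br v 1) * E1 +
          cc (br v 1 * br v 2) * E2 := rfl
      have e1 : br v (((3 : ℕ) : ℤ) - ((1 : ℕ) : ℤ)) = br v 2 := rfl
      obtain ⟨p, q⟩ := B 1 (by norm_num)
      rw [p, q, e, e1, k21, z21, n10, n21, y21, k10]
      simp only [b0, b1, b2, b3, bm1, bm2, cc_mul, cc_add, cc_sub, cc_neg, cc_one, cc_zero,
        cc_pow, cc_two, mul_zero, zero_mul, mul_one, one_mul, add_zero, zero_add, neg_zero, mul_neg,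
        neg_mul, neg_neg, ← hV, ← hW]
      constructor
      · linear_combination V * E2 * hVW
      · linear_combination -V * hVW
    · have e : kappa v ((3 : ℕ) : ℤ) ((2 : ℕ) : ℤ) =
          cc (br v 1 * br v 1) + cc (br v 2 * br v 1) * E1 +
          cc (br v 2 * br v 2) * E2 := rfl
      have e1 : br v (((3 : ℕ) : ℤ) - ((2 : ℕ) : ℤ)) = br v 1 := rfl
      obtain ⟨p, q⟩ := B 2 (by norm_num)
      rw [p, q, e, e1, k22, z22, n20, n22, y22, k20]
      simp only [b0, b1, b2, b3, bm1, bm2, cc_mul, cc_add, cc_sub, cc_neg, cc_one, cc_zero,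
        cc_pow, cc_two, mul_zero, zero_mul, mul_one, one_mul, add_zero, zero_add, neg_zero, mul_neg,
        neg_mul, neg_neg, ← hV, ← hW]
      constructor
      · linear_combination E2 * (V ^ 2 + (V * W - 1)) * hVW
      · trivial
    · have e : kappa v ((3 : ℕ) : ℤ) ((3 : ℕ) : ℤ) =
          cc (br v 2 * br v 1) + cc (br v 3 * br v 1) * E1 +
          cc (br v 3 * br v 2) * E2 := rfl
      have e1 : br v (((3 : ℕ) : ℤ) - ((3 : ℕ) : ℤ)) = br v 0 := rfl
      rw [C, e, e1, (hR v l 3).2.2.2.2 3 |>.2, k22, z22, k20, n20]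
      simp only [b0, b1, b2, b3, bm1, bm2, cc_mul, cc_add, cc_sub, cc_neg, cc_one, cc_zero,
        cc_pow, cc_two, mul_zero, zero_mul, mul_one, one_mul, add_zero, zero_add, neg_zero, mul_neg,
        neg_mul, neg_neg, ← hV, ← hW]
      constructor
      · linear_combination (2 * E1 + (V + W) * E2 * V ^ 2) * hVW
      · trivial
  refine ⟨K, ?_⟩
  have K33 := (K 3 3 (by norm_num) (by norm_num)).1
  have K32 := K 3 2 (by norm_num) (by norm_num)
  have K22 := (K 2 2 (by norm_num) (by norm_num)).1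
  have e33 : kappa v ((3 : ℕ) : ℤ) ((3 : ℕ) : ℤ) = cc (br v 2 * br v 1) +
      cc (br v 3 * br v 1) * E1 + cc (br v 3 * br v 2) * E2 := rfl
  have e32 : kappa v ((3 : ℕ) : ℤ) ((2 : ℕ) : ℤ) = cc (br v 1 * br v 1) +
      cc (br v 2 * br v 1) * E1 + cc (br v 2 * br v 2) * E2 := rfl
  have e22 : kappa v ((2 : ℕ) : ℤ) ((2 : ℕ) : ℤ) = cc (br v 1 * br v 0) +
      cc (br v 2 * br v 0) * E1 + cc (br v 2 * br v 1) * E2 := rfl
  have e1 : br v (((3 : ℕ) : ℤ) - ((2 : ℕ) : ℤ)) = br v 1 := rfl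
  have e2 : v ^ (-2 : ℤ) = v⁻¹ ^ 2 := by
    rw [zpow_neg, inv_pow]
    norm_cast
  have e3 : BS v l 3 = kp v l 3 3 3 + E1 * kp v l 3 3 2 + cc (br v 2) * E2 * kn v l 3 3 2 +
      E2 * kp v l 3 2 2 := rfl
  rw [e3, K33, K32.1, K32.2, K22, e33, e32, e22, e1, F4, e2]
  simp only [b0, b1, b2, b3, cc_mul, cc_add, cc_one, cc_zero, cc_pow, ← hV, ← hW]
  linear_combination -2 * E1 * hVW

end Pool.Agent.LV2
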