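import Pool.Agent.Lib.MP_263316_co.LV2.Spec

/-!
MP_263316_co, project LV2, task INI2: the table at `i = 4` for `l 2 = 1`, `l 3 = 2`.
-/

set_option autoImplicit false
set_option linter.unusedSimpArgs false

namespace Pool.Agent.LV2

open Finset Pool.Agent.SWC Pool.Agent.SWK Pool.Agent.HOOK

namespace INI2Aux

theorem cc_add (x y : ℂ) : cc (x + y) = cc x + cc y := by simp [cc]
theorem cc_mul (x y : ℂ) : cc (x * y) = cc x * cc y := by simp [cc]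
theorem cc_neg (x : ℂ) : cc (-x) = -cc x := by simp [cc]
theorem cc_pow (x : ℂ) (n : ℕ) : cc (x ^ n) = cc x ^ n := by simp [cc]
theorem cc_one : cc 1 = 1 := by simp [cc]
theorem cc_zero : cc 0 = 0 := by simp [cc]

theorem sub_inv_ne {v : ℂ} (hv : Gen v) : v - v⁻¹ ≠ 0 := by
  intro h
  have h1 : v = v⁻¹ := sub_eq_zero.1 h
  have h2 : v ^ 2 = 1 := by
    rw [pow_two]
    nth_rewrite 2 [h1]
    exact mul_inv_cancel₀ hv.1
  exact hv.2 2 two_pos h2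

theorem br_neg (v : ℂ) (n : ℤ) : br v (-n) = -br v n := by
  unfold br
  rw [neg_neg, ← neg_div, neg_sub]

theorem br_eq {v : ℂ} (hv : Gen v) (n : ℕ) (z : ℂ) (h : v ^ n - v⁻¹ ^ n = z * (v - v⁻¹)) :
    br v (n : ℤ) = z := by
  unfold br
  rw [div_eq_iff (sub_inv_ne hv), zpow_neg, zpow_natCast, ← inv_pow]
  exact h

theorem brs {v : ℂ} (hv : Gen v) :
    br v (-2) = -(v + v⁻¹) ∧ br v (-1) = -1 ∧ br v 0 = 0 ∧ br v 1 = 1 ∧ br v 2 = v + v⁻¹ ∧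
      br v 3 = v ^ 2 + 1 + v⁻¹ ^ 2 ∧ br v 4 = v ^ 3 + v + v⁻¹ + v⁻¹ ^ 3 ∧
      br v 5 = v ^ 4 + v ^ 2 + 1 + v⁻¹ ^ 2 + v⁻¹ ^ 4 := by
  have h : v * v⁻¹ = 1 := mul_inv_cancel₀ hv.1
  have b0 : br v 0 = 0 := br_eq hv 0 0 (by simp)
  have b1 : br v 1 = 1 := br_eq hv 1 1 (by simp)
  have b2 : br v 2 = v + v⁻¹ := br_eq hv 2 _ (by ring)
  have b3 : br v 3 = v ^ 2 + 1 + v⁻¹ ^ 2 := br_eq hv 3 _ (by
    linear_combination (v - v⁻¹) * h)
  have b4 : br v 4 = v ^ 3 + v + v⁻¹ + v⁻¹ ^ 3 := br_eq hv 4 _ (by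
    linear_combination (v ^ 2 - v⁻¹ ^ 2) * h)
  have b5 : br v 5 = v ^ 4 + v ^ 2 + 1 + v⁻¹ ^ 2 + v⁻¹ ^ 4 := br_eq hv 5 _ (by
    linear_combination (v ^ 3 + v - v⁻¹ - v⁻¹ ^ 3) * h)
  refine ⟨?_, ?_, b0, b1, b2, b3, b4, b5⟩
  · rw [br_neg, b2]
  · rw [br_neg, b1]

theorem bk_C (v z : ℂ) (n : ℤ) : bk v (Polynomial.C z) n = cc (z * br v n) := by
  unfold bk
  rw [Polynomial.sum_C_index]
  · simp
  · simp [cc]

theorem bk_add (v : ℂ) (P Q : Polynomial ℂ) (n : ℤ) : bk v (P + Q) n = bk v P n + bk v Q n := by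
  unfold bk
  rw [Polynomial.sum_add_index]
  · intro i
    simp [cc]
  · intro i x y
    rw [add_mul, cc_add, add_mul]

theorem bk_X (v z : ℂ) (n : ℤ) :
    bk v ((1 + Polynomial.X) * Polynomial.C z) n = cc (z * br v n) + cc (z * br v (n - 1)) * E1 := by
  rw [add_mul, one_mul, bk_add, bk_C, mul_comm Polynomial.X, ← pow_one (Polynomial.X : Polynomial ℂ),
    Polynomial.C_mul_X_pow_eq_monomial]
  congr 1
  unfold bk
  rw [Polynomial.sum_monomial_index]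
  · simp
  · simp [cc]

/-- the constant `E(a)` -/
theorem ED_val (v : ℂ) (a : ℕ) (ha : 2 ≤ a) :
    ED v 1 (fun _ => 0) 1 a = Polynomial.C (br v ((a : ℤ) - 2)) := by
  unfold ED
  rw [if_neg one_ne_zero, if_pos ha]
  simp

theorem ED_one (v : ℂ) : ED v 1 (fun _ => 0) 1 1 = Polynomial.C 0 := by
  unfold ED
  rw [if_neg one_ne_zero, if_neg (by norm_num)]
  simp

theorem hp_val (v z z' : ℂ) (ρ : ℂ) (a b : ℤ) :
    hp v (Polynomial.C z) (Polynomial.C z') ρ a b =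
      (cc (z * br v (b + 2 - 3)) + E1 * cc (z * br v (b + 2 - 2)) + E2 * cc (z * br v (b + 2 - 1))) +
      ((cc (z' * br v (a - 3)) + cc (z' * br v (a - 3 - 1)) * E1) +
        E1 * (cc (z' * br v (a - 2)) + cc (z' * br v (a - 2 - 1)) * E1) +
        E2 * (cc (z' * br v (a - 1)) + cc (z' * br v (a - 1 - 1)) * E1)) +
      cc ρ * (cc (br v (b - 1) * br v (a - 2)) + cc (br v b * br v (a - 2)) * E1 +
        cc (br v b * br v (a - 1)) * E2) := by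
  unfold hp eta kappa
  simp only [bk_C, bk_X]

theorem hn_val (v z z' : ℂ) (ρ : ℂ) (a b : ℤ) :
    hn v (Polynomial.C z) (Polynomial.C z') ρ a b =
      (cc (z * br v (b - 3)) + E1 * cc (z * br v (b - 2)) + E2 * cc (z * br v (b - 1))) -
      (cc (z' * br v (a - 3)) + E1 * cc (z' * br v (a - 2)) + E2 * cc (z' * br v (a - 1))) -
      cc (ρ * br v (a - b)) := by
  unfold hn eta
  simp only [bk_C]

end INI2Aux

open INI2Aux in
theorem tINI2 (hREC : S_REC) (hTB : S_TB2) : S_INI2 := by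
  intro v l hv h0 h1 h2 h3 a b hb hba ha
  have hvw : v * v⁻¹ = 1 := mul_inv_cancel₀ hv.1
  have hVW : cc v * cc v⁻¹ = 1 := by rw [← cc_mul, hvw, cc_one]
  obtain ⟨c2, c1, b0, b1, b2, b3, b4, b5⟩ := brs hv
  obtain ⟨⟨-, -, p11, -, p21, p22⟩, ⟨-, -, n21⟩, ⟨-, -, k11, -, k21, k22⟩, ⟨-, -, m21⟩⟩ :=
    hTB v l hv h0 h1
  obtain ⟨r1, r2, ⟨r3, r4⟩, -, r5⟩ := hREC v l 2
  obtain ⟨s1, s2, ⟨-, s4⟩, -, -⟩ := hREC v l 3
  obtain ⟨-, -, -, -, t5⟩ := hREC v l 4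
  obtain ⟨-, -, -, -, u5⟩ := hREC v l 3
  simp only [h2, Nat.cast_one] at r1 r2 r3 r4
  simp only [h3, Nat.cast_ofNat] at s1 s2 s4
  norm_num at r1 r2 r3 r4 s1 s2 s4
  -- the values at `i = 3`
  have A11 := r1 1 1 (by norm_num)
  have A21 := r1 2 1 (by norm_num)
  have A22 := r1 2 2 (by norm_num)
  have B1 := r2 1 (by norm_num)
  have B2 := r2 2 (by norm_num)
  have w1 := r5 1
  have w2 := r5 2
  have w4 := t5 4
  have x3 := u5 3
  have e1 : ED v 1 (fun _ => 0) 1 1 = Polynomial.C 0 := ED_one v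
  have e2 : ED v 1 (fun _ => 0) 1 2 = Polynomial.C 0 := by
    rw [ED_val v 2 le_rfl, ← b0]
    norm_num
  have e3 : ED v 1 (fun _ => 0) 1 3 = Polynomial.C 1 := by
    rw [ED_val v 3 (by norm_num), ← b1]
    norm_num
  have e4 : ED v 1 (fun _ => 0) 1 4 = Polynomial.C (v + v⁻¹) := by
    rw [ED_val v 4 (by norm_num), ← b2]
    norm_num
  simp only [p11, p21, p22, n21, k11, k21, k22, m21, w1.1, w1.2, w2.1, w2.2, c1, b0, b1, b2,
    cc_add, cc_mul, cc_neg, cc_one, cc_zero, cc_pow, mul_zero, zero_mul, zero_add, add_zero,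
    one_mul] at A11 A21 A22 B1 B2 r3 r4 s4
  obtain ⟨zA11, nA11, kA11, mA11⟩ := A11
  obtain ⟨zA21, nA21, kA21, mA21⟩ := A21
  obtain ⟨zA22, nA22, kA22, mA22⟩ := A22
  obtain ⟨zB1, nB1, kB1, mB1⟩ := B1
  obtain ⟨zB2, nB2, kB2, mB2⟩ := B2
  have hcase : (a = 1 ∧ b = 1) ∨ (a = 2 ∧ b = 1) ∨ (a = 2 ∧ b = 2) ∨ (a = 3 ∧ b = 1) ∨
      (a = 3 ∧ b = 2) ∨ (a = 3 ∧ b = 3) ∨ (a = 4 ∧ b = 1) ∨ (a = 4 ∧ b = 2) ∨ (a = 4 ∧ b = 3) ∨
      (a = 4 ∧ b = 4) := by omega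
  rcases hcase with ⟨rfl, rfl⟩ | ⟨rfl, rfl⟩ | ⟨rfl, rfl⟩ | ⟨rfl, rfl⟩ | ⟨rfl, rfl⟩ |
    ⟨rfl, rfl⟩ | ⟨rfl, rfl⟩ | ⟨rfl, rfl⟩ | ⟨rfl, rfl⟩ | ⟨rfl, rfl⟩
  · have G := s1 1 1 (by norm_num)
    rw [G.2.2.1, G.2.2.2, e1, hp_val, hn_val]
    simp only [Nat.cast_ofNat, Nat.cast_one, Int.reduceAdd, Int.reduceSub, Int.reduceNeg, c2, c1, b0, b1,
      b2, b3, b4, b5, cc_add, cc_mul, cc_neg, cc_one, cc_zero, cc_pow, zA11, nA11, kA11, mA11]
    constructor <;> grind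
  · have G := s1 2 1 (by norm_num)
    rw [G.2.2.1, G.2.2.2, e2, e1, hp_val, hn_val]
    simp only [Nat.cast_ofNat, Nat.cast_one, Int.reduceAdd, Int.reduceSub, Int.reduceNeg, c2, c1, b0, b1,
      b2, b3, b4, b5, cc_add, cc_mul, cc_neg, cc_one, cc_zero, cc_pow, zA21, nA21, kA21, mA21]
    constructor <;> grind
  · have G := s1 2 2 (by norm_num)
    rw [G.2.2.1, G.2.2.2, e2, hp_val, hn_val]
    simp only [Nat.cast_ofNat, Nat.cast_one, Int.reduceAdd, Int.reduceSub, Int.reduceNeg, c2, c1, b0, b1,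
      b2, b3, b4, b5, cc_add, cc_mul, cc_neg, cc_one, cc_zero, cc_pow, zA22, nA22, kA22, mA22]
    constructor <;> grind
  · have G := s1 3 1 (by norm_num)
    rw [G.2.2.1, G.2.2.2, e3, e1, hp_val, hn_val]
    simp only [Nat.cast_ofNat, Nat.cast_one, Int.reduceAdd, Int.reduceSub, Int.reduceNeg, c2, c1, b0, b1,
      b2, b3, b4, b5, cc_add, cc_mul, cc_neg, cc_one, cc_zero, cc_pow, zB1, nB1, kB1, mB1]
    constructor <;> grind
  · have G := s1 3 2 (by norm_num)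
    rw [G.2.2.1, G.2.2.2, e3, e2, hp_val, hn_val]
    simp only [Nat.cast_ofNat, Nat.cast_one, Int.reduceAdd, Int.reduceSub, Int.reduceNeg, c2, c1, b0, b1,
      b2, b3, b4, b5, cc_add, cc_mul, cc_neg, cc_one, cc_zero, cc_pow, zB2, nB2, kB2, mB2]
    constructor <;> grind
  · have G := s1 3 3 (by norm_num)
    rw [G.2.2.1, G.2.2.2, e3, hp_val, hn_val]
    simp only [Nat.cast_ofNat, Nat.cast_one, Int.reduceAdd, Int.reduceSub, Int.reduceNeg, c2, c1, b0, b1,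
      b2, b3, b4, b5, cc_add, cc_mul, cc_neg, cc_one, cc_zero, cc_pow, r3, r4, x3.1, x3.2]
    constructor <;> grind
  · have G := s2 1 (by norm_num)
    rw [G.2.2.1, G.2.2.2, e4, e1, hp_val, hn_val]
    simp only [Nat.cast_ofNat, Nat.cast_one, Int.reduceAdd, Int.reduceSub, Int.reduceNeg, c2, c1, b0, b1,
      b2, b3, b4, b5, cc_add, cc_mul, cc_neg, cc_one, cc_zero, cc_pow, zB1, nB1, kB1, mB1,
      zA11, nA11, kA11, mA11]
    constructor <;> grind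
  · have G := s2 2 (by norm_num)
    rw [G.2.2.1, G.2.2.2, e4, e2, hp_val, hn_val]
    simp only [Nat.cast_ofNat, Nat.cast_one, Int.reduceAdd, Int.reduceSub, Int.reduceNeg, c2, c1, b0, b1,
      b2, b3, b4, b5, cc_add, cc_mul, cc_neg, cc_one, cc_zero, cc_pow, zB2, nB2, kB2, mB2,
      zA21, nA21, kA21, mA21]
    constructor
    · linear_combination (cc v⁻¹ * E2) * hVW
    · linear_combination (cc v * E2) * hVW
  · have G := s2 3 (by norm_num)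
    rw [G.2.2.1, G.2.2.2, e4, e3, hp_val, hn_val]
    simp only [Nat.cast_ofNat, Nat.cast_one, Int.reduceAdd, Int.reduceSub, Int.reduceNeg, c2, c1, b0, b1,
      b2, b3, b4, b5, cc_add, cc_mul, cc_neg, cc_one, cc_zero, cc_pow, r3, r4, x3.1, x3.2,
      zB1, nB1, kB1, mB1]
    constructor <;> grind
  · rw [s4, w4.2, e4, hp_val, hn_val]
    simp only [Nat.cast_ofNat, Nat.cast_one, Int.reduceAdd, Int.reduceSub, Int.reduceNeg, c2, c1, b0, b1,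
      b2, b3, b4, b5, cc_add, cc_mul, cc_neg, cc_one, cc_zero, cc_pow, r3, r4, kB1, mB1]
    constructor <;> grind

end Pool.Agent.LV2
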