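import Pool.Agent.Lib.MP_263316_co.LV2.Spec

/-!
MP_263316_co, project LV2: the table depends only on the degrees below the level, the first
triangle exists, and the three term identity of the table.
-/

set_option autoImplicit false

namespace Pool.Agent.LV2

open Finset Pool.Agent.SWC Pool.Agent.SWK Pool.Agent.HOOK

namespace KCAux

theorem br2 {v : ℂ} (hv : v ≠ 0) (h : v - v⁻¹ ≠ 0) : br v 2 = v + v⁻¹ := by
  unfold br
  rw [div_eq_iff h, zpow_neg]
  have h2 : v ^ (2 : ℤ) = v ^ 2 := by norm_cast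
  rw [h2]
  field_simp
  ring

theorem br_step {v : ℂ} (hv : v ≠ 0) (h : v - v⁻¹ ≠ 0) (n : ℤ) :
    br v 2 * br v (n - 1) = br v n + br v (n - 2) := by
  rw [br2 hv h]
  unfold br
  have e1 : v ^ (n - 1) = v ^ n * v⁻¹ := by
    rw [zpow_sub₀ hv, zpow_one, div_eq_mul_inv]
  have e2 : v ^ (-(n - 1)) = v ^ (-n) * v := by
    rw [show -(n - 1) = -n + 1 by ring, zpow_add₀ hv, zpow_one]
  have e3 : v ^ (n - 2) = v ^ n * (v⁻¹ * v⁻¹) := by
    rw [show n - 2 = (n - 1) - 1 by ring, zpow_sub₀ hv, zpow_one, e1, div_eq_mul_inv]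
    ring
  have e4 : v ^ (-(n - 2)) = v ^ (-n) * (v * v) := by
    rw [show -(n - 2) = -n + 1 + 1 by ring, zpow_add₀ hv, zpow_add₀ hv, zpow_one]
    ring
  rw [e1, e2, e3, e4, ← add_div, ← mul_div_assoc]
  congr 1
  have h1 : v * v⁻¹ = 1 := mul_inv_cancel₀ hv
  generalize v⁻¹ = w at *
  generalize v ^ n = X at *
  generalize v ^ (-n) = Y at *
  linear_combination (X - Y) * h1

theorem pw_step {v : ℂ} (hv : v ≠ 0) (h : v - v⁻¹ ≠ 0) (n : ℤ) :
    br v 2 * v ^ n = v ^ (n + 1) + v ^ (n - 1) := by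
  rw [br2 hv h, zpow_add₀ hv, zpow_sub₀ hv, zpow_one, div_eq_mul_inv]
  ring

theorem cc_mul (a b : ℂ) : cc (a * b) = cc a * cc b := by
  simp only [cc, map_mul]

theorem cc_add (a b : ℂ) : cc (a + b) = cc a + cc b := by
  simp only [cc, map_add]

end KCAux

open KCAux

theorem tKC : S_KC := by
  intro R _ _ v e1 e2 ω l l' i
  induction i with
  | zero => intro _ a b; rfl
  | succ i ih =>
    intro h a b
    have hl : l i = l' i := h i (Nat.lt_succ_self i)
    have ih' := ih (fun j hj => h j (Nat.lt_succ_of_lt hj))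
    simp only [K, hl, ih']

theorem tTRIE : S_TRIE := by
  intro l n hA hex
  classical
  obtain ⟨h0, hA⟩ := hA
  obtain ⟨hj1, hj2⟩ := Nat.find_spec hex
  have hmin : ∀ i, i < Nat.find hex → l i ≤ 1 := by
    intro i hi
    by_contra hc
    exact Nat.find_min hex hi ⟨lt_trans hi hj1, by omega⟩
  generalize Nat.find hex = j at hj1 hj2 hmin
  have hne0 : j ≠ 0 := by
    rintro rfl
    omega
  have hne1 : j ≠ 1 := by
    rintro rfl
    have := (hA 0 (by omega)).2
    simp only [zero_add] at this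
    omega
  obtain ⟨r, rfl⟩ : ∃ r, j = r + 2 := ⟨j - 2, by omega⟩
  refine ⟨r, hj1, ?_, ?_⟩
  · intro i hi1 hi2
    obtain ⟨k, rfl⟩ : ∃ k, i = k + 1 := ⟨i - 1, by omega⟩
    have h1 := (hA k (by omega)).1
    have h2 := hmin (k + 1) (by omega)
    omega
  · have h1 := (hA (r + 1) hj1).2
    have h2 := hmin (r + 1) (by omega)
    have h3 : l (r + 1 + 1) = l (r + 2) := rfl
    omega

theorem tID : S_REC → S_ID := by
  intro hR v l hG i
  obtain ⟨hv, hG⟩ := hG
  have h : v - v⁻¹ ≠ 0 := by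
    intro hc
    apply hG 2 (by norm_num)
    have h1 : v = v⁻¹ := sub_eq_zero.mp hc
    rw [pow_two]
    nth_rewrite 2 [h1]
    exact mul_inv_cancel₀ hv
  obtain ⟨r1, r2, ⟨-, r3⟩, -, r5⟩ := hR v l i
  obtain ⟨-, -, a1, -⟩ := r1 i i le_rfl
  obtain ⟨-, -, a2, a3⟩ := r2 i le_rfl
  obtain ⟨z1, z2⟩ := r5 i
  rw [r3, a2, a3, a1, z1, z2]
  have b1 := congrArg cc (br_step hv h (l i : ℤ))
  have b2 := congrArg cc (pw_step hv h (l i : ℤ))
  rw [cc_mul, cc_add] at b1 b2
  linear_combination (-(kp v l i i i)) * b1 - zp v l i i i * b2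

end Pool.Agent.LV2
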