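import Pool.Agent.Lib.MP_263316_co.LV2.Spec

/-!
MP_263316_co, project LV2, task LINK: the link between the sums over pairs of stable sets and the
table `K`.
-/

set_option autoImplicit false

namespace Pool.Agent.LV2

open Finset Pool.Agent.SWC Pool.Agent.SWK Pool.Agent.HOOK

namespace LINKAux

theorem wadd (R : Type) [CommRing R] [Algebra ℂ R] {v : ℂ} (hv : v ≠ 0) (a b : ℤ) :
    algebraMap ℂ R (v ^ (a + b)) = algebraMap ℂ R (v ^ a) * algebraMap ℂ R (v ^ b) := by
  rw [zpow_add₀ hv, map_mul]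

theorem qn_eq (R : Type) [CommRing R] [Algebra ℂ R] {v : ℂ} (h : v ^ 2 ≠ 1) (l : ℕ) :
    qn (algebraMap ℂ R (v ^ 2)) l = algebraMap ℂ R (((v ^ 2) ^ l - 1) / (v ^ 2 - 1)) := by
  unfold qn
  rw [← geom_sum_eq h l, map_sum]
  apply sum_congr rfl
  intro i _
  exact (map_pow _ _ _).symm

theorem br_eq {v : ℂ} (hv : v ≠ 0) (h : v ^ 2 ≠ 1) (l k : ℤ) :
    v ^ (l - 1 + k) * br v (l - k) = (v ^ (2 * l) - v ^ (2 * k)) / (v ^ 2 - 1) := by
  have h1 : v ^ 2 - 1 ≠ 0 := sub_ne_zero.mpr h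
  have hd : v - v⁻¹ = (v ^ 2 - 1) / v := by
    field_simp
  unfold br
  rw [hd, div_div_eq_mul_div, mul_div_assoc', div_left_inj' h1]
  have e1 : v ^ (l - 1 + k) * ((v ^ (l - k) - v ^ (-(l - k))) * v) =
      v ^ (l - 1 + k) * v ^ (l - k) * v - v ^ (l - 1 + k) * v ^ (-(l - k)) * v := by ring
  rw [e1, ← zpow_add₀ hv, ← zpow_add₀ hv]
  nth_rewrite 2 [← zpow_one v]
  nth_rewrite 4 [← zpow_one v]
  rw [← zpow_add₀ hv, ← zpow_add₀ hv]
  congr 1
  · congr 1
    ring
  · congr 1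
    ring

theorem pw (v : ℂ) (l : ℕ) : (v ^ 2) ^ l = v ^ (2 * (l : ℤ)) := by
  rw [← pow_mul, ← zpow_natCast]
  push_cast
  rfl

theorem zz (R : Type) [CommRing R] [Algebra ℂ R] {v : ℂ} (hv : v ≠ 0) (h : v ^ 2 ≠ 1) (ω : R)
    (l k : ℕ) :
    qn (algebraMap ℂ R (v ^ 2)) l + ω * (algebraMap ℂ R (v ^ 2)) ^ l -
      algebraMap ℂ R (((v ^ 2) ^ k - 1) / (v ^ 2 - 1)) =
      algebraMap ℂ R (v ^ ((l : ℤ) - 1 + k)) * bz v ω ((l : ℤ) - k) := by
  have h2 : v ^ ((l : ℤ) - 1 + k) * v ^ ((l : ℤ) - k + 1) = (v ^ 2) ^ l := by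
    rw [pw, ← zpow_add₀ hv]
    congr 1
    ring
  have h3 : (v ^ (2 * (l : ℤ)) - v ^ (2 * (k : ℤ))) / (v ^ 2 - 1) =
      ((v ^ 2) ^ l - 1) / (v ^ 2 - 1) - ((v ^ 2) ^ k - 1) / (v ^ 2 - 1) := by
    rw [pw, pw]
    ring
  unfold bz
  rw [qn_eq R h, ← map_pow, mul_add, ← map_mul, br_eq hv h, ← mul_assoc, ← map_mul, h2, h3,
    map_sub]
  ring

theorem z0 (R : Type) [CommRing R] [Algebra ℂ R] {v : ℂ} (hv : v ≠ 0) (h : v ^ 2 ≠ 1) (ω : R)
    (l : ℕ) :
    qn (algebraMap ℂ R (v ^ 2)) l + ω * (algebraMap ℂ R (v ^ 2)) ^ l =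
      algebraMap ℂ R (v ^ ((l : ℤ) - 1)) * bz v ω (l : ℤ) := by
  have := zz R hv h ω l 0
  simpa using this

theorem z1 (R : Type) [CommRing R] [Algebra ℂ R] {v : ℂ} (hv : v ≠ 0) (h : v ^ 2 ≠ 1) (ω : R)
    (l : ℕ) :
    qn (algebraMap ℂ R (v ^ 2)) l + ω * (algebraMap ℂ R (v ^ 2)) ^ l - 1 =
      algebraMap ℂ R (v ^ (l : ℤ)) * bz v ω ((l : ℤ) - 1) := by
  have := zz R hv h ω l 1
  have h1 : v ^ 2 - 1 ≠ 0 := sub_ne_zero.mpr h
  rw [pow_one, div_self h1, map_one, Nat.cast_one, sub_add_cancel] at this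
  exact this

theorem z2 (R : Type) [CommRing R] [Algebra ℂ R] {v : ℂ} (hv : v ≠ 0) (h : v ^ 2 ≠ 1) (ω : R)
    (l : ℕ) :
    qn (algebraMap ℂ R (v ^ 2)) l + ω * (algebraMap ℂ R (v ^ 2)) ^ l - 1 -
      algebraMap ℂ R (v ^ 2) =
      algebraMap ℂ R (v ^ ((l : ℤ) + 1)) * bz v ω ((l : ℤ) - 2) := by
  have := zz R hv h ω l 2
  have h1 : v ^ 2 - 1 ≠ 0 := sub_ne_zero.mpr h
  have h2 : ((v ^ 2) ^ 2 - 1) / (v ^ 2 - 1) = 1 + v ^ 2 := by
    rw [div_eq_iff h1]
    ring
  rw [h2, map_add, map_one, Nat.cast_ofNat] at this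
  have h3 : (l : ℤ) - 1 + 2 = l + 1 := by ring
  rw [h3] at this
  rw [← this]
  ring

section table

variable {R : Type} [CommRing R] [Algebra ℂ R] (v : ℂ) (e1 e2 ω : R) (l : ℕ → ℕ)

theorem K_le {i a : ℕ} (h : a ≤ i) (b : ℕ) : K v e1 e2 ω l (i + 1) a b =
    (bz v ω ((l i : ℤ) - 2) * (K v e1 e2 ω l i a b).1,
      bz v ω ((l i : ℤ) - 2) * (K v e1 e2 ω l i a b).2) := by
  show (if a ≤ i then _ else _) = _
  exact if_pos h

theorem K_mid {i b : ℕ} (h : b ≤ i) : K v e1 e2 ω l (i + 1) (i + 1) b =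
    (bz v ω ((l i : ℤ) - 1) * (K v e1 e2 ω l i i b).1 + e2 * (K v e1 e2 ω l i b (i - l i)).2,
      bz v ω ((l i : ℤ) - 1) * (K v e1 e2 ω l i i b).2 + (K v e1 e2 ω l i b (i - l i)).1) := by
  show (if i + 1 ≤ i then _ else if b ≤ i then _ else _) = _
  rw [if_neg (by omega), if_pos h]

theorem K_top (i : ℕ) : K v e1 e2 ω l (i + 1) (i + 1) (i + 1) =
    (bz v ω (l i : ℤ) * (K v e1 e2 ω l i i i).1 + e1 * (K v e1 e2 ω l i i (i - l i)).1 +
        algebraMap ℂ R (br v 2) * e2 * (K v e1 e2 ω l i i (i - l i)).2, 0) := by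
  show (if i + 1 ≤ i then _ else if i + 1 ≤ i then _ else _) = _
  rw [if_neg (by omega), if_neg (by omega)]

end table

theorem NL_eq {g : ℕ → ℕ} (hg : Monotone g) {n i : ℕ} (hc : Cn g n) (hi : i < n) :
    NL g (range i) i = Ico (i - ld g i) i := by
  rcases Nat.eq_zero_or_pos i with rfl | h
  · simp [NL]
  · exact (NL_range hg h (hc i h hi)).1

theorem first_mono {g : ℕ → ℕ} (hg : Monotone g) {n i : ℕ} (hc : Cn g n) (hi : i < n) :
    (i - 1) - ld g (i - 1) ≤ i - ld g i := by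
  by_cases h : i ≤ 1
  · have : i - 1 = 0 := by omega
    rw [this]
    omega
  · push Not at h
    obtain ⟨h1, h2⟩ := NL_range hg (by omega : 0 < i) (hc i (by omega) hi)
    obtain ⟨h3, h4⟩ := NL_range hg (by omega : 0 < i - 1) (hc (i - 1) (by omega) (by omega))
    have h5 : i - ld g i ∈ NL g (range i) i := by
      rw [h1, Finset.mem_Ico]
      omega
    unfold NL at h5
    rw [Finset.mem_filter] at h5
    by_cases h6 : i - ld g i = i - 1
    · omega
    · have h7 : i - ld g i ∈ NL g (range (i - 1)) (i - 1) := by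
        unfold NL
        rw [Finset.mem_filter, Finset.mem_range]
        refine ⟨by omega, by omega, ?_⟩
        omega
      rw [h3, Finset.mem_Ico] at h7
      exact h7.1

theorem ico_succ {b i : ℕ} (h : b ≤ i) : Ico b (i + 1) = insert i (Ico b i) := by
  ext u
  simp only [Finset.mem_Ico, Finset.mem_insert]
  omega

theorem br_two {v : ℂ} (hv : v ≠ 0) (h : v ^ 2 ≠ 1) : br v 2 * v ^ 2 = v * (1 + v ^ 2) := by
  have h1 : v ^ 2 - 1 ≠ 0 := sub_ne_zero.mpr h
  have h2 := br_eq hv h 2 0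
  have e1 : v ^ ((2 : ℤ) - 1 + 0) = v := by norm_num
  have e2 : v ^ (2 * (2 : ℤ)) = v ^ 4 := by norm_cast
  have e3 : v ^ (2 * (0 : ℤ)) = 1 := by norm_num
  rw [e1, e2, e3, sub_zero, eq_div_iff h1] at h2
  have h3 : (v ^ 2 - 1) * (br v 2 * v ^ 2) = (v ^ 2 - 1) * (v * (1 + v ^ 2)) := by
    linear_combination v * h2
  exact mul_left_cancel₀ h1 h3

end LINKAux

open LINKAux in
theorem tLINK : S_COMB → S_LINK := by
  intro hcomb R _ _ v hv hv2 g hg n hc ω y1 y2 q e1 e2 hq he1 he2 i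
  obtain ⟨hA, hB, hC⟩ := hcomb R g q ω y1 y2
  induction i with
  | zero =>
    intro _
    have hW : algebraMap ℂ R (v ^ (1 : ℤ)) * algebraMap ℂ R v⁻¹ = 1 := by
      rw [← map_mul, zpow_one, mul_inv_cancel₀ hv, map_one]
    have hG1 : G1 g q ω y1 y2 ∅ ∅ = y1 := by
      rw [(hB ∅ ∅).2.2.1, hC, mul_one]
    have hG2 : G2 g q ω y1 y2 ∅ ∅ = y2 := by
      rw [(hB ∅ ∅).2.2.2, hC, mul_one]
    have hK1 : ∀ a b, (K v e1 e2 ω (ld g) 0 a b).1 = algebraMap ℂ R v⁻¹ := fun _ _ => rfl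
    have hK2 : ∀ a b, (K v e1 e2 ω (ld g) 0 a b).2 = 0 := fun _ _ => rfl
    have hE : En g 0 = 0 := by
      unfold En
      rw [Finset.range_zero, Finset.sum_empty]
    refine ⟨?_, ?_⟩
    · rw [Finset.range_zero, hC, hK1, hE]
      simp only [Nat.cast_zero, zero_add, sub_zero]
      exact hW.symm
    · intro b hb _
      obtain rfl : b = 0 := by omega
      rw [Finset.range_zero, Finset.Ico_self, hE]
      refine ⟨?_, ?_, ?_⟩
      · rw [hG1, hK1, hK2]
        simp only [Nat.cast_zero, zero_add, sub_zero, mul_zero, add_zero]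
        linear_combination (-y1) * hW
      · rw [hG2, hK1, hK2]
        simp only [Nat.cast_zero, zero_add, sub_zero, mul_zero, add_zero]
        linear_combination (-y2) * hW
      · intro a _ ha
        obtain rfl : a = 0 := by omega
        rw [Finset.Ico_self, (hB ∅ ∅).1, (hB ∅ ∅).2.1, hG1, hG2, hK1, hK2]
        simp only [Nat.cast_zero, zero_add, sub_zero, mul_zero, add_zero]
        constructor
        · linear_combination (-(y1 * y2)) * hW
        · linear_combination (-(y1 * y2)) * hW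
  | succ i ih =>
    intro hin
    obtain ⟨ih0, ihb⟩ := ih (by omega)
    have hNL := NL_eq hg hc (show i < n by omega)
    have hfm := first_mono hg hc (show i < n by omega)
    have haL : aL g (range i) i = ld g i := rfl
    have hld := ld_le g i
    set p := i - ld g i with hp
    have hpZ : (p : ℤ) = (i : ℤ) - (ld g i : ℤ) := by omega
    have hE : (En g (i + 1) : ℤ) = (En g i : ℤ) + (ld g i : ℤ) := by
      unfold En
      rw [Finset.sum_range_succ]
      push_cast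
      rfl
    have hZ0 : qn q (ld g i) + ω * q ^ ld g i =
        algebraMap ℂ R (v ^ ((ld g i : ℤ) - 1)) * bz v ω (ld g i : ℤ) := by
      rw [hq]
      exact z0 R hv hv2 ω (ld g i)
    have hZ1 : qn q (ld g i) + ω * q ^ ld g i - 1 =
        algebraMap ℂ R (v ^ (ld g i : ℤ)) * bz v ω ((ld g i : ℤ) - 1) := by
      rw [hq]
      exact z1 R hv hv2 ω (ld g i)
    have hZ2 : qn q (ld g i) + ω * q ^ ld g i - 1 - q =
        algebraMap ℂ R (v ^ ((ld g i : ℤ) + 1)) * bz v ω ((ld g i : ℤ) - 2) := by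
      rw [hq]
      exact z2 R hv hv2 ω (ld g i)
    have hqe : q * (y1 * y2) = e2 := by rw [he2, hq]
    have hrs : range (i + 1) = insert i (range i) := by
      ext u
      simp only [Finset.mem_range, Finset.mem_insert]
      omega
    have hsub : ∀ b, p ≤ b → Ico b i ⊆ NL g (range i) i := by
      intro b hb
      rw [hNL]
      exact Finset.Ico_subset_Ico hb le_rfl
    have hlt : ∀ u ∈ range i, u < i := fun u hu => Finset.mem_range.mp hu
    -- the sum `G0`
    have hG0 : G0 g q ω y1 y2 (range (i + 1)) =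
        algebraMap ℂ R (v ^ ((En g (i + 1) : ℤ) + 1 - (i + 1 : ℕ))) *
          (K v e1 e2 ω (ld g) (i + 1) (i + 1) (i + 1)).1 := by
      rw [hrs, (hA (range i) i hlt ∅ ∅ (Finset.empty_subset _) (Finset.empty_subset _)).1, haL,
        hNL, hZ0, ih0, (ihb p (by omega) hfm).1, (ihb p (by omega) hfm).2.1, K_top, hE]
      have x1 : algebraMap ℂ R (v ^ ((En g i : ℤ) + (ld g i : ℤ) + 1 - (i + 1 : ℕ))) =
          algebraMap ℂ R (v ^ ((ld g i : ℤ) - 1)) *
            algebraMap ℂ R (v ^ ((En g i : ℤ) + 1 - i)) := by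
        rw [← wadd R hv]
        congr 2
        push_cast
        ring
      have x2 : algebraMap ℂ R (v ^ ((En g i : ℤ) - p + 1)) =
          algebraMap ℂ R (v ^ ((En g i : ℤ) + (ld g i : ℤ) + 1 - (i + 1 : ℕ))) *
            algebraMap ℂ R v := by
        rw [← map_mul]
        congr 1
        nth_rewrite 3 [← zpow_one v]
        rw [← zpow_add₀ hv]
        congr 1
        push_cast
        omega
      have x3 : algebraMap ℂ R (br v 2) * e2 = algebraMap ℂ R v * (1 + q) * (y1 * y2) := by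
        rw [he2, hq, ← mul_assoc, ← map_mul, br_two hv hv2, map_mul, map_add, map_one]
      rw [x2]
      simp only
      rw [x3]
      linear_combination (-(bz v ω (ld g i : ℤ) * (K v e1 e2 ω (ld g) i i i).1)) * x1 -
        algebraMap ℂ R (v ^ ((En g i : ℤ) + (ld g i : ℤ) + 1 - (i + 1 : ℕ))) *
          (K v e1 e2 ω (ld g) i i p).1 * he1
    have hKtop2 : (K v e1 e2 ω (ld g) (i + 1) (i + 1) (i + 1)).2 = 0 := by
      rw [K_top]
    -- the sums `G1` and `G2`
    have hG1 : ∀ b, b ≤ i + 1 → p ≤ b → G1 g q ω y1 y2 (range (i + 1)) (Ico b (i + 1)) =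
        algebraMap ℂ R (v ^ ((En g (i + 1) : ℤ) - b + 1)) *
        (y1 * (K v e1 e2 ω (ld g) (i + 1) (i + 1) b).1 +
          y1 * y2 * (K v e1 e2 ω (ld g) (i + 1) (i + 1) b).2) := by
      intro b hb hpb
      rcases Nat.lt_or_ge i b with h | h
      · obtain rfl : b = i + 1 := by omega
        rw [Finset.Ico_self, (hB _ ∅).2.2.1, hG0, hKtop2]
        have x1 : (En g (i + 1) : ℤ) + 1 - (i + 1 : ℕ) = (En g (i + 1) : ℤ) - (i + 1 : ℕ) + 1 := by
          ring
        rw [x1]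
        ring
      · rw [ico_succ h, hrs, (hA (range i) i hlt ∅ (Ico b i) (Finset.empty_subset _)
          (hsub b hpb)).2.1, haL, hNL, hZ1, (ihb b h (by omega)).1,
          ((ihb p (by omega) hfm).2.2 b hpb h).1, K_mid v e1 e2 ω (ld g) h, hE]
        have x1 : algebraMap ℂ R (v ^ ((En g i : ℤ) + (ld g i : ℤ) - b + 1)) =
            algebraMap ℂ R (v ^ (ld g i : ℤ)) *
              algebraMap ℂ R (v ^ ((En g i : ℤ) - b + 1)) := by
          rw [← wadd R hv]
          congr 2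
          ring
        have x2 : (En g i : ℤ) + i - b - p + 1 = (En g i : ℤ) + (ld g i : ℤ) - b + 1 := by
          omega
        rw [x2, x1]
        simp only
        rw [← hqe]
        ring
    have hG2 : ∀ b, b ≤ i + 1 → p ≤ b → G2 g q ω y1 y2 (range (i + 1)) (Ico b (i + 1)) =
        algebraMap ℂ R (v ^ ((En g (i + 1) : ℤ) - b + 1)) *
        (y2 * (K v e1 e2 ω (ld g) (i + 1) (i + 1) b).1 +
          q * y1 * y2 * (K v e1 e2 ω (ld g) (i + 1) (i + 1) b).2) := by
      intro b hb hpb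
      rcases Nat.lt_or_ge i b with h | h
      · obtain rfl : b = i + 1 := by omega
        rw [Finset.Ico_self, (hB _ ∅).2.2.2, hG0, hKtop2]
        have x1 : (En g (i + 1) : ℤ) + 1 - (i + 1 : ℕ) = (En g (i + 1) : ℤ) - (i + 1 : ℕ) + 1 := by
          ring
        rw [x1]
        ring
      · rw [ico_succ h, hrs, (hA (range i) i hlt ∅ (Ico b i) (Finset.empty_subset _)
          (hsub b hpb)).2.2.1, haL, hNL, hZ1, (ihb b h (by omega)).2.1,
          ((ihb p (by omega) hfm).2.2 b hpb h).2, K_mid v e1 e2 ω (ld g) h, hE]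
        have x1 : algebraMap ℂ R (v ^ ((En g i : ℤ) + (ld g i : ℤ) - b + 1)) =
            algebraMap ℂ R (v ^ (ld g i : ℤ)) *
              algebraMap ℂ R (v ^ ((En g i : ℤ) - b + 1)) := by
          rw [← wadd R hv]
          congr 2
          ring
        have x2 : (En g i : ℤ) + i - b - p + 1 = (En g i : ℤ) + (ld g i : ℤ) - b + 1 := by
          omega
        rw [x2, x1]
        simp only
        rw [← hqe]
        ring
    refine ⟨hG0, ?_⟩
    intro b hb hpb'
    have hpb : p ≤ b := by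
      rw [Nat.add_sub_cancel] at hpb'
      omega
    refine ⟨hG1 b hb hpb, hG2 b hb hpb, ?_⟩
    intro a hba hai
    rcases Nat.lt_or_ge i a with h | h
    · obtain rfl : a = i + 1 := by omega
      have x1 : (En g (i + 1) : ℤ) + (i + 1 : ℕ) - (i + 1 : ℕ) - b + 1 =
          (En g (i + 1) : ℤ) - b + 1 := by ring
      rw [Finset.Ico_self, (hB _ _).1, (hB _ _).2.1, hG1 b hb hpb, hG2 b hb hpb, x1]
      constructor
      · ring
      · ring
    · have hbi : b ≤ i := by omega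
      obtain ⟨j1, j2⟩ := (ihb b hbi (by omega)).2.2 a hba h
      have x1 : algebraMap ℂ R (v ^ ((En g i : ℤ) + (ld g i : ℤ) + (i + 1 : ℕ) - a - b + 1)) =
          algebraMap ℂ R (v ^ ((ld g i : ℤ) + 1)) *
            algebraMap ℂ R (v ^ ((En g i : ℤ) + i - a - b + 1)) := by
        rw [← wadd R hv]
        congr 2
        push_cast
        ring
      obtain ⟨-, -, -, k1, k2⟩ := hA (range i) i hlt (Ico a i) (Ico b i) (hsub a (by omega))
        (hsub b hpb)
      rw [haL, hZ2] at k1 k2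
      rw [hE, x1, ico_succ h, ico_succ hbi, hrs, k1, k2, j1, j2, K_le v e1 e2 ω (ld g) h b]
      constructor
      · simp only
        ring
      · simp only
        ring

end Pool.Agent.LV2
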