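import Pool.Agent.Lib.MP_263316_co.LV2.Spec

/-!
MP_263316_co, project LV2: the partition sum with one large part (`S_PART3`).
-/

set_option autoImplicit false

namespace Pool.Agent.LV2

open Finset Pool.Agent.SWC Pool.Agent.SWK Pool.Agent.HOOK

namespace PART3Aux

/-- scalar of the part `d` -/
noncomputable def cf (m : ℕ) (s1 s2 : ℂ) (d : ℕ) : ℂ :=
  if d = 1 then s1 else if d = 2 then s2 else if d = m then -1 else
    if d = m + 1 then -s1 else if d = m + 2 then -s2 else 0

/-- exponent of the part `d` -/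
def ef (m d : ℕ) : ℕ := if d < m then d else d - m

theorem F_eq (m : ℕ) (hm : 3 ≤ m) (s1 s2 : ℂ) (F : ℕ → Polynomial ℂ)
    (h1 : F 1 = Polynomial.C s1 * Polynomial.X)
    (h2 : F 2 = Polynomial.C s2 * Polynomial.X ^ 2) (h3 : F m = -1)
    (h4 : F (m + 1) = -(Polynomial.C s1 * Polynomial.X))
    (h5 : F (m + 2) = -(Polynomial.C s2 * Polynomial.X ^ 2))
    (h6 : ∀ d, 0 < d → d ≠ 1 → d ≠ 2 → d ≠ m → d ≠ m + 1 → d ≠ m + 2 → F d = 0)
    (d : ℕ) (hd : 0 < d) :
    F d = Polynomial.C (cf m s1 s2 d) * Polynomial.X ^ ef m d := by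
  by_cases e1 : d = 1
  · subst e1
    have : ef m 1 = 1 := by unfold ef; rw [if_pos (by omega)]
    rw [this, h1, cf, if_pos rfl, pow_one]
  by_cases e2 : d = 2
  · subst e2
    have : ef m 2 = 2 := by unfold ef; rw [if_pos (by omega)]
    rw [this, h2, cf, if_neg (by omega), if_pos rfl]
  by_cases e3 : d = m
  · subst e3
    have : ef d d = 0 := by unfold ef; rw [if_neg (by omega)]; omega
    rw [this, h3, cf, if_neg e1, if_neg e2, if_pos rfl]
    simp
  by_cases e4 : d = m + 1
  · subst e4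
    have : ef m (m + 1) = 1 := by unfold ef; rw [if_neg (by omega)]; omega
    rw [this, h4, cf, if_neg e1, if_neg e2, if_neg e3, if_pos rfl]
    simp
  by_cases e5 : d = m + 2
  · subst e5
    have : ef m (m + 2) = 2 := by unfold ef; rw [if_neg (by omega)]; omega
    rw [this, h5, cf, if_neg e1, if_neg e2, if_neg e3, if_neg e4, if_pos rfl]
    simp
  · rw [h6 d hd e1 e2 e3 e4 e5, cf, if_neg e1, if_neg e2, if_neg e3, if_neg e4, if_neg e5]
    simp

theorem prod_eq (m : ℕ) (s1 s2 : ℂ) (F : ℕ → Polynomial ℂ)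
    (hF : ∀ d, 0 < d → F d = Polynomial.C (cf m s1 s2 d) * Polynomial.X ^ ef m d)
    (s : Multiset ℕ) : (∀ d ∈ s, 0 < d) →
    (s.map F).prod = Polynomial.C ((s.map (cf m s1 s2)).prod) *
      Polynomial.X ^ (s.map (ef m)).sum := by
  induction s using Multiset.induction_on with
  | empty => intro _; simp
  | cons d s ih =>
    intro h
    rw [Multiset.map_cons, Multiset.prod_cons, Multiset.map_cons, Multiset.prod_cons,
      Multiset.map_cons, Multiset.sum_cons, hF d (h d (Multiset.mem_cons_self d s)),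
      ih (fun x hx => h x (Multiset.mem_cons_of_mem hx)), Polynomial.C_mul, pow_add]
    ring

theorem sum_ef (m : ℕ) (hm : 3 ≤ m) (s : Multiset ℕ) :
    (∀ d ∈ s, d = 1 ∨ d = 2 ∨ d = m ∨ d = m + 1 ∨ d = m + 2) →
    (s.map (ef m)).sum + m * Multiset.card (s.filter (fun d => 3 ≤ d)) = s.sum := by
  induction s using Multiset.induction_on with
  | empty => intro _; simp
  | cons d s ih =>
    intro h
    have ih' := ih (fun x hx => h x (Multiset.mem_cons_of_mem hx))
    have hd := h d (Multiset.mem_cons_self d s)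
    rw [Multiset.map_cons, Multiset.sum_cons, Multiset.sum_cons]
    by_cases h3 : 3 ≤ d
    · rw [Multiset.filter_cons_of_pos (p := fun d : ℕ => 3 ≤ d) s h3, Multiset.card_cons,
        mul_add, mul_one]
      have : ef m d = d - m := by unfold ef; rw [if_neg (by omega)]
      have h4 : m ≤ d := by omega
      omega
    · rw [Multiset.filter_cons_of_neg (p := fun d : ℕ => 3 ≤ d) s h3]
      have : ef m d = d := by unfold ef; rw [if_pos (by omega)]
      omega

theorem two_one (s : Multiset ℕ) (h : ∀ d ∈ s, d = 1 ∨ d = 2) :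
    s = Multiset.replicate (s.count 2) 2 + Multiset.replicate (s.count 1) 1 := by
  ext d
  rw [Multiset.count_add, Multiset.count_replicate, Multiset.count_replicate]
  by_cases h1 : d = 1
  · subst h1
    simp
  by_cases h2 : d = 2
  · subst h2
    simp
  · have : d ∉ s := fun hd => by
      rcases h d hd with h | h
      · exact h1 h
      · exact h2 h
    rw [Multiset.count_eq_zero_of_notMem this, if_neg (fun h => h2 h.symm),
      if_neg (fun h => h1 h.symm)]

theorem cf_ne (m : ℕ) (s1 s2 : ℂ) (d : ℕ) (h : cf m s1 s2 d ≠ 0) :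
    d = 1 ∨ d = 2 ∨ d = m ∨ d = m + 1 ∨ d = m + 2 := by
  by_contra hc
  push Not at hc
  apply h
  rw [cf, if_neg hc.1, if_neg hc.2.1, if_neg hc.2.2.1, if_neg hc.2.2.2.1, if_neg hc.2.2.2.2]

/-- the partition as a total function -/
noncomputable def PP (n m : ℕ) (p : ℕ × ℕ) : n.Partition :=
  if h : 1 ≤ m + p.1 ∧ m + p.1 + 2 * p.2 ≤ n then lvP n (m + p.1) p.2 h.1 h.2
  else default

theorem PP_parts (n m : ℕ) (p : ℕ × ℕ) (h1 : 1 ≤ m + p.1) (h2 : m + p.1 + 2 * p.2 ≤ n) :
    (PP n m p).parts = (m + p.1) ::ₘ (Multiset.replicate p.2 2 +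
      Multiset.replicate (n - (m + p.1) - 2 * p.2) 1) := by
  unfold PP
  rw [dif_pos ⟨h1, h2⟩]
  rfl

theorem surj (n m : ℕ) (hm : 3 ≤ m) (μ : n.Partition)
    (h : ∀ d ∈ μ.parts, d = 1 ∨ d = 2 ∨ d = m ∨ d = m + 1 ∨ d = m + 2)
    (hs : (μ.parts.map (ef m)).sum + m = n) :
    ∃ p : ℕ × ℕ, p.1 < 3 ∧ m + p.1 + 2 * p.2 ≤ n ∧ PP n m p = μ := by
  have h1 := sum_ef m hm μ.parts h
  rw [μ.parts_sum] at h1
  have h2 : Multiset.card (μ.parts.filter (fun d => 3 ≤ d)) = 1 := by
    have h3 : m * Multiset.card (μ.parts.filter (fun d => 3 ≤ d)) = m * 1 := by omega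
    exact Nat.eq_of_mul_eq_mul_left (by omega) h3
  obtain ⟨x, hx⟩ := Multiset.card_eq_one.1 h2
  have hx1 : x ∈ μ.parts.filter (fun d => 3 ≤ d) := by rw [hx]; exact Multiset.mem_singleton_self x
  have hx2 := Multiset.mem_filter.1 hx1
  have hx3 := h x hx2.1
  set r := μ.parts.filter (fun d => ¬ 3 ≤ d) with hr
  have hsp : μ.parts = {x} + r := by
    rw [← hx, hr]
    exact (Multiset.filter_add_not _ _).symm
  have hr2 : ∀ d ∈ r, d = 1 ∨ d = 2 := by
    intro d hd
    have h5 := Multiset.mem_filter.1 hd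
    have h6 := h d h5.1
    omega
  have hr3 := two_one r hr2
  have hsum : x + (2 * r.count 2 + r.count 1) = n := by
    have h7 : μ.parts.sum = x + r.sum := by rw [hsp, Multiset.sum_add, Multiset.sum_singleton]
    have h8 : r.sum = 2 * r.count 2 + r.count 1 := by
      conv_lhs => rw [hr3]
      rw [Multiset.sum_add, Multiset.sum_replicate, Multiset.sum_replicate, smul_eq_mul,
        smul_eq_mul]
      ring
    rw [μ.parts_sum, h8] at h7
    exact h7.symm
  refine ⟨(x - m, r.count 2), ?_, ?_, ?_⟩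
  · show x - m < 3
    omega
  · show m + (x - m) + 2 * r.count 2 ≤ n
    omega
  · apply Nat.Partition.ext
    rw [PP_parts n m _ (by show 1 ≤ m + (x - m); omega)
      (by show m + (x - m) + 2 * r.count 2 ≤ n; omega)]
    have e1 : m + (x - m) = x := by omega
    have e2 : n - x - 2 * r.count 2 = r.count 1 := by omega
    show (m + (x - m)) ::ₘ (Multiset.replicate (r.count 2) 2 +
      Multiset.replicate (n - (m + (x - m)) - 2 * r.count 2) 1) = μ.parts
    rw [e1, e2, ← hr3, hsp]
    rfl

theorem inj (n m : ℕ) (hm : 3 ≤ m) (p p' : ℕ × ℕ) (h1 : m + p.1 + 2 * p.2 ≤ n)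
    (h2 : m + p'.1 + 2 * p'.2 ≤ n) (h : PP n m p = PP n m p') : p = p' := by
  have h3 : (PP n m p).parts = (PP n m p').parts := by rw [h]
  rw [PP_parts n m p (by omega) h1, PP_parts n m p' (by omega) h2] at h3
  have h4 := congrArg (Multiset.count 2) h3
  rw [Multiset.count_cons_of_ne (by omega), Multiset.count_cons_of_ne (by omega),
    Multiset.count_add, Multiset.count_add, Multiset.count_replicate,
    Multiset.count_replicate, Multiset.count_replicate, Multiset.count_replicate,
    if_pos rfl, if_neg (by omega), if_pos rfl, if_neg (by omega)] at h4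
  have h5 : p.2 = p'.2 := by omega
  have h6 := congrArg Multiset.card h3
  rw [Multiset.card_cons, Multiset.card_cons, Multiset.card_add, Multiset.card_add,
    Multiset.card_replicate, Multiset.card_replicate, Multiset.card_replicate,
    Multiset.card_replicate] at h6
  have h7 : p.1 = p'.1 := by omega
  exact Prod.ext h7 h5

theorem term (n m k : ℕ) (hm : 3 ≤ m) (hn : n = m + k) (s1 s2 : ℂ) (p : ℕ × ℕ)
    (hp : p.1 < 3) (h : m + p.1 + 2 * p.2 ≤ n) :
    ((PP n m p).parts.map (ef m)).sum = k ∧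
    ((PP n m p).parts.map (cf m s1 s2)).prod =
      (if p.1 = 0 then -1 else if p.1 = 1 then -s1 else -s2) *
        (s1 ^ (n - (m + p.1) - 2 * p.2) * s2 ^ p.2) := by
  rw [PP_parts n m p (by omega) h]
  constructor
  · rw [Multiset.map_cons, Multiset.sum_cons, Multiset.map_add, Multiset.sum_add,
      Multiset.map_replicate, Multiset.map_replicate, Multiset.sum_replicate,
      Multiset.sum_replicate, smul_eq_mul, smul_eq_mul]
    have e1 : ef m (m + p.1) = p.1 := by unfold ef; rw [if_neg (by omega)]; omega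
    have e2 : ef m 2 = 2 := by unfold ef; rw [if_pos (by omega)]
    have e3 : ef m 1 = 1 := by unfold ef; rw [if_pos (by omega)]
    rw [e1, e2, e3]
    omega
  · rw [Multiset.map_cons, Multiset.prod_cons, Multiset.map_add, Multiset.prod_add,
      Multiset.map_replicate, Multiset.map_replicate, Multiset.prod_replicate,
      Multiset.prod_replicate]
    have e2 : cf m s1 s2 2 = s2 := by unfold cf; rw [if_neg (by omega), if_pos rfl]
    have e3 : cf m s1 s2 1 = s1 := by unfold cf; rw [if_pos rfl]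
    have e1 : cf m s1 s2 (m + p.1) =
        if p.1 = 0 then -1 else if p.1 = 1 then -s1 else -s2 := by
      unfold cf
      rw [if_neg (by omega), if_neg (by omega)]
      by_cases h0 : p.1 = 0
      · rw [if_pos (by omega), if_pos h0]
      by_cases h1 : p.1 = 1
      · rw [if_neg (by omega), if_pos (by omega), if_neg h0, if_pos h1]
      · rw [if_neg (by omega), if_neg (by omega), if_pos (by omega), if_neg h0, if_neg h1]
    rw [e1, e2, e3]
    ring

end PART3Aux

open PART3Aux in
theorem tPART3 : S_PART3 := by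
  intro n m k hm hn s1 s2 F h1 h2 h3 h4 h5 h6 a
  classical
  have hF := F_eq m hm s1 s2 F h1 h2 h3 h4 h5 h6
  set t : n.Partition → ℂ := fun μ => if (μ.parts.map (ef m)).sum = k then
    a μ * (μ.parts.map (cf m s1 s2)).prod else 0 with ht
  have e1 : (∑ μ : n.Partition, Polynomial.C (a μ) * (μ.parts.map F).prod).coeff k =
      ∑ μ : n.Partition, t μ := by
    rw [Polynomial.finsetSum_coeff]
    refine Finset.sum_congr rfl fun μ _ => ?_
    rw [prod_eq m s1 s2 F hF μ.parts (fun d hd => μ.parts_pos hd), ← mul_assoc,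
      ← Polynomial.C_mul, Polynomial.coeff_C_mul_X_pow]
    show _ = if (μ.parts.map (ef m)).sum = k then
      a μ * (μ.parts.map (cf m s1 s2)).prod else 0
    by_cases hk : (μ.parts.map (ef m)).sum = k
    · rw [if_pos hk, if_pos hk.symm]
    · rw [if_neg hk, if_neg (fun h => hk h.symm)]
  set J : Finset (ℕ × ℕ) := (range 3 ×ˢ range (n + 1)).filter
    (fun p => m + p.1 + 2 * p.2 ≤ n) with hJ
  have hJm : ∀ p, p ∈ J ↔ p.1 < 3 ∧ m + p.1 + 2 * p.2 ≤ n := by
    intro p
    rw [hJ, Finset.mem_filter, Finset.mem_product, Finset.mem_range, Finset.mem_range]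
    constructor
    · rintro ⟨⟨h, _⟩, h'⟩
      exact ⟨h, h'⟩
    · rintro ⟨h, h'⟩
      exact ⟨⟨h, by omega⟩, h'⟩
  have e2 : ∑ μ : n.Partition, t μ = ∑ p ∈ J, t (PP n m p) := by
    rw [← Finset.sum_image (f := t) (g := PP n m)
      (fun p hp p' hp' h => inj n m hm p p' ((hJm p).1 hp).2 ((hJm p').1 hp').2 h)]
    symm
    apply Finset.sum_subset (Finset.subset_univ _)
    intro μ _ hμ
    by_contra hne
    apply hμ
    have hk : (μ.parts.map (ef m)).sum = k := by
      by_contra hk
      apply hne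
      show (if (μ.parts.map (ef m)).sum = k then
        a μ * (μ.parts.map (cf m s1 s2)).prod else 0) = 0
      rw [if_neg hk]
    have hall : ∀ d ∈ μ.parts, d = 1 ∨ d = 2 ∨ d = m ∨ d = m + 1 ∨ d = m + 2 := by
      intro d hd
      apply cf_ne m s1 s2
      intro h0
      apply hne
      show (if (μ.parts.map (ef m)).sum = k then
        a μ * (μ.parts.map (cf m s1 s2)).prod else 0) = 0
      rw [if_pos hk]
      have : (0 : ℂ) ∈ μ.parts.map (cf m s1 s2) := Multiset.mem_map.2 ⟨d, hd, h0⟩
      rw [Multiset.prod_eq_zero this, mul_zero]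
    obtain ⟨p, hp1, hp2, hp3⟩ := surj n m hm μ hall (by omega)
    exact Finset.mem_image.2 ⟨p, (hJm p).2 ⟨hp1, hp2⟩, hp3⟩
  have e3 : ∑ p ∈ J, t (PP n m p) = ∑ p ∈ range 3 ×ˢ range (n + 1),
      (if p.1 = 0 then -1 else if p.1 = 1 then -s1 else -s2) *
        (if h : 1 ≤ m + p.1 ∧ m + p.1 + 2 * p.2 ≤ n then
          a (lvP n (m + p.1) p.2 h.1 h.2) * s1 ^ (n - (m + p.1) - 2 * p.2) * s2 ^ p.2
          else 0) := by
    rw [hJ, Finset.sum_filter]
    refine Finset.sum_congr rfl fun p hp => ?_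
    rw [Finset.mem_product, Finset.mem_range, Finset.mem_range] at hp
    by_cases hc : m + p.1 + 2 * p.2 ≤ n
    · have hc' : 1 ≤ m + p.1 ∧ m + p.1 + 2 * p.2 ≤ n := ⟨by omega, hc⟩
      rw [if_pos hc, dif_pos hc']
      obtain ⟨q1, q2⟩ := term n m k hm hn s1 s2 p hp.1 hc
      show (if ((PP n m p).parts.map (ef m)).sum = k then
        a (PP n m p) * ((PP n m p).parts.map (cf m s1 s2)).prod else 0) = _
      rw [if_pos q1, q2]
      have q3 : PP n m p = lvP n (m + p.1) p.2 hc'.1 hc'.2 := by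
        unfold PP
        rw [dif_pos hc']
      rw [q3]
      ring
    · rw [if_neg hc, dif_neg (fun h => hc h.2), mul_zero]
  have e4 : ∀ i : ℕ, ∑ y ∈ range (n + 1),
      (if i = 0 then -1 else if i = 1 then -s1 else -s2) *
        (if h : 1 ≤ m + i ∧ m + i + 2 * y ≤ n then
          a (lvP n (m + i) y h.1 h.2) * s1 ^ (n - (m + i) - 2 * y) * s2 ^ y else 0) =
      (if i = 0 then -1 else if i = 1 then -s1 else -s2) * AA n a (m + i) s1 s2 := by
    intro i
    rw [← Finset.mul_sum]
    rfl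
  have e5 : ∑ p ∈ range 3 ×ˢ range (n + 1),
      (if p.1 = 0 then -1 else if p.1 = 1 then -s1 else -s2) *
        (if h : 1 ≤ m + p.1 ∧ m + p.1 + 2 * p.2 ≤ n then
          a (lvP n (m + p.1) p.2 h.1 h.2) * s1 ^ (n - (m + p.1) - 2 * p.2) * s2 ^ p.2
          else 0) =
      ∑ i ∈ range 3, (if i = 0 then -1 else if i = 1 then -s1 else -s2) *
        AA n a (m + i) s1 s2 := by
    rw [Finset.sum_product]
    exact Finset.sum_congr rfl fun i _ => e4 i
  rw [e1, e2, e3, e5, Finset.sum_range_succ, Finset.sum_range_succ,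
    Finset.sum_range_succ, Finset.sum_range_zero, zero_add]
  rw [if_pos rfl, if_neg (by norm_num), if_pos rfl, if_neg (by norm_num), if_neg (by norm_num),
    add_zero]
  ring

end Pool.Agent.LV2
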