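import Pool.Agent.Lib.MP_263316_co.LV2.Spec

/-!
MP_263316_co, project LV2 (owner helper30), task POS: the main induction.
-/

set_option autoImplicit false

namespace Pool.Agent.LV2

open Finset Pool.Agent.SWC Pool.Agent.SWK Pool.Agent.HOOK

namespace POSAux

theorem adm_le {l : ℕ → ℕ} {n c : ℕ} (h : Adm l n) (hc : c ≤ n) : Adm l c :=
  ⟨h.1, fun j hj => h.2 j (by omega)⟩

theorem EL2 (l : ℕ → ℕ) (c : ℕ) (h1 : l c = 1) (h2 : l (c + 1) = 1) :
    EL l (c + 2) = EL l c + 2 := by
  unfold EL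
  rw [Finset.sum_range_succ, Finset.sum_range_succ, h1, h2]

/-- two pendant vertices at the end -/
theorem stepA (hSCM : S_SCM) (hBLK : S_BLK) (hVP : S_VP) (hPOSF : S_POSF)
    (v : ℂ) (l : ℕ → ℕ) (c r : ℕ) (hG : Gen v) (hA : Adm l (c + 2)) (hT : Tri l r)
    (hrc : r + 3 ≤ c) (h1 : l c = 1) (h2 : l (c + 1) = 1)
    (hP : Pos v c (EL l c) (SF v l c)) :
    Pos v (c + 2) (EL l (c + 2)) (SF v l (c + 2)) := by
  have hB := (hBLK v l (c + 2) r hG hA hT c hrc (by omega) h1).2.1 (by omega) h2
  obtain ⟨V, hV, hBS⟩ := hVP v l c r hG (adm_le hA (by omega)) hT hrc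
  obtain ⟨p1, p2, p3, -⟩ := hPOSF v hG
  have hpar := (hSCM v hG).2.1
  have hEL := EL2 l c h1 h2
  have e : SF v l (c + 2) = E2 * SF v l c + F4 v * V := by
    unfold SF
    rw [hB, hBS]
  rw [e]
  refine p2 _ _ _ _ ?_ ?_
  · exact p3 c (EL l c) (EL l (c + 2)) _ hP (by rw [hEL]; omega)
  · refine p1 _ _ _ ?_
    have h := (hpar (EL l c + c + 1) (EL l (c + 2) + (c + 2) + 1) (by rw [hEL]; omega)).2.1
    rw [← h]
    exact hV

end POSAux

theorem tPOS : S_TRIE → S_SCM → S_BLK → S_BETA → S_VP → S_REVL → S_RVC → S_POSF → S_POS1 →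
    S_POS := by
  intro hTRIE hSCM hBLK hBETA hVP hREVL hRVC hPOSF hPOS1 v l n hG
  induction n using Nat.strong_induction_on generalizing l with
  | _ n ih =>
    intro hA hj
    obtain ⟨r, hrn, hT⟩ := hTRIE l n hA hj
    by_cases hc1 : ∃ c j, r + 3 ≤ c ∧ c < j ∧ j < n ∧ l c = 1 ∧ 2 ≤ l j
    · -- case 1
      obtain ⟨c, j, hrc, hcj, hjn, hlc, hlj⟩ := hc1
      obtain ⟨U, hU, hk⟩ := ((hBETA v l n r hG hA hT c hrc hlc n (by omega) le_rfl).2
        ⟨j, hcj, hjn, hlj⟩).1
      obtain ⟨V, hV, hBS⟩ := hVP v l c r hG (POSAux.adm_le hA (by omega)) hT hrc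
      have e : SF v l n = F4 v * (V * U) := by
        unfold SF
        rw [hk, hBS, mul_assoc]
      rw [e]
      refine (hPOSF v hG).1 _ _ _ ?_
      have h3 := (hSCM v hG).2.2.1 _ _ V U hV hU
      have h := ((hSCM v hG).2.1 ((EL l c + c + 1) + (EL l n + n + EL l c + c))
        (EL l n + n + 1) (by omega)).2.1
      rw [← h]
      exact h3
    · -- case 2
      have hd : ∃ d, r + 3 ≤ d ∧ d ≤ n ∧ (d < n → l d = 1) ∧
          (∀ j, r + 3 ≤ j → j < d → l j ≠ 1) := by
        by_cases hex : ∃ d, r + 3 ≤ d ∧ d < n ∧ l d = 1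
        · refine ⟨Nat.find hex, (Nat.find_spec hex).1, (Nat.find_spec hex).2.1.le,
            fun _ => (Nat.find_spec hex).2.2, ?_⟩
          intro j hj1 hj2 hj3
          exact Nat.find_min hex hj2 ⟨hj1, lt_trans hj2 (Nat.find_spec hex).2.1, hj3⟩
        · exact ⟨n, by omega, le_rfl, fun h => absurd h (lt_irrefl _),
            fun j hj1 hj2 hj3 => hex ⟨j, hj1, hj2, hj3⟩⟩
      obtain ⟨d, hrd, hdn, hld, hmin⟩ := hd
      have hge1 : ∀ j, 0 < j → j < n → 1 ≤ l j := by
        intro j hj0 hjn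
        obtain ⟨i, rfl⟩ : ∃ i, j = i + 1 := ⟨j - 1, by omega⟩
        exact (hA.2 i hjn).1
      have hblock : ∀ j, r + 2 ≤ j → j < d → 2 ≤ l j := by
        intro j hj1 hj2
        rcases Nat.eq_or_lt_of_le hj1 with h | h
        · rw [← h, hT.2]
        · have h1 := hge1 j (by omega) (by omega)
          have h2 := hmin j (by omega) hj2
          omega
      have htail : ∀ j, d ≤ j → j < n → l j = 1 := by
        intro j hj1 hj2
        have hd1 : l d = 1 := hld (by omega)
        rcases Nat.eq_or_lt_of_le hj1 with h | h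
        · rw [← h]; exact hd1
        · have h1 := hge1 j (by omega) hj2
          by_contra hne
          exact hc1 ⟨d, j, hrd, h, hj2, hd1, by omega⟩
      by_cases h2a : d + 2 ≤ n
      · -- case 2a
        obtain ⟨c, rfl⟩ : ∃ c, n = c + 2 := ⟨n - 2, by omega⟩
        refine POSAux.stepA hSCM hBLK hVP hPOSF v l c r hG hA hT (by omega)
          (htail c (by omega) (by omega)) (htail (c + 1) (by omega) (by omega)) ?_
        exact ih c (by omega) l (POSAux.adm_le hA (by omega)) ⟨r + 2, by omega, by rw [hT.2]⟩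
      · by_cases hr : r ≤ 1
        · -- case 2b
          refine hPOS1 v l n r d hG hA hT hr hrd hblock ?_
          rcases Nat.eq_or_lt_of_le hdn with h | h
          · exact Or.inl h.symm
          · exact Or.inr ⟨by omega, hld h⟩
        · -- case 2c
          obtain ⟨hA', hEL', hSF'⟩ := hREVL v hG l n (by omega) hA
          obtain ⟨h1, h2, hj'⟩ := (hRVC l n r hA hT hrn).2 (by omega)
          obtain ⟨r', hrn', hT'⟩ := hTRIE (rv n l) n hA' hj'
          have h3 : rv n l (r' + 2) = 2 := hT'.2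
          have hne1 : r' + 2 ≠ n - 1 := by
            intro h
            rw [h, h1] at h3
            omega
          have hne2 : r' + 2 ≠ n - 2 := by
            intro h
            rw [h, h2] at h3
            omega
          rw [← hEL', ← hSF']
          obtain ⟨c, hc⟩ : ∃ c, n = c + 2 := ⟨n - 2, by omega⟩
          generalize rv n l = l' at *
          subst hc
          have e1 : c + 2 - 1 = c + 1 := by omega
          have e2 : c + 2 - 2 = c := by omega
          rw [e1] at h1
          rw [e2] at h2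
          refine POSAux.stepA hSCM hBLK hVP hPOSF v l' c r' hG hA' hT' (by omega) h2 h1 ?_
          exact ih c (by omega) l' (POSAux.adm_le hA' (by omega))
            ⟨r' + 2, by omega, by rw [hT'.2]⟩

end Pool.Agent.LV2
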