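import Pool.Agent.Lib.MP_263316_co.LV2.Spec

/-! MP_263316_co, project LV2: positivity for one block (task POS1). -/

set_option autoImplicit false

namespace Pool.Agent.LV2

open Finset Pool.Agent.SWC Pool.Agent.SWK Pool.Agent.HOOK

namespace POS1Aux

lemma sub_ne {v : ℂ} (hv : Gen v) : v - v⁻¹ ≠ 0 := by
  intro h
  have h1 : v = v⁻¹ := sub_eq_zero.1 h
  have h2 : v ^ 2 = 1 := by
    rw [pow_two]
    nth_rewrite 2 [h1]
    exact mul_inv_cancel₀ hv.1
  exact hv.2 2 (by norm_num) h2

lemma br_zero (v : ℂ) : br v 0 = 0 := by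
  unfold br
  simp

lemma br_neg_one {v : ℂ} (hv : Gen v) : br v (-1) = -1 := by
  unfold br
  rw [neg_neg, zpow_neg_one, zpow_one, ← neg_sub v v⁻¹, neg_div, div_self (sub_ne hv)]

end POS1Aux

open POS1Aux in
theorem tPOS1 : S_SCM → S_SYS → S_BKF → S_BLOCK → S_STEPK → S_EREC → S_POSF → S_POSB → S_POS1 := by
  intro hSCM hSYS _ hBLOCK hSTEPK hEREC hPOSF hPOSB v l n r d hv hA hT hr hrd hbl hn
  obtain ⟨_, hpar, _, _, _, _, _, _, hcc, hEE⟩ := hSCM v hv
  obtain ⟨hF1, hF2, _, _⟩ := hPOSF v hv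
  have hdn : d ≤ n := by omega
  obtain ⟨D, μ, P, Q, hDP, hPQ, hk⟩ := hBLOCK v l n r hv hA hT hr d hrd hdn hbl
  obtain ⟨_, hD2, hμ, _⟩ := id hDP
  have hD2' : ∀ (a e : ℕ), a ≤ d → (EL l d + d + a + 1) % 2 = e % 2 →
      ∀ s, (D a).coeff s ∈ SC v e := by
    intro a e ha he s
    rw [← (hpar _ _ he).1]
    exact hD2 a ha s
  have hμ' : ∀ e : ℕ, (EL l d + d) % 2 = e % 2 → μ ∈ SC v e := by
    intro e he
    rw [← (hpar _ _ he).1]
    exact hμ
  rcases hn with rfl | ⟨hn1, hld⟩
  · -- the block is the whole graph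
    have hdom : Dom l r n n := by
      unfold Dom
      omega
    have h1 := (hk n n hdom le_rfl).1
    have hU : P n n ∈ CQ v (EL l n + n + 1) := by
      rw [← (hpar (EL l n + n + n + n + 1) (EL l n + n + 1) (by omega)).2.1]
      exact (hPQ n n hdom le_rfl).1
    have hB := hPOSB v hv n (EL l n) (by omega) (D n) μ
      (hD2' n _ le_rfl (by omega)) (hμ' _ (by omega))
    have hS : SF v l n = F4 v * P n n +
        hp v (ED v r D μ n) (ED v r D μ n) (rh r μ) n n := h1
    rw [hS]
    refine hF2 _ _ _ _ (hF1 _ _ _ hU) ?_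
    have hr2 : r = 0 ∨ r = 1 := by omega
    rcases hr2 with rfl | rfl
    · have e1 : ED v 0 D μ n = D n := by
        unfold ED
        rw [if_pos rfl]
      have e2 : rh 0 μ = μ := by
        unfold rh
        rw [if_pos rfl]
      rw [e1, e2]
      exact hB.1
    · have e1 : ED v 1 D μ n = (1 + Polynomial.X) * D n +
          Polynomial.C (br v ((n : ℤ) - 2) * μ) := by
        unfold ED
        rw [if_neg one_ne_zero, if_pos (by omega)]
      have e2 : rh 1 μ = -μ := by
        unfold rh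
        rw [if_neg one_ne_zero]
      rw [e1, e2]
      exact hB.2.1
  · -- one further pendant vertex
    subst hn1
    have hd1 : d < d + 1 := Nat.lt_succ_self d
    obtain ⟨_, _, _, _, _, hdd, hdp, _, hle⟩ := hSYS v l (d + 1) r hv hA hT d hrd hd1
    have hEL : EL l (d + 1) = EL l d + 1 := by
      unfold EL
      rw [sum_range_succ, hld]
    obtain ⟨hYY, _⟩ := hEREC v l (d + 1) r hv hA hT hr d hrd hdn D μ hDP
    set E : ℕ → Polynomial ℂ := ED v r D μ with hE
    set ρ : ℂ := rh r μ with hρ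
    obtain ⟨E', hE'⟩ : ∃ E' : ℕ → Polynomial ℂ, E' = fun a => if a ≤ d then
        Polynomial.C (br v ((l d : ℤ) - 2)) * E a else
        Polynomial.C (br v ((l d : ℤ) - 1)) * E d + (1 + Polynomial.X) * E (d - l d) +
          Polynomial.C (br v ((d : ℤ) - l d) * ρ) := ⟨_, rfl⟩
    obtain ⟨P', hP'⟩ : ∃ P' : ℕ → ℕ → QQ, P' = fun a b => if a ≤ d then
        cc (br v ((l d : ℤ) - 2)) * P a b else if b ≤ d then
        cc (br v ((l d : ℤ) - 1)) * P d b + E2 * Q b (d - l d) +
          YY v 1 (E b) (E (d - l d)) b ((d : ℤ) - l d) else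
        cc (br v (l d : ℤ)) * P d d + E1 * P d (d - l d) + cc (br v 2) * E2 * Q d (d - l d) +
          cc (br v 2) * YY v 1 (E d) (E (d - l d)) d ((d : ℤ) - l d) := ⟨_, rfl⟩
    obtain ⟨Q', hQ'⟩ : ∃ Q' : ℕ → ℕ → QQ, Q' = fun a b => if a ≤ d then
        cc (br v ((l d : ℤ) - 2)) * Q a b else if b ≤ d then
        cc (br v ((l d : ℤ) - 1)) * Q d b + P b (d - l d) else 0 := ⟨_, rfl⟩
    have hnd : ¬ d + 1 ≤ d := by omega
    have hstep := hSTEPK v l (d + 1) r hv hA hT d hrd hd1 E E' ρ (br v ((l d : ℤ) - 2) * ρ)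
      P Q P' Q' hk
      (by
        intro a ha
        rw [hE']
        simp only [if_pos ha])
      (by
        rw [hE']
        simp only [if_neg hnd])
      rfl
      (by
        intro a b ha
        rw [hP', hQ']
        simp only [if_pos ha]
        exact ⟨trivial, trivial⟩)
      (by
        intro b hb
        rw [hP', hQ']
        simp only [if_neg hnd, if_pos hb]
        exact ⟨trivial, trivial⟩)
      (by
        rw [hP']
        simp only [if_neg hnd])
      (by
        rw [hQ']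
        simp only [if_neg hnd])
    have hdom : Dom l r (d + 1) (d + 1) := by
      unfold Dom
      omega
    have h1 := (hstep (d + 1) (d + 1) hdom le_rfl).1
    have hcast : ((d - l d : ℕ) : ℤ) = (d : ℤ) - l d := Nat.cast_sub hle
    -- the part in the cone
    have hU : P' (d + 1) (d + 1) ∈ CQ v (EL l (d + 1) + (d + 1) + 1) := by
      have e0 : P' (d + 1) (d + 1) = cc (br v (l d : ℤ)) * P d d + E1 * P d (d - l d) +
          cc (br v 2) * E2 * Q d (d - l d) +
          cc (br v 2) * YY v 1 (E d) (E (d - l d)) d ((d : ℤ) - l d) := by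
        rw [hP']
        simp only [if_neg hnd]
      rw [e0]
      have t1 : cc (br v (l d : ℤ)) * P d d ∈ CQ v (EL l (d + 1) + (d + 1) + 1) := by
        have h := hcc _ (l d) _ (hPQ d d hdd le_rfl).1
        rw [(hpar _ (EL l (d + 1) + (d + 1) + 1) (by rw [hEL, hld]; omega)).2.1] at h
        exact h
      have t2 : E1 * P d (d - l d) ∈ CQ v (EL l (d + 1) + (d + 1) + 1) := by
        have h := (hEE _ _ (hPQ d (d - l d) hdp le_rfl).1).1
        rw [(hpar _ (EL l (d + 1) + (d + 1) + 1) (by rw [hEL, hld]; omega)).2.1] at h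
        exact h
      have t3 : cc (br v 2) * E2 * Q d (d - l d) ∈ CQ v (EL l (d + 1) + (d + 1) + 1) := by
        have h := hcc _ 2 _ (hEE _ _ (hPQ d (d - l d) hdp le_rfl).2).2
        rw [(hpar _ (EL l (d + 1) + (d + 1) + 1) (by rw [hEL, hld]; omega)).2.1] at h
        rw [mul_assoc]
        exact h
      have t4 : cc (br v 2) * YY v 1 (E d) (E (d - l d)) d ((d : ℤ) - l d) ∈
          CQ v (EL l (d + 1) + (d + 1) + 1) := by
        have h := hcc _ 2 _ (hYY d (d - l d) hdp le_rfl)
        rw [(hpar _ (EL l (d + 1) + (d + 1) + 1) (by rw [hEL, hld]; omega)).2.1, hcast] at h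
        exact h
      exact add_mem (add_mem (add_mem t1 t2) t3) t4
    have hB := hPOSB v hv (d + 1) (EL l (d + 1)) (by omega) (D (d - 1)) μ
      (hD2' (d - 1) _ (by omega) (by rw [hEL]; omega)) (hμ' _ (by rw [hEL]; omega))
    have hS : SF v l (d + 1) = F4 v * P' (d + 1) (d + 1) +
        hp v (E' (d + 1)) (E' (d + 1)) (br v ((l d : ℤ) - 2) * ρ) ((d + 1 : ℕ) : ℤ)
          ((d + 1 : ℕ) : ℤ) := h1
    rw [hS]
    refine hF2 _ _ _ _ (hF1 _ _ _ hU) ?_
    have hEn : E' (d + 1) = (1 + Polynomial.X) * E (d - 1) +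
        Polynomial.C (br v (((d + 1 : ℕ) : ℤ) - 2) * ρ) := by
      rw [hE']
      simp only [if_neg hnd]
      have e1 : ((l d : ℤ) - 1) = 0 := by rw [hld]; norm_num
      have e2 : ((d : ℤ) - l d) = ((d + 1 : ℕ) : ℤ) - 2 := by rw [hld]; push_cast; ring
      rw [e1, e2, br_zero, map_zero, zero_mul, zero_add, hld]
    have hρ' : br v ((l d : ℤ) - 2) * ρ = -ρ := by
      have e1 : ((l d : ℤ) - 2) = -1 := by rw [hld]; norm_num
      rw [e1, br_neg_one hv, neg_one_mul]
    rw [hEn, hρ']
    have hr2 : r = 0 ∨ r = 1 := by omega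
    rcases hr2 with rfl | rfl
    · have e1 : E (d - 1) = D (d - 1) := by
        rw [hE]
        unfold ED
        rw [if_pos rfl]
      have e2 : ρ = μ := by
        rw [hρ]
        unfold rh
        rw [if_pos rfl]
      rw [e1, e2]
      exact hB.2.1
    · have e1 : E (d - 1) = (1 + Polynomial.X) * D (d - 1) +
          Polynomial.C (br v (((d + 1 : ℕ) : ℤ) - 4) * μ) := by
        rw [hE]
        unfold ED
        rw [if_neg one_ne_zero, if_pos (by omega)]
        have e3 : (((d - 1 : ℕ) : ℤ) - 2) = ((d + 1 : ℕ) : ℤ) - 4 := by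
          rw [Nat.cast_sub (by omega)]
          push_cast
          ring
        rw [e3]
      have e2 : ρ = -μ := by
        rw [hρ]
        unfold rh
        rw [if_neg one_ne_zero]
      rw [e1, e2, neg_neg]
      have e3 : (1 + Polynomial.X) * ((1 + Polynomial.X) * D (d - 1) +
            Polynomial.C (br v (((d + 1 : ℕ) : ℤ) - 4) * μ)) +
          Polynomial.C (br v (((d + 1 : ℕ) : ℤ) - 2) * -μ) =
          (1 + Polynomial.X) ^ 2 * D (d - 1) +
            Polynomial.C ((br v (((d + 1 : ℕ) : ℤ) - 4) - br v (((d + 1 : ℕ) : ℤ) - 2)) * μ) +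
            Polynomial.C (br v (((d + 1 : ℕ) : ℤ) - 4) * μ) * Polynomial.X := by
        simp only [map_mul, map_sub, map_neg]
        ring
      rw [e3]
      exact hB.2.2 (by omega)

end Pool.Agent.LV2
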