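import Pool.Agent.Lib.MP_263316_co.LV2.Spec

/-!
MP_263316_co, project LV2: positivity of the boundary part (module POSB).
-/

set_option autoImplicit false

namespace Pool.Agent.LV2

open Finset Pool.Agent.SWC Pool.Agent.SWK Pool.Agent.HOOK

namespace POSBAux

theorem w_ne {v : ℂ} (hv : Gen v) : v ^ 2 - 1 ≠ 0 := by
  intro h
  exact hv.2 2 (by norm_num) (sub_eq_zero.mp h)

theorem br_eq {v : ℂ} (hv : Gen v) (k : ℤ) :
    br v k = (v ^ k * v ^ k - 1) * v / (v ^ k * (v ^ 2 - 1)) := by
  have h0 := hv.1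
  have hw := w_ne hv
  have ha : v ^ k ≠ 0 := zpow_ne_zero k h0
  have hw' : v - v⁻¹ ≠ 0 := by
    intro h
    apply hw
    have : (v - v⁻¹) * v = v ^ 2 - 1 := by field_simp
    rw [← this, h, zero_mul]
  unfold br
  rw [zpow_neg]
  generalize v ^ k = a at ha
  rw [div_eq_div_iff hw' (mul_ne_zero ha hw)]
  field_simp

theorem pw {v : ℂ} (hv : Gen v) (n : ℤ) (j : ℕ) : v ^ (n - (j : ℤ)) = v ^ n / v ^ j := by
  rw [zpow_sub₀ hv.1, zpow_natCast]

theorem id1 {v : ℂ} (hv : Gen v) (n : ℤ) :
    (br v (n - 4) - br v (n - 2)) * (br v (n - 1) + br v (n - 3)) + br v (n - 1) * br v (n - 2) =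
      br v (n - 2) * br v (n - 5) := by
  have h0 := hv.1
  have hw := w_ne hv
  have ha : v ^ n ≠ 0 := zpow_ne_zero n h0
  have p1 := pw hv n 1
  have p2 := pw hv n 2
  have p3 := pw hv n 3
  have p4 := pw hv n 4
  have p5 := pw hv n 5
  push_cast at p1 p2 p3 p4 p5
  simp only [br_eq hv, p1, p2, p3, p4, p5]
  generalize v ^ n = a at ha
  field_simp
  ring

theorem id2 {v : ℂ} (hv : Gen v) (n : ℤ) :
    br v (n - 4) * br v (n - 1) * (br v (n - 2) + br v (n - 4)) +
      (br v (n - 4) - br v (n - 2)) * br v (n - 2) * br v (n - 3) =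
      2 * br v (n - 3) * (br v (n - 4) * br v (n - 2) - br v 3) + (br v (n - 1) + br v (n - 5)) := by
  have h0 := hv.1
  have hw := w_ne hv
  have ha : v ^ n ≠ 0 := zpow_ne_zero n h0
  have p1 := pw hv n 1
  have p2 := pw hv n 2
  have p3 := pw hv n 3
  have p4 := pw hv n 4
  have p5 := pw hv n 5
  push_cast at p1 p2 p3 p4 p5
  have p6 : v ^ (3 : ℤ) = v ^ 3 := by norm_cast
  simp only [br_eq hv, p1, p2, p3, p4, p5, p6]
  generalize v ^ n = a at ha
  field_simp
  ring

theorem id3 {v : ℂ} (hv : Gen v) (k : ℤ) :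
    br v (k + 1) * br v (k + 3) = br v k * br v (k + 2) + br v (2 * k + 3) := by
  have h0 := hv.1
  have hw := w_ne hv
  have ha : v ^ k ≠ 0 := zpow_ne_zero k h0
  have p1 : v ^ (k + 1) = v ^ k * v := zpow_add_one₀ h0 k
  have p2 : v ^ (k + 2) = v ^ k * v ^ 2 := by rw [zpow_add₀ h0]; norm_cast
  have p3 : v ^ (k + 3) = v ^ k * v ^ 3 := by rw [zpow_add₀ h0]; norm_cast
  have p4 : v ^ (2 * k + 3) = v ^ k * v ^ k * v ^ 3 := by
    rw [zpow_add₀ h0, two_mul, zpow_add₀ h0]; norm_cast
  simp only [br_eq hv, p1, p2, p3, p4]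
  generalize v ^ k = a at ha
  field_simp
  ring

theorem brSC (v : ℂ) (k : ℤ) (e : ℕ) (hk : 0 ≤ k) (hp : (k + 1 + e) % 2 = 0) :
    br v k ∈ SC v e := by
  obtain ⟨m, rfl⟩ := Int.eq_ofNat_of_zero_le hk
  exact AddSubmonoid.subset_closure ⟨m, by omega, rfl⟩

theorem mem4 {v : ℂ} (hv : Gen v) : ∀ k : ℕ, br v ((k : ℤ) + 1) * br v ((k : ℤ) + 3) - br v 3 ∈
    SC v 0 := by
  intro k
  induction k with
  | zero =>
    have h1 : br v 1 = 1 := by
      rw [br_eq hv, zpow_one]
      have h0 := hv.1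
      have hw := w_ne hv
      field_simp
    simp [h1]
  | succ k ih =>
    have h := id3 hv ((k : ℤ) + 1)
    have e1 : (k : ℤ) + 1 + 1 = ((k + 1 : ℕ) : ℤ) + 1 := by push_cast; ring
    have e2 : (k : ℤ) + 1 + 3 = ((k + 1 : ℕ) : ℤ) + 3 := by push_cast; ring
    have e3 : (k : ℤ) + 1 + 2 = (k : ℤ) + 3 := by ring
    rw [e1, e2, e3] at h
    rw [h]
    have e4 : br v ((k : ℤ) + 1) * br v ((k : ℤ) + 3) + br v (2 * ((k : ℤ) + 1) + 3) - br v 3 =
        (br v ((k : ℤ) + 1) * br v ((k : ℤ) + 3) - br v 3) + br v (2 * ((k : ℤ) + 1) + 3) := by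
      ring
    rw [e4]
    exact add_mem ih (brSC v _ 0 (by omega) (by omega))

/-- the scalar in `AB` -/
noncomputable def scal (v : ℂ) (n : ℕ) (e : ℕ → ℂ) (ρ : ℂ) (m : ℕ) : ℂ :=
  e (n - m) * br v m * (br v ((m : ℤ) - 1) + br v ((m : ℤ) - 3)) +
    (if n - m = 0 then ρ * br v m * br v ((m : ℤ) - 1) * br v ((m : ℤ) - 2)
      else e (n - m - 1) * br v ((m : ℤ) - 1) * br v ((m : ℤ) - 2))

theorem scal_add (v : ℂ) (n : ℕ) (e e' : ℕ → ℂ) (ρ ρ' : ℂ) (m : ℕ) :
    scal v n (fun s => e s + e' s) (ρ + ρ') m = scal v n e ρ m + scal v n e' ρ' m := by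
  unfold scal
  split_ifs <;> ring

theorem x0mem (v : ℂ) (d k : ℕ) (z : ℂ) (hz : z ∈ SC v d) :
    (MvPolynomial.X 0 : R2) ^ k * MvPolynomial.C z ∈ C2 v d := by
  unfold SC at hz
  induction hz using AddSubmonoid.closure_induction with
  | mem x hx =>
    obtain ⟨m, hm, rfl⟩ := hx
    refine AddSubmonoid.subset_closure ⟨m, k, 0, hm, ?_⟩
    rw [pow_zero, mul_one, mul_comm]
  | zero => rw [MvPolynomial.C_0, mul_zero]; exact zero_mem _
  | add x y _ _ h1 h2 => rw [MvPolynomial.C_add, mul_add]; exact add_mem h1 h2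

theorem posOf (hR : S_RELB) {v : ℂ} (hv : Gen v) (n d : ℕ) (E : Polynomial ℂ) (ρ : ℂ)
    (h : ∀ m, 3 ≤ m → m ≤ n → scal v n (fun s => E.coeff s) ρ m ∈ SC v d) :
    Pos v n d (hp v E E ρ n n) := by
  refine ⟨AB v n E ρ, ?_, ?_, ?_⟩
  · intro m
    unfold AB
    split_ifs with hm h1
    · have := x0mem v d (n - m) _ (h m hm.1 hm.2)
      unfold scal at this
      rw [if_pos h1] at this
      exact this
    · have := x0mem v d (n - m) _ (h m hm.1 hm.2)
      unfold scal at this
      rw [if_neg h1] at this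
      exact this
    · exact zero_mem _
  · intro m hm
    unfold AB
    rw [if_neg (by omega)]
  · intro m h3 hm
    exact hR v hv n E ρ m h3 hm

end POSBAux

open POSBAux in
theorem tPOSB : S_SCM → S_RELB → S_POSB := by
  intro hS hR v hv n d hn D μ hD hμ
  obtain ⟨s1, s2, -⟩ := hS v hv
  have mulSC : ∀ (a b c : ℕ) (x y : ℂ), x ∈ SC v a → y ∈ SC v b → (a + b) % 2 = c % 2 →
      x * y ∈ SC v c := by
    intro a b c x y hx hy hc
    rw [← (s2 (a + b) c hc).1]
    exact s1 a b x y hx hy
  -- part of `D`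
  have partD : ∀ (e : ℕ → ℂ) (ρ : ℂ), (∀ s, e s ∈ SC v (d + 1)) → ρ ∈ SC v (d + n) →
      ∀ m, 3 ≤ m → m ≤ n → scal v n e ρ m ∈ SC v d := by
    intro e ρ he hρ m h3 hm
    unfold scal
    refine add_mem ?_ ?_
    · refine mulSC (d + m) m d _ _ (mulSC (d + 1) (m + 1) (d + m) _ _ (he _)
        (brSC v _ _ (by omega) (by push_cast; omega)) (by omega)) (add_mem ?_ ?_) (by omega)
      · exact brSC v _ _ (by omega) (by omega)
      · exact brSC v _ _ (by omega) (by omega)
    · split_ifs with h1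
      · have hmn : m = n := by omega
        subst hmn
        exact mulSC (d + m + 1) (m + 1) d _ _ (mulSC (d + 1) m (d + m + 1) _ _
          (mulSC (d + m) (m + 1) (d + 1) _ _ hρ
            (brSC v _ _ (by omega) (by push_cast; omega)) (by omega))
          (brSC v _ _ (by omega) (by omega)) (by omega))
          (brSC v _ _ (by omega) (by push_cast; omega)) (by omega)
      · exact mulSC (d + 1 + m) (m + 1) d _ _ (mulSC (d + 1) m (d + 1 + m) _ _ (he _)
          (brSC v _ _ (by omega) (by omega)) (by omega))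
          (brSC v _ _ (by omega) (by push_cast; omega)) (by omega)
  have hX : ∀ P : Polynomial ℂ, (∀ s, P.coeff s ∈ SC v (d + 1)) →
      ∀ s, ((1 + Polynomial.X) * P).coeff s ∈ SC v (d + 1) := by
    intro P hP s
    rw [add_mul, one_mul, Polynomial.coeff_add]
    refine add_mem (hP s) ?_
    cases s with
    | zero => rw [Polynomial.coeff_X_mul_zero]; exact zero_mem _
    | succ s => rw [Polynomial.coeff_X_mul]; exact hP s
  refine ⟨posOf hR hv n d D μ (partD _ _ hD hμ), ?_, ?_⟩
  · apply posOf hR hv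
    intro m h3 hm
    have e : scal v n (fun s => ((1 + Polynomial.X) * D +
        Polynomial.C (br v ((n : ℤ) - 2) * μ)).coeff s) (-μ) m =
        scal v n (fun s => ((1 + Polynomial.X) * D).coeff s) 0 m +
        scal v n (fun s => if s = 0 then br v ((n : ℤ) - 2) * μ else 0) (-μ) m := by
      rw [← scal_add, zero_add]
      congr 1
      funext s
      rw [Polynomial.coeff_add, Polynomial.coeff_C]
    rw [e]
    refine add_mem (partD _ _ (hX D hD) (zero_mem _) m h3 hm) ?_
    unfold scal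
    by_cases h1 : n - m = 0
    · have hmn : m = n := by omega
      subst hmn
      simp only [if_pos h1]
      have e2 : br v ((m : ℤ) - 2) * μ * br v m * (br v ((m : ℤ) - 1) + br v ((m : ℤ) - 3)) +
          -μ * br v m * br v ((m : ℤ) - 1) * br v ((m : ℤ) - 2) =
          μ * br v m * (br v ((m : ℤ) - 2) * br v ((m : ℤ) - 3)) := by ring
      rw [e2]
      exact mulSC (d + 1) (1) d _ _ (mulSC (d + m) (m + 1) (d + 1) _ _ hμ
        (brSC v _ _ (by omega) (by push_cast; omega)) (by omega))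
        (mulSC (m + 1) m 1 _ _ (brSC v _ _ (by omega) (by push_cast; omega))
          (brSC v _ _ (by omega) (by omega)) (by omega)) (by omega)
    · simp only [if_neg h1, zero_mul, zero_add]
      by_cases h2 : n - m - 1 = 0
      · rw [if_pos h2]
        have hmn : n = m + 1 := by omega
        subst hmn
        exact mulSC (d + 1 + m) (m + 1) d _ _ (mulSC (d + 1) m (d + 1 + m) _ _
          (mulSC m (d + (m + 1)) (d + 1) _ _
            (brSC v _ _ (by push_cast; omega) (by push_cast; omega))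
            hμ (by omega)) (brSC v _ _ (by omega) (by omega)) (by omega))
          (brSC v _ _ (by omega) (by push_cast; omega)) (by omega)
      · rw [if_neg h2, zero_mul, zero_mul]; exact zero_mem _
  · intro h5
    apply posOf hR hv
    intro m h3 hm
    have e : scal v n (fun s => ((1 + Polynomial.X) ^ 2 * D +
        Polynomial.C ((br v ((n : ℤ) - 4) - br v ((n : ℤ) - 2)) * μ) +
        Polynomial.C (br v ((n : ℤ) - 4) * μ) * Polynomial.X).coeff s) μ m =
        scal v n (fun s => ((1 + Polynomial.X) * ((1 + Polynomial.X) * D)).coeff s) 0 m +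
        scal v n (fun s => (if s = 0 then (br v ((n : ℤ) - 4) - br v ((n : ℤ) - 2)) * μ else 0) +
          (if s = 1 then br v ((n : ℤ) - 4) * μ else 0)) μ m := by
      rw [← scal_add, zero_add]
      congr 1
      funext s
      rw [Polynomial.coeff_add, Polynomial.coeff_add, Polynomial.coeff_C, ← mul_assoc, ← pow_two,
        Polynomial.coeff_C_mul, Polynomial.coeff_X, add_assoc]
      congr 2
      by_cases h1 : s = 1
      · rw [if_pos h1, if_pos h1.symm, mul_one]
      · rw [if_neg h1, if_neg (fun h => h1 h.symm), mul_zero]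
    rw [e]
    refine add_mem (partD _ _ (hX _ (hX D hD)) (zero_mem _) m h3 hm) ?_
    unfold scal
    by_cases h1 : n = m
    · subst h1
      have h2 : n - n = 0 := Nat.sub_self n
      have h3 : ¬ (n - n = 1) := by omega
      simp only [if_pos h2, if_neg h3, add_zero]
      have e2 : (br v ((n : ℤ) - 4) - br v ((n : ℤ) - 2)) * μ * br v n *
          (br v ((n : ℤ) - 1) + br v ((n : ℤ) - 3)) +
          μ * br v n * br v ((n : ℤ) - 1) * br v ((n : ℤ) - 2) =
          μ * br v n * (br v ((n : ℤ) - 2) * br v ((n : ℤ) - 5)) := by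
        rw [← id1 hv]; ring
      rw [e2]
      exact mulSC (d + 1) 1 d _ _ (mulSC (d + n) (n + 1) (d + 1) _ _ hμ
        (brSC v _ _ (by omega) (by push_cast; omega)) (by omega))
        (mulSC (n + 1) n 1 _ _ (brSC v _ _ (by omega) (by push_cast; omega))
          (brSC v _ _ (by omega) (by omega)) (by omega)) (by omega)
    · by_cases h2 : n = m + 1
      · subst h2
        have a1 : m + 1 - m = 1 := by omega
        simp only [a1, Nat.sub_self, if_true, one_ne_zero, zero_ne_one, if_false, add_zero,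
          zero_add]
        have c1 : (m : ℤ) = ((m + 1 : ℕ) : ℤ) - 1 := by push_cast; ring
        have c2 : (m : ℤ) - 1 = ((m + 1 : ℕ) : ℤ) - 2 := by push_cast; ring
        have c3 : (m : ℤ) - 2 = ((m + 1 : ℕ) : ℤ) - 3 := by push_cast; ring
        have c4 : (m : ℤ) - 3 = ((m + 1 : ℕ) : ℤ) - 4 := by push_cast; ring
        rw [c4, c3, c2]
        have c5 : br v (m : ℤ) = br v (((m + 1 : ℕ) : ℤ) - 1) := by rw [← c1]
        rw [c5]
        have e3 := id2 hv ((m + 1 : ℕ) : ℤ)
        have e2 : br v (((m + 1 : ℕ) : ℤ) - 4) * μ * br v (((m + 1 : ℕ) : ℤ) - 1) *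
            (br v (((m + 1 : ℕ) : ℤ) - 2) + br v (((m + 1 : ℕ) : ℤ) - 4)) +
            (br v (((m + 1 : ℕ) : ℤ) - 4) - br v (((m + 1 : ℕ) : ℤ) - 2)) * μ *
              br v (((m + 1 : ℕ) : ℤ) - 2) * br v (((m + 1 : ℕ) : ℤ) - 3) =
            μ * (br v (((m + 1 : ℕ) : ℤ) - 3) * (br v (((m + 1 : ℕ) : ℤ) - 4) *
              br v (((m + 1 : ℕ) : ℤ) - 2) - br v 3) + br v (((m + 1 : ℕ) : ℤ) - 3) *
              (br v (((m + 1 : ℕ) : ℤ) - 4) *
              br v (((m + 1 : ℕ) : ℤ) - 2) - br v 3) + (br v (((m + 1 : ℕ) : ℤ) - 1) +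
              br v (((m + 1 : ℕ) : ℤ) - 5))) := by
          linear_combination μ * e3
        rw [e2]
        obtain ⟨k, rfl⟩ : ∃ k, m = k + 4 := ⟨m - 4, by omega⟩
        have hk := mem4 hv k
        have d1 : ((k + 4 + 1 : ℕ) : ℤ) - 4 = (k : ℤ) + 1 := by push_cast; ring
        have d2 : ((k + 4 + 1 : ℕ) : ℤ) - 2 = (k : ℤ) + 3 := by push_cast; ring
        rw [d1, d2]
        refine mulSC (d + (k + 4 + 1)) (k + 5) d _ _ hμ (add_mem (add_mem ?_ ?_)
          (add_mem ?_ ?_)) (by omega)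
        · exact mulSC (k + 5) 0 (k + 5) _ _ (brSC v _ _ (by push_cast; omega)
            (by push_cast; omega)) hk (by omega)
        · exact mulSC (k + 5) 0 (k + 5) _ _ (brSC v _ _ (by push_cast; omega)
            (by push_cast; omega)) hk (by omega)
        · exact brSC v _ _ (by push_cast; omega) (by push_cast; omega)
        · exact brSC v _ _ (by push_cast; omega) (by push_cast; omega)
      · have b1 : ¬ (n - m = 0) := by omega
        have b2 : ¬ (n - m = 1) := by omega
        have b3 : ¬ (n - m - 1 = 0) := by omega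
        simp only [if_neg b1, if_neg b2, if_neg b3, zero_mul, zero_add]
        by_cases h4 : n - m - 1 = 1
        · rw [if_pos h4]
          have hmn : n = m + 2 := by omega
          subst hmn
          exact mulSC (d + 1 + m) (m + 1) d _ _ (mulSC (d + 1) m (d + 1 + m) _ _
            (mulSC (m + 1) (d + (m + 2)) (d + 1) _ _
              (brSC v _ _ (by push_cast; omega) (by push_cast; omega))
              hμ (by omega)) (brSC v _ _ (by omega) (by omega)) (by omega))
            (brSC v _ _ (by omega) (by push_cast; omega)) (by omega)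
        · rw [if_neg h4, zero_mul, zero_mul]; exact zero_mem _

end Pool.Agent.LV2
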