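import Pool.Agent.Lib.MP_263316_co.LV2.Spec

/-!
MP_263316_co, project LV2, module POSF: the predicate `Pos` for multiples of `F4`, sums, multiples
of `E2`, and its parity.
-/

set_option autoImplicit false

namespace Pool.Agent.LV2

open Finset Pool.Agent.SWC Pool.Agent.SWK Pool.Agent.HOOK

namespace POSFAux

theorem br_ne {v : ℂ} (hv : Gen v) : v - v⁻¹ ≠ 0 := by
  intro h
  have h1 : v = v⁻¹ := sub_eq_zero.1 h
  apply hv.2 2 (by norm_num)
  have h2 : v * v = v⁻¹ * v := by rw [← h1]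
  rw [inv_mul_cancel₀ hv.1] at h2
  rw [pow_two]
  exact h2

/-- `{2} {m} = {m+1} + {m-1}` -/
theorem br_two {v : ℂ} (hv : Gen v) (m : ℤ) :
    br v 2 * br v m = br v (m + 1) + br v (m - 1) := by
  have h0 := hv.1
  have h1 := br_ne hv
  have e2 : br v 2 = v + v⁻¹ := by
    unfold br
    rw [div_eq_iff h1, zpow_neg]
    have : v ^ (2 : ℤ) = v ^ 2 := by norm_cast
    rw [this]
    field_simp
    ring
  rw [e2]
  unfold br
  rw [← add_div, mul_div_assoc']
  congr 1
  have a1 : v ^ (m + 1) = v ^ m * v := by rw [zpow_add₀ h0, zpow_one]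
  have a2 : v ^ (m - 1) = v ^ m * v⁻¹ := by rw [zpow_sub₀ h0, zpow_one, div_eq_mul_inv]
  have a3 : v ^ (-(m + 1)) = v ^ (-m) * v⁻¹ := by
    rw [neg_add, zpow_add₀ h0, zpow_neg_one]
  have a4 : v ^ (-(m - 1)) = v ^ (-m) * v := by
    rw [neg_sub, sub_eq_neg_add, zpow_add₀ h0, zpow_one]
  rw [a1, a2, a3, a4]
  ring

/-- `{m-2} + {m+2} = (v^2 + v^(-2)) {m}` -/
theorem br_four {v : ℂ} (hv : Gen v) (m : ℤ) :
    (v ^ 2 + v ^ (-2 : ℤ)) * br v m = br v (m + 2) + br v (m - 2) := by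
  have h0 := hv.1
  unfold br
  rw [← add_div, mul_div_assoc']
  congr 1
  have b : v ^ (2 : ℤ) = v ^ 2 := by norm_cast
  have a1 : v ^ (m + 2) = v ^ m * v ^ 2 := by rw [zpow_add₀ h0, b]
  have a2 : v ^ (m - 2) = v ^ m * v ^ (-2 : ℤ) := by
    rw [sub_eq_add_neg, zpow_add₀ h0]
  have a3 : v ^ (-(m + 2)) = v ^ (-m) * v ^ (-2 : ℤ) := by
    rw [neg_add, zpow_add₀ h0]
  have a4 : v ^ (-(m - 2)) = v ^ (-m) * v ^ 2 := by
    rw [neg_sub, sub_eq_neg_add, zpow_add₀ h0, b]
  rw [a1, a2, a3, a4]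
  ring

theorem C2_par {v : ℂ} (hS : S_SCM) (hv : Gen v) {d d' : ℕ} (h : d % 2 = d' % 2) {x : R2}
    (hx : x ∈ C2 v d) : x ∈ C2 v d' := by
  rw [← ((hS v hv).2.1 d d' h).2.2]
  exact hx

theorem SC_C2 {v : ℂ} (d a b : ℕ) {z : ℂ} (hz : z ∈ SC v d) :
    MvPolynomial.C z * MvPolynomial.X 0 ^ a * MvPolynomial.X 1 ^ b ∈ C2 v d := by
  unfold SC at hz
  induction hz using AddSubmonoid.closure_induction with
  | mem x hx =>
    obtain ⟨m, hm, rfl⟩ := hx
    exact AddSubmonoid.subset_closure ⟨m, a, b, hm, rfl⟩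
  | zero => rw [map_zero, zero_mul, zero_mul]; exact (C2 v d).zero_mem
  | add x y _ _ hx hy =>
    rw [map_add, add_mul, add_mul]
    exact (C2 v d).add_mem hx hy

theorem C2_X0 {v : ℂ} {d : ℕ} {x : R2} (hx : x ∈ C2 v d) : MvPolynomial.X 0 * x ∈ C2 v d := by
  unfold C2 at hx
  induction hx using AddSubmonoid.closure_induction with
  | mem x hx =>
    obtain ⟨m, a, b, hm, rfl⟩ := hx
    exact AddSubmonoid.subset_closure ⟨m, a + 1, b, hm, by ring⟩
  | zero => rw [mul_zero]; exact (C2 v d).zero_mem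
  | add x y _ _ hx hy => rw [mul_add]; exact (C2 v d).add_mem hx hy

theorem C2_X1 {v : ℂ} {d : ℕ} {x : R2} (hx : x ∈ C2 v d) : MvPolynomial.X 1 * x ∈ C2 v d := by
  unfold C2 at hx
  induction hx using AddSubmonoid.closure_induction with
  | mem x hx =>
    obtain ⟨m, a, b, hm, rfl⟩ := hx
    exact AddSubmonoid.subset_closure ⟨m, a, b + 1, hm, by ring⟩
  | zero => rw [mul_zero]; exact (C2 v d).zero_mem
  | add x y _ _ hx hy => rw [mul_add]; exact (C2 v d).add_mem hx hy

theorem C2_br {v : ℂ} (hS : S_SCM) (hv : Gen v) {d : ℕ} (j : ℕ) {x : R2} (hx : x ∈ C2 v d) :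
    MvPolynomial.C (br v j) * x ∈ C2 v (d + j + 1) := by
  unfold C2 at hx
  induction hx using AddSubmonoid.closure_induction with
  | mem x hx =>
    obtain ⟨m, a, b, hm, rfl⟩ := hx
    have h1 := (hS v hv).1 (j + 1) (m + 1) (br v j) (br v m) ((hS v hv).2.2.2.1 j).1
      ((hS v hv).2.2.2.1 m).1
    have h2 := SC_C2 (j + 1 + (m + 1)) a b h1
    have h3 := C2_par (d' := d + j + 1) hS hv (by omega) h2
    rw [map_mul] at h3
    rw [← mul_assoc, ← mul_assoc]
    exact h3
  | zero => rw [mul_zero]; exact (C2 v _).zero_mem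
  | add x y _ _ hx hy => rw [mul_add]; exact (C2 v _).add_mem hx hy

theorem gen_eq (z : ℂ) (a b : ℕ) : cc z * E1 ^ a * E2 ^ b =
    Polynomial.C (MvPolynomial.C z * MvPolynomial.X 0 ^ a * MvPolynomial.X 1 ^ b) *
      Polynomial.X ^ (a + 2 * b) := by
  unfold cc E1 E2
  rw [mul_pow, mul_pow, map_mul, map_mul, map_pow, map_pow, pow_add, pow_mul]
  ring

theorem CQ_coeff {v : ℂ} {d : ℕ} {U : QQ} (hU : U ∈ CQ v d) (k : ℕ) :
    U.coeff k ∈ C2 v (d + k) := by
  unfold CQ at hU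
  induction hU using AddSubmonoid.closure_induction with
  | mem x hx =>
    obtain ⟨m, a, b, hm, rfl⟩ := hx
    rw [gen_eq, Polynomial.coeff_C_mul_X_pow]
    split_ifs with h
    · exact AddSubmonoid.subset_closure ⟨m, a, b, by omega, rfl⟩
    · exact (C2 v _).zero_mem
  | zero => rw [Polynomial.coeff_zero]; exact (C2 v _).zero_mem
  | add x y _ _ hx hy => rw [Polynomial.coeff_add]; exact (C2 v _).add_mem hx hy

/-- `U_M` -/
noncomputable def uu (U : QQ) (n M : ℕ) : R2 := if M ≤ n then U.coeff (n - M) else 0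

theorem coeff_sh (U : QQ) (n m k : ℕ) (hm : m ≤ n) (a : R2) :
    (Polynomial.C a * Polynomial.X ^ k * U).coeff (n - m) = a * uu U n (m + k) := by
  rw [mul_assoc, Polynomial.coeff_C_mul, Polynomial.coeff_X_pow_mul']
  unfold uu
  congr 1
  by_cases h : k ≤ n - m
  · rw [if_pos h, if_pos (by omega)]
    congr 1
    omega
  · rw [if_neg h, if_neg (by omega)]

theorem F4_eq (v : ℂ) : F4 v = Polynomial.C 1 * Polynomial.X ^ 0 +
    Polynomial.C (MvPolynomial.C (br v 2) * MvPolynomial.X 0) * Polynomial.X ^ 1 +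
    Polynomial.C (MvPolynomial.X 0 ^ 2 +
      MvPolynomial.C (v ^ 2 + v ^ (-2 : ℤ)) * MvPolynomial.X 1) * Polynomial.X ^ 2 +
    Polynomial.C (MvPolynomial.C (br v 2) * MvPolynomial.X 0 * MvPolynomial.X 1) *
      Polynomial.X ^ 3 +
    Polynomial.C (MvPolynomial.X 1 ^ 2) * Polynomial.X ^ 4 := by
  unfold F4 cc E1 E2
  simp only [map_mul, map_add, map_pow, map_one]
  ring

theorem F4_coeff (v : ℂ) (U : QQ) (n m : ℕ) (hm : m ≤ n) : (F4 v * U).coeff (n - m) =
    uu U n m + MvPolynomial.C (br v 2) * MvPolynomial.X 0 * uu U n (m + 1) +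
    (MvPolynomial.X 0 ^ 2 + MvPolynomial.C (v ^ 2 + v ^ (-2 : ℤ)) * MvPolynomial.X 1) *
      uu U n (m + 2) +
    MvPolynomial.C (br v 2) * MvPolynomial.X 0 * MvPolynomial.X 1 * uu U n (m + 3) +
    MvPolynomial.X 1 ^ 2 * uu U n (m + 4) := by
  rw [F4_eq, add_mul, add_mul, add_mul, add_mul, Polynomial.coeff_add, Polynomial.coeff_add,
    Polynomial.coeff_add, Polynomial.coeff_add, coeff_sh _ _ _ _ hm, coeff_sh _ _ _ _ hm,
    coeff_sh _ _ _ _ hm, coeff_sh _ _ _ _ hm, coeff_sh _ _ _ _ hm, one_mul, Nat.add_zero]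

theorem uu_mem {v : ℂ} {d n : ℕ} {U : QQ} (hU : U ∈ CQ v (d + n + 1)) (M : ℕ) :
    uu U n M ∈ C2 v (d + n + 1 + (n - M)) := by
  unfold uu
  split_ifs with h
  · exact CQ_coeff hU _
  · exact (C2 v _).zero_mem

theorem uu_zero (U : QQ) {n M : ℕ} (h : n < M) : uu U n M = 0 := by
  unfold uu
  rw [if_neg (by omega)]

end POSFAux

open POSFAux

/-- **POSF.** -/
theorem tPOSF : S_SCM → S_POSF := by
  intro hS v hv
  refine ⟨?_, ?_, ?_, ?_⟩
  · intro n d U hU
    refine ⟨fun m => if 3 ≤ m then MvPolynomial.C (br v m) * uu U n m +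
      MvPolynomial.C (br v ((m - 1 : ℕ) : ℤ)) * (MvPolynomial.X 0 * uu U n (m + 1)) +
      MvPolynomial.C (br v ((m - 2 : ℕ) : ℤ)) * (MvPolynomial.X 1 * uu U n (m + 2)) else 0,
      ?_, ?_, ?_⟩
    · intro m
      dsimp only
      split_ifs with h
      · by_cases hn : m ≤ n
        · refine (C2 v d).add_mem ((C2 v d).add_mem ?_ ?_) ?_
          · exact C2_par hS hv (by omega) (C2_br hS hv m (uu_mem hU m))
          · by_cases h1 : m + 1 ≤ n
            · exact C2_par hS hv (by omega) (C2_br hS hv (m - 1) (C2_X0 (uu_mem hU (m + 1))))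
            · rw [uu_zero U (by omega), mul_zero, mul_zero]
              exact (C2 v d).zero_mem
          · by_cases h1 : m + 2 ≤ n
            · exact C2_par hS hv (by omega) (C2_br hS hv (m - 2) (C2_X1 (uu_mem hU (m + 2))))
            · rw [uu_zero U (by omega), mul_zero, mul_zero]
              exact (C2 v d).zero_mem
        · rw [uu_zero U (by omega), uu_zero U (by omega), uu_zero U (by omega)]
          simp only [mul_zero, add_zero]
          exact (C2 v d).zero_mem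
      · exact (C2 v d).zero_mem
    · intro m hm
      dsimp only
      rw [uu_zero U (by omega), uu_zero U (by omega), uu_zero U (by omega)]
      simp only [mul_zero, add_zero, ite_self]
    · intro m h3 hn
      dsimp only
      rw [if_pos h3, if_pos (by omega), if_pos (by omega), F4_coeff v U n m hn]
      have c1 : ((m - 1 : ℕ) : ℤ) = (m : ℤ) - 1 := by omega
      have c2 : ((m - 2 : ℕ) : ℤ) = (m : ℤ) - 2 := by omega
      have c3 : ((m + 1 : ℕ) : ℤ) = (m : ℤ) + 1 := by omega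
      have c4 : ((m + 1 - 1 : ℕ) : ℤ) = (m : ℤ) := by omega
      have c5 : ((m + 1 - 2 : ℕ) : ℤ) = (m : ℤ) - 1 := by omega
      have c6 : ((m + 2 : ℕ) : ℤ) = (m : ℤ) + 2 := by omega
      have c7 : ((m + 2 - 1 : ℕ) : ℤ) = (m : ℤ) + 1 := by omega
      have c8 : ((m + 2 - 2 : ℕ) : ℤ) = (m : ℤ) := by omega
      rw [c1, c2, c3, c4, c5, c6, c7, c8]
      have q1 : (MvPolynomial.C (br v 2) : R2) * MvPolynomial.C (br v m) =
          MvPolynomial.C (br v ((m : ℤ) + 1)) + MvPolynomial.C (br v ((m : ℤ) - 1)) := by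
        rw [← map_mul, br_two hv, map_add]
      have q2 : (MvPolynomial.C (v ^ 2 + v ^ (-2 : ℤ)) : R2) * MvPolynomial.C (br v m) =
          MvPolynomial.C (br v ((m : ℤ) + 2)) + MvPolynomial.C (br v ((m : ℤ) - 2)) := by
        rw [← map_mul, br_four hv, map_add]
      have r1 : m + 1 + 1 = m + 2 := rfl
      have r2 : m + 1 + 2 = m + 3 := rfl
      have r3 : m + 2 + 1 = m + 3 := rfl
      have r4 : m + 2 + 2 = m + 4 := rfl
      rw [r1, r2, r3, r4]
      linear_combination (-(MvPolynomial.X 0 * uu U n (m + 1)) -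
        MvPolynomial.X 0 * MvPolynomial.X 1 * uu U n (m + 3)) * q1 -
        MvPolynomial.X 1 * uu U n (m + 2) * q2
  · rintro n d s s' ⟨A, hA, hA0, hAr⟩ ⟨B, hB, hB0, hBr⟩
    refine ⟨fun m => A m + B m, fun m => (C2 v d).add_mem (hA m) (hB m), ?_, ?_⟩
    · intro m hm
      dsimp only
      rw [hA0 m hm, hB0 m hm, add_zero]
    · intro m h3 hn
      dsimp only
      rw [Polynomial.coeff_add]
      linear_combination hAr m h3 hn + hBr m h3 hn
  · rintro n d d' s ⟨A, hA, hA0, hAr⟩ hd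
    refine ⟨fun m => MvPolynomial.X 1 * A m, fun m => C2_par hS hv hd (C2_X1 (hA m)), ?_, ?_⟩
    · intro m hm
      dsimp only
      rw [hA0 m (by omega), mul_zero]
    · intro m h3 hn
      dsimp only
      have e : (E2 * s).coeff (n + 2 - m) =
          MvPolynomial.X 1 * (if m ≤ n then s.coeff (n - m) else 0) := by
        unfold E2
        rw [coeff_sh s (n + 2) m 2 hn]
        unfold uu
        congr 1
        by_cases h : m ≤ n
        · rw [if_pos h, if_pos (by omega)]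
          congr 1
          omega
        · rw [if_neg h, if_neg (by omega)]
      rw [e]
      by_cases h : m ≤ n
      · rw [if_pos h]
        have := hAr m h3 h
        linear_combination MvPolynomial.X 1 * this
      · rw [if_neg h, hA0 m (by omega), hA0 (m + 1) (by omega), hA0 (m + 2) (by omega)]
        ring
  · rintro n d d' s ⟨A, hA, hA0, hAr⟩ hd
    exact ⟨A, fun m => C2_par hS hv hd (hA m), hA0, hAr⟩

end Pool.Agent.LV2
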