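import Pool.Agent.Lib.MP_263316_co.LV2.Spec

/-!
MP_263316_co, project LV2: task PSS (the sum over pairs of disjoint stable sets, last vertex).
-/

set_option autoImplicit false

namespace Pool.Agent.LV2

open Finset Pool.Agent.SWC Pool.Agent.SWK Pool.Agent.HOOK

namespace PSSAux

variable {R : Type} [CommRing R] {m : ℕ → ℕ} {D T T' : Finset ℕ} {t : ℕ}

theorem key (q ω : R) (μ b1 b2 : ℕ) (h1 : b1 ≤ 1) (h2 : b2 ≤ 1) (h : b1 + b2 ≤ μ) :
    q ^ (b1 + b2) * (qn q (μ - b1 - b2) + ω * q ^ (μ - b1 - b2)) =
      qn q μ + ω * q ^ μ - (b1 : R) - (b2 : R) - (q - 1) * (b1 : R) * (b2 : R) := by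
  obtain rfl | rfl : b1 = 0 ∨ b1 = 1 := by omega
  · obtain rfl | rfl : b2 = 0 ∨ b2 = 1 := by omega
    · simp
    · obtain ⟨k, rfl⟩ : ∃ k, μ = k + 1 := ⟨μ - 1, by omega⟩
      rw [qn_succ' q (k + 1) (by omega), show k + 1 - 0 - 1 = k by omega,
        show k + 1 - 1 = k by omega]
      push_cast
      ring
  · obtain rfl | rfl : b2 = 0 ∨ b2 = 1 := by omega
    · obtain ⟨k, rfl⟩ : ∃ k, μ = k + 1 := ⟨μ - 1, by omega⟩
      rw [qn_succ' q (k + 1) (by omega), show k + 1 - 1 - 0 = k by omega,
        show k + 1 - 1 = k by omega]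
      push_cast
      ring
    · obtain ⟨k, rfl⟩ : ∃ k, μ = k + 2 := ⟨μ - 2, by omega⟩
      rw [qn_succ' q (k + 2) (by omega), show k + 2 - 1 - 1 = k by omega,
        show k + 2 - 1 = k + 1 by omega, qn_succ' q (k + 1) (by omega),
        show k + 1 - 1 = k by omega]
      push_cast
      ring

theorem wo_insert (q ω : R) {C : Finset ℕ} (ht : ∀ u ∈ C, u < t) :
    wo m q ω (insert t C) = (qn q (aL m C t) + ω * q ^ aL m C t) * wo m q ω C := by
  have htC : t ∉ C := fun h => absurd (ht t h) (lt_irrefl t)
  unfold wo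
  rw [Finset.prod_insert htC, aL_insert_self]
  congr 1
  exact Finset.prod_congr rfl fun v hv => by rw [aL_insert_lt ht hv]

end PSSAux

open PSSAux in
theorem tPSS : S_PSS := by
  intro R _ m q ω y1 y2 D t ht c
  have htD : t ∉ D := fun h => absurd (ht t h) (lt_irrefl t)
  unfold PS
  rw [Finset.sum_filter, Finset.sum_powerset_insert htD, Finset.sum_filter,
    ← Finset.sum_add_distrib]
  refine Finset.sum_congr rfl fun T hT => ?_
  rw [Finset.mem_powerset] at hT
  have htT : t ∉ T := fun h => htD (hT h)
  by_cases hi : ind m T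
  · have htDT : t ∉ D \ T := fun h => htD (Finset.mem_sdiff.mp h).1
    have ht1 : ∀ u ∈ D \ T, u < t := fun u hu => ht u (Finset.mem_sdiff.mp hu).1
    have h2 : (if ind m (insert t T) then
        ∑ T' ∈ (insert t D \ insert t T).powerset.filter (fun T' => ind m T'),
          y1 ^ (insert t T).card * y2 ^ T'.card *
            q ^ (ea m (insert t D) (insert t T) + ea m (insert t D \ insert t T) T') *
            wo m q ω ((insert t D \ insert t T) \ T') * c (insert t T) T' else 0) =
        ∑ T' ∈ (D \ T).powerset, (if ind m T' then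
          (y1 ^ T.card * y2 ^ T'.card * q ^ (ea m D T + ea m (D \ T) T') *
            wo m q ω ((D \ T) \ T')) *
            (if Disjoint T (NL m D t) then y1 * c (insert t T) T' else 0) else 0) := by
      by_cases hd : Disjoint T (NL m D t)
      · rw [if_pos ((ind_insert ht hT).mpr ⟨hi, hd⟩), insert_sdiff_insert' ht,
          ea_insert_insert ht, Finset.sum_filter, Finset.card_insert_of_notMem htT]
        refine Finset.sum_congr rfl fun T' _ => ?_
        rw [if_pos hd]
        split_ifs
        · ring
        · rfl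
      · rw [if_neg (fun h => hd ((ind_insert ht hT).mp h).2)]
        symm
        refine Finset.sum_eq_zero fun T' _ => ?_
        rw [if_neg hd, mul_zero, ite_self]
    rw [if_pos hi, if_pos hi, h2, Finset.insert_sdiff_of_notMem D htT, Finset.sum_filter,
      Finset.sum_powerset_insert htDT, Finset.sum_filter, ← Finset.sum_add_distrib,
      ← Finset.sum_add_distrib]
    refine Finset.sum_congr rfl fun T' hT' => ?_
    rw [Finset.mem_powerset] at hT'
    have hT'D : T' ⊆ D := fun u hu => (Finset.mem_sdiff.mp (hT' hu)).1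
    have htT' : t ∉ T' := fun h => htD (hT'D h)
    by_cases hi' : ind m T'
    · have ht2 : ∀ u ∈ (D \ T) \ T', u < t := fun u hu => ht1 u (Finset.mem_sdiff.mp hu).1
      have ha1 := aL_add (m := m) hT t
      have ha2 := aL_add (m := m) hT' t
      have hb1 : aL m T t ≤ 1 := aL_ind_le hi
      have hb2 : aL m T' t ≤ 1 := aL_ind_le hi'
      have hk := key q ω (aL m D t) (aL m T t) (aL m T' t) hb1 hb2 (by omega)
      have e1 : aL m D t - aL m T t - aL m T' t = aL m ((D \ T) \ T') t := by omega
      rw [e1] at hk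
      rw [if_pos hi', if_pos hi', if_pos hi', ea_insert ht hT, ea_insert ht1 hT',
        Finset.insert_sdiff_of_notMem (D \ T) htT', wo_insert q ω ht2]
      beta_reduce
      rw [← hk]
      have h3 : (if ind m (insert t T') then
          y1 ^ T.card * y2 ^ (insert t T').card *
            q ^ (ea m D T + aL m T t + ea m (insert t (D \ T)) (insert t T')) *
            wo m q ω (insert t (D \ T) \ insert t T') * c T (insert t T') else 0) =
          (y1 ^ T.card * y2 ^ T'.card * q ^ (ea m D T + ea m (D \ T) T') *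
            wo m q ω ((D \ T) \ T')) *
            (if Disjoint T' (NL m D t) then y2 * q ^ aL m T t * c T (insert t T') else 0) := by
        by_cases hd : Disjoint T' (NL m D t)
        · rw [if_pos ((ind_insert ht hT'D).mpr ⟨hi', hd⟩), insert_sdiff_insert' ht1,
            ea_insert_insert ht1, Finset.card_insert_of_notMem htT', if_pos hd]
          ring
        · rw [if_neg (fun h => hd ((ind_insert ht hT'D).mp h).2), if_neg hd, mul_zero]
      rw [h3]
      ring
    · rw [if_neg hi', if_neg hi', if_neg hi', if_neg, add_zero, add_zero]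
      exact fun h => hi' ((ind_insert ht hT'D).mp h).1
  · rw [if_neg hi, if_neg hi, if_neg, add_zero]
    exact fun h => hi ((ind_insert ht hT).mp h).1

end Pool.Agent.LV2
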