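import Pool.Agent.Lib.MP_263316_co.LV2.Spec

/-!
MP_263316_co, project LV2, module REAL: every admissible sequence is the sequence of left degrees.
-/

set_option autoImplicit false

namespace Pool.Agent.LV2

open Finset Pool.Agent.SWC Pool.Agent.SWK Pool.Agent.HOOK

namespace REALAux

theorem l_le {l : ℕ → ℕ} {n : ℕ} (h : Adm l n) : ∀ j, j < n → l j ≤ j := by
  intro j
  induction j with
  | zero => intro _; rw [h.1]
  | succ j ih =>
    intro hj
    have h1 := (h.2 j hj).2
    have h2 := ih (by omega)
    omega

theorem first_mono {l : ℕ → ℕ} {n : ℕ} (h : Adm l n) (v : ℕ) :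
    ∀ w, v ≤ w → w < n → v - l v ≤ w - l w := by
  intro w
  induction w with
  | zero =>
    intro h1 _
    have h2 : v = 0 := by omega
    rw [h2]
  | succ w ih =>
    intro h1 h2
    rcases Nat.eq_or_lt_of_le h1 with h3 | h3
    · rw [h3]
    · have h4 := ih (by omega) (by omega)
      have h5 := (h.2 w h2).2
      omega

end REALAux

open REALAux in
theorem tREAL : S_REAL := by
  intro l n h
  have key : ∀ u v, u < v → v < n →
      (v ≤ ((range n).filter (fun v => v - l v ≤ u)).sup id ↔ v - l v ≤ u) := by
    intro u v huv hv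
    constructor
    · intro h1
      have h0 : (⊥ : ℕ) < v := by
        rw [Nat.bot_eq_zero]
        omega
      obtain ⟨w, hw, hvw⟩ := (Finset.le_sup_iff h0).1 h1
      rw [Finset.mem_filter, Finset.mem_range] at hw
      exact (first_mono h v w hvw hw.1).trans hw.2
    · intro h1
      exact Finset.le_sup (f := id) (Finset.mem_filter.2 ⟨Finset.mem_range.2 hv, h1⟩)
  refine ⟨fun u => ((range n).filter (fun v => v - l v ≤ u)).sup id, ?_, ?_, ?_⟩
  · intro a b hab
    apply Finset.sup_mono
    intro v hv
    rw [Finset.mem_filter] at hv ⊢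
    exact ⟨hv.1, hv.2.trans hab⟩
  · intro j hj
    unfold ld aL
    have e : (range j).filter (fun u => u < j ∧
        j ≤ ((range n).filter (fun v => v - l v ≤ u)).sup id) = Ico (j - l j) j := by
      ext u
      rw [Finset.mem_filter, Finset.mem_range, Finset.mem_Ico]
      constructor
      · rintro ⟨h1, _, h3⟩
        exact ⟨(key u j h1 hj).1 h3, h1⟩
      · rintro ⟨h1, h2⟩
        exact ⟨h2, h2, (key u j h2 hj).2 h1⟩
    rw [e, Nat.card_Ico]
    have := l_le h j hj
    omega
  · intro j h0 hj
    refine (key (j - 1) j (by omega) hj).2 ?_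
    obtain ⟨i, rfl⟩ : ∃ i, j = i + 1 := ⟨j - 1, by omega⟩
    have h1 := (h.2 i hj).1
    omega

end Pool.Agent.LV2
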