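import Pool.Agent.Lib.MP_263316_co.LV2.Spec

/-!
MP_263316_co, project LV2, task REC: the recursion for the coefficients 0 and 1 of the table.
-/

set_option autoImplicit false

namespace Pool.Agent.LV2

open Finset Pool.Agent.SWC Pool.Agent.SWK Pool.Agent.HOOK

namespace RECAux

private theorem alg (z : ℂ) : algebraMap ℂ (Polynomial QQ) z = Polynomial.C (cc z) := by
  rw [Polynomial.algebraMap_apply, Polynomial.algebraMap_apply, MvPolynomial.algebraMap_eq]
  rfl

private theorem bz_eq (v : ℂ) (m : ℤ) :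
    bz v (Polynomial.X : Polynomial QQ) m =
      Polynomial.C (cc (br v m)) + Polynomial.C (cc (v ^ (m + 1))) * Polynomial.X := by
  unfold bz
  rw [alg, alg]

private theorem bz0 (v : ℂ) (m : ℤ) (P : Polynomial QQ) :
    (bz v (Polynomial.X : Polynomial QQ) m * P).coeff 0 = cc (br v m) * P.coeff 0 := by
  rw [bz_eq, Polynomial.mul_coeff_zero, Polynomial.coeff_add, Polynomial.coeff_C_zero,
    Polynomial.coeff_C_mul, Polynomial.coeff_X_zero, mul_zero, add_zero]

private theorem bz1 (v : ℂ) (m k : ℤ) (hk : m + 1 = k) (P : Polynomial QQ) :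
    (bz v (Polynomial.X : Polynomial QQ) m * P).coeff 1 =
      cc (br v m) * P.coeff 1 + cc (v ^ k) * P.coeff 0 := by
  rw [bz_eq, hk, add_mul, Polynomial.coeff_add, Polynomial.coeff_C_mul, mul_assoc,
    Polynomial.coeff_C_mul, Polynomial.coeff_X_mul]

private theorem KF_zero (v : ℂ) (l : ℕ → ℕ) (a b : ℕ) :
    KF v l 0 a b = (Polynomial.C (cc v⁻¹), 0) := by
  unfold KF
  rw [K, alg]

private theorem KF_low (v : ℂ) (l : ℕ → ℕ) (i a b : ℕ) (h : a ≤ i) :
    KF v l (i + 1) a b = (bz v (Polynomial.X : Polynomial QQ) ((l i : ℤ) - 2) * (KF v l i a b).1,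
      bz v (Polynomial.X : Polynomial QQ) ((l i : ℤ) - 2) * (KF v l i a b).2) := by
  unfold KF
  rw [K]
  simp only [if_pos h]

private theorem KF_mid (v : ℂ) (l : ℕ → ℕ) (i b : ℕ) (h : b ≤ i) :
    KF v l (i + 1) (i + 1) b =
      (bz v (Polynomial.X : Polynomial QQ) ((l i : ℤ) - 1) * (KF v l i i b).1 +
        Polynomial.C E2 * (KF v l i b (i - l i)).2,
      bz v (Polynomial.X : Polynomial QQ) ((l i : ℤ) - 1) * (KF v l i i b).2 +
        (KF v l i b (i - l i)).1) := by
  unfold KF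
  rw [K]
  simp only [if_neg (Nat.not_succ_le_self i), if_pos h]

private theorem KF_top (v : ℂ) (l : ℕ → ℕ) (i : ℕ) :
    KF v l (i + 1) (i + 1) (i + 1) =
      (bz v (Polynomial.X : Polynomial QQ) (l i : ℤ) * (KF v l i i i).1 +
        Polynomial.C E1 * (KF v l i i (i - l i)).1 +
        Polynomial.C (cc (br v 2)) * Polynomial.C E2 * (KF v l i i (i - l i)).2, 0) := by
  unfold KF
  rw [K]
  simp only [if_neg (Nat.not_succ_le_self i), alg]

private theorem diag (v : ℂ) (l : ℕ → ℕ) (i a : ℕ) : (KF v l i a a).2 = 0 := by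
  induction i with
  | zero => rw [KF_zero]
  | succ i ih =>
    rcases le_or_gt a i with h | h
    · rw [KF_low v l i a a h]
      simp only [ih, mul_zero]
    · unfold KF
      rw [K]
      simp only [if_neg (not_le.2 h)]

end RECAux

theorem tREC : S_REC := by
  intro v l i
  refine ⟨fun a b ha => ?_, fun b hb => ?_, ?_, fun a b => ?_, fun a => ?_⟩
  · unfold zp zn kp kn
    rw [RECAux.KF_low v l i a b ha]
    exact ⟨RECAux.bz0 _ _ _, RECAux.bz0 _ _ _, RECAux.bz1 _ _ _ (by ring) _,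
      RECAux.bz1 _ _ _ (by ring) _⟩
  · unfold zp zn kp kn
    rw [RECAux.KF_mid v l i b hb]
    refine ⟨?_, ?_, ?_, ?_⟩
    · rw [Polynomial.coeff_add, RECAux.bz0, Polynomial.coeff_C_mul]
    · rw [Polynomial.coeff_add, RECAux.bz0]
    · rw [Polynomial.coeff_add, RECAux.bz1 _ _ (l i : ℤ) (by ring), Polynomial.coeff_C_mul]
    · rw [Polynomial.coeff_add, RECAux.bz1 _ _ (l i : ℤ) (by ring)]
  · unfold zp zn kp kn
    rw [RECAux.KF_top v l i]
    refine ⟨?_, ?_⟩
    · rw [Polynomial.coeff_add, Polynomial.coeff_add, RECAux.bz0, Polynomial.coeff_C_mul, mul_assoc,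
        Polynomial.coeff_C_mul, Polynomial.coeff_C_mul, mul_assoc]
    · rw [Polynomial.coeff_add, Polynomial.coeff_add, RECAux.bz1 _ _ ((l i : ℤ) + 1) rfl,
        Polynomial.coeff_C_mul, mul_assoc (Polynomial.C (cc (br v 2))),
        Polynomial.coeff_C_mul, Polynomial.coeff_C_mul, mul_assoc (cc (br v 2))]
  · unfold zp zn kp kn
    rw [RECAux.KF_zero]
    refine ⟨Polynomial.coeff_C_zero, Polynomial.coeff_zero 0, ?_, Polynomial.coeff_zero 1⟩
    exact Polynomial.coeff_C_of_ne_zero (by norm_num)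
  · unfold zn kn
    rw [RECAux.diag v l i a]
    exact ⟨Polynomial.coeff_zero 0, Polynomial.coeff_zero 1⟩

end Pool.Agent.LV2
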