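import Pool.Agent.Lib.MP_263316_co.LV2.Spec

/-!
MP_263316_co, project LV2: the relations for the coefficients with one part larger than two.
-/

set_option autoImplicit false

namespace Pool.Agent.LV2

open Finset Pool.Agent.SWC Pool.Agent.SWK Pool.Agent.HOOK

namespace REL3Aux

theorem es_cons (hESZ : S_ESZ) {R : Type} [CommRing R] {N : ℕ} (y : R) (x : Fin N → R) (d : ℕ) :
    es (Fin.cons y x : Fin (N + 1) → R) (d + 1) = es x (d + 1) + y * es x d := by
  have h := hESZ.1 R N (Fin.cons y x : Fin (N + 1) → R) ((d : ℤ) + 1)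
  have hs : (fun k : Fin N => (Fin.cons y x : Fin (N + 1) → R) k.succ) = x := by
    funext k; rfl
  rw [hs, Fin.cons_zero] at h
  unfold esz at h
  rw [if_neg (by omega), if_neg (by omega), if_neg (by omega),
    show ((d : ℤ) + 1).toNat = d + 1 by omega, show ((d : ℤ) + 1 - 1).toNat = d by omega] at h
  exact h

theorem es_cons0 (hESZ : S_ESZ) {R : Type} [CommRing R] {N : ℕ} (y : R) (x : Fin N → R) :
    es (Fin.cons y x : Fin (N + 1) → R) 0 = es x 0 := by
  have h := hESZ.1 R N (Fin.cons y x : Fin (N + 1) → R) 0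
  have hs : (fun k : Fin N => (Fin.cons y x : Fin (N + 1) → R) k.succ) = x := by
    funext k; rfl
  rw [hs, Fin.cons_zero] at h
  unfold esz at h
  rw [if_neg (by omega), if_neg (by omega), if_pos (by omega), mul_zero, add_zero,
    show ((0 : ℤ)).toNat = 0 by omega] at h
  exact h

theorem eval_XX (N : ℕ) (g : ℕ → ℕ) (U : Finset ℕ) (q : ℂ) {A : Type} [CommRing A]
    (ι : ℂ →+* A) (x : Fin N → A) (n : ℕ) (a : n.Partition → Polynomial ℤ)
    (ha : XX g (qq N) (xx N) U =
      ∑ μ : n.Partition, MvPolynomial.C (a μ) * (μ.parts.map (es (xx N))).prod) :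
    XX g (ι q) x U = ∑ μ : n.Partition, ι (Polynomial.aeval q (a μ)) *
      (μ.parts.map (es x)).prod := by
  set ψ : Polynomial ℤ →+* A := ι.comp (Polynomial.aeval q : Polynomial ℤ →ₐ[ℤ] ℂ).toRingHom
    with hψ
  set φ : AN N →+* A := MvPolynomial.eval₂Hom ψ x with hφ
  have h1 : φ (XX g (qq N) (xx N) U) = XX g (ι q) x U := by
    have h := Z_map φ g (qq N) U (fun _ k => xx N k)
    have e1 : φ (qq N) = ι q := by
      rw [hφ, qq, MvPolynomial.coe_eval₂Hom, MvPolynomial.eval₂_C, hψ]
      change ι (Polynomial.aeval q Polynomial.X) = ι q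
      rw [Polynomial.aeval_X]
    have e2 : ∀ k, φ (xx N k) = x k := fun k => by
      rw [hφ, xx, MvPolynomial.coe_eval₂Hom, MvPolynomial.eval₂_X]
    unfold XX
    rw [h, e1]
    simp only [e2]
  rw [← h1, ha, map_sum]
  refine Finset.sum_congr rfl fun μ _ => ?_
  rw [map_mul, map_multiset_prod, Multiset.map_map]
  congr 1
  · rw [hφ, MvPolynomial.coe_eval₂Hom, MvPolynomial.eval₂_C, hψ]
    rfl
  · refine congrArg Multiset.prod (Multiset.map_congr rfl fun d _ => ?_)
    rw [Function.comp_apply, es_map]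
    congr 1
    funext k
    rw [hφ, xx, MvPolynomial.coe_eval₂Hom, MvPolynomial.eval₂_X]

theorem es_yal (hESZ : S_ESZ) {N : ℕ} (α β : ℂ) (x : Fin N → ℂ) (d : ℕ) :
    es (yal α β x) (d + 2) = Polynomial.C (es x (d + 2)) +
      Polynomial.C (α + β) * Polynomial.X * Polynomial.C (es x (d + 1)) +
      Polynomial.C (α * β) * Polynomial.X ^ 2 * Polynomial.C (es x d) := by
  unfold yal
  rw [es_cons hESZ, es_cons hESZ, es_cons hESZ, ← es_map Polynomial.C x, ← es_map Polynomial.C x,
    ← es_map Polynomial.C x, Polynomial.C_add, Polynomial.C_mul]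
  ring

theorem es_yal1 (hESZ : S_ESZ) {N : ℕ} (α β : ℂ) (x : Fin N → ℂ) :
    es (yal α β x) 1 = Polynomial.C (es x 1) +
      Polynomial.C (α + β) * Polynomial.X * Polynomial.C (es x 0) := by
  unfold yal
  rw [es_cons hESZ _ _ 0, es_cons hESZ _ _ 0, es_cons0 hESZ, ← es_map Polynomial.C x,
    ← es_map Polynomial.C x, Polynomial.C_add]
  ring

end REL3Aux

open REL3Aux

theorem tREL3 : S_ESZ → S_XR → S_PART3 → S_REL3 := by
  intro hESZ hXR hP g hg N n U hU hnN a ha q hq0 hq1 m hm hmn α β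
  obtain ⟨N', rfl⟩ : ∃ N', N = N' + 2 := ⟨N - 2, by omega⟩
  obtain ⟨x, hx⟩ := exists_alph N' m (by omega) (by omega)
  have h1 := eval_XX (N' + 2) g U q Polynomial.C (yal α β x) n a ha
  have h2 := congrArg (fun p => Polynomial.coeff p (n - m)) h1
  rw [hXR g hg q hq0 hq1 N' x m (by omega) hx U (n - m) (by omega) α β] at h2
  have h3 := hP n m (n - m) hm (by omega) (α + β) (α * β) (es (yal α β x)) ?_ ?_ ?_ ?_ ?_ ?_
    (fun μ => Polynomial.aeval q (a μ))
  · rw [h3] at h2
    linear_combination h2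
  · rw [es_yal1 hESZ, hx, hx, if_neg (by omega), if_neg (by omega), if_pos rfl, map_zero, map_one]
    ring
  · rw [es_yal hESZ α β x 0, hx, hx, hx, if_neg (by omega), if_neg (by omega), if_neg (by omega),
      if_neg (by omega), if_pos rfl, map_zero, map_one]
    ring
  · obtain ⟨e, rfl⟩ : ∃ e, m = e + 2 := ⟨m - 2, by omega⟩
    rw [es_yal hESZ α β x e, hx, hx, hx, if_neg (by omega), if_pos rfl, if_neg (by omega),
      if_neg (by omega), if_neg (by omega), if_neg (by omega), map_zero, map_neg, map_one]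
    ring
  · obtain ⟨e, rfl⟩ : ∃ e, m = e + 1 := ⟨m - 1, by omega⟩
    rw [es_yal hESZ α β x e, hx, hx, hx, if_neg (by omega), if_neg (by omega), if_neg (by omega),
      if_pos rfl, if_neg (by omega), if_neg (by omega), map_zero, map_neg, map_one]
    ring
  · rw [es_yal hESZ α β x m, hx, hx, hx, if_neg (by omega), if_neg (by omega), if_neg (by omega),
      if_neg (by omega), if_neg (by omega), if_pos rfl, map_zero, map_neg, map_one]
    ring
  · intro d hd h1 h2 h3 h4 h5
    obtain ⟨e, rfl⟩ : ∃ e, d = e + 2 := ⟨d - 2, by omega⟩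
    rw [es_yal hESZ α β x e, hx, hx, hx, if_neg (by omega), if_neg (by omega), if_neg (by omega),
      if_neg (by omega), if_neg (by omega), if_neg (by omega), map_zero]
    ring

end Pool.Agent.LV2
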