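import Pool.Agent.Lib.MP_263316_co.LV2.Spec

/-!
MP_263316_co, project LV2, task RELB: the relation for the boundary part.
-/

set_option autoImplicit false

namespace Pool.Agent.LV2

open Finset Pool.Agent.SWC Pool.Agent.SWK Pool.Agent.HOOK

namespace RELBAux

theorem br_rec (v : ℂ) (hv : v ≠ 0) (a : ℤ) :
    br v (a + 1) + br v (a - 1) = (v + v⁻¹) * br v a := by
  unfold br
  have e1 : v ^ (a + 1) = v ^ a * v := by rw [zpow_add₀ hv, zpow_one]
  have e2 : v ^ (a - 1) = v ^ a * v⁻¹ := by rw [zpow_sub₀ hv, zpow_one, div_eq_mul_inv]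
  have e3 : v ^ (-(a + 1)) = v ^ (-a) * v⁻¹ := by
    rw [show -(a + 1) = -a - 1 by ring, zpow_sub₀ hv, zpow_one, div_eq_mul_inv]
  have e4 : v ^ (-(a - 1)) = v ^ (-a) * v := by
    rw [show -(a - 1) = -a + 1 by ring, zpow_add₀ hv, zpow_one]
  rw [e1, e2, e3, e4]
  ring

theorem cc_E1_coeff (z : ℂ) (s k : ℕ) :
    (cc z * E1 ^ s).coeff k =
      if k = s then (MvPolynomial.C z * MvPolynomial.X 0 ^ s : R2) else 0 := by
  have h : cc z * E1 ^ s =
      Polynomial.C (MvPolynomial.C z * MvPolynomial.X 0 ^ s : R2) * Polynomial.X ^ s := by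
    unfold cc E1
    rw [mul_pow, map_mul, map_pow]
    ring
  rw [h, Polynomial.coeff_C_mul_X_pow]

theorem bk_coeff (v : ℂ) (E : Polynomial ℂ) (N : ℤ) (k : ℕ) :
    (bk v E N).coeff k =
      (MvPolynomial.C (E.coeff k * br v (N - k)) * MvPolynomial.X 0 ^ k : R2) := by
  unfold bk
  rw [Polynomial.sum_def, Polynomial.finsetSum_coeff]
  simp only [cc_E1_coeff]
  rw [Finset.sum_ite_eq]
  split_ifs with h
  · rfl
  · rw [Polynomial.notMem_support_iff] at h
    rw [h]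
    simp

theorem E1_coeff_zero (P : QQ) : (E1 * P).coeff 0 = 0 := by
  unfold E1
  rw [mul_assoc, Polynomial.coeff_C_mul, Polynomial.coeff_X_mul_zero, mul_zero]

theorem E1_coeff_succ (P : QQ) (k : ℕ) :
    (E1 * P).coeff (k + 1) = (MvPolynomial.X 0 : R2) * P.coeff k := by
  unfold E1
  rw [mul_assoc, Polynomial.coeff_C_mul, Polynomial.coeff_X_mul]

theorem E2_coeff_zero (P : QQ) : (E2 * P).coeff 0 = 0 := by
  unfold E2
  rw [mul_assoc, Polynomial.coeff_C_mul, Polynomial.coeff_X_pow_mul']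
  simp

theorem E2_coeff_one (P : QQ) : (E2 * P).coeff 1 = 0 := by
  unfold E2
  rw [mul_assoc, Polynomial.coeff_C_mul, Polynomial.coeff_X_pow_mul']
  simp

theorem E2_coeff_succ (P : QQ) (k : ℕ) :
    (E2 * P).coeff (k + 2) = (MvPolynomial.X 1 : R2) * P.coeff k := by
  unfold E2
  rw [mul_assoc, Polynomial.coeff_C_mul, Polynomial.coeff_X_pow_mul]

theorem eta_coeff_zero (v : ℂ) (E : Polynomial ℂ) (N : ℤ) :
    (eta v E N).coeff 0 = (MvPolynomial.C (E.coeff 0 * br v (N - 3)) : R2) := by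
  unfold eta
  rw [Polynomial.coeff_add, Polynomial.coeff_add, E1_coeff_zero, E2_coeff_zero, bk_coeff]
  simp

theorem eta_coeff_one (v : ℂ) (E : Polynomial ℂ) (N : ℤ) :
    (eta v E N).coeff 1 = (MvPolynomial.X 0 *
      (MvPolynomial.C (E.coeff 1 * br v (N - 4)) +
        MvPolynomial.C (E.coeff 0 * br v (N - 2))) : R2) := by
  unfold eta
  have h := E1_coeff_succ (bk v E (N - 2)) 0
  rw [zero_add] at h
  rw [Polynomial.coeff_add, Polynomial.coeff_add, h, E2_coeff_one, bk_coeff, bk_coeff,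
    show N - 3 - ((1 : ℕ) : ℤ) = N - 4 by push_cast; ring,
    show N - 2 - ((0 : ℕ) : ℤ) = N - 2 by push_cast; ring]
  ring

theorem eta_coeff_two (v : ℂ) (E : Polynomial ℂ) (N : ℤ) (k : ℕ) :
    (eta v E N).coeff (k + 2) = (MvPolynomial.X 0 ^ (k + 2) *
      (MvPolynomial.C (E.coeff (k + 2) * br v (N - 5 - k)) +
        MvPolynomial.C (E.coeff (k + 1) * br v (N - 3 - k))) +
      MvPolynomial.X 1 * MvPolynomial.X 0 ^ k * MvPolynomial.C (E.coeff k * br v (N - 1 - k))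
        : R2) := by
  unfold eta
  have h := E1_coeff_succ (bk v E (N - 2)) (k + 1)
  rw [Polynomial.coeff_add, Polynomial.coeff_add, show k + 2 = k + 1 + 1 from rfl, h,
    show k + 1 + 1 = k + 2 from rfl, E2_coeff_succ, bk_coeff, bk_coeff, bk_coeff,
    show N - 3 - ((k + 2 : ℕ) : ℤ) = N - 5 - k by push_cast; ring,
    show N - 2 - ((k + 1 : ℕ) : ℤ) = N - 3 - k by push_cast; ring]
  ring

theorem kap_coeff_zero (v : ℂ) (ρ : ℂ) (a b : ℤ) :
    (cc ρ * kappa v a b).coeff 0 =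
      (MvPolynomial.C (ρ * (br v (b - 1) * br v (a - 2))) : R2) := by
  unfold kappa
  have h1 : cc ρ * (cc (br v (b - 1) * br v (a - 2)) + cc (br v b * br v (a - 2)) * E1 +
      cc (br v b * br v (a - 1)) * E2) = cc (ρ * (br v (b - 1) * br v (a - 2))) +
      E1 * cc (ρ * (br v b * br v (a - 2))) + E2 * cc (ρ * (br v b * br v (a - 1))) := by
    unfold cc
    simp only [map_mul]
    ring
  rw [h1, Polynomial.coeff_add, Polynomial.coeff_add, E1_coeff_zero, E2_coeff_zero]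
  unfold cc
  rw [Polynomial.coeff_C_zero]
  ring

theorem kap_coeff_one (v : ℂ) (ρ : ℂ) (a b : ℤ) :
    (cc ρ * kappa v a b).coeff 1 =
      (MvPolynomial.X 0 * MvPolynomial.C (ρ * (br v b * br v (a - 2))) : R2) := by
  unfold kappa
  have h1 : cc ρ * (cc (br v (b - 1) * br v (a - 2)) + cc (br v b * br v (a - 2)) * E1 +
      cc (br v b * br v (a - 1)) * E2) = cc (ρ * (br v (b - 1) * br v (a - 2))) +
      E1 * cc (ρ * (br v b * br v (a - 2))) + E2 * cc (ρ * (br v b * br v (a - 1))) := by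
    unfold cc
    simp only [map_mul]
    ring
  have h := E1_coeff_succ (cc (ρ * (br v b * br v (a - 2)))) 0
  rw [zero_add] at h
  rw [h1, Polynomial.coeff_add, Polynomial.coeff_add, h, E2_coeff_one]
  unfold cc
  rw [Polynomial.coeff_C_zero, Polynomial.coeff_C, if_neg one_ne_zero]
  ring

theorem kap_coeff_two (v : ℂ) (ρ : ℂ) (a b : ℤ) :
    (cc ρ * kappa v a b).coeff 2 =
      (MvPolynomial.X 1 * MvPolynomial.C (ρ * (br v b * br v (a - 1))) : R2) := by
  unfold kappa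
  have h1 : cc ρ * (cc (br v (b - 1) * br v (a - 2)) + cc (br v b * br v (a - 2)) * E1 +
      cc (br v b * br v (a - 1)) * E2) = cc (ρ * (br v (b - 1) * br v (a - 2))) +
      E1 * cc (ρ * (br v b * br v (a - 2))) + E2 * cc (ρ * (br v b * br v (a - 1))) := by
    unfold cc
    simp only [map_mul]
    ring
  have h := E1_coeff_succ (cc (ρ * (br v b * br v (a - 2)))) 1
  have h2 := E2_coeff_succ (cc (ρ * (br v b * br v (a - 1)))) 0
  rw [show 1 + 1 = 2 from rfl] at h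
  rw [zero_add] at h2
  rw [h1, Polynomial.coeff_add, Polynomial.coeff_add, h, h2]
  unfold cc
  rw [Polynomial.coeff_C_zero, Polynomial.coeff_C, if_neg (by norm_num : (2 : ℕ) ≠ 0),
    Polynomial.coeff_C, if_neg one_ne_zero]
  ring

theorem kap_coeff_ge (v : ℂ) (ρ : ℂ) (a b : ℤ) (k : ℕ) :
    (cc ρ * kappa v a b).coeff (k + 3) = (0 : R2) := by
  unfold kappa
  have h1 : cc ρ * (cc (br v (b - 1) * br v (a - 2)) + cc (br v b * br v (a - 2)) * E1 +
      cc (br v b * br v (a - 1)) * E2) = cc (ρ * (br v (b - 1) * br v (a - 2))) +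
      E1 * cc (ρ * (br v b * br v (a - 2))) + E2 * cc (ρ * (br v b * br v (a - 1))) := by
    unfold cc
    simp only [map_mul]
    ring
  have h := E1_coeff_succ (cc (ρ * (br v b * br v (a - 2)))) (k + 2)
  have h2 := E2_coeff_succ (cc (ρ * (br v b * br v (a - 1)))) (k + 1)
  rw [show k + 2 + 1 = k + 3 from rfl] at h
  rw [show k + 1 + 2 = k + 3 from rfl] at h2
  rw [h1, Polynomial.coeff_add, Polynomial.coeff_add, h, h2]
  unfold cc
  rw [Polynomial.coeff_C, if_neg (by omega : k + 3 ≠ 0), Polynomial.coeff_C,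
    if_neg (by omega : k + 2 ≠ 0), Polynomial.coeff_C, if_neg (by omega : k + 1 ≠ 0)]
  ring

theorem E_coeff_zero (E : Polynomial ℂ) : ((1 + Polynomial.X) * E).coeff 0 = E.coeff 0 := by
  rw [add_mul, one_mul, Polynomial.coeff_add, Polynomial.coeff_X_mul_zero, add_zero]

theorem E_coeff_succ (E : Polynomial ℂ) (k : ℕ) :
    ((1 + Polynomial.X) * E).coeff (k + 1) = E.coeff (k + 1) + E.coeff k := by
  rw [add_mul, one_mul, Polynomial.coeff_add, Polynomial.coeff_X_mul]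

theorem AB_zero (v : ℂ) (n : ℕ) (E : Polynomial ℂ) (ρ : ℂ) (m : ℕ) (h : n < m) :
    AB v n E ρ m = 0 := by
  unfold AB
  rw [if_neg (by omega)]

theorem AB_top (v : ℂ) (E : Polynomial ℂ) (ρ : ℂ) (m : ℕ) (h : 3 ≤ m) :
    AB v m E ρ m = MvPolynomial.C
      (E.coeff 0 * br v m * (br v ((m : ℤ) - 1) + br v ((m : ℤ) - 3)) +
        ρ * br v m * br v ((m : ℤ) - 1) * br v ((m : ℤ) - 2)) := by
  unfold AB
  rw [if_pos ⟨h, le_refl m⟩, Nat.sub_self, if_pos rfl]
  simp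

theorem AB_succ (v : ℂ) (E : Polynomial ℂ) (ρ : ℂ) (m k : ℕ) (h : 3 ≤ m) :
    AB v (m + (k + 1)) E ρ m = MvPolynomial.X 0 ^ (k + 1) * MvPolynomial.C
      (E.coeff (k + 1) * br v m * (br v ((m : ℤ) - 1) + br v ((m : ℤ) - 3)) +
        E.coeff k * br v ((m : ℤ) - 1) * br v ((m : ℤ) - 2)) := by
  unfold AB
  rw [if_pos ⟨h, by omega⟩, if_neg (by omega : m + (k + 1) - m ≠ 0),
    show m + (k + 1) - m - 1 = k by omega, show m + (k + 1) - m = k + 1 by omega]

end RELBAux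

open RELBAux

theorem tRELB : S_BKF → S_RELB := by
  intro _ v hv n E ρ m h3 hmn
  obtain ⟨hv0, _⟩ := hv
  obtain ⟨k, rfl⟩ := Nat.exists_eq_add_of_le hmn
  have r1 := br_rec v hv0 ((m : ℤ))
  have r2 := br_rec v hv0 ((m : ℤ) + 1)
  have r3 := br_rec v hv0 ((m : ℤ) + 2)
  have r4 := br_rec v hv0 ((m : ℤ) - 1)
  have r5 := br_rec v hv0 ((m : ℤ) - 2)
  rw [show (m : ℤ) + 1 + 1 = m + 2 by ring, show (m : ℤ) + 1 - 1 = m by ring] at r2
  rw [show (m : ℤ) + 2 + 1 = m + 3 by ring, show (m : ℤ) + 2 - 1 = m + 1 by ring] at r3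
  rw [show (m : ℤ) - 1 + 1 = m by ring, show (m : ℤ) - 1 - 1 = m - 2 by ring] at r4
  rw [show (m : ℤ) - 2 + 1 = m - 1 by ring, show (m : ℤ) - 2 - 1 = m - 3 by ring] at r5
  have q1 : br v ((m : ℤ) + 1) = (v + v⁻¹) * br v m - br v ((m : ℤ) - 1) := by
    linear_combination r1
  have q2 : br v ((m : ℤ) + 2) = (v + v⁻¹) * br v ((m : ℤ) + 1) - br v m := by
    linear_combination r2
  have q3 : br v ((m : ℤ) + 3) = (v + v⁻¹) * br v ((m : ℤ) + 2) - br v ((m : ℤ) + 1) := by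
    linear_combination r3
  have q4 : br v ((m : ℤ) - 2) = (v + v⁻¹) * br v ((m : ℤ) - 1) - br v m := by
    linear_combination r4
  have q5 : br v ((m : ℤ) - 3) = (v + v⁻¹) * br v ((m : ℤ) - 2) - br v ((m : ℤ) - 1) := by
    linear_combination r5
  unfold hp
  rw [Polynomial.coeff_add, Polynomial.coeff_add]
  rcases k with _ | _ | _ | k
  · -- n = m
    simp only [Nat.add_zero, Nat.sub_self]
    rw [AB_zero v m E ρ (m + 1) (by omega), AB_zero v m E ρ (m + 2) (by omega), AB_top v E ρ m h3,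
      eta_coeff_zero, eta_coeff_zero, kap_coeff_zero, E_coeff_zero,
      show (m : ℤ) + 2 - 3 = m - 1 by ring, q5, q4]
    simp only [map_add, map_mul, map_sub]
    ring
  · -- n = m + 1
    rw [show m + (0 + 1) - m = 1 by omega, AB_succ v E ρ m 0 h3,
      show m + (0 + 1) = m + 1 from rfl, AB_top v E ρ (m + 1) (by omega),
      AB_zero v (m + 1) E ρ (m + 2) (by omega),
      eta_coeff_one, eta_coeff_one, kap_coeff_one, E_coeff_succ E 0, E_coeff_zero,
      show (((m + 1 : ℕ) : ℤ)) - 1 = m by push_cast; ring,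
      show (((m + 1 : ℕ) : ℤ)) - 3 = m - 2 by push_cast; ring,
      show (((m + 1 : ℕ) : ℤ)) - 2 = m - 1 by push_cast; ring,
      show (((m + 1 : ℕ) : ℤ)) + 2 - 4 = m - 1 by push_cast; ring,
      show (((m + 1 : ℕ) : ℤ)) + 2 - 2 = m + 1 by push_cast; ring,
      show (((m + 1 : ℕ) : ℤ)) - 4 = m - 3 by push_cast; ring,
      show (((m + 1 : ℕ) : ℤ)) = m + 1 by push_cast; ring, q5, q4, q1]
    simp only [map_add, map_mul, map_sub, zero_add]
    ring
  · -- n = m + 2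
    have a0 := AB_succ v E ρ m 1 h3
    have a1 := AB_succ v E ρ (m + 1) 0 (by omega)
    have a2 := AB_top v E ρ (m + 2) (by omega)
    rw [show m + (1 + 1) = m + 2 from rfl, show (1 : ℕ) + 1 = 2 from rfl] at a0
    rw [show m + 1 + (0 + 1) = m + 2 from rfl, zero_add, pow_one,
      show (((m + 1 : ℕ) : ℤ)) - 1 = m by push_cast; ring,
      show (((m + 1 : ℕ) : ℤ)) - 3 = m - 2 by push_cast; ring,
      show (((m + 1 : ℕ) : ℤ)) - 2 = m - 1 by push_cast; ring,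
      show (((m + 1 : ℕ) : ℤ)) = m + 1 by push_cast; ring] at a1
    rw [show (((m + 2 : ℕ) : ℤ)) - 1 = m + 1 by push_cast; ring,
      show (((m + 2 : ℕ) : ℤ)) - 3 = m - 1 by push_cast; ring,
      show (((m + 2 : ℕ) : ℤ)) - 2 = m by push_cast; ring,
      show (((m + 2 : ℕ) : ℤ)) = m + 2 by push_cast; ring] at a2
    have c1 := eta_coeff_two v E (((m + 2 : ℕ) : ℤ) + 2) 0
    have c2 := eta_coeff_two v ((1 + Polynomial.X) * E) ((m + 2 : ℕ) : ℤ) 0
    have c3 := kap_coeff_two v ρ ((m + 2 : ℕ) : ℤ) ((m + 2 : ℕ) : ℤ)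
    rw [zero_add,
      show (((m + 2 : ℕ) : ℤ)) + 2 - 5 - ((0 : ℕ) : ℤ) = m - 1 by push_cast; ring,
      show (((m + 2 : ℕ) : ℤ)) + 2 - 3 - ((0 : ℕ) : ℤ) = m + 1 by push_cast; ring,
      show (((m + 2 : ℕ) : ℤ)) + 2 - 1 - ((0 : ℕ) : ℤ) = m + 3 by push_cast; ring] at c1
    have e2 : ((1 + Polynomial.X) * E).coeff 2 = E.coeff 2 + E.coeff 1 := E_coeff_succ E 1
    have e1 : ((1 + Polynomial.X) * E).coeff 1 = E.coeff 1 + E.coeff 0 := E_coeff_succ E 0
    rw [zero_add, zero_add, e2, e1, E_coeff_zero,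
      show (((m + 2 : ℕ) : ℤ)) - 5 - ((0 : ℕ) : ℤ) = m - 3 by push_cast; ring,
      show (((m + 2 : ℕ) : ℤ)) - 3 - ((0 : ℕ) : ℤ) = m - 1 by push_cast; ring,
      show (((m + 2 : ℕ) : ℤ)) - 1 - ((0 : ℕ) : ℤ) = m + 1 by push_cast; ring] at c2
    rw [show (((m + 2 : ℕ) : ℤ)) - 1 = m + 1 by push_cast; ring,
      show (((m + 2 : ℕ) : ℤ)) = m + 2 by push_cast; ring] at c3
    rw [show m + (0 + 1 + 1) - m = 2 by omega, show m + (0 + 1 + 1) = m + 2 from rfl,
      a0, a1, a2, c1, c2]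
    rw [show (((m + 2 : ℕ) : ℤ)) = m + 2 by push_cast; ring, c3, q5, q4, q3, q2, q1]
    simp only [map_add, map_mul, map_sub, zero_add, pow_zero]
    ring
  · -- n = m + 3 + k
    have a0 := AB_succ v E ρ m (k + 2) h3
    have a1 := AB_succ v E ρ (m + 1) (k + 1) (by omega)
    have a2 := AB_succ v E ρ (m + 2) k (by omega)
    rw [show m + (k + 2 + 1) = m + (k + 3) from rfl, show k + 2 + 1 = k + 3 from rfl] at a0
    rw [show m + 1 + (k + 1 + 1) = m + (k + 3) by ring, show k + 1 + 1 = k + 2 from rfl,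
      show (((m + 1 : ℕ) : ℤ)) - 1 = m by push_cast; ring,
      show (((m + 1 : ℕ) : ℤ)) - 3 = m - 2 by push_cast; ring,
      show (((m + 1 : ℕ) : ℤ)) - 2 = m - 1 by push_cast; ring,
      show (((m + 1 : ℕ) : ℤ)) = m + 1 by push_cast; ring] at a1
    rw [show m + 2 + (k + 1) = m + (k + 3) by ring,
      show (((m + 2 : ℕ) : ℤ)) - 1 = m + 1 by push_cast; ring,
      show (((m + 2 : ℕ) : ℤ)) - 3 = m - 1 by push_cast; ring,
      show (((m + 2 : ℕ) : ℤ)) - 2 = m by push_cast; ring,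
      show (((m + 2 : ℕ) : ℤ)) = m + 2 by push_cast; ring] at a2
    have c1 := eta_coeff_two v E (((m + (k + 3) : ℕ) : ℤ) + 2) (k + 1)
    have c2 := eta_coeff_two v ((1 + Polynomial.X) * E) ((m + (k + 3) : ℕ) : ℤ) (k + 1)
    have c3 := kap_coeff_ge v ρ ((m + (k + 3) : ℕ) : ℤ) ((m + (k + 3) : ℕ) : ℤ) k
    rw [show k + 1 + 2 = k + 3 from rfl, show k + 1 + 1 = k + 2 from rfl,
      show (((m + (k + 3) : ℕ) : ℤ)) + 2 - 5 - ((k + 1 : ℕ) : ℤ) = m - 1 by push_cast; ring,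
      show (((m + (k + 3) : ℕ) : ℤ)) + 2 - 3 - ((k + 1 : ℕ) : ℤ) = m + 1 by push_cast; ring,
      show (((m + (k + 3) : ℕ) : ℤ)) + 2 - 1 - ((k + 1 : ℕ) : ℤ) = m + 3 by push_cast; ring] at c1
    have e3 : ((1 + Polynomial.X) * E).coeff (k + 3) = E.coeff (k + 3) + E.coeff (k + 2) :=
      E_coeff_succ E (k + 2)
    have e2 : ((1 + Polynomial.X) * E).coeff (k + 2) = E.coeff (k + 2) + E.coeff (k + 1) :=
      E_coeff_succ E (k + 1)
    have e1 : ((1 + Polynomial.X) * E).coeff (k + 1) = E.coeff (k + 1) + E.coeff k :=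
      E_coeff_succ E k
    rw [show k + 1 + 2 = k + 3 from rfl, show k + 1 + 1 = k + 2 from rfl, e3, e2, e1,
      show (((m + (k + 3) : ℕ) : ℤ)) - 5 - ((k + 1 : ℕ) : ℤ) = m - 3 by push_cast; ring,
      show (((m + (k + 3) : ℕ) : ℤ)) - 3 - ((k + 1 : ℕ) : ℤ) = m - 1 by push_cast; ring,
      show (((m + (k + 3) : ℕ) : ℤ)) - 1 - ((k + 1 : ℕ) : ℤ) = m + 1 by push_cast; ring] at c2
    rw [show m + (k + 1 + 1 + 1) - m = k + 3 by omega,
      show m + (k + 1 + 1 + 1) = m + (k + 3) from rfl, a0, a1, a2, c1, c2, c3, q5, q4, q3, q2, q1]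
    simp only [map_add, map_mul, map_sub]
    ring

end Pool.Agent.LV2
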