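import Pool.Agent.Lib.MP_263316_co.LV2.Spec

/-!
MP_263316_co, project LV2, module REVG: the reversed graph.
-/

set_option autoImplicit false

namespace Pool.Agent.LV2

open Finset Pool.Agent.SWC Pool.Agent.SWK Pool.Agent.HOOK

namespace REVGAux

theorem image_rev (n : ℕ) : (range n).image (fun u => n - 1 - u) = range n := by
  ext w
  rw [mem_image, mem_range]
  constructor
  · rintro ⟨u, hu, rfl⟩
    rw [mem_range] at hu
    omega
  · intro hw
    exact ⟨n - 1 - w, mem_range.2 (by omega), by omega⟩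

theorem ld_rev {g g' l : ℕ → ℕ} {n : ℕ} (hgl : ∀ j, j < n → ld g j = l j)
    (hgg : ∀ u v : ℕ, u < v → v ≤ n - 1 → (v ≤ g' u ↔ n - 1 - u ≤ g (n - 1 - v)))
    (hA : ∀ u w, u < w → w < n → (w ≤ g u ↔ w - ld g w ≤ u)) {j : ℕ} (hj : j < n) :
    ld g' j = rv n l j := by
  unfold ld aL rv
  refine card_bij' (fun u _ => n - 1 - u) (fun w _ => n - 1 - w) ?_ ?_ ?_ ?_
  · intro u hu
    rw [mem_filter, mem_range] at hu
    obtain ⟨-, h1, h2⟩ := hu
    rw [mem_filter, mem_range]
    have h3 := (hgg u j h1 (by omega)).1 h2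
    have h4 := (hA (n - 1 - j) (n - 1 - u) (by omega) (by omega)).1 h3
    rw [hgl _ (by omega)] at h4
    exact ⟨by omega, by omega, h4⟩
  · intro w hw
    rw [mem_filter, mem_range] at hw
    obtain ⟨h0, h1, h2⟩ := hw
    rw [mem_filter, mem_range]
    rw [← hgl w h0] at h2
    have h3 := (hA (n - 1 - j) w h1 h0).2 h2
    have h4 : n - 1 - (n - 1 - w) = w := by omega
    refine ⟨by omega, by omega, ?_⟩
    rw [hgg (n - 1 - w) j (by omega) (by omega), h4]
    exact h3
  · intro u hu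
    rw [mem_filter, mem_range] at hu
    obtain ⟨h0, -, -⟩ := hu
    show n - 1 - (n - 1 - u) = u
    omega
  · intro w hw
    rw [mem_filter, mem_range] at hw
    obtain ⟨h0, -, -⟩ := hw
    show n - 1 - (n - 1 - w) = w
    omega

end REVGAux

theorem tREVG : S_REAL → S_ADM → S_REVm → S_REVX → S_REVG := by
  intro hR hA hM hX l n hn hl
  obtain ⟨g, hg, hgl, hgc⟩ := hR l n hl
  obtain ⟨g', hg', hgg⟩ := hM g hg (n - 1)
  obtain ⟨hX1, -, hX3⟩ := hX g g' (n - 1) hgg (range n) (by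
    intro u hu
    rw [mem_range] at hu
    omega)
  rw [REVGAux.image_rev n] at hX1 hX3
  have hc' : Cn g' n := by
    intro j h0 hj
    refine (hgg (j - 1) j (by omega) (by omega)).2 ?_
    have h2 := hgc (n - 1 - j + 1) (by omega) (by omega)
    rw [Nat.add_sub_cancel] at h2
    omega
  obtain ⟨-, hA2, hA3, -⟩ := hA g hg n hgc
  obtain ⟨hB1, -, hB3, -⟩ := hA g' hg' n hc'
  have hld : ∀ j, j < n → ld g' j = rv n l j := fun j hj => REVGAux.ld_rev hgl hgg hA2 hj
  refine ⟨⟨?_, ?_⟩, ?_, g, g', hg, hg', hgc, hc', hgl, hld, ?_⟩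
  · rw [← hld 0 (by omega)]
    exact hB1.1
  · intro j hj
    rw [← hld (j + 1) hj, ← hld j (by omega)]
    exact hB1.2 j hj
  · have h1 : EL (rv n l) n = EL (ld g') n :=
      sum_congr rfl fun j hj => (hld j (mem_range.1 hj)).symm
    have h2 : EL l n = EL (ld g) n :=
      sum_congr rfl fun j hj => (hgl j (mem_range.1 hj)).symm
    rw [h1, h2, hB3, hA3, hX3]
  · intro R _ N q x
    exact hX1 R N q x

end Pool.Agent.LV2
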