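import Pool.Agent.Lib.MP_263316_co.LV2.Spec

/-!
MP_263316_co, project LV2 (owner helper30), task REVL: the generating function of a connected
natural unit interval graph does not change under reversal of the graph.
-/

set_option autoImplicit false

namespace Pool.Agent.LV2

open Finset Pool.Agent.SWC Pool.Agent.SWK Pool.Agent.HOOK

namespace REVLAux

/-- evaluation of `XX` over polynomials -/
theorem XX_eval (g : ℕ → ℕ) (q t : ℂ) (N : ℕ) (y : Fin N → Polynomial ℂ) (U : Finset ℕ) :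
    Polynomial.eval t (XX g (Polynomial.C q) y U) =
      XX g q (fun k => Polynomial.eval t (y k)) U := by
  have h := Z_map (Polynomial.evalRingHom t) g (Polynomial.C q) U (fun _ k => y k)
  simp only [Polynomial.coe_evalRingHom, Polynomial.eval_C] at h
  exact h

/-- symmetry of `XX` over polynomials with a constant `q` -/
theorem XX_permP (hXF : XFc) (g : ℕ → ℕ) (hg : Monotone g) (q : ℂ) (hq0 : q ≠ 0) (hq1 : q ≠ 1)
    (N : ℕ) (σ : Equiv.Perm (Fin N)) (y : Fin N → Polynomial ℂ) (U : Finset ℕ) :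
    XX g (Polynomial.C q) (fun k => y (σ k)) U = XX g (Polynomial.C q) y U := by
  refine Polynomial.funext fun t => ?_
  rw [XX_eval, XX_eval]
  exact XX_perm hXF ℂ g hg q hq0 hq1 N σ (fun k => Polynomial.eval t (y k)) U

theorem XX_rev (hXF : XFc) (g g' : ℕ → ℕ) (hg' : Monotone g') (q : ℂ) (hq0 : q ≠ 0)
    (hq1 : q ≠ 1) (n : ℕ)
    (hrev : ∀ (R : Type) [CommRing R] (N : ℕ) (q : R) (x : Fin N → R),
      XX g' q (fun k => x (Fin.rev k)) (range n) = XX g q x (range n))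
    (N : ℕ) (y : Fin N → Polynomial ℂ) :
    XX g' (Polynomial.C q) y (range n) = XX g (Polynomial.C q) y (range n) := by
  rw [← hrev (Polynomial ℂ) N (Polynomial.C q) y]
  exact (XX_permP hXF g' hg' q hq0 hq1 N Fin.revPerm y (range n)).symm

theorem qn_ne {v : ℂ} (hv : Gen v) {m : ℕ} (hm : 1 ≤ m) : qn (v ^ 2) m ≠ 0 := by
  intro h
  have h1 : (v ^ 2 - 1) * qn (v ^ 2) m = (v ^ 2) ^ m - 1 := mul_geom_sum (v ^ 2) m
  rw [h, mul_zero, ← pow_mul] at h1
  exact hv.2 (2 * m) (by omega) (sub_eq_zero.mp h1.symm)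

theorem s2k_eq (hXF : XFc) (hXR : S_XR) (g g' : ℕ → ℕ) (hg : Monotone g) (hg' : Monotone g')
    {v : ℂ} (hv : Gen v) (n : ℕ)
    (hrev : ∀ (R : Type) [CommRing R] (N : ℕ) (q : R) (x : Fin N → R),
      XX g' q (fun k => x (Fin.rev k)) (range n) = XX g q x (range n))
    (α β : ℂ) (k : ℕ) (hk : k < n) :
    s2k g' (v ^ 2) α β (range n) k = s2k g (v ^ 2) α β (range n) k := by
  have hq0 : v ^ 2 ≠ 0 := pow_ne_zero 2 hv.1
  have hq1 : v ^ 2 ≠ 1 := hv.2 2 (by norm_num)
  have hm : 1 ≤ n - k := by omega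
  obtain ⟨x, hx⟩ := exists_alph (n - k) (n - k) hm le_rfl
  have hcard : (range n).card = (n - k) + k := by rw [card_range]; omega
  have h1 := hXR g hg (v ^ 2) hq0 hq1 (n - k) x (n - k) hm hx (range n) k hcard α β
  have h2 := hXR g' hg' (v ^ 2) hq0 hq1 (n - k) x (n - k) hm hx (range n) k hcard α β
  rw [XX_rev hXF g g' hg' (v ^ 2) hq0 hq1 n hrev, h1] at h2
  exact (mul_left_cancel₀ (qn_ne hv hm) (neg_injective h2)).symm

theorem exists_pair (s1 s2 : ℂ) : ∃ α β : ℂ, α + β = s1 ∧ α * β = s2 := by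
  obtain ⟨z, hz⟩ := IsAlgClosed.exists_pow_nat_eq (s1 ^ 2 - 4 * s2) (n := 2) (by norm_num)
  refine ⟨(s1 + z) / 2, (s1 - z) / 2, by ring, ?_⟩
  have : (s1 + z) / 2 * ((s1 - z) / 2) = (s1 ^ 2 - z ^ 2) / 4 := by ring
  rw [this, hz]
  ring

theorem SF_congr (hKC : S_KC) (v : ℂ) (l l' : ℕ → ℕ) (n : ℕ) (h : ∀ j, j < n → l j = l' j) :
    SF v l n = SF v l' n := by
  unfold SF kp KF
  rw [hKC _ v _ _ _ l l' n h n n]

end REVLAux

theorem tREVL : XFc → S_XR → S_SK → S_ADM → S_KC → S_REVG → S_REVL := by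
  intro hXF hXR hSK hADM hKC hREVG v hv l n hn hAdm
  obtain ⟨hA, hE, g, g', hg, hg', hC, hC', hl, hl', hrev⟩ := hREVG l n hn hAdm
  refine ⟨hA, hE, ?_⟩
  rw [← REVLAux.SF_congr hKC v (ld g) l n hl, ← REVLAux.SF_congr hKC v (ld g') (rv n l) n hl']
  have hEn : En g n = En g' n := by
    rw [(hADM g hg n hC).2.2.2, (hADM g' hg' n hC').2.2.2]
    have e1 : EL (ld g) n = EL l n :=
      Finset.sum_congr rfl fun j hj => hl j (Finset.mem_range.mp hj)
    have e2 : EL (ld g') n = EL (rv n l) n :=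
      Finset.sum_congr rfl fun j hj => hl' j (Finset.mem_range.mp hj)
    rw [e1, e2, hE]
  refine Polynomial.ext fun k => ?_
  refine MvPolynomial.funext fun s => ?_
  obtain ⟨α, β, h0, h1⟩ := REVLAux.exists_pair (s 0) (s 1)
  have hs : s = ![α + β, α * β] := by
    funext i
    fin_cases i
    · exact h0.symm
    · exact h1.symm
  rw [hs]
  have k1 := hSK v hv g hg n hC α β k
  have k2 := hSK v hv g' hg' n hC' α β k
  have k3 : (if k < n then s2k g' (v ^ 2) α β (range n) k else 0) =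
      (if k < n then s2k g (v ^ 2) α β (range n) k else 0) := by
    split_ifs with hk
    · exact REVLAux.s2k_eq hXF hXR g g' hg hg' hv n hrev α β k hk
    · rfl
  rw [k1, k2, hEn] at k3
  exact mul_left_cancel₀ (zpow_ne_zero _ hv.1) k3

end Pool.Agent.LV2
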