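import Pool.Agent.Lib.MP_263316_co.LV2.Spec

/-!
MP_263316_co, project LV2 (owner helper30), task RVC: combinatorics of the reversed left degree
sequence `rv`.
-/

set_option autoImplicit false

namespace Pool.Agent.LV2

open Finset Pool.Agent.SWC Pool.Agent.SWK Pool.Agent.HOOK

namespace RVCAux

theorem mono {l : ℕ → ℕ} {n : ℕ} (h : Adm l n) (u : ℕ) :
    ∀ d : ℕ, u + d < n → u - l u ≤ (u + d) - l (u + d) := by
  intro d
  induction d with
  | zero => intro _; exact le_rfl
  | succ d ih =>
    intro hd
    have h1 := ih (by omega)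
    have h2 := (h.2 (u + d) (by omega)).2
    have e : u + (d + 1) = u + d + 1 := rfl
    rw [e]
    omega

theorem mono' {l : ℕ → ℕ} {n : ℕ} (h : Adm l n) {u w : ℕ} (huw : u ≤ w) (hw : w < n) :
    u - l u ≤ w - l w := by
  have h1 := mono h u (w - u) (by omega)
  have e : u + (w - u) = w := by omega
  rwa [e] at h1

theorem two {l : ℕ → ℕ} {n r : ℕ} (ht : Tri l r) (hn : r + 2 < n) :
    2 ≤ rv n l (n - 1 - r) := by
  unfold rv
  have e : n - 1 - (n - 1 - r) = r := by omega
  rw [e]
  have h1 : l (r + 1) = 1 := ht.1 (r + 1) (by omega) le_rfl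
  have h2 : l (r + 2) = 2 := ht.2
  have hs : ({r + 1, r + 2} : Finset ℕ) ⊆
      (range n).filter (fun w => r < w ∧ w - l w ≤ r) := by
    intro w hw
    rw [Finset.mem_insert, Finset.mem_singleton] at hw
    rw [Finset.mem_filter, Finset.mem_range]
    rcases hw with rfl | rfl
    · rw [h1]; omega
    · rw [h2]; omega
  have h3 := Finset.card_le_card hs
  rwa [Finset.card_pair (by omega)] at h3

theorem one {l : ℕ → ℕ} {n j x : ℕ}
    (hx : ∀ w, w < n → ((n - 1 - j < w ∧ w - l w ≤ n - 1 - j) ↔ w = x)) (hxn : x < n) :
    rv n l j = 1 := by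
  unfold rv
  have e : (range n).filter (fun w => n - 1 - j < w ∧ w - l w ≤ n - 1 - j) = {x} := by
    ext w
    rw [Finset.mem_filter, Finset.mem_range, Finset.mem_singleton]
    constructor
    · rintro ⟨h1, h2⟩
      exact (hx w h1).1 h2
    · rintro rfl
      exact ⟨hxn, (hx _ hxn).2 rfl⟩
  rw [e, Finset.card_singleton]

end RVCAux

theorem tRVC : S_RVC := by
  intro l n r ha ht hn
  refine ⟨?_, ?_⟩
  · intro c hnc hrc hc hc1
    subst hnc
    refine ⟨?_, ?_, ?_, ?_, ?_⟩
    · unfold rv
      rw [Finset.card_eq_zero, Finset.filter_eq_empty_iff]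
      intro w hw
      rw [Finset.mem_range] at hw
      omega
    · refine RVCAux.one (x := c + 1) ?_ (by omega)
      intro w hw
      constructor
      · rintro ⟨h1, -⟩
        omega
      · rintro rfl
        rw [hc1]
        omega
    · unfold rv
      have e : (range (c + 2)).filter (fun w => c + 2 - 1 - 2 < w ∧ w - l w ≤ c + 2 - 1 - 2) =
          {c, c + 1} := by
        ext w
        rw [Finset.mem_filter, Finset.mem_range, Finset.mem_insert, Finset.mem_singleton]
        constructor
        · rintro ⟨h1, h2, -⟩
          omega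
        · rintro (rfl | rfl)
          · rw [hc]; omega
          · rw [hc1]; omega
      rw [e, Finset.card_pair (by omega)]
    · refine RVCAux.one (x := c - 1) ?_ (by omega)
      intro w hw
      constructor
      · rintro ⟨h1, h2⟩
        by_contra hne
        have h3 : w = c ∨ w = c + 1 := by omega
        rcases h3 with rfl | rfl
        · rw [hc] at h2; omega
        · rw [hc1] at h2; omega
      · rintro rfl
        have h3 := (ha.2 (c - 2) (by omega)).1
        have e : c - 2 + 1 = c - 1 := by omega
        rw [e] at h3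
        omega
    · exact ⟨c + 2 - 1 - r, by omega, by omega, RVCAux.two ht hn⟩
  · intro hr
    have l1 : l 1 = 1 := ht.1 1 le_rfl (by omega)
    have l2 : l 2 = 1 := ht.1 2 (by omega) (by omega)
    have l3 : l 3 = 1 := ht.1 3 (by omega) (by omega)
    refine ⟨?_, ?_, ⟨n - 1 - r, by omega, RVCAux.two ht hn⟩⟩
    · refine RVCAux.one (x := 1) ?_ (by omega)
      intro w hw
      constructor
      · rintro ⟨h1, h2⟩
        by_contra hne
        have h3 := RVCAux.mono' ha (show 2 ≤ w by omega) hw
        rw [l2] at h3
        omega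
      · rintro rfl
        rw [l1]
        omega
    · refine RVCAux.one (x := 2) ?_ (by omega)
      intro w hw
      constructor
      · rintro ⟨h1, h2⟩
        by_contra hne
        have h3 := RVCAux.mono' ha (show 3 ≤ w by omega) hw
        rw [l3] at h3
        omega
      · rintro rfl
        rw [l2]
        omega

end Pool.Agent.LV2
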