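import Pool.Agent.Lib.MP_263316_co.LV2.Spec

/-!
MP_263316_co, project LV2: the cones `SC`, `CQ`, `C2` (module SCM).
-/

set_option autoImplicit false

namespace Pool.Agent.LV2

open Finset Pool.Agent.SWC Pool.Agent.SWK Pool.Agent.HOOK

namespace SCMAux

theorem clos2 {R : Type} [CommRing R] (S T U : Set R)
    (h : ∀ x ∈ S, ∀ y ∈ T, x * y ∈ AddSubmonoid.closure U) :
    ∀ x ∈ AddSubmonoid.closure S, ∀ y ∈ AddSubmonoid.closure T,
      x * y ∈ AddSubmonoid.closure U := by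
  intro x hx y hy
  induction hx using AddSubmonoid.closure_induction with
  | mem x hx =>
    induction hy using AddSubmonoid.closure_induction with
    | mem y hy => exact h x hx y hy
    | zero => rw [mul_zero]; exact zero_mem _
    | add y z _ _ h1 h2 => rw [mul_add]; exact add_mem h1 h2
  | zero => rw [zero_mul]; exact zero_mem _
  | add x z _ _ h1 h2 => rw [add_mul]; exact add_mem h1 h2

theorem clos1 {M N : Type} [AddCommMonoid M] [AddCommMonoid N] (S : Set M) (U : Set N)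
    (f : M →+ N) (h : ∀ x ∈ S, f x ∈ AddSubmonoid.closure U) :
    ∀ x ∈ AddSubmonoid.closure S, f x ∈ AddSubmonoid.closure U := by
  intro x hx
  induction hx using AddSubmonoid.closure_induction with
  | mem x hx => exact h x hx
  | zero => rw [map_zero]; exact zero_mem _
  | add x z _ _ h1 h2 => rw [map_add]; exact add_mem h1 h2

theorem w_ne {v : ℂ} (hv : Gen v) : v - v⁻¹ ≠ 0 := by
  intro h
  have h1 : v = v⁻¹ := sub_eq_zero.mp h
  have h2 : v ^ 2 = 1 := by
    rw [pow_two]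
    nth_rewrite 2 [h1]
    exact mul_inv_cancel₀ hv.1
  exact hv.2 2 (by norm_num) h2

theorem br_one {v : ℂ} (hv : Gen v) : br v 1 = 1 := by
  unfold br
  rw [zpow_one, zpow_neg, zpow_one]
  exact div_self (w_ne hv)

theorem br_zero (v : ℂ) : br v 0 = 0 := by
  unfold br
  simp

theorem br_step {v : ℂ} (hv : Gen v) (m n : ℤ) :
    br v (m + 1) * br v n = br v m * br v (n + 1) + br v (n - m) := by
  have hw := w_ne hv
  have h0 := hv.1
  unfold br
  have e1 : v ^ (m + 1) = v ^ m * v := zpow_add_one₀ h0 m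
  have e2 : v ^ (n + 1) = v ^ n * v := zpow_add_one₀ h0 n
  have e3 : v ^ (-(m + 1)) = (v ^ m)⁻¹ * v⁻¹ := by rw [zpow_neg, e1, mul_inv]
  have e4 : v ^ (-(n + 1)) = (v ^ n)⁻¹ * v⁻¹ := by rw [zpow_neg, e2, mul_inv]
  have e5 : v ^ (n - m) = v ^ n * (v ^ m)⁻¹ := by rw [zpow_sub₀ h0, div_eq_mul_inv]
  have e6 : v ^ (-(n - m)) = v ^ m * (v ^ n)⁻¹ := by
    rw [neg_sub, zpow_sub₀ h0, div_eq_mul_inv]
  rw [e3, e4, e5, e6, e1, e2, zpow_neg, zpow_neg]
  generalize v ^ m = a
  generalize v ^ n = b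
  rw [div_mul_div_comm, div_mul_div_comm]
  have e7 : (b * a⁻¹ - a * b⁻¹) / (v - v⁻¹) =
      ((b * a⁻¹ - a * b⁻¹) * (v - v⁻¹)) / ((v - v⁻¹) * (v - v⁻¹)) := by
    rw [mul_div_mul_right _ _ hw]
  rw [e7, ← add_div]
  congr 1
  ring

theorem br_mul {v : ℂ} (hv : Gen v) (d : ℕ) : ∀ m n : ℕ, m ≤ n → (m + n + d) % 2 = 0 →
    br v m * br v n ∈ SC v d := by
  intro m
  induction m with
  | zero =>
    intro n _ _
    rw [Nat.cast_zero, br_zero, zero_mul]
    exact zero_mem _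
  | succ m ih =>
    intro n hmn hp
    have h1 : br v ((m + 1 : ℕ) : ℤ) * br v (n : ℤ) =
        br v (m : ℤ) * br v ((n + 1 : ℕ) : ℤ) + br v ((n - m : ℕ) : ℤ) := by
      rw [Nat.cast_succ, br_step hv, Nat.cast_succ, Nat.cast_sub (by omega)]
    rw [h1]
    refine add_mem (ih (n + 1) (by omega) (by omega)) ?_
    exact AddSubmonoid.subset_closure ⟨n - m, by omega, rfl⟩

theorem br_mul' {v : ℂ} (hv : Gen v) (d : ℕ) (m n : ℕ) (hp : (m + n + d) % 2 = 0) :
    br v m * br v n ∈ SC v d := by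
  rcases le_total m n with h | h
  · exact br_mul hv d m n h hp
  · rw [mul_comm]
    exact br_mul hv d n m h (by omega)

theorem cc_mul (x y : ℂ) : cc (x * y) = cc x * cc y := by
  unfold cc
  rw [MvPolynomial.C_mul, Polynomial.C_mul]

theorem cc_add (x y : ℂ) : cc (x + y) = cc x + cc y := by
  unfold cc
  rw [MvPolynomial.C_add, Polynomial.C_add]

theorem cc_zero : cc 0 = 0 := by
  unfold cc
  rw [MvPolynomial.C_0, Polynomial.C_0]

theorem cc_one : cc 1 = 1 := by
  unfold cc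
  rw [MvPolynomial.C_1, Polynomial.C_1]

/-- elements of `SC` times monomials -/
theorem sc_cq {v : ℂ} (d e a b : ℕ) (h : (d + a + e) % 2 = 0) (x : ℂ) (hx : x ∈ SC v d) :
    cc x * E1 ^ a * E2 ^ b ∈ CQ v e := by
  unfold SC at hx
  induction hx using AddSubmonoid.closure_induction with
  | mem x hx =>
    obtain ⟨m, hm, rfl⟩ := hx
    exact AddSubmonoid.subset_closure ⟨m, a, b, by omega, rfl⟩
  | zero => rw [cc_zero, zero_mul, zero_mul]; exact zero_mem _
  | add x z _ _ h1 h2 => rw [cc_add, add_mul, add_mul]; exact add_mem h1 h2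

end SCMAux

open SCMAux in
theorem tSCM : S_SCM := by
  intro v hv
  have hSC : ∀ (d d' : ℕ) (x y : ℂ), x ∈ SC v d → y ∈ SC v d' → x * y ∈ SC v (d + d') := by
    intro d d' x y hx hy
    refine clos2 _ _ _ ?_ x hx y hy
    rintro x ⟨m, hm, rfl⟩ y ⟨n, hn, rfl⟩
    exact br_mul' hv (d + d') m n (by omega)
  have hCQ : ∀ (d d' : ℕ) (x y : QQ), x ∈ CQ v d → y ∈ CQ v d' → x * y ∈ CQ v (d + d') := by
    intro d d' x y hx hy
    refine clos2 _ _ _ ?_ x hx y hy
    rintro x ⟨m, a, b, hm, rfl⟩ y ⟨n, a', b', hn, rfl⟩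
    have h1 : cc (br v m) * E1 ^ a * E2 ^ b * (cc (br v n) * E1 ^ a' * E2 ^ b') =
        cc (br v m * br v n) * E1 ^ (a + a') * E2 ^ (b + b') := by
      rw [cc_mul, pow_add, pow_add]
      ring
    rw [h1]
    exact sc_cq (m + n) (d + d') (a + a') (b + b') (by omega) _
      (br_mul' hv (m + n) m n (by omega))
  have hpar : ∀ d d' : ℕ, d % 2 = d' % 2 →
      SC v d = SC v d' ∧ CQ v d = CQ v d' ∧ C2 v d = C2 v d' := by
    intro d d' h
    refine ⟨?_, ?_, ?_⟩
    · unfold SC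
      congr 1
      ext z
      constructor
      · rintro ⟨m, hm, rfl⟩
        exact ⟨m, by omega, rfl⟩
      · rintro ⟨m, hm, rfl⟩
        exact ⟨m, by omega, rfl⟩
    · unfold CQ
      congr 1
      ext z
      constructor
      · rintro ⟨m, a, b, hm, rfl⟩
        exact ⟨m, a, b, by omega, rfl⟩
      · rintro ⟨m, a, b, hm, rfl⟩
        exact ⟨m, a, b, by omega, rfl⟩
    · unfold C2
      congr 1
      ext z
      constructor
      · rintro ⟨m, a, b, hm, rfl⟩
        exact ⟨m, a, b, by omega, rfl⟩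
      · rintro ⟨m, a, b, hm, rfl⟩
        exact ⟨m, a, b, by omega, rfl⟩
  have hbr : ∀ m : ℕ, br v m ∈ SC v (m + 1) :=
    fun m => AddSubmonoid.subset_closure ⟨m, by omega, rfl⟩
  have hcc : ∀ m : ℕ, cc (br v m) ∈ CQ v (m + 1) :=
    fun m => AddSubmonoid.subset_closure ⟨m, 0, 0, by omega, by rw [pow_zero, pow_zero, mul_one,
      mul_one]⟩
  have hE1 : E1 ∈ CQ v 1 :=
    AddSubmonoid.subset_closure ⟨1, 1, 0, by norm_num, by
      rw [Nat.cast_one, br_one hv, cc_one, pow_one, pow_zero, one_mul, mul_one]⟩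
  have hE2 : E2 ∈ CQ v 0 :=
    AddSubmonoid.subset_closure ⟨1, 0, 1, by norm_num, by
      rw [Nat.cast_one, br_one hv, cc_one, pow_one, pow_zero, one_mul, one_mul]⟩
  have hone : (1 : QQ) ∈ CQ v 0 :=
    AddSubmonoid.subset_closure ⟨1, 0, 0, by norm_num, by
      rw [Nat.cast_one, br_one hv, cc_one, pow_zero, pow_zero, one_mul, mul_one]⟩
  refine ⟨hSC, hpar, hCQ, fun m => ⟨hbr m, hcc m⟩, hone, hE1, hE2, ?_, ?_, ?_⟩
  · intro d x hx
    have h1 := sc_cq (v := v) d d 0 0 (by omega) x hx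
    rwa [pow_zero, pow_zero, mul_one, mul_one] at h1
  · intro d m x hx
    have h1 := hCQ (m + 1) d _ _ (hcc m) hx
    rwa [(hpar (m + 1 + d) (d + m + 1) (by omega)).2.1] at h1
  · intro d x hx
    constructor
    · have h1 := hCQ 1 d _ _ hE1 hx
      rwa [(hpar (1 + d) (d + 1) (by omega)).2.1] at h1
    · have h1 := hCQ 0 d _ _ hE2 hx
      rwa [zero_add] at h1

end Pool.Agent.LV2
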