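import Pool.Agent.Lib.MP_263316_co.LV2.Spec

/-!
MP_263316_co, project LV2, task SK (helper60): the sums over pairs of stable sets and the table.
-/

set_option autoImplicit false

namespace Pool.Agent.LV2

open Finset Pool.Agent.SWC Pool.Agent.SWK Pool.Agent.HOOK

namespace SKAux

theorem bz_map {R S : Type} [CommRing R] [Algebra ℂ R] [CommRing S] [Algebra ℂ S]
    (φ : R →ₐ[ℂ] S) (v : ℂ) (ω : R) (m : ℤ) : φ (bz v ω m) = bz v (φ ω) m := by
  unfold bz
  rw [map_add, map_mul, AlgHom.commutes, AlgHom.commutes]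

theorem K_map {R S : Type} [CommRing R] [Algebra ℂ R] [CommRing S] [Algebra ℂ S]
    (φ : R →ₐ[ℂ] S) (v : ℂ) (e1 e2 ω : R) (l : ℕ → ℕ) (i : ℕ) : ∀ a b : ℕ,
    φ (K v e1 e2 ω l i a b).1 = (K v (φ e1) (φ e2) (φ ω) l i a b).1 ∧
    φ (K v e1 e2 ω l i a b).2 = (K v (φ e1) (φ e2) (φ ω) l i a b).2 := by
  induction i with
  | zero => exact fun a b => ⟨AlgHom.commutes φ _, map_zero φ⟩
  | succ i ih =>
    have h1 := fun a b => (ih a b).1
    have h2 := fun a b => (ih a b).2
    intro a b
    simp only [K]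
    split_ifs
    · simp only [map_mul, bz_map, h1, h2, and_self]
    · simp only [map_mul, map_add, bz_map, h1, h2, and_self]
    · simp only [map_mul, map_add, bz_map, h1, h2, map_zero, AlgHom.commutes, and_self]

theorem qn_map {R S : Type} [CommRing R] [CommRing S] (f : R →+* S) (q : R) (n : ℕ) :
    f (qn q n) = qn (f q) n := by
  unfold qn
  rw [map_sum]
  exact Finset.sum_congr rfl fun i _ => map_pow f q i

/-- the double constant map -/
noncomputable def CC : ℂ →+* Polynomial (Polynomial ℂ) := Polynomial.C.comp Polynomial.C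

theorem wo_coeff (g : ℕ → ℕ) (q0 : ℂ) (V : Finset ℕ) :
    (wo g (CC q0) Polynomial.X V).coeff 1 =
      if V.Nonempty then Polynomial.C (Pm g q0 V) else 0 := by
  split_ifs with hV
  · have hr := V.min'_mem hV
    have hmin : ∀ u ∈ V, V.min' hV ≤ u := fun u hu => V.min'_le u hu
    unfold wo Pm
    rw [← Finset.mul_prod_erase V _ hr, ← Finset.mul_prod_erase V _ hr, aL_min hmin, qn_zero',
      pow_zero, mul_one, zero_add, Polynomial.coeff_X_mul, Polynomial.coeff_zero_prod,
      if_neg (fun ⟨u, hu, h⟩ => absurd (hmin u hu) (not_le.mpr h)), one_mul, map_prod]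
    refine Finset.prod_congr rfl fun w hw => ?_
    rw [Finset.mem_erase] at hw
    rw [if_pos ⟨V.min' hV, hr, lt_of_le_of_ne (hmin w hw.2) (fun h => hw.1 h.symm)⟩,
      Polynomial.coeff_add, Polynomial.coeff_X_mul_zero, add_zero, ← qn_map CC]
    exact Polynomial.coeff_C_zero
  · rw [Finset.not_nonempty_iff_eq_empty] at hV
    subst hV
    unfold wo
    rw [Finset.prod_empty, Polynomial.coeff_one]
    simp

theorem coef_pow (a b k : ℕ) (s P : ℂ) :
    (Polynomial.C s * Polynomial.X ^ (a + b) * Polynomial.C P).coeff k =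
      if a + b = k then s * P else 0 := by
  have : Polynomial.C s * Polynomial.X ^ (a + b) * Polynomial.C P =
      Polynomial.C (s * P) * Polynomial.X ^ (a + b) := by
    rw [map_mul]; ring
  rw [this, Polynomial.coeff_C_mul_X_pow]
  by_cases h : a + b = k
  · rw [if_pos h, if_pos h.symm]
  · rw [if_neg h, if_neg (fun h' => h h'.symm)]

theorem term_coeff (g : ℕ → ℕ) (v α β : ℂ) (a b e : ℕ) (V : Finset ℕ) (k : ℕ) :
    ((((Polynomial.C (Polynomial.C (α / v) * Polynomial.X)) ^ a *
      (Polynomial.C (Polynomial.C (β / v) * Polynomial.X)) ^ b * (CC (v ^ 2)) ^ e *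
      wo g (CC (v ^ 2)) Polynomial.X V * 1 : Polynomial (Polynomial ℂ)).coeff 1).coeff k : ℂ) =
    if V.Nonempty then (if a + b = k then
      ((α / v) ^ a * (β / v) ^ b * (v ^ 2) ^ e) * Pm g (v ^ 2) V else 0) else 0 := by
  have h1 : (Polynomial.C (Polynomial.C (α / v) * Polynomial.X)) ^ a *
      (Polynomial.C (Polynomial.C (β / v) * Polynomial.X)) ^ b * (CC (v ^ 2)) ^ e =
      (Polynomial.C (Polynomial.C ((α / v) ^ a * (β / v) ^ b * (v ^ 2) ^ e) *
        Polynomial.X ^ (a + b)) : Polynomial (Polynomial ℂ)) := by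
    have h2 : CC (v ^ 2) = Polynomial.C (Polynomial.C (v ^ 2)) := rfl
    rw [h2]
    simp only [← map_pow, ← map_mul]
    congr 1
    simp only [map_mul, map_pow]
    ring
  rw [mul_one, h1, Polynomial.coeff_C_mul, wo_coeff]
  split_ifs with h3 h4
  · rw [coef_pow, if_pos h4]
  · rw [coef_pow, if_neg h4]
  · rw [mul_zero, Polynomial.coeff_zero]

theorem G0_coeff (g : ℕ → ℕ) (v α β : ℂ) (hv : v ≠ 0) (n k : ℕ) :
    ((G0 g (CC (v ^ 2)) Polynomial.X (Polynomial.C (Polynomial.C (α / v) * Polynomial.X))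
      (Polynomial.C (Polynomial.C (β / v) * Polynomial.X)) (range n)).coeff 1).coeff k =
    (v ^ k)⁻¹ * (if k < n then s2k g (v ^ 2) α β (range n) k else 0) := by
  unfold G0 PS
  rw [Polynomial.finsetSum_coeff, Polynomial.finsetSum_coeff]
  have h0 : (v ^ k)⁻¹ * (if k < n then s2k g (v ^ 2) α β (range n) k else 0) =
      ∑ T ∈ (range n).powerset.filter (fun T => ind g T), (v ^ k)⁻¹ * (if k < n then
        ∑ T' ∈ (range n \ T).powerset.filter (fun T' => ind g T' ∧ T.card + T'.card = k),
          α ^ T.card * β ^ T'.card * (v ^ 2) ^ (ea g (range n) T + ea g (range n \ T) T') *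
            Pm g (v ^ 2) ((range n \ T) \ T') else 0) := by
    rw [← Finset.mul_sum]
    congr 1
    split_ifs
    · rfl
    · rw [Finset.sum_const_zero]
  rw [h0]
  refine Finset.sum_congr rfl fun T hT => ?_
  rw [Finset.mem_filter, Finset.mem_powerset] at hT
  rw [Polynomial.finsetSum_coeff, Polynomial.finsetSum_coeff]
  have h1 : ∀ f : Finset ℕ → ℂ,
      ∑ T' ∈ (range n \ T).powerset.filter (fun T' => ind g T' ∧ T.card + T'.card = k), f T' =
      ∑ T' ∈ (range n \ T).powerset.filter (fun T' => ind g T'),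
        if T.card + T'.card = k then f T' else 0 := by
    intro f
    rw [← Finset.filter_filter, Finset.sum_filter]
  rw [h1]
  have h2 : ∀ T' ∈ (range n \ T).powerset.filter (fun T' => ind g T'),
      ((range n \ T) \ T').card + T'.card + T.card = n := by
    intro T' hT'
    rw [Finset.mem_filter, Finset.mem_powerset] at hT'
    rw [Finset.card_sdiff_add_card_eq_card hT'.1, Finset.card_sdiff_add_card_eq_card hT.1,
      Finset.card_range]
  by_cases hk : k < n
  · rw [if_pos hk, Finset.mul_sum]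
    refine Finset.sum_congr rfl fun T' hT' => ?_
    rw [term_coeff]
    have h3 := h2 T' hT'
    by_cases hc : T.card + T'.card = k
    · have hne : ((range n \ T) \ T').Nonempty := by
        rw [← Finset.card_pos]
        omega
      rw [if_pos hne, if_pos hc, if_pos hc, ← hc, div_pow, div_pow, pow_add v]
      field_simp
    · rw [if_neg hc, if_neg hc, mul_zero, ite_self]
  · rw [if_neg hk, mul_zero]
    refine Finset.sum_eq_zero fun T' hT' => ?_
    rw [term_coeff]
    have h3 := h2 T' hT'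
    by_cases hc : T.card + T'.card = k
    · have hne : ¬ ((range n \ T) \ T').Nonempty := by
        rw [← Finset.card_pos]
        omega
      rw [if_neg hne]
    · rw [if_neg hc, ite_self]

/-- the specialisation -/
noncomputable def ps (α β : ℂ) : QQ →ₐ[ℂ] Polynomial ℂ :=
  Polynomial.mapAlgHom (MvPolynomial.aeval ![α + β, α * β] : R2 →ₐ[ℂ] ℂ)

theorem ps_coeff (α β : ℂ) (p : QQ) (k : ℕ) :
    (ps α β p).coeff k = MvPolynomial.eval ![α + β, α * β] (p.coeff k) := by
  unfold ps
  rw [Polynomial.coe_mapAlgHom, Polynomial.coeff_map]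
  rfl

theorem ps_E1 (α β : ℂ) : ps α β E1 = Polynomial.C (α + β) * Polynomial.X := by
  unfold ps E1
  rw [Polynomial.coe_mapAlgHom, Polynomial.map_mul, Polynomial.map_C, Polynomial.map_X]
  congr 2
  exact MvPolynomial.aeval_X _ 0

theorem ps_E2 (α β : ℂ) : ps α β E2 = Polynomial.C (α * β) * Polynomial.X ^ 2 := by
  unfold ps E2
  rw [Polynomial.coe_mapAlgHom, Polynomial.map_mul, Polynomial.map_C, Polynomial.map_pow,
    Polynomial.map_X]
  congr 2
  exact MvPolynomial.aeval_X _ 1

end SKAux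

open SKAux in
theorem tSK : S_LINK → S_SK := by
  intro hL v hv g hg n hn α β k
  have hv0 : v ≠ 0 := hv.1
  have hv2 : v ^ 2 ≠ 1 := hv.2 2 (by norm_num)
  have hlink := (hL (Polynomial (Polynomial ℂ)) v hv0 hv2 g hg n hn Polynomial.X
    (Polynomial.C (Polynomial.C (α / v) * Polynomial.X))
    (Polynomial.C (Polynomial.C (β / v) * Polynomial.X)) (CC (v ^ 2))
    (Polynomial.C (Polynomial.C (α + β) * Polynomial.X))
    (Polynomial.C (Polynomial.C (α * β) * Polynomial.X ^ 2)) rfl
    (by
      have e : (algebraMap ℂ (Polynomial (Polynomial ℂ)) v) =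
        Polynomial.C (Polynomial.C v) := rfl
      rw [e, ← map_add, ← map_mul]
      congr 1
      rw [← add_mul, ← mul_assoc, ← map_add, ← map_mul]
      congr 2
      field_simp)
    (by
      have e : (algebraMap ℂ (Polynomial (Polynomial ℂ)) (v ^ 2)) =
        Polynomial.C (Polynomial.C (v ^ 2)) := rfl
      rw [e, ← map_mul, ← map_mul]
      congr 1
      have e2 : Polynomial.C (α / v) * Polynomial.X * (Polynomial.C (β / v) * Polynomial.X) =
          Polynomial.C (α / v * (β / v)) * (Polynomial.X ^ 2 : Polynomial ℂ) := by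
        rw [map_mul]; ring
      rw [e2, ← mul_assoc, ← map_mul]
      congr 2
      field_simp) n le_rfl).1
  have hK := (K_map (Polynomial.mapAlgHom (ps α β)) v (Polynomial.C E1) (Polynomial.C E2)
    Polynomial.X (ld g) n n n).1
  rw [Polynomial.coe_mapAlgHom, Polynomial.map_C, Polynomial.map_C, Polynomial.map_X] at hK
  have f1 : ((ps α β : QQ →ₐ[ℂ] Polynomial ℂ) : QQ →+* Polynomial ℂ) E1 =
    Polynomial.C (α + β) * Polynomial.X := ps_E1 α β
  have f2 : ((ps α β : QQ →ₐ[ℂ] Polynomial ℂ) : QQ →+* Polynomial ℂ) E2 =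
    Polynomial.C (α * β) * Polynomial.X ^ 2 := ps_E2 α β
  rw [f1, f2] at hK
  rw [← hK] at hlink
  have h1 := congrArg (fun p : Polynomial (Polynomial ℂ) => (p.coeff 1).coeff k) hlink
  rw [G0_coeff g v α β hv0 n k] at h1
  have e : (algebraMap ℂ (Polynomial (Polynomial ℂ)) (v ^ ((En g n : ℤ) + 1 - n))) =
    Polynomial.C (Polynomial.C (v ^ ((En g n : ℤ) + 1 - n))) := rfl
  rw [e, Polynomial.coeff_C_mul, Polynomial.coeff_C_mul, Polynomial.coeff_map] at h1
  have h2 : (((ps α β : QQ →ₐ[ℂ] Polynomial ℂ) : QQ →+* Polynomial ℂ)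
      ((K v (Polynomial.C E1) (Polynomial.C E2) Polynomial.X (ld g) n n n).1.coeff 1)).coeff k =
      MvPolynomial.eval ![α + β, α * β] ((SF v (ld g) n).coeff k) := ps_coeff α β _ k
  rw [h2, inv_mul_eq_iff_eq_mul₀ (pow_ne_zero k hv0)] at h1
  rw [h1, ← mul_assoc]
  congr 1
  rw [← zpow_natCast, ← zpow_add₀ hv0]
  congr 1
  ring

end Pool.Agent.LV2
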