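import Pool.Agent.Lib.MP_263316_co.LV2.Spec

set_option autoImplicit false

namespace Pool.Agent.LV2

open Finset Pool.Agent.SWC Pool.Agent.SWK Pool.Agent.HOOK

namespace STEPKAux

theorem cc_mul (x y : ℂ) : cc (x * y) = cc x * cc y := by
  unfold cc; rw [map_mul, map_mul]

theorem cc_add (x y : ℂ) : cc (x + y) = cc x + cc y := by
  unfold cc; rw [map_add, map_add]

theorem cc_sub (x y : ℂ) : cc (x - y) = cc x - cc y := by
  unfold cc; rw [map_sub, map_sub]

theorem cc_zero : cc 0 = 0 := by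
  unfold cc; rw [map_zero, map_zero]

section
variable {v : ℂ} (h : v ≠ 0) (h2 : v ^ 2 - 1 ≠ 0)
include h h2

theorem vne : v - v⁻¹ ≠ 0 := by
  intro h4
  apply h2
  field_simp at h4
  rw [mul_zero] at h4
  exact h4

theorem bb2 (n : ℤ) : br v 2 * br v n = br v (n + 1) + br v (n - 1) := by
  have h3 := vne h h2
  have hA : v ^ n ≠ 0 := zpow_ne_zero _ h
  simp only [br, neg_sub, neg_add, zpow_add₀ h, zpow_sub₀ h, zpow_neg, zpow_one]
  rw [show v ^ (2 : ℤ) = v ^ 2 from zpow_natCast v 2]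
  generalize v ^ n = A at hA ⊢
  field_simp
  ring

theorem bb3 (x y : ℤ) : br v x * br v y - br v (x + 1) * br v (y - 1) = br v (x - y + 1) := by
  have h3 := vne h h2
  have hA : v ^ x ≠ 0 := zpow_ne_zero _ h
  have hB : v ^ y ≠ 0 := zpow_ne_zero _ h
  simp only [br, neg_sub, neg_add, zpow_add₀ h, zpow_sub₀ h, zpow_neg, zpow_one]
  generalize v ^ x = A at hA ⊢
  generalize v ^ y = B at hB ⊢
  field_simp
  ring

/-- `{l} {i-2} - {l-2} {i} = {2} {i-l}` -/
theorem j0 (i l : ℤ) : br v l * br v (i - 2) - br v (l - 2) * br v i = br v 2 * br v (i - l) := by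
  have e1 := bb3 h h2 (i - 2) l
  have e2 := bb3 h h2 (i - 1) (l - 1)
  have e3 := bb2 h h2 (i - l)
  rw [show i - 2 + 1 = i - 1 by ring, show i - 2 - l + 1 = i - l - 1 by ring] at e1
  rw [show i - 1 + 1 = i by ring, show l - 1 - 1 = l - 2 by ring,
    show i - 1 - (l - 1) + 1 = i - l + 1 by ring] at e2
  linear_combination e1 + e2 - e3

theorem j1 (i l : ℤ) : br v l * br v i * br v (i - 2) + br v (i - l - 1) * br v (i - 2) -
    br v (l - 2) * br v (i + 1) * br v (i - 1) -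
    br v (i - l) * (br v (i + 1) + br v (i - 1) + br v (i - 3)) = 0 := by
  have h3 := vne h h2
  have hA : v ^ i ≠ 0 := zpow_ne_zero _ h
  have hB : v ^ l ≠ 0 := zpow_ne_zero _ h
  simp only [br, neg_sub, neg_add, zpow_add₀ h, zpow_sub₀ h, zpow_neg, zpow_one]
  rw [show v ^ (2 : ℤ) = v ^ 2 from zpow_natCast v 2, show v ^ (3 : ℤ) = v ^ 3 from zpow_natCast v 3]
  generalize v ^ i = A at hA ⊢
  generalize v ^ l = B at hB ⊢
  field_simp
  ring

theorem j2 (i l : ℤ) : br v l * br v i * br v (i - 1) - br v 2 * br v l -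
    br v (l - 2) * br v (i + 1) * br v i - br v (i - l) * (br v (i + 2) + br v i) = 0 := by
  have h3 := vne h h2
  have hA : v ^ i ≠ 0 := zpow_ne_zero _ h
  have hB : v ^ l ≠ 0 := zpow_ne_zero _ h
  simp only [br, neg_sub, neg_add, zpow_add₀ h, zpow_sub₀ h, zpow_neg, zpow_one]
  rw [show v ^ (2 : ℤ) = v ^ 2 from zpow_natCast v 2]
  generalize v ^ i = A at hA ⊢
  generalize v ^ l = B at hB ⊢
  field_simp
  ring

end

section
variable {v : ℂ} (f : ∀ (E E' : Polynomial ℂ) (n : ℤ), bk v (E + E') n = bk v E n + bk v E' n)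
  (f2 : ∀ (z : ℂ) (E : Polynomial ℂ) (n : ℤ), bk v (Polynomial.C z * E) n = cc z * bk v E n)
  (f3 : ∀ (E : Polynomial ℂ) (n : ℤ),
    bk v ((1 + Polynomial.X) * E) n = bk v E n + E1 * bk v E (n - 1))
  (f4 : ∀ (z : ℂ) (n : ℤ), bk v (Polynomial.C z) n = cc (z * br v n))
  (f5 : ∀ (E : Polynomial ℂ) (x n : ℤ), cc (br v (x - 1)) * bk v E n -
    cc (br v (x - 2)) * bk v E (n + 1) = bk v E (n - x + 2))
  (f6 : ∀ (E : Polynomial ℂ) (n : ℤ), bk v E (n + 1) + bk v E (n - 1) = cc (br v 2) * bk v E n)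
  (f7 : ∀ (E : Polynomial ℂ) (n : ℤ), F4 v * bk v E (n - 1) =
    eta v ((1 + Polynomial.X) * E) (n + 2) + E2 * eta v E n)

include f in
theorem eta_add (E E' : Polynomial ℂ) (n : ℤ) : eta v (E + E') n = eta v E n + eta v E' n := by
  unfold eta
  rw [f, f, f]
  ring

include f2 in
theorem eta_C (z : ℂ) (E : Polynomial ℂ) (n : ℤ) :
    eta v (Polynomial.C z * E) n = cc z * eta v E n := by
  unfold eta
  rw [f2, f2, f2]
  ring

include f3 in
theorem eta_3 (E : Polynomial ℂ) (n : ℤ) :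
    eta v ((1 + Polynomial.X) * E) n = eta v E n + E1 * eta v E (n - 1) := by
  unfold eta
  rw [f3, f3, f3]
  rw [show n - 3 - 1 = n - 1 - 3 by ring, show n - 2 - 1 = n - 1 - 2 by ring]
  ring

include f4 in
theorem eta_4 (z : ℂ) (n : ℤ) : eta v (Polynomial.C z) n =
    cc z * (cc (br v (n - 3)) + cc (br v (n - 2)) * E1 + cc (br v (n - 1)) * E2) := by
  unfold eta
  rw [f4, f4, f4, cc_mul, cc_mul, cc_mul]
  ring

include f5 in
theorem eta_5 (E : Polynomial ℂ) (x n : ℤ) : cc (br v (x - 1)) * eta v E n -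
    cc (br v (x - 2)) * eta v E (n + 1) = eta v E (n - x + 2) := by
  unfold eta
  have a1 := f5 E x (n - 3)
  have a2 := f5 E x (n - 2)
  have a3 := f5 E x (n - 1)
  rw [show n + 1 - 3 = n - 3 + 1 by ring, show n + 1 - 2 = n - 2 + 1 by ring,
    show n + 1 - 1 = n - 1 + 1 by ring, show n - x + 2 - 3 = n - 3 - x + 2 by ring,
    show n - x + 2 - 2 = n - 2 - x + 2 by ring, show n - x + 2 - 1 = n - 1 - x + 2 by ring]
  linear_combination a1 + E1 * a2 + E2 * a3

include f6 in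
theorem eta_6 (E : Polynomial ℂ) (n : ℤ) :
    eta v E (n + 1) + eta v E (n - 1) = cc (br v 2) * eta v E n := by
  unfold eta
  have a1 := f6 E (n - 3)
  have a2 := f6 E (n - 2)
  have a3 := f6 E (n - 1)
  rw [show n + 1 - 3 = n - 3 + 1 by ring, show n + 1 - 2 = n - 2 + 1 by ring,
    show n + 1 - 1 = n - 1 + 1 by ring, show n - 1 - 3 = n - 3 - 1 by ring,
    show n - 1 - 2 = n - 2 - 1 by ring]
  linear_combination a1 + E1 * a2 + E2 * a3

include f f2 f4 f5 f7 in
theorem stepA (h : v ≠ 0) (h2 : v ^ 2 - 1 ≠ 0) (Ei Eb Ep : Polynomial ℂ) (ρ : ℂ) (i l b : ℤ) :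
    cc (br v (l - 1)) * hp v Ei Eb ρ i b + E2 * hn v Eb Ep ρ b (i - l) =
    F4 v * YY v 1 Eb Ep b (i - l) + hp v (Polynomial.C (br v (l - 1)) * Ei +
      (1 + Polynomial.X) * Ep + Polynomial.C (br v (i - l) * ρ))
      (Polynomial.C (br v (l - 2)) * Eb) (br v (l - 2) * ρ) (i + 1) b := by
  have x5 := eta_5 f5 ((1 + Polynomial.X) * Eb) l i
  have x7a := f7 Eb (i - l)
  have x7b := f7 Ep b
  have i1 := congrArg cc (bb3 h h2 (i - 2) (l - 1))
  have i2 := congrArg cc (bb3 h h2 (i - 1) (l - 1))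
  have i3 := congrArg cc (bb3 h h2 b (i - l + 1))
  rw [show i - 2 + 1 = i - 1 by ring, show l - 1 - 1 = l - 2 by ring,
    show i - 2 - (l - 1) + 1 = i - l by ring, cc_sub, cc_mul, cc_mul] at i1
  rw [show i - 1 + 1 = i by ring, show l - 1 - 1 = l - 2 by ring,
    show i - 1 - (l - 1) + 1 = i - l + 1 by ring, cc_sub, cc_mul, cc_mul] at i2
  rw [show i - l + 1 - 1 = i - l by ring,
    show b - (i - l + 1) + 1 = b - (i - l) by ring, cc_sub, cc_mul, cc_mul] at i3
  unfold hp hn YY kappa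
  rw [show (1 + Polynomial.X) * (Polynomial.C (br v (l - 2)) * Eb) =
    Polynomial.C (br v (l - 2)) * ((1 + Polynomial.X) * Eb) by ring, eta_C f2, eta_add f,
    eta_add f, eta_C f2, eta_4 f4]
  rw [show i + 1 - 2 = i - 1 by ring, show i + 1 - 1 = i by ring, show b + 2 - 3 = b - 1 by ring,
    show b + 2 - 2 = b by ring, show b + 2 - 1 = b + 1 by ring]
  simp only [cc_mul]
  linear_combination x5 - x7a + x7b + cc ρ * ((cc (br v (b - 1)) + cc (br v b) * E1) * i1 +
    cc (br v b) * E2 * i2 + E2 * i3)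

include f f2 f4 f5 in
theorem stepB (h : v ≠ 0) (h2 : v ^ 2 - 1 ≠ 0) (Ei Eb Ep : Polynomial ℂ) (ρ : ℂ) (i l b : ℤ) :
    cc (br v (l - 1)) * hn v Ei Eb ρ i b + hp v Eb Ep ρ b (i - l) =
    hn v (Polynomial.C (br v (l - 1)) * Ei +
      (1 + Polynomial.X) * Ep + Polynomial.C (br v (i - l) * ρ))
      (Polynomial.C (br v (l - 2)) * Eb) (br v (l - 2) * ρ) (i + 1) b := by
  have y5 := eta_5 f5 Eb l i
  have k1 := congrArg cc (bb3 h h2 (i - b) (l - 1))
  have k2 := congrArg cc (bb3 h h2 (i - l - 1) (b - 2))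
  rw [show i - b + 1 = i + 1 - b by ring, show l - 1 - 1 = l - 2 by ring,
    show i - b - (l - 1) + 1 = i - l - b + 2 by ring, cc_sub, cc_mul, cc_mul] at k1
  rw [show i - l - 1 + 1 = i - l by ring, show b - 2 - 1 = b - 3 by ring,
    show i - l - 1 - (b - 2) + 1 = i - l - b + 2 by ring, cc_sub, cc_mul, cc_mul] at k2
  unfold hp hn kappa
  rw [eta_C f2, eta_add f, eta_add f, eta_C f2, eta_4 f4]
  simp only [cc_mul]
  linear_combination - y5 + cc ρ * (k2 - k1)

include f f2 f3 f4 f5 f6 f7 in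
theorem stepC (h : v ≠ 0) (h2 : v ^ 2 - 1 ≠ 0) (Ei Ep : Polynomial ℂ) (ρ : ℂ) (i l : ℤ) :
    cc (br v l) * hp v Ei Ei ρ i i + E1 * hp v Ei Ep ρ i (i - l) +
      cc (br v 2) * E2 * hn v Ei Ep ρ i (i - l) =
    F4 v * (cc (br v 2) * YY v 1 Ei Ep i (i - l)) + hp v (Polynomial.C (br v (l - 1)) * Ei +
      (1 + Polynomial.X) * Ep + Polynomial.C (br v (i - l) * ρ))
      (Polynomial.C (br v (l - 1)) * Ei +
      (1 + Polynomial.X) * Ep + Polynomial.C (br v (i - l) * ρ))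
      (br v (l - 2) * ρ) (i + 1) (i + 1) := by
  have z1 := eta_5 f5 Ei (l + 1) (i + 2)
  have z2 := eta_5 f5 Ei (l + 1) i
  have z3 := eta_5 f5 Ei (l + 1) (i - 1)
  rw [show l + 1 - 1 = l by ring, show l + 1 - 2 = l - 1 by ring,
    show i + 2 + 1 = i + 3 by ring, show i + 2 - (l + 1) + 2 = i - l + 3 by ring] at z1
  rw [show l + 1 - 1 = l by ring, show l + 1 - 2 = l - 1 by ring,
    show i - (l + 1) + 2 = i - l + 1 by ring] at z2
  rw [show l + 1 - 1 = l by ring, show l + 1 - 2 = l - 1 by ring,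
    show i - 1 + 1 = i by ring, show i - 1 - (l + 1) + 2 = i - l by ring] at z3
  have z6a := eta_6 f6 Ei (i - l + 2)
  have z6b := eta_6 f6 Ei (i - l + 1)
  rw [show i - l + 2 + 1 = i - l + 3 by ring, show i - l + 2 - 1 = i - l + 1 by ring] at z6a
  rw [show i - l + 1 + 1 = i - l + 2 by ring, show i - l + 1 - 1 = i - l by ring] at z6b
  have z7 := f7 Ei (i - l)
  rw [eta_3 f3, show i - l + 2 - 1 = i - l + 1 by ring] at z7
  have w6 := eta_6 f6 ((1 + Polynomial.X) * Ep) (i + 2)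
  rw [show i + 2 + 1 = i + 3 by ring, show i + 2 - 1 = i + 1 by ring] at w6
  have w7 := f7 Ep i
  have q0 := congrArg cc (j0 h h2 i l)
  have q2 := congrArg cc (bb2 h h2 (i - 1))
  have q3 := congrArg cc (j1 h h2 i l)
  have q4 := congrArg cc (j2 h h2 i l)
  rw [show i - 1 + 1 = i by ring, show i - 1 - 1 = i - 2 by ring] at q2
  simp only [cc_mul, cc_sub, cc_add, cc_zero] at q0 q2 q3 q4
  unfold hp hn YY kappa
  rw [eta_3 f3 (Polynomial.C (br v (l - 1)) * Ei +
      (1 + Polynomial.X) * Ep + Polynomial.C (br v (i - l) * ρ)), eta_add f, eta_add f,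
    eta_C f2, eta_4 f4, eta_add f, eta_add f, eta_C f2, eta_4 f4, eta_add f, eta_add f,
    eta_C f2, eta_4 f4, eta_3 f3 Ei i]
  rw [show i + 1 + 2 - 3 = i by ring, show i + 1 + 2 - 2 = i + 1 by ring,
    show i + 1 + 2 - 1 = i + 2 by ring, show i + 1 + 2 = i + 3 by ring,
    show i + 1 - 3 = i - 2 by ring, show i + 1 - 2 = i - 1 by ring,
    show i + 1 - 1 = i by ring, show i - (i - l) = l by ring]
  simp only [cc_mul]
  linear_combination z1 + z2 + E1 * z3 + z6a + E1 * z6b - cc (br v 2) * z7 - w6 +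
    cc (br v 2) * w7 + cc ρ * (cc (br v (i - 1)) * q0 + cc (br v (i - l)) * q2 + E1 * q3 + E2 * q4)

include f2 in
theorem hp_C (z : ℂ) (E E' : Polynomial ℂ) (ρ : ℂ) (a b : ℤ) :
    hp v (Polynomial.C z * E) (Polynomial.C z * E') (z * ρ) a b = cc z * hp v E E' ρ a b := by
  unfold hp
  rw [show (1 + Polynomial.X) * (Polynomial.C z * E') =
    Polynomial.C z * ((1 + Polynomial.X) * E') by ring, eta_C f2, eta_C f2, cc_mul]
  ring

include f2 in
theorem hn_C (z : ℂ) (E E' : Polynomial ℂ) (ρ : ℂ) (a b : ℤ) :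
    hn v (Polynomial.C z * E) (Polynomial.C z * E') (z * ρ) a b = cc z * hn v E E' ρ a b := by
  unfold hn
  rw [eta_C f2, eta_C f2, mul_assoc z, cc_mul]
  ring

end

end STEPKAux

open STEPKAux in
theorem tSTEPK : S_SYS → S_BKF → S_STEPK := by
  intro hS hB v l n r hv hA hT i hi hin E E' ρ ρ' P Q P' Q' hK hE1 hE2 hρ hPQ hPQb hP hQ a b hD ha
  obtain ⟨s1, s2, s3, s4, s5, s6, s7, s8, s9⟩ := hS v l n r hv hA hT i hi hin
  obtain ⟨f, f2, f3, f4', f5, f6, f7, _⟩ := hB v hv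
  have f4 : ∀ (z : ℂ) (n : ℤ), bk v (Polynomial.C z) n = cc (z * br v n) := fun z n => (f4' z n).1
  have h : v ≠ 0 := hv.1
  have h2 : v ^ 2 - 1 ≠ 0 := sub_ne_zero.2 (hv.2 2 (by norm_num))
  have hba : b ≤ a := hD.2.1
  have hcast : ((i - l i : ℕ) : ℤ) = (i : ℤ) - l i := Nat.cast_sub s9
  rcases Nat.lt_or_ge i a with hia | hia
  · have hae : a = i + 1 := le_antisymm ha hia
    subst hae
    rcases Nat.lt_or_ge i b with hib | hib
    · have hbe : b = i + 1 := le_antisymm hba hib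
      subst hbe
      have hn0 : kn v l (i + 1) (i + 1) (i + 1) = 0 := by
        unfold kn KF
        simp [K]
      have e1 := (hK i i s6 le_rfl).1
      have e2 := hK i (i - l i) s7 le_rfl
      have sC := stepC f f2 f3 f4 f5 f6 f7 h h2 (E i) (E (i - l i)) ρ i (l i)
      rw [hcast] at e2
      constructor
      · rw [s3, e1, e2.1, e2.2, hP, hE2, hρ, Nat.cast_add, Nat.cast_one]
        linear_combination sC
      · rw [hn0, hQ]
        unfold hn
        rw [sub_self, sub_self, zero_sub, show br v 0 = 0 by simp [br], mul_zero, mul_zero, cc_zero]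
        ring
    · obtain ⟨d1, d2⟩ := s5 b hD hib
      have e1 := hK i b d1 le_rfl
      have e2 := hK b (i - l i) d2 hib
      rw [hcast] at e2
      obtain ⟨g1, g2⟩ := s2 b hD hib
      obtain ⟨p1, p2⟩ := hPQb b hib
      constructor
      · have sA := stepA f f2 f4 f5 f7 h h2 (E i) (E b) (E (i - l i)) ρ i (l i) b
        rw [g1, e1.1, e2.2, p1, hE2, hE1 b hib, hρ, Nat.cast_add, Nat.cast_one]
        linear_combination sA
      · have sB := stepB f f2 f4 f5 h h2 (E i) (E b) (E (i - l i)) ρ i (l i) b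
        rw [g2, e1.2, e2.1, p2, hE2, hE1 b hib, hρ, Nat.cast_add, Nat.cast_one]
        linear_combination sB
  · obtain ⟨g1, g2⟩ := s1 a b hD hia
    obtain ⟨k1, k2⟩ := hK a b hD hia
    obtain ⟨p1, p2⟩ := hPQ a b hia
    constructor
    · rw [g1, k1, p1, hE1 a hia, hE1 b (hba.trans hia), hρ, hp_C f2]
      ring
    · rw [g2, k2, p2, hE1 a hia, hE1 b (hba.trans hia), hρ, hn_C f2]
      ring

end Pool.Agent.LV2
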