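import Pool.Agent.Lib.MP_263316_co.LV2.Spec

/-!
MP_263316_co, project LV2, task TB2: the table at `i = 2`.
-/

set_option autoImplicit false

namespace Pool.Agent.LV2

open Finset Pool.Agent.SWC Pool.Agent.SWK Pool.Agent.HOOK

namespace TB2Aux

private theorem cc_mul (x y : ℂ) : cc (x * y) = cc x * cc y := by
  unfold cc; rw [MvPolynomial.C_mul, Polynomial.C_mul]

private theorem cc_add (x y : ℂ) : cc (x + y) = cc x + cc y := by
  unfold cc; rw [MvPolynomial.C_add, Polynomial.C_add]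

private theorem cc_neg (x : ℂ) : cc (-x) = -cc x := by
  unfold cc; rw [MvPolynomial.C_neg, Polynomial.C_neg]

private theorem cc_one : cc 1 = 1 := by
  unfold cc; rw [MvPolynomial.C_1, Polynomial.C_1]

private theorem cc_zero : cc 0 = 0 := by
  unfold cc; rw [MvPolynomial.C_0, Polynomial.C_0]

private theorem dn {v : ℂ} (hv : Gen v) : v - v⁻¹ ≠ 0 := by
  intro h
  apply hv.2 2 (by norm_num)
  have h1 : v = v⁻¹ := sub_eq_zero.1 h
  have h2 : v * v = 1 := by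
    nth_rewrite 2 [h1]
    exact mul_inv_cancel₀ hv.1
  rw [pow_two, h2]

private theorem br_neg (v : ℂ) (n : ℤ) : br v (-n) = -br v n := by
  unfold br
  rw [neg_neg, ← neg_sub, neg_div]

private theorem br0 (v : ℂ) : br v 0 = 0 := by
  unfold br
  rw [neg_zero, sub_self, zero_div]

private theorem br1 {v : ℂ} (hv : Gen v) : br v 1 = 1 := by
  unfold br
  rw [zpow_neg, zpow_one]
  exact div_self (dn hv)

private theorem br2 {v : ℂ} (hv : Gen v) : br v 2 = v + v⁻¹ := by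
  unfold br
  rw [div_eq_iff (dn hv), zpow_neg]
  have h1 : v ^ (2 : ℤ) = v * v := by
    have := zpow_natCast v 2
    rw [pow_two] at this
    exact this
  rw [h1, mul_inv]
  ring

end TB2Aux

open TB2Aux in
theorem tTB2 : S_REC → S_TB2 := by
  intro hrec v l hv h0 h1
  have hv0 : v ≠ 0 := hv.1
  have e1 : v * v⁻¹ = 1 := mul_inv_cancel₀ hv0
  have c1 : cc v * cc v⁻¹ = 1 := by rw [← cc_mul, e1, cc_one]
  obtain ⟨a0, b0, t0, s0, -⟩ := hrec v l 0
  obtain ⟨a1, b1, t1, -, d1⟩ := hrec v l 1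
  rw [h0] at a0 b0 t0
  rw [h1] at a1 b1 t1
  simp only [s0, Nat.cast_zero, Nat.cast_one, zero_sub, zero_add, mul_zero, add_zero,
    Nat.sub_self, sub_self, br_neg, br0, br1 hv, cc_zero, cc_neg, cc_one, zero_mul, zpow_zero,
    zpow_one, one_mul, show (1 : ℤ) - 2 = -1 from rfl, show (1 : ℤ) + 1 = 2 from rfl,
    show (1 : ℕ) + 1 = 2 from rfl] at a0 b0 t0 a1 b1 t1
  obtain ⟨p1, p2, p3, p4⟩ := a0 0 0 le_rfl
  obtain ⟨p5, p6, p7, p8⟩ := b0 0 le_rfl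
  obtain ⟨p9, p10⟩ := t0
  obtain ⟨z11, k11⟩ := d1 1
  obtain ⟨q1, q2, q3, q4⟩ := a1 0 0 (by norm_num)
  obtain ⟨q5, q6, q7, q8⟩ := a1 1 0 le_rfl
  obtain ⟨q9, q10, q11, q12⟩ := a1 1 1 le_rfl
  obtain ⟨r1, r2, r3, r4⟩ := b1 0 (by norm_num)
  obtain ⟨r5, r6, r7, r8⟩ := b1 1 le_rfl
  obtain ⟨r9, r10⟩ := t1
  clear a0 b0 a1 b1 s0 d1
  have g2 : cc (br v 2) = cc v + cc v⁻¹ := by rw [br2 hv, cc_add]
  have g3 : cc (v ^ (-1 : ℤ)) = cc v⁻¹ := by rw [zpow_neg_one]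
  have g4 : cc (v ^ (2 : ℤ)) = cc v * cc v := by
    rw [← cc_mul]
    congr 1
    have := zpow_natCast v 2
    rw [pow_two] at this
    exact this
  have two : cc 2 = 2 := by
    have h : (2 : ℂ) = 1 + 1 := by norm_num
    rw [h, cc_add, cc_one]
    norm_num
  have g5 : cc (-1 - 2 * v⁻¹ ^ 2) = -1 - 2 * (cc v⁻¹) ^ 2 := by
    rw [sub_eq_add_neg, cc_add, cc_neg, cc_neg, cc_mul, pow_two, cc_mul, two, cc_one]
    ring
  have g6 : cc (-2 * v⁻¹) = -2 * cc v⁻¹ := by rw [cc_mul, cc_neg, two]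
  have g7 : cc (1 + v⁻¹ ^ 2) = 1 + (cc v⁻¹) ^ 2 := by rw [cc_add, pow_two, cc_mul, cc_one, pow_two]
  rw [g2] at p1 r9 r10
  rw [g3] at p3
  rw [g4] at r10
  rw [g5, g6, g7, cc_mul (br v 2), g2]
  generalize cc v = A at *
  generalize cc v⁻¹ = B at *
  refine ⟨⟨?_, ?_, ?_, ?_, ?_, ?_⟩, ⟨?_, ?_, ?_⟩, ⟨?_, ?_, ?_, ?_, ?_, ?_⟩, ?_, ?_, ?_⟩
  · rw [q1, p1]; ring
  · rw [q5, p5]; ring
  · rw [q9, p9]; ring
  · rw [r1, p2, mul_zero]
  · rw [r5, p6]; ring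
  · rw [r9, p9, p5, p6]; ring
  · rw [q6, p6]; ring
  · rw [r2, p1]; ring
  · rw [r6, p5]; ring
  · rw [q3, p3, p1]; linear_combination (-1 : QQ) * c1
  · rw [q7, p7, p5]; ring
  · rw [q11, p10, p9]; linear_combination (-1 : QQ) * c1
  · rw [r3, p5, p4]; linear_combination (-1 : QQ) * c1
  · rw [r7, p9, p8]; linear_combination E1 * c1
  · rw [r10, p10, p9, p7, p8]; linear_combination (1 + A * E1) * c1
  · rw [q8, p8, p6]; ring
  · rw [r4, p6, p3]; linear_combination c1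
  · rw [r8, z11, p7]; ring

end Pool.Agent.LV2
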