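import Pool.Agent.Lib.MP_263316_co.LV2.Spec
import Pool.Agent.Lib.MP_263316_co.FIN

/-!
MP_263316_co, project LV2: disjoint unions, the general case, the final theorem.
-/

set_option autoImplicit false

namespace Pool.Agent.LV2

open Finset Pool.Agent.SWC Pool.Agent.SWK Pool.Agent.HOOK

namespace UNI3Aux

theorem big3_add (l l' : Multiset ℕ) : big3 (l + l') = big3 l + big3 l' := by
  unfold big3
  rw [Multiset.filter_add, Multiset.card_add]

/-- products -/
theorem HC3_mul (hmul : S_PUmul) (N n d n' d' : ℕ) (f f' : AN N) (hf : f ∈ HC3 N n d)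
    (hf' : f' ∈ HC3 N n' d') : f * f' ∈ HC3 N (n + n') (d + d') := by
  refine AddSubmonoid.closure_induction (motive := fun f _ => f * f' ∈ HC3 N (n + n') (d + d'))
    ?_ ?_ ?_ hf
  · rintro f ⟨l, p, hl, hp, rfl⟩
    refine AddSubmonoid.closure_induction (motive := fun f' _ =>
      (MvPolynomial.C p * (l.map (es (xx N))).prod) * f' ∈ HC3 N (n + n') (d + d')) ?_ ?_ ?_ hf'
    · rintro f' ⟨l', p', hl', hp', rfl⟩
      refine AddSubmonoid.subset_closure ⟨l + l', p * p', ?_, fun hb => ?_, ?_⟩
      · rw [Multiset.sum_add, hl, hl']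
      · rw [big3_add] at hb
        exact hmul d d' p p' (hp (by omega)) (hp' (by omega))
      · rw [Multiset.map_add, Multiset.prod_add, map_mul]
        ring
    · rw [mul_zero]; exact AddSubmonoid.zero_mem _
    · intro a b _ _ ha hb
      rw [mul_add]; exact AddSubmonoid.add_mem _ ha hb
  · rw [zero_mul]; exact AddSubmonoid.zero_mem _
  · intro a b _ _ ha hb
    rw [add_mul]; exact AddSubmonoid.add_mem _ ha hb

private theorem es_zero' {R : Type} [CommRing R] {N : ℕ} (x : Fin N → R) : es x 0 = 1 := by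
  simp [es]

private theorem filter_prod' {A : Type} [CommMonoid A] (g : ℕ → A) (h : g 0 = 1)
    (l : Multiset ℕ) : ((l.filter (fun k => k ≠ 0)).map g).prod = (l.map g).prod := by
  induction l using Multiset.induction_on with
  | empty => rfl
  | cons a l ih =>
    rcases Nat.eq_zero_or_pos a with rfl | ha
    · rw [Multiset.filter_cons_of_neg _ (by simp), Multiset.map_cons, Multiset.prod_cons, h,
        one_mul, ih]
    · rw [Multiset.filter_cons_of_pos _ (by omega), Multiset.map_cons, Multiset.map_cons,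
        Multiset.prod_cons, Multiset.prod_cons, ih]

private theorem big3_filter (l : Multiset ℕ) : big3 (l.filter (fun k => k ≠ 0)) = big3 l := by
  unfold big3
  rw [Multiset.filter_filter]
  congr 1
  refine Multiset.filter_congr fun k _ => ?_
  constructor
  · rintro ⟨h, _⟩; exact h
  · intro h; exact ⟨h, by omega⟩

/-- expansion over partitions -/
theorem HC3_part (N n d : ℕ) (f : AN N) (hf : f ∈ HC3 N n d) :
    ∃ a : n.Partition → Polynomial ℤ,
      f = ∑ μ : n.Partition, MvPolynomial.C (a μ) * (μ.parts.map (es (xx N))).prod ∧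
      ∀ μ : n.Partition, big3 μ.parts ≤ 1 → a μ ∈ PU d := by
  classical
  induction hf using AddSubmonoid.closure_induction with
  | mem f hf =>
    obtain ⟨l, p, hl, hp, rfl⟩ := hf
    refine ⟨Pi.single (Nat.Partition.ofSums n l hl) p, ?_, fun μ hb => ?_⟩
    · rw [Finset.sum_eq_single (Nat.Partition.ofSums n l hl)]
      · rw [Pi.single_eq_same]
        congr 1
        exact (filter_prod' (es (xx N)) (es_zero' (xx N)) l).symm
      · intro μ _ hμ
        rw [Pi.single_eq_of_ne hμ, map_zero, zero_mul]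
      · intro h
        exact absurd (Finset.mem_univ _) h
    · by_cases hμ : μ = Nat.Partition.ofSums n l hl
      · rw [hμ, Pi.single_eq_same]
        apply hp
        rw [hμ] at hb
        change big3 (l.filter (fun k => k ≠ 0)) ≤ 1 at hb
        rwa [big3_filter] at hb
      · rw [Pi.single_eq_of_ne hμ]
        exact (PU d).zero_mem
  | zero =>
    refine ⟨0, ?_, fun μ _ => (PU d).zero_mem⟩
    simp
  | add f g _ _ ihf ihg =>
    obtain ⟨a, ha, ha'⟩ := ihf
    obtain ⟨b, hb, hb'⟩ := ihg
    refine ⟨a + b, ?_, fun μ h => (PU d).add_mem (ha' μ h) (hb' μ h)⟩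
    rw [ha, hb, ← Finset.sum_add_distrib]
    refine Finset.sum_congr rfl fun μ _ => ?_
    rw [Pi.add_apply, map_add, add_mul]

private theorem eE_un {g : ℕ → ℕ} {A B : Finset ℕ} (hd : Disjoint A B)
    (hAB : ∀ u ∈ A, ∀ v ∈ B, u < v ∧ g u < v) : eE g (A ∪ B) = eE g A + eE g B := by
  unfold eE
  rw [Finset.sum_union hd]
  congr 1
  · refine Finset.sum_congr rfl fun v hv => ?_
    unfold aL
    congr 1
    ext u
    simp only [Finset.mem_filter, Finset.mem_union]
    constructor
    · rintro ⟨h1 | h1, h2⟩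
      · exact ⟨h1, h2⟩
      · have := hAB v hv u h1
        omega
    · rintro ⟨h1, h2⟩
      exact ⟨Or.inl h1, h2⟩
  · refine Finset.sum_congr rfl fun v hv => ?_
    unfold aL
    congr 1
    ext u
    simp only [Finset.mem_filter, Finset.mem_union]
    constructor
    · rintro ⟨h1 | h1, h2⟩
      · have := hAB u h1 v hv
        omega
      · exact ⟨h1, h2⟩
    · rintro ⟨h1, h2⟩
      exact ⟨Or.inr h1, h2⟩

theorem Cone_le (N n d : ℕ) : Cone N n d ≤ HC3 N n d := by
  unfold Cone HC3
  refine AddSubmonoid.closure_mono ?_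
  rintro f ⟨l, p, hl, hp, hf⟩
  exact ⟨l, p, hl, fun _ => hp, hf⟩

/-- connected graphs -/
theorem conn (hGOOD : S_GOOD) (hCONN : S_CONN3) (hDROP : S_DROP) {g : ℕ → ℕ} (hg : Monotone g)
    (n : ℕ) (hc : Cn g n) (N : ℕ) (hN : n ≤ N) :
    XX g (qq N) (xx N) (range n) ∈ HC3 N n (eE g (range n)) := by
  by_cases h : ∃ j, j < n ∧ 2 ≤ ld g j
  · exact hDROP _ _ _ _ _ (hDROP _ _ _ _ _ (hCONN g hg n hc h (N + 1 + 1) (by omega)))
  · push Not at h
    refine Cone_le N n _ (hGOOD N n g hg ?_)
    have key : ∀ a b c d : ℕ, a < b → b < c → c < d → d < n → ¬ d ≤ g a := by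
      intro a b c d h1 h2 h3 h4 h5
      have h6 := h d h4
      have h7 : ({a, b} : Finset ℕ) ⊆ NL g (range d) d := by
        intro u hu
        unfold NL
        rw [Finset.mem_filter, Finset.mem_range]
        rw [Finset.mem_insert, Finset.mem_singleton] at hu
        rcases hu with rfl | rfl
        · exact ⟨by omega, by omega, h5⟩
        · have := hg (le_of_lt h1)
          exact ⟨by omega, by omega, by omega⟩
      have h8 := Finset.card_le_card h7
      rw [Finset.card_pair (by omega)] at h8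
      have h9 : ld g d = (NL g (range d) d).card := rfl
      omega
    intro x1 _ x2 _ x3 _ x4 m4 x5 m5 h12 h23 h34 h45
    rw [Finset.mem_range] at m4 m5
    exact ⟨fun h6 => absurd h6 (key x1 x2 x3 x4 h12 h23 h34 m4),
      fun h6 => absurd h6 (key x2 x3 x4 x5 h23 h34 h45 m5)⟩

/-- all graphs -/
theorem all (hmul : S_PUmul) (hGOOD : S_GOOD) (hCONN : S_CONN3) (hDROP : S_DROP)
    (hRELm : S_RELm) (hRELX : S_RELX) {g : ℕ → ℕ} (hg : Monotone g) (n : ℕ) :
    ∀ (a : ℕ) (N : ℕ), n ≤ N →
    XX g (qq N) (xx N) (Ico a (a + n)) ∈ HC3 N n (eE g (Ico a (a + n))) := by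
  induction n using Nat.strong_induction_on with
  | _ n ih =>
  intro a N hN
  rcases Nat.eq_zero_or_pos n with rfl | hn
  · rw [add_zero, Finset.Ico_self]
    have h1 : XX g (qq N) (xx N) ∅ = 1 := by simp [XX]
    have h2 : eE g ∅ = 0 := by simp [eE]
    rw [h1, h2]
    exact AddSubmonoid.subset_closure ⟨0, 1, by simp, fun _ => one_mem_PU, by simp⟩
  · by_cases hc : ∀ j, 0 < j → j < n → a + j ≤ g (a + (j - 1))
    · have hf : StrictMono (fun j : ℕ => a + j) := fun i j hij => by simpa using hij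
      obtain ⟨m', hm', hadj⟩ := hRELm g hg (fun j => a + j) hf n
      obtain ⟨hx, he⟩ := hRELX g m' (fun j => a + j) n hf hadj
      have himg : (range n).image (fun j => a + j) = Ico a (a + n) := by
        rw [Finset.range_eq_Ico, Finset.image_add_left_Ico, add_zero]
      rw [himg] at hx he
      rw [hx, he]
      refine conn hGOOD hCONN hDROP hm' n (fun j hj hjn => ?_) N hN
      exact (hadj (j - 1) j (by omega) hjn).mpr (hc j hj hjn)
    · push Not at hc
      obtain ⟨j, hj, hjn, hlt⟩ := hc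
      have hu : Ico a (a + j) ∪ Ico (a + j) (a + j + (n - j)) = Ico a (a + n) := by
        rw [show a + j + (n - j) = a + n by omega]
        exact Finset.Ico_union_Ico_eq_Ico (by omega) (by omega)
      have hd : Disjoint (Ico a (a + j)) (Ico (a + j) (a + j + (n - j))) := by
        rw [Finset.disjoint_left]
        intro u h1 h2
        rw [Finset.mem_Ico] at h1 h2
        omega
      have hAB : ∀ u ∈ Ico a (a + j), ∀ v ∈ Ico (a + j) (a + j + (n - j)), u < v ∧ g u < v := by
        intro u h1 v h2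
        rw [Finset.mem_Ico] at h1 h2
        have := hg (show u ≤ a + (j - 1) by omega)
        omega
      have h1 := ih j hjn a N (by omega)
      have h2 := ih (n - j) (by omega) (a + j) N (by omega)
      have h3 := HC3_mul hmul N j _ (n - j) _ _ _ h1 h2
      rw [← eE_un hd hAB, hu, show j + (n - j) = n by omega] at h3
      have h4 : XX g (qq N) (xx N) (Ico a (a + n)) = XX g (qq N) (xx N) (Ico a (a + j)) *
          XX g (qq N) (xx N) (Ico (a + j) (a + j + (n - j))) := by
        rw [← hu]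
        unfold XX
        refine Z_union hd (fun u hu v hv => ?_) _
        have := hAB u hu v hv
        omega
      rw [h4]
      exact h3

end UNI3Aux

open FinAux in
/-- The final theorem. -/
theorem tUNI3 (hmul : S_PUmul) (hGOOD : S_GOOD) (hCONN : S_CONN3) (hDROP : S_DROP)
    (hRELm : S_RELm) (hRELX : S_RELX) (hPU : S_PUcoeff) (hFUN : S_FUN) :
    ∀ (n : ℕ) (h : Fin n → Fin n), Monotone h → (∀ i, i ≤ h i) →
    ∀ E : ℕ, E = (Finset.univ.filter (fun p : Fin n × Fin n => p.1 < p.2 ∧ p.2 ≤ h p.1)).card →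
    ∃ a : Nat.Partition n → Polynomial ℤ,
      ((∑ κ ∈ (Finset.univ.filter
            (fun κ : Fin n → Fin n => ∀ i j : Fin n, i < j → j ≤ h i → κ i ≠ κ j)),
          MvPolynomial.C (Polynomial.X ^ ((Finset.univ.filter
            (fun p : Fin n × Fin n => p.1 < p.2 ∧ p.2 ≤ h p.1 ∧ κ p.1 < κ p.2)).card))
            * ∏ i : Fin n, MvPolynomial.X (κ i) : MvPolynomial (Fin n) (Polynomial ℤ))
        = ∑ μ : Nat.Partition n, MvPolynomial.C (a μ) *
            (μ.parts.map (fun k => MvPolynomial.esymm (Fin n) (Polynomial ℤ) k)).prod)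
      ∧ ∀ μ : Nat.Partition n, Multiset.card (μ.parts.filter (fun p => 3 ≤ p)) ≤ 1 →
          (∀ i : ℕ, 0 ≤ (a μ).coeff i)
          ∧ (∀ i : ℕ, E < i → (a μ).coeff i = 0)
          ∧ (∀ i : ℕ, i ≤ E → (a μ).coeff i = (a μ).coeff (E - i))
          ∧ (∀ i j : ℕ, i ≤ j → 2 * j ≤ E → (a μ).coeff i ≤ (a μ).coeff j) := by
  intro n h hm hle E hE
  have h1 := UNI3Aux.all hmul hGOOD hCONN hDROP hRELm hRELX (mh_mono h hm) n 0 n le_rfl
  rw [zero_add, ← Finset.range_eq_Ico, eE_mh, ← hE] at h1
  obtain ⟨a, ha, hpu⟩ := UNI3Aux.HC3_part n n E _ h1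
  exact ⟨a, (sum_eq h hFUN).trans ha, fun μ hb => hPU E (a μ) (hpu μ hb)⟩

end Pool.Agent.LV2
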