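import Pool.Agent.Lib.MP_263316_co.LV2.Spec

/-! MP_263316_co, project LV2: the generating function after gluing a triangle is divisible by `F4`. -/

set_option autoImplicit false

namespace Pool.Agent.LV2

open Finset Pool.Agent.SWC Pool.Agent.SWK Pool.Agent.HOOK

namespace VPAux

theorem CQ_par (v : ℂ) (d d' : ℕ) (h : d % 2 = d' % 2) : CQ v d = CQ v d' := by
  unfold CQ
  have hs : {z : QQ | ∃ m a b : ℕ, (m + 1 + a + d) % 2 = 0 ∧ z = cc (br v m) * E1 ^ a * E2 ^ b} =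
      {z : QQ | ∃ m a b : ℕ, (m + 1 + a + d') % 2 = 0 ∧
        z = cc (br v m) * E1 ^ a * E2 ^ b} := by
    ext z
    constructor
    · rintro ⟨m, a, b, h1, h2⟩
      exact ⟨m, a, b, by omega, h2⟩
    · rintro ⟨m, a, b, h1, h2⟩
      exact ⟨m, a, b, by omega, h2⟩
  rw [hs]

theorem br2_ne {v : ℂ} (hv : Gen v) : br v 2 ≠ 0 := by
  obtain ⟨h0, h1⟩ := hv
  have h2 := h1 2 (by norm_num)
  have h4 := h1 4 (by norm_num)
  unfold br
  apply div_ne_zero
  · intro h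
    apply h4
    have e : v ^ (2 : ℤ) = v ^ 2 := by norm_cast
    have e' : v ^ (-(2 : ℤ)) = (v ^ 2)⁻¹ := by
      rw [zpow_neg, e]
    rw [e, e', sub_eq_zero] at h
    have : v ^ 2 * v ^ 2 = 1 := by
      nth_rewrite 1 [h]
      exact inv_mul_cancel₀ (pow_ne_zero _ h0)
    calc v ^ 4 = v ^ 2 * v ^ 2 := by ring
      _ = 1 := this
  · intro h
    apply h2
    rw [sub_eq_zero] at h
    calc v ^ 2 = v * v := by ring
      _ = v⁻¹ * v := by nth_rewrite 1 [h]; rfl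
      _ = 1 := inv_mul_cancel₀ h0

theorem cc_ne {z : ℂ} (h : z ≠ 0) : cc z ≠ 0 := by
  unfold cc
  rw [Ne, Polynomial.C_eq_zero, MvPolynomial.C_eq_zero]
  exact h

/-- the graph with a triangle glued at the last vertex -/
def lt (l : ℕ → ℕ) (c j : ℕ) : ℕ := if j < c then l j else if j = c + 1 then 2 else 1

theorem lt_lt (l : ℕ → ℕ) {c j : ℕ} (h : j < c) : lt l c j = l j := by
  unfold lt
  rw [if_pos h]

theorem lt_c (l : ℕ → ℕ) (c : ℕ) : lt l c c = 1 := by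
  unfold lt
  rw [if_neg (by omega), if_neg (by omega)]

theorem lt_c1 (l : ℕ → ℕ) (c : ℕ) : lt l c (c + 1) = 2 := by
  unfold lt
  rw [if_neg (by omega), if_pos rfl]

theorem lt_adm {l : ℕ → ℕ} {c : ℕ} (h : Adm l c) (hc : 1 ≤ c) : Adm (lt l c) (c + 2) := by
  refine ⟨by rw [lt_lt l (by omega)]; exact h.1, ?_⟩
  intro j hj
  rcases Nat.lt_or_ge (j + 1) c with h1 | h1
  · rw [lt_lt l h1, lt_lt l (by omega)]
    exact h.2 j h1
  · rcases Nat.eq_or_lt_of_le h1 with h2 | h2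
    · rw [← h2, lt_c]
      omega
    · have h3 : j = c := by omega
      rw [h3, lt_c, lt_c1]
      omega

theorem lt_tri {l : ℕ → ℕ} {c r : ℕ} (h : Tri l r) (hr : r + 3 ≤ c) : Tri (lt l c) r := by
  refine ⟨fun j h1 h2 => ?_, ?_⟩
  · rw [lt_lt l (by omega)]
    exact h.1 j h1 h2
  · rw [lt_lt l (by omega)]
    exact h.2

theorem EL_lt (l : ℕ → ℕ) (c : ℕ) : EL (lt l c) (c + 2) = EL l c + 3 := by
  unfold EL
  rw [Finset.sum_range_succ, Finset.sum_range_succ, lt_c, lt_c1]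
  rw [Finset.sum_congr rfl (fun j hj => lt_lt l (Finset.mem_range.1 hj))]

end VPAux

open VPAux in
theorem tVP : S_KC → S_REVL → S_RVC → S_BLK → S_BETA → S_INI1 → S_VP := by
  intro hKC hREVL hRVC hBLK hBETA hINI v l c r hv hA hT hrc
  have hA' := lt_adm hA (by omega)
  have hT' := lt_tri hT hrc
  have hK : ∀ a b, KF v (lt l c) c a b = KF v l c a b := by
    intro a b
    unfold KF
    exact hKC _ v _ _ _ (lt l c) l c (fun j hj => lt_lt l hj) a b
  have hBS : BS v (lt l c) c = BS v l c := by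
    unfold BS kp kn
    simp only [hK]
  have h1 := ((hBLK v (lt l c) (c + 2) r hv hA' hT' c hrc (by omega) (lt_c l c)).2.2
    (by omega) (lt_c1 l c)).1
  rw [hBS] at h1
  obtain ⟨hA2, hE2, hS2⟩ := hREVL v hv (lt l c) (c + 2) (by omega) hA'
  obtain ⟨r0, r1, r2, r3, j, hj3, hjn, hj2⟩ :=
    (hRVC (lt l c) (c + 2) r hA' hT' (by omega)).1 c rfl hrc (lt_c l c) (lt_c1 l c)
  have hT2 : Tri (rv (c + 2) (lt l c)) 0 := by
    refine ⟨fun j h1 h2 => ?_, r2⟩
    have : j = 1 := by omega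
    rw [this]
    exact r1
  obtain ⟨⟨U, hU, hUe⟩, -, -⟩ := (hBETA v (rv (c + 2) (lt l c)) (c + 2) 0 hv hA2 hT2 3 le_rfl r3
    (c + 2) (by omega) le_rfl).2 ⟨j, hj3, hjn, hj2⟩
  have hB3 := (hINI v (rv (c + 2) (lt l c)) hv r0 r1 r2).2
  have hE3 : EL (rv (c + 2) (lt l c)) 3 = 3 := by
    unfold EL
    rw [Finset.sum_range_succ, Finset.sum_range_succ, Finset.sum_range_succ, Finset.sum_range_zero,
      r0, r1, r2]
  refine ⟨U, ?_, ?_⟩
  · rw [hE2, EL_lt, hE3] at hU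
    rw [CQ_par v (EL l c + c + 1) (EL l c + 3 + (c + 2) + 3 + 3) (by omega)]
    exact hU
  · apply mul_left_cancel₀ (cc_ne (br2_ne hv))
    rw [← h1]
    have h2 : kp v (lt l c) (c + 2) (c + 2) (c + 2) =
        kp v (rv (c + 2) (lt l c)) (c + 2) (c + 2) (c + 2) := hS2.symm
    rw [h2, hUe, hB3]
    ring

end Pool.Agent.LV2
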