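import Pool.Agent.Lib.MP_263316_co.LV2.Spec

/-! MP_263316_co, project LV2, task XR: the value at the alphabet `α X, β X, x`. -/

set_option autoImplicit false

namespace Pool.Agent.LV2

open Finset Pool.Agent.SWC Pool.Agent.SWK Pool.Agent.HOOK

namespace XRAux

theorem XX_C {N : ℕ} (g : ℕ → ℕ) (q : ℂ) (x : Fin N → ℂ) (V : Finset ℕ) :
    XX g (Polynomial.C q) (fun k => Polynomial.C (x k)) V = Polynomial.C (XX g q x V) :=
  (Z_map Polynomial.C g q V (fun _ k => x k)).symm

theorem yal_zero {N : ℕ} (α β : ℂ) (x : Fin N → ℂ) :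
    yal α β x 0 = Polynomial.C α * Polynomial.X := rfl

theorem yal_succ {N : ℕ} (α β : ℂ) (x : Fin N → ℂ) :
    (fun k : Fin (N + 1) => yal α β x k.succ) =
      (Fin.cons (Polynomial.C β * Polynomial.X) (fun j => Polynomial.C (x j)) :
        Fin (N + 1) → Polynomial ℂ) := by
  funext k
  rfl

theorem cons_succ {N : ℕ} (b : Polynomial ℂ) (x : Fin N → ℂ) :
    (fun k : Fin N => (Fin.cons b (fun j => Polynomial.C (x j)) :
      Fin (N + 1) → Polynomial ℂ) k.succ) = fun k => Polynomial.C (x k) := by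
  funext k
  rfl

theorem expand (hSPL : S_SPL) {N : ℕ} (g : ℕ → ℕ) (q : ℂ) (x : Fin N → ℂ) (U : Finset ℕ)
    (α β : ℂ) : XX g (Polynomial.C q) (yal α β x) U =
    ∑ T ∈ U.powerset.filter (fun T => ind g T),
      ∑ T' ∈ (U \ T).powerset.filter (fun T' => ind g T'),
        Polynomial.C (α ^ T.card * β ^ T'.card * q ^ (ea g U T + ea g (U \ T) T') *
          XX g q x ((U \ T) \ T')) * Polynomial.X ^ (T.card + T'.card) := by
  rw [hSPL (Polynomial ℂ) (N + 1) g (Polynomial.C q) (yal α β x) U, yal_zero, yal_succ]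
  refine Finset.sum_congr rfl fun T _ => ?_
  rw [hSPL (Polynomial ℂ) N g (Polynomial.C q) _ (U \ T), Fin.cons_zero, cons_succ,
    Finset.mul_sum]
  refine Finset.sum_congr rfl fun T' _ => ?_
  rw [XX_C]
  simp only [Polynomial.C_mul, Polynomial.C_pow, mul_pow, pow_add]
  ring

theorem coeff_term (c : ℂ) (j k : ℕ) :
    (Polynomial.C c * Polynomial.X ^ j : Polynomial ℂ).coeff k = if j = k then c else 0 := by
  rw [Polynomial.coeff_C_mul, Polynomial.coeff_X_pow]
  by_cases h : j = k
  · rw [if_pos h, if_pos h.symm, mul_one]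
  · rw [if_neg h, if_neg (fun e => h e.symm), mul_zero]

end XRAux

open XRAux

theorem tXR (hXF : XFc) (hSPL : S_SPL) : S_XR := by
  intro g hg q hq0 hq1 N x m hm hx U k hU α β
  rw [expand hSPL, Polynomial.finsetSum_coeff]
  unfold s2k
  rw [Finset.mul_sum, ← Finset.sum_neg_distrib]
  refine Finset.sum_congr rfl fun T hT => ?_
  rw [Finset.mem_filter, Finset.mem_powerset] at hT
  rw [Polynomial.finsetSum_coeff, Finset.sum_congr rfl (fun T' _ => coeff_term _ _ k),
    ← Finset.sum_filter, Finset.filter_filter, Finset.mul_sum, ← Finset.sum_neg_distrib]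
  refine Finset.sum_congr rfl fun T' hT' => ?_
  rw [Finset.mem_filter, Finset.mem_powerset] at hT'
  have hc : ((U \ T) \ T').card = m := by
    have h1 := Finset.card_sdiff_of_subset hT.1
    have h2 := Finset.card_sdiff_of_subset hT'.1
    have h3 := Finset.card_le_card hT.1
    have h4 := Finset.card_le_card hT'.1
    have h5 := hT'.2.2
    omega
  rw [onepart hXF ℂ g hg q hq0 hq1 N x ((U \ T) \ T') (Finset.card_pos.mp (by omega))
    (fun d hd hd' => by rw [hx, if_neg (by omega), if_neg (by omega)]), hc, hx,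
    if_neg (by omega), if_pos rfl]
  ring

end Pool.Agent.LV2
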