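import Pool.Agent.Lib.MP_263316_co.LV2.Spec

/-!
MP_263316_co, project LV2: the zeroth order parts of the formal table vanish on the domain.
-/

set_option autoImplicit false

namespace Pool.Agent.LV2

open Finset Pool.Agent.SWC Pool.Agent.SWK Pool.Agent.HOOK

namespace ZVAux

theorem mono {l : ℕ → ℕ} {n : ℕ} (hA : Adm l n) {w w' : ℕ} (h : w ≤ w') (hw : w' < n) :
    w - l w ≤ w' - l w' := by
  induction w', h using Nat.le_induction with
  | base => exact le_rfl
  | succ k hk ih =>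
    have h1 := ih (by omega)
    have h2 := (hA.2 k hw).2
    omega

/-- the identity (ID0) -/
theorem id0 {R : Type} [CommRing R] (P N : ℕ → ℕ → ℕ → R) (B : ℤ → R) (e1 e2 : R) (l : ℕ → ℕ)
    (Bm : ∀ m, B 2 * B m = B (m + 1) + B (m - 1))
    (H1 : ∀ i a b, a ≤ i → P (i + 1) a b = B ((l i : ℤ) - 2) * P i a b ∧
      N (i + 1) a b = B ((l i : ℤ) - 2) * N i a b)
    (H2 : ∀ i b, b ≤ i →
      P (i + 1) (i + 1) b = B ((l i : ℤ) - 1) * P i i b + e2 * N i b (i - l i) ∧
      N (i + 1) (i + 1) b = B ((l i : ℤ) - 1) * N i i b + P i b (i - l i))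
    (H3 : ∀ i, P (i + 1) (i + 1) (i + 1) = B (l i : ℤ) * P i i i + e1 * P i i (i - l i) +
      B 2 * e2 * N i i (i - l i))
    (Hd : ∀ i a, N i a a = 0) (i : ℕ) :
    P (i + 1) (i + 1) (i + 1) = B 2 * P (i + 1) (i + 1) i + e1 * N (i + 1) (i + 1) i -
      P (i + 1) i i := by
  have h := Bm ((l i : ℤ) - 1)
  have e3 : (l i : ℤ) - 1 + 1 = l i := by ring
  have e4 : (l i : ℤ) - 1 - 1 = l i - 2 := by ring
  rw [e3, e4] at h
  rw [H3, (H2 i i le_rfl).1, (H2 i i le_rfl).2, (H1 i i i le_rfl).1, Hd i i]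
  linear_combination (-1 : R) * P i i i * h

/-- the path part -/
theorem path {R : Type} [CommRing R] (P N : ℕ → ℕ → ℕ → R) (B : ℤ → R) (e1 e2 w : R) (l : ℕ → ℕ)
    (r : ℕ) (B0 : B 0 = 0) (B1 : B 1 = 1) (Bn1 : B (-1) = -1) (Bn2 : B (-2) = -B 2)
    (Bm : ∀ m, B 2 * B m = B (m + 1) + B (m - 1))
    (H1 : ∀ i a b, a ≤ i → P (i + 1) a b = B ((l i : ℤ) - 2) * P i a b ∧
      N (i + 1) a b = B ((l i : ℤ) - 2) * N i a b)
    (H2 : ∀ i b, b ≤ i →
      P (i + 1) (i + 1) b = B ((l i : ℤ) - 1) * P i i b + e2 * N i b (i - l i) ∧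
      N (i + 1) (i + 1) b = B ((l i : ℤ) - 1) * N i i b + P i b (i - l i))
    (H3 : ∀ i, P (i + 1) (i + 1) (i + 1) = B (l i : ℤ) * P i i i + e1 * P i i (i - l i) +
      B 2 * e2 * N i i (i - l i))
    (H0 : ∀ a b, P 0 a b = w ∧ N 0 a b = 0)
    (Hd : ∀ i a, N i a a = 0) (l0 : l 0 = 0) (hT : ∀ j, 1 ≤ j → j ≤ r + 1 → l j = 1) :
    ∀ j, j ≤ r + 1 → P (j + 1) (j + 1) (j + 1) + e1 * P (j + 1) (j + 1) j +
      B 2 * e2 * N (j + 1) (j + 1) j + e2 * P (j + 1) j j = 0 := by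
  intro j
  induction j with
  | zero =>
    intro _
    have h3 := H3 0
    have h2 := H2 0 0 le_rfl
    have h1 := (H1 0 0 0 le_rfl).1
    simp only [l0, Nat.cast_zero, zero_sub, Nat.sub_zero, zero_add, (H0 0 0).1, (H0 0 0).2, B0,
      Bn1, Bn2] at h1 h2 h3 ⊢
    rw [h1, h2.1, h2.2, h3]
    ring
  | succ k ih =>
    intro hk
    have h := ih (by omega)
    have lk : l (k + 1) = 1 := hT (k + 1) (by omega) hk
    have hid := id0 P N B e1 e2 l Bm H1 H2 H3 Hd k
    have h3 := H3 (k + 1)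
    have h2 := H2 (k + 1) (k + 1) le_rfl
    have h1 := (H1 (k + 1) (k + 1) (k + 1) le_rfl).1
    have c1 : ((1 : ℕ) : ℤ) - 2 = -1 := by norm_num
    have c2 : ((1 : ℕ) : ℤ) - 1 = 0 := by norm_num
    have c3 : ((1 : ℕ) : ℤ) = 1 := by norm_num
    rw [lk, c3, Nat.add_sub_cancel, B1] at h3
    rw [lk, c2, Nat.add_sub_cancel, B0, Hd (k + 1) (k + 1)] at h2
    rw [lk, c1, Bn1] at h1
    rw [h1, h2.1, h2.2, h3]
    linear_combination h - e2 * hid

theorem main {R : Type} [CommRing R] (P N : ℕ → ℕ → ℕ → R) (B : ℤ → R) (e1 e2 w : R) (l : ℕ → ℕ)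
    (n r : ℕ) (B0 : B 0 = 0) (B1 : B 1 = 1) (Bn1 : B (-1) = -1) (Bn2 : B (-2) = -B 2)
    (Bm : ∀ m, B 2 * B m = B (m + 1) + B (m - 1))
    (H1 : ∀ i a b, a ≤ i → P (i + 1) a b = B ((l i : ℤ) - 2) * P i a b ∧
      N (i + 1) a b = B ((l i : ℤ) - 2) * N i a b)
    (H2 : ∀ i b, b ≤ i →
      P (i + 1) (i + 1) b = B ((l i : ℤ) - 1) * P i i b + e2 * N i b (i - l i) ∧
      N (i + 1) (i + 1) b = B ((l i : ℤ) - 1) * N i i b + P i b (i - l i))
    (H3 : ∀ i, P (i + 1) (i + 1) (i + 1) = B (l i : ℤ) * P i i i + e1 * P i i (i - l i) +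
      B 2 * e2 * N i i (i - l i))
    (H0 : ∀ a b, P 0 a b = w ∧ N 0 a b = 0)
    (Hd : ∀ i a, N i a a = 0) (hA : Adm l n) (hT : Tri l r) :
    ∀ i, r + 3 ≤ i → i ≤ n → ∀ a b, Dom l r a b → a ≤ i → P i a b = 0 ∧ N i a b = 0 := by
  intro i hi
  induction i, hi using Nat.le_induction with
  | base =>
    intro hn a b hD ha
    have hp := path P N B e1 e2 w l r B0 B1 Bn1 Bn2 Bm H1 H2 H3 H0 Hd hA.1 hT.1 r (by omega)
    have l1 : l (r + 1) = 1 := hT.1 (r + 1) (by omega) le_rfl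
    have l2 : l (r + 2) = 2 := hT.2
    have c1 : ((1 : ℕ) : ℤ) - 2 = -1 := by norm_num
    have c2 : ((1 : ℕ) : ℤ) - 1 = 0 := by norm_num
    have c3 : ((1 : ℕ) : ℤ) = 1 := by norm_num
    have d1 : ((2 : ℕ) : ℤ) - 2 = 0 := by norm_num
    have d2 : ((2 : ℕ) : ℤ) - 1 = 1 := by norm_num
    have d3 : ((2 : ℕ) : ℤ) = 2 := by norm_num
    -- the values at `r + 2`
    have v1 := H2 (r + 1) r (by omega)
    rw [l1, c2, B0, Nat.add_sub_cancel, Hd (r + 1) r] at v1
    have v2 := H2 (r + 1) (r + 1) le_rfl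
    rw [l1, c2, B0, Nat.add_sub_cancel] at v2
    have v3 := H3 (r + 1)
    rw [l1, c3, B1, Nat.add_sub_cancel] at v3
    have u1 := H1 (r + 1) r r (by omega)
    rw [l1, c1, Bn1] at u1
    have u2 := H1 (r + 1) (r + 1) r le_rfl
    rw [l1, c1, Bn1] at u2
    have w1 : P (r + 2) (r + 2) (r + 2) = -(e2 * P (r + 1) r r) := by
      change P (r + 1 + 1) (r + 1 + 1) (r + 1 + 1) = _
      rw [v3]
      linear_combination hp
    rcases Nat.lt_or_ge a (r + 3) with h | h
    · have h1 := H1 (r + 2) a b (by omega)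
      rw [l2, d1, B0, zero_mul, zero_mul] at h1
      exact h1
    · have ha' : a = r + 2 + 1 := by omega
      subst ha'
      obtain ⟨hb1, hb2, hb3⟩ := hD
      have hb4 : b = r ∨ b = r + 1 ∨ b = r + 2 ∨ b = r + 2 + 1 := by omega
      rcases hb4 with rfl | rfl | rfl | rfl
      · have h2 := H2 (b + 2) b (by omega)
        rw [l2, d2, B1, Nat.add_sub_cancel] at h2
        constructor
        · refine h2.1.trans ?_
          change 1 * P (b + 1 + 1) (b + 1 + 1) b + e2 * N (b + 1 + 1) b b = 0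
          rw [v1.1, Hd]
          ring
        · refine h2.2.trans ?_
          change 1 * N (b + 1 + 1) (b + 1 + 1) b + P (b + 1 + 1) b b = 0
          rw [v1.2, u1.1]
          ring
      · have h2 := H2 (r + 2) (r + 1) (by omega)
        rw [l2, d2, B1, Nat.add_sub_cancel] at h2
        constructor
        · refine h2.1.trans ?_
          change 1 * P (r + 1 + 1) (r + 1 + 1) (r + 1) + e2 * N (r + 1 + 1) (r + 1) r = 0
          rw [v2.1, u2.2]
          ring
        · refine h2.2.trans ?_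
          change 1 * N (r + 1 + 1) (r + 1 + 1) (r + 1) + P (r + 1 + 1) (r + 1) r = 0
          rw [v2.2, u2.1, Hd (r + 1) (r + 1)]
          ring
      · have h2 := H2 (r + 2) (r + 2) le_rfl
        rw [l2, d2, B1, Nat.add_sub_cancel] at h2
        constructor
        · refine h2.1.trans ?_
          rw [w1]
          change 1 * -(e2 * P (r + 1) r r) + e2 * N (r + 1 + 1) (r + 1 + 1) r = 0
          rw [v1.2]
          ring
        · refine h2.2.trans ?_
          rw [Hd]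
          change 1 * 0 + P (r + 1 + 1) (r + 1 + 1) r = 0
          rw [v1.1]
          ring
      · refine ⟨?_, Hd _ _⟩
        have h3 := H3 (r + 2)
        rw [l2, d3, Nat.add_sub_cancel] at h3
        refine h3.trans ?_
        rw [w1]
        change B 2 * -(e2 * P (r + 1) r r) + e1 * P (r + 1 + 1) (r + 1 + 1) r +
          B 2 * e2 * N (r + 1 + 1) (r + 1 + 1) r = 0
        rw [v1.1, v1.2]
        ring
  | succ i hi ih =>
    intro hn a b hD ha
    have ih' := ih (by omega)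
    rcases Nat.lt_or_ge a (i + 1) with h | h
    · have h1 := H1 i a b (by omega)
      have h2 := ih' a b hD (by omega)
      rw [h2.1, h2.2, mul_zero] at h1
      exact h1
    · have ha' : a = i + 1 := by omega
      subst ha'
      obtain ⟨hb1, hb2, hb3⟩ := hD
      rw [Nat.add_sub_cancel] at hb3
      have m1 : (i - 1) - l (i - 1) ≤ i - l i := mono hA (by omega) (by omega)
      have m2 : r ≤ i - l i := by
        have h2 := mono hA (w := r + 2) (w' := i) (by omega) (by omega)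
        rw [hT.2] at h2
        omega
      have q1 := ih' i (i - l i) ⟨m2, by omega, m1⟩ le_rfl
      rcases Nat.lt_or_ge b (i + 1) with h' | h'
      · have h2 := H2 i b (by omega)
        have q2 := ih' i b ⟨hb1, by omega, by omega⟩ le_rfl
        have m3 : (b - 1) - l (b - 1) ≤ i - l i := mono hA (by omega) (by omega)
        have q3 := ih' b (i - l i) ⟨m2, hb3, m3⟩ (by omega)
        rw [q2.1, q2.2, q3.1, q3.2, mul_zero, mul_zero, add_zero] at h2
        exact h2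
      · have hb' : b = i + 1 := by omega
        subst hb'
        refine ⟨?_, Hd _ _⟩
        have q4 := ih' i i ⟨by omega, le_rfl, by omega⟩ le_rfl
        rw [H3 i, q4.1, q1.1, q1.2]
        ring

theorem br_sub {v : ℂ} (h : Gen v) : v - v⁻¹ ≠ 0 := by
  intro h1
  have h2 : v ^ 2 = 1 := by
    have h3 : v * (v - v⁻¹) = 0 := by rw [h1, mul_zero]
    rw [mul_sub, mul_inv_cancel₀ h.1] at h3
    rw [sq]
    exact sub_eq_zero.1 h3
  exact h.2 2 (by norm_num) h2

theorem br_mul {v : ℂ} (h : Gen v) (m : ℤ) : br v 2 * br v m = br v (m + 1) + br v (m - 1) := by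
  have h1 := br_sub h
  have h0 := h.1
  unfold br
  have e1 : v ^ (m + 1) = v ^ m * v := zpow_add_one₀ h0 m
  have e2 : v ^ (m - 1) = v ^ m * v⁻¹ := zpow_sub_one₀ h0 m
  have e3 : v ^ (-(m + 1)) = v ^ (-m) * v⁻¹ := by
    rw [neg_add, ← sub_eq_add_neg, zpow_sub_one₀ h0]
  have e4 : v ^ (-(m - 1)) = v ^ (-m) * v := by
    rw [neg_sub, sub_eq_neg_add, zpow_add_one₀ h0]
  have e5 : v ^ (2 : ℤ) - v ^ (-2 : ℤ) = (v - v⁻¹) * (v + v⁻¹) := by
    rw [zpow_neg, zpow_ofNat]
    field_simp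
    ring
  rw [e1, e2, e3, e4, div_mul_div_comm, ← add_div, div_eq_div_iff (mul_ne_zero h1 h1) h1, e5]
  ring

theorem cc_mul (a b : ℂ) : cc (a * b) = cc a * cc b := by
  unfold cc
  rw [map_mul, map_mul]

theorem cc_add (a b : ℂ) : cc (a + b) = cc a + cc b := by
  unfold cc
  rw [map_add, map_add]

theorem cc_zero : cc 0 = 0 := by
  unfold cc
  rw [map_zero, map_zero]

theorem cc_one : cc 1 = 1 := by
  unfold cc
  rw [map_one, map_one]

theorem cc_neg (a : ℂ) : cc (-a) = -cc a := by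
  unfold cc
  rw [map_neg, map_neg]

theorem br_zero (v : ℂ) : br v 0 = 0 := by
  unfold br
  rw [neg_zero, sub_self, zero_div]

theorem br_neg (v : ℂ) (m : ℤ) : br v (-m) = -br v m := by
  unfold br
  rw [neg_neg, ← neg_div, neg_sub]

theorem br_one {v : ℂ} (h : Gen v) : br v 1 = 1 := by
  unfold br
  rw [zpow_one, zpow_neg_one]
  exact div_self (br_sub h)

end ZVAux

theorem tZV : S_REC → S_ZV := by
  intro hR v l n r hv hA hT
  refine ZVAux.main (fun i a b => zp v l i a b) (fun i a b => zn v l i a b)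
    (fun m => cc (br v m)) E1 E2 (cc v⁻¹) l n r ?_ ?_ ?_ ?_ ?_ ?_ ?_ ?_ ?_ ?_ hA hT
  · change cc (br v 0) = 0
    rw [ZVAux.br_zero, ZVAux.cc_zero]
  · change cc (br v 1) = 1
    rw [ZVAux.br_one hv, ZVAux.cc_one]
  · change cc (br v (-1)) = -1
    rw [ZVAux.br_neg, ZVAux.br_one hv, ZVAux.cc_neg, ZVAux.cc_one]
  · change cc (br v (-2)) = -cc (br v 2)
    rw [ZVAux.br_neg, ZVAux.cc_neg]
  · intro m
    change cc (br v 2) * cc (br v m) = cc (br v (m + 1)) + cc (br v (m - 1))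
    rw [← ZVAux.cc_mul, ← ZVAux.cc_add, ZVAux.br_mul hv]
  · intro i a b h
    have h1 := (hR v l i).1 a b h
    exact ⟨h1.1, h1.2.1⟩
  · intro i b h
    have h1 := (hR v l i).2.1 b h
    exact ⟨h1.1, h1.2.1⟩
  · intro i
    exact (hR v l i).2.2.1.1
  · intro a b
    have h1 := (hR v l 0).2.2.2.1 a b
    exact ⟨h1.1, h1.2.1⟩
  · intro i a
    exact ((hR v l i).2.2.2.2 a).1

end Pool.Agent.LV2
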