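import Pool.Agent.Lib.MP_263316_co.HOOK.All
import Pool.Agent.Lib.MP_263316_co.All
import Pool.Agent.Lib.MP_263316_co.SWK.REVm
import Pool.Agent.Lib.MP_263316_co.SWK.REVX
import Pool.Agent.Lib.MP_263316_co.LV2.PSS
import Pool.Agent.Lib.MP_263316_co.LV2.COMB
import Pool.Agent.Lib.MP_263316_co.LV2.LINK
import Pool.Agent.Lib.MP_263316_co.LV2.SK
import Pool.Agent.Lib.MP_263316_co.LV2.XR
import Pool.Agent.Lib.MP_263316_co.LV2.PART3
import Pool.Agent.Lib.MP_263316_co.LV2.REL3
import Pool.Agent.Lib.MP_263316_co.LV2.TWO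
import Pool.Agent.Lib.MP_263316_co.LV2.REAL
import Pool.Agent.Lib.MP_263316_co.LV2.ADM
import Pool.Agent.Lib.MP_263316_co.LV2.KC
import Pool.Agent.Lib.MP_263316_co.LV2.REVG
import Pool.Agent.Lib.MP_263316_co.LV2.REVL
import Pool.Agent.Lib.MP_263316_co.LV2.RVC
import Pool.Agent.Lib.MP_263316_co.LV2.EXTb
import Pool.Agent.Lib.MP_263316_co.LV2.CLS
import Pool.Agent.Lib.MP_263316_co.LV2.AUQ
import Pool.Agent.Lib.MP_263316_co.LV2.REC
import Pool.Agent.Lib.MP_263316_co.LV2.ZV
import Pool.Agent.Lib.MP_263316_co.LV2.SYS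
import Pool.Agent.Lib.MP_263316_co.LV2.BLK
import Pool.Agent.Lib.MP_263316_co.LV2.SCM
import Pool.Agent.Lib.MP_263316_co.LV2.INB
import Pool.Agent.Lib.MP_263316_co.LV2.BETA
import Pool.Agent.Lib.MP_263316_co.LV2.TB2
import Pool.Agent.Lib.MP_263316_co.LV2.INI1
import Pool.Agent.Lib.MP_263316_co.LV2.INI2
import Pool.Agent.Lib.MP_263316_co.LV2.VP
import Pool.Agent.Lib.MP_263316_co.LV2.BKF
import Pool.Agent.Lib.MP_263316_co.LV2.STEPK
import Pool.Agent.Lib.MP_263316_co.LV2.DPOS
import Pool.Agent.Lib.MP_263316_co.LV2.EREC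
import Pool.Agent.Lib.MP_263316_co.LV2.BLOCK
import Pool.Agent.Lib.MP_263316_co.LV2.POSF
import Pool.Agent.Lib.MP_263316_co.LV2.RELB
import Pool.Agent.Lib.MP_263316_co.LV2.POSB
import Pool.Agent.Lib.MP_263316_co.LV2.POS1
import Pool.Agent.Lib.MP_263316_co.LV2.POS
import Pool.Agent.Lib.MP_263316_co.LV2.GOOD
import Pool.Agent.Lib.MP_263316_co.LV2.CONN3
import Pool.Agent.Lib.MP_263316_co.LV2.DROP
import Pool.Agent.Lib.MP_263316_co.LV2.UNI3

/-!
MP_263316_co, project LV2 (helper30): assembly. All coefficients `a_μ` of the chromatic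
quasisymmetric functions of all natural unit interval graphs, `μ` with at most one part larger than
two, are nonnegative, palindromic and unimodal.

PROOF (details in Spec.lean). (1) Evaluate `X_G` at the alphabet `y1, y2` and the `m`-th roots of
unity, `m ≥ 3`, `e1 = y1 + y2`, `e2 = y1 y2`: `C_m + e1 C_(m+1) + e2 C_(m+2) = [m] s_m(y1, y2)`, where
`C_m` is the generating function of the coefficients of `(m, 2^b, 1^c)` and `s_m` a sum over the pairs
of disjoint stable sets (`S_REL3`). (2) The generating function `S` of the `s_m` has a recursion in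
the last vertex in terms of a table `K(i;a,b)` (`S_LINK`), in balanced variables `v^2 = q`. (3) First
order system in the number of connected components (`S_SYS`), after a cut vertex everything is
a multiple of `BS(c)` (`S_BETA`), and by reversing the graph `BS(c) = F V` with
`F = (1 + v y1)(1 + y1/v)(1 + v y2)(1 + y2/v)` and `V` positive (`S_VP`). (4) For one block:
`S = F P + boundary terms` with positive `P` (`S_BLOCK`). (5) `F P` and the boundary terms give
nonnegative unimodal coefficients (`S_POSF`, `S_POSB`), main induction `S_POS`.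
-/

set_option autoImplicit false

namespace Pool.Agent.LV2

open Pool.Agent.SWC Pool.Agent.SWK Pool.Agent.HOOK

namespace All

theorem xf : XFc := Pool.Agent.HOOK.All.xf
theorem spl : S_SPL := Pool.Agent.HOOK.All.spl
theorem link : S_LINK := tLINK (tCOMB tPSS)
theorem sk : S_SK := tSK link
theorem xr : S_XR := tXR xf spl
theorem rel3 : S_REL3 := tREL3 tESZ xr tPART3
theorem two : S_TWO := tTWO spl tESZ
theorem revg : S_REVG := tREVG tREAL tADM tREVm tREVX
theorem revl : S_REVL := tREVL xf xr sk tADM tKC revg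
theorem rec' : S_REC := tREC
theorem zv : S_ZV := tZV rec'
theorem sys : S_SYS := tSYS rec' zv
theorem id' : S_ID := tID rec'
theorem blk : S_BLK := tBLK sys id'
theorem inb : S_INB := tINB tSCM sys blk
theorem beta : S_BETA := tBETA tSCM blk inb
theorem ini1 : S_INI1 := tINI1 rec' (tTB2 rec')
theorem ini2 : S_INI2 := tINI2 rec' (tTB2 rec')
theorem vp : S_VP := tVP tKC revl tRVC blk beta ini1
theorem bkf : S_BKF := tBKF tSCM
theorem stepk : S_STEPK := tSTEPK sys bkf
theorem dpos : S_DPOS := tDPOS tSCM sys bkf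
theorem erec : S_EREC := tEREC tSCM sys bkf
theorem block : S_BLOCK := tBLOCK tSCM sys bkf ini1 ini2 stepk dpos erec
theorem posf : S_POSF := tPOSF tSCM
theorem posb : S_POSB := tPOSB tSCM (tRELB bkf)
theorem pos1 : S_POS1 := tPOS1 tSCM sys bkf block stepk erec posf posb
theorem pos : S_POS := tPOS tTRIE tSCM blk beta vp revl tRVC posf pos1
theorem good : S_GOOD := tGOOD Pool.Agent.SWC.All.main Pool.Agent.SWC.All.msum
theorem conn3 : S_CONN3 := tCONN3 xf tADM sk rel3 two pos tAUQ tCLS tEXTb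

theorem final : ∀ (n : ℕ) (h : Fin n → Fin n), Monotone h → (∀ i, i ≤ h i) →
    ∀ E : ℕ, E = (Finset.univ.filter (fun p : Fin n × Fin n => p.1 < p.2 ∧ p.2 ≤ h p.1)).card →
    ∃ a : Nat.Partition n → Polynomial ℤ,
      ((∑ κ ∈ (Finset.univ.filter
            (fun κ : Fin n → Fin n => ∀ i j : Fin n, i < j → j ≤ h i → κ i ≠ κ j)),
          MvPolynomial.C (Polynomial.X ^ ((Finset.univ.filter
            (fun p : Fin n × Fin n => p.1 < p.2 ∧ p.2 ≤ h p.1 ∧ κ p.1 < κ p.2)).card))
            * ∏ i : Fin n, MvPolynomial.X (κ i) : MvPolynomial (Fin n) (Polynomial ℤ))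
        = ∑ μ : Nat.Partition n, MvPolynomial.C (a μ) *
            (μ.parts.map (fun k => MvPolynomial.esymm (Fin n) (Polynomial ℤ) k)).prod)
      ∧ ∀ μ : Nat.Partition n, Multiset.card (μ.parts.filter (fun p => 3 ≤ p)) ≤ 1 →
          (∀ i : ℕ, 0 ≤ (a μ).coeff i)
          ∧ (∀ i : ℕ, E < i → (a μ).coeff i = 0)
          ∧ (∀ i : ℕ, i ≤ E → (a μ).coeff i = (a μ).coeff (E - i))
          ∧ (∀ i j : ℕ, i ≤ j → 2 * j ≤ E → (a μ).coeff i ≤ (a μ).coeff j) :=
  tUNI3 t_PUmul good conn3 (tDROP spl tESZ) tRELm tRELX t_PUcoeff t_FUN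

end All

end Pool.Agent.LV2
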