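import Pool.Agent.Lib.MP_263316_co.HOOK.UNI

/-!
MP_263316_co, project LV2 (helper30): all coefficients of `e_μ` with at most one part larger than
TWO, for all natural unit interval graphs. Definitions.

Graphs as in `Pool.Agent.SWC` (`m` monotone, `u < v` adjacent iff `v ≤ m u`), `ld g j` = number of
left neighbours of the vertex `j`. The vertices of a connected graph are `0, ..., n - 1`
(`∀ j, 0 < j → j < n → j ≤ g (j - 1)`), and the left neighbours of `j` are `j - ld g j, ..., j - 1`.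
-/

set_option autoImplicit false

namespace Pool.Agent.LV2

open Finset Pool.Agent.SWC Pool.Agent.SWK Pool.Agent.HOOK

/-- balanced integer `[n] = (v^n - v^(-n)) / (v - v⁻¹)` -/
noncomputable def br (v : ℂ) (n : ℤ) : ℂ := (v ^ n - v ^ (-n)) / (v - v⁻¹)

/-- `[m] + v^(m+1) ω` -/
noncomputable def bz {R : Type} [CommRing R] [Algebra ℂ R] (v : ℂ) (ω : R) (m : ℤ) : R :=
  algebraMap ℂ R (br v m) + algebraMap ℂ R (v ^ (m + 1)) * ω

/-- The table: `K i a b` is a pair, `b ≤ a ≤ i`. -/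
noncomputable def K {R : Type} [CommRing R] [Algebra ℂ R] (v : ℂ) (e1 e2 ω : R) (l : ℕ → ℕ) :
    ℕ → ℕ → ℕ → R × R
  | 0 => fun _ _ => (algebraMap ℂ R v⁻¹, 0)
  | i + 1 => fun a b =>
    if a ≤ i then
      (bz v ω ((l i : ℤ) - 2) * (K v e1 e2 ω l i a b).1,
        bz v ω ((l i : ℤ) - 2) * (K v e1 e2 ω l i a b).2)
    else if b ≤ i then
      (bz v ω ((l i : ℤ) - 1) * (K v e1 e2 ω l i i b).1 + e2 * (K v e1 e2 ω l i b (i - l i)).2,
        bz v ω ((l i : ℤ) - 1) * (K v e1 e2 ω l i i b).2 + (K v e1 e2 ω l i b (i - l i)).1)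
    else
      (bz v ω (l i : ℤ) * (K v e1 e2 ω l i i i).1 + e1 * (K v e1 e2 ω l i i (i - l i)).1 +
        algebraMap ℂ R (br v 2) * e2 * (K v e1 e2 ω l i i (i - l i)).2, 0)

/-! ### Sums over pairs of stable sets -/

/-- weight of the vertices with ordinary colours -/
def wo {R : Type} [CommRing R] (m : ℕ → ℕ) (q ω : R) (C : Finset ℕ) : R :=
  ∏ v ∈ C, (qn q (aL m C v) + ω * q ^ aL m C v)

/-- sum over the pairs of disjoint stable sets `T`, `T'` of `D` -/
def PS {R : Type} [CommRing R] (m : ℕ → ℕ) (q ω y1 y2 : R) (D : Finset ℕ)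
    (c : Finset ℕ → Finset ℕ → R) : R :=
  ∑ T ∈ D.powerset.filter (fun T => ind m T),
    ∑ T' ∈ (D \ T).powerset.filter (fun T' => ind m T'),
      y1 ^ T.card * y2 ^ T'.card * q ^ (ea m D T + ea m (D \ T) T') *
        wo m q ω ((D \ T) \ T') * c T T'

/-- `y` if `T` is disjoint from `L`, otherwise `-1` -/
def cu {R : Type} [CommRing R] (y : R) (L T : Finset ℕ) : R := if Disjoint T L then y else -1

/-- `1` if `T` is disjoint from `L`, otherwise `q` -/
def cb {R : Type} [CommRing R] (q : R) (L T : Finset ℕ) : R := if Disjoint T L then 1 else q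

/-- the four sums with one or two virtual vertices -/
def G1 {R : Type} [CommRing R] (m : ℕ → ℕ) (q ω y1 y2 : R) (D L : Finset ℕ) : R :=
  PS m q ω y1 y2 D (fun T _ => cu y1 L T)
def G2 {R : Type} [CommRing R] (m : ℕ → ℕ) (q ω y1 y2 : R) (D L : Finset ℕ) : R :=
  PS m q ω y1 y2 D (fun T T' => cb q L T * cu y2 L T')
def G12 {R : Type} [CommRing R] (m : ℕ → ℕ) (q ω y1 y2 : R) (D L M : Finset ℕ) : R :=
  PS m q ω y1 y2 D (fun T T' => cu y1 L T * cb q M T * cu y2 M T')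
def G21 {R : Type} [CommRing R] (m : ℕ → ℕ) (q ω y1 y2 : R) (D L M : Finset ℕ) : R :=
  PS m q ω y1 y2 D (fun T T' => cb q L T * cu y2 L T' * cu y1 M T)
/-- the plain sum -/
def G0 {R : Type} [CommRing R] (m : ℕ → ℕ) (q ω y1 y2 : R) (D : Finset ℕ) : R :=
  PS m q ω y1 y2 D (fun _ _ => 1)

/-- sum over the pairs of disjoint stable sets with `k` elements together -/
def s2k {R : Type} [CommRing R] (m : ℕ → ℕ) (q α β : R) (U : Finset ℕ) (k : ℕ) : R :=
  ∑ T ∈ U.powerset.filter (fun T => ind m T),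
    ∑ T' ∈ (U \ T).powerset.filter (fun T' => ind m T' ∧ T.card + T'.card = k),
      α ^ T.card * β ^ T'.card * q ^ (ea m U T + ea m (U \ T) T') * Pm m q ((U \ T) \ T')

/-- number of edges of the initial segment, as a natural number -/
def En (g : ℕ → ℕ) (i : ℕ) : ℕ := ∑ j ∈ range i, ld g j

/-! ### The formal side -/

/-- polynomials in `s1, s2` -/
abbrev R2 : Type := MvPolynomial (Fin 2) ℂ
/-- polynomials in `s1, s2` and the grading variable -/
abbrev QQ : Type := Polynomial R2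

noncomputable def E1 : QQ := Polynomial.C (MvPolynomial.X 0) * Polynomial.X
noncomputable def E2 : QQ := Polynomial.C (MvPolynomial.X 1) * Polynomial.X ^ 2

/-- scalars -/
noncomputable def cc (z : ℂ) : QQ := Polynomial.C (MvPolynomial.C z)

/-- the formal table -/
noncomputable def KF (v : ℂ) (l : ℕ → ℕ) (i a b : ℕ) : Polynomial QQ × Polynomial QQ :=
  K v (Polynomial.C E1) (Polynomial.C E2) Polynomial.X l i a b

/-- first order parts -/
noncomputable def kp (v : ℂ) (l : ℕ → ℕ) (i a b : ℕ) : QQ := (KF v l i a b).1.coeff 1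
noncomputable def kn (v : ℂ) (l : ℕ → ℕ) (i a b : ℕ) : QQ := (KF v l i a b).2.coeff 1

/-- the formal generating function -/
noncomputable def SF (v : ℂ) (l : ℕ → ℕ) (n : ℕ) : QQ := kp v l n n n

/-- cone in the scalars -/
noncomputable def SC (v : ℂ) (d : ℕ) : AddSubmonoid ℂ :=
  AddSubmonoid.closure {z | ∃ m : ℕ, (m + 1 + d) % 2 = 0 ∧ z = br v m}

/-- cone in `QQ` -/
noncomputable def CQ (v : ℂ) (d : ℕ) : AddSubmonoid QQ :=
  AddSubmonoid.closure {z | ∃ m a b : ℕ, (m + 1 + a + d) % 2 = 0 ∧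
    z = cc (br v m) * E1 ^ a * E2 ^ b}

/-- cone in `R2` -/
noncomputable def C2 (v : ℂ) (d : ℕ) : AddSubmonoid R2 :=
  AddSubmonoid.closure {z | ∃ m a b : ℕ, (m + 1 + d) % 2 = 0 ∧
    z = MvPolynomial.C (br v m) * MvPolynomial.X 0 ^ a * MvPolynomial.X 1 ^ b}

/-- positivity of the coefficients with one part `≥ 3` -/
def Pos (v : ℂ) (n d : ℕ) (s : QQ) : Prop := ∃ A : ℕ → R2, (∀ m, A m ∈ C2 v d) ∧
  (∀ m, n < m → A m = 0) ∧ ∀ m, 3 ≤ m → m ≤ n →
    A m + MvPolynomial.X 0 * A (m + 1) + MvPolynomial.X 1 * A (m + 2) =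
      MvPolynomial.C (br v m) * s.coeff (n - m)

/-- the polynomial `F = (1 + v y1)(1 + y1/v)(1 + v y2)(1 + y2/v)` -/
noncomputable def F4 (v : ℂ) : QQ :=
  1 + cc (br v 2) * E1 + (E1 ^ 2 + cc (v ^ 2 + v ^ (-2 : ℤ)) * E2) + cc (br v 2) * E1 * E2 + E2 ^ 2

/-- `v` is not zero and not a root of unity -/
def Gen (v : ℂ) : Prop := v ≠ 0 ∧ ∀ k : ℕ, 0 < k → v ^ k ≠ 1

/-- left degree sequences of connected graphs with `n` vertices -/
def Adm (l : ℕ → ℕ) (n : ℕ) : Prop :=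
  l 0 = 0 ∧ ∀ j, j + 1 < n → 1 ≤ l (j + 1) ∧ l (j + 1) ≤ l j + 1

/-- the graph `g` is connected on `range n` -/
def Cn (g : ℕ → ℕ) (n : ℕ) : Prop := ∀ j, 0 < j → j < n → j ≤ g (j - 1)

/-- number of edges -/
def EL (l : ℕ → ℕ) (i : ℕ) : ℕ := ∑ j ∈ range i, l j

/-- the pairs for which the first order system holds (`i - l i` is the first neighbour of `i`) -/
def Dom (l : ℕ → ℕ) (r a b : ℕ) : Prop := r ≤ b ∧ b ≤ a ∧ (a - 1) - l (a - 1) ≤ b

/-- the first triangle is `r, r + 1, r + 2`; the vertices `0, ..., r + 1` form a path -/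
def Tri (l : ℕ → ℕ) (r : ℕ) : Prop := (∀ j, 1 ≤ j → j ≤ r + 1 → l j = 1) ∧ l (r + 2) = 2

/-- zeroth order parts of the table -/
noncomputable def zp (v : ℂ) (l : ℕ → ℕ) (i a b : ℕ) : QQ := (KF v l i a b).1.coeff 0
noncomputable def zn (v : ℂ) (l : ℕ → ℕ) (i a b : ℕ) : QQ := (KF v l i a b).2.coeff 0

/-- generating function after gluing a triangle at the last vertex, divided by `[2]` -/
noncomputable def BS (v : ℂ) (l : ℕ → ℕ) (c : ℕ) : QQ :=
  kp v l c c c + E1 * kp v l c c (c - 1) + cc (br v 2) * E2 * kn v l c c (c - 1) +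
    E2 * kp v l c (c - 1) (c - 1)

/-- left degrees of the reversed graph -/
def rv (n : ℕ) (l : ℕ → ℕ) (j : ℕ) : ℕ :=
  ((range n).filter (fun w => n - 1 - j < w ∧ w - l w ≤ n - 1 - j)).card

/-- `∑_s E_s [n - s] e1^s` -/
noncomputable def bk (v : ℂ) (E : Polynomial ℂ) (n : ℤ) : QQ :=
  E.sum (fun s c => cc (c * br v (n - s)) * E1 ^ s)

/-- `bk E (n-3) + e1 bk E (n-2) + e2 bk E (n-1)` -/
noncomputable def eta (v : ℂ) (E : Polynomial ℂ) (n : ℤ) : QQ :=
  bk v E (n - 3) + E1 * bk v E (n - 2) + E2 * bk v E (n - 1)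

/-- `[b-1][a-2] + [b][a-2] e1 + [b][a-1] e2` -/
noncomputable def kappa (v : ℂ) (a b : ℤ) : QQ :=
  cc (br v (b - 1) * br v (a - 2)) + cc (br v b * br v (a - 2)) * E1 +
    cc (br v b * br v (a - 1)) * E2

/-- `bk E (b - s) - bk E' (a - s)` -/
noncomputable def YY (v : ℂ) (s : ℤ) (E E' : Polynomial ℂ) (a b : ℤ) : QQ :=
  bk v E (b - s) - bk v E' (a - s)

/-- the non-`F` part of `K(i; a, b)`, components 1 and 2 -/
noncomputable def hp (v : ℂ) (E E' : Polynomial ℂ) (ρ : ℂ) (a b : ℤ) : QQ :=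
  eta v E (b + 2) + eta v ((1 + Polynomial.X) * E') a + cc ρ * kappa v a b
noncomputable def hn (v : ℂ) (E E' : Polynomial ℂ) (ρ : ℂ) (a b : ℤ) : QQ :=
  eta v E b - eta v E' a - cc (ρ * br v (a - b))

/-- the boundary data: `E` from the positive table `D`, `r ≤ 1` -/
noncomputable def ED (v : ℂ) (r : ℕ) (D : ℕ → Polynomial ℂ) (μ : ℂ) (a : ℕ) : Polynomial ℂ :=
  if r = 0 then D a else if 2 ≤ a then
    (1 + Polynomial.X) * D a + Polynomial.C (br v ((a : ℤ) - 2) * μ) else 0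

/-- `ρ = (-1)^r μ` -/
noncomputable def rh (r : ℕ) (μ : ℂ) : ℂ := if r = 0 then μ else -μ

/-- positivity of the data of the first block -/
def DP (v : ℂ) (l : ℕ → ℕ) (r i : ℕ) (D : ℕ → Polynomial ℂ) (μ : ℂ) : Prop :=
  (∀ a s : ℕ, (D a).coeff s ≠ 0 → r + 4 ≤ a ∧ 2 * r + 1 ≤ (a - 1) - l (a - 1) ∧
    (s = 0 ∨ s + 3 ≤ (a - 1) - l (a - 1))) ∧
  (∀ a, a ≤ i → ∀ s, (D a).coeff s ∈ SC v (EL l i + i + a + 1)) ∧
  μ ∈ SC v (EL l i + i) ∧
  (∀ a b s : ℕ, Dom l r a b → a ≤ i → 1 ≤ s → s ≤ r + 1 →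
    YY v s (D a) (D b) a b ∈ CQ v (EL l i + i + a + b + s))

/-- the coefficients of the boundary part -/
noncomputable def AB (v : ℂ) (n : ℕ) (E : Polynomial ℂ) (ρ : ℂ) (m : ℕ) : R2 :=
  if 3 ≤ m ∧ m ≤ n then
    MvPolynomial.X 0 ^ (n - m) * MvPolynomial.C
      (E.coeff (n - m) * br v m * (br v ((m : ℤ) - 1) + br v ((m : ℤ) - 3)) +
        (if n - m = 0 then ρ * br v m * br v ((m : ℤ) - 1) * br v ((m : ℤ) - 2)
          else E.coeff (n - m - 1) * br v ((m : ℤ) - 1) * br v ((m : ℤ) - 2)))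
  else 0

/-- the alphabet `α X, β X, x` -/
noncomputable def yal {N : ℕ} (α β : ℂ) (x : Fin N → ℂ) : Fin (N + 2) → Polynomial ℂ :=
  Fin.cons (Polynomial.C α * Polynomial.X) (Fin.cons (Polynomial.C β * Polynomial.X)
    (fun j => Polynomial.C (x j)))

/-- number of parts larger than two -/
def big3 (l : Multiset ℕ) : ℕ := Multiset.card (l.filter (fun p => 3 ≤ p))

/-- sums of `p e_l`, `l` of weight `n`, with `p ∈ PU d` if `l` has at most one part larger than 2 -/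
noncomputable def HC3 (N n d : ℕ) : AddSubmonoid (AN N) :=
  AddSubmonoid.closure {f | ∃ (l : Multiset ℕ) (p : Polynomial ℤ), l.sum = n ∧
    (big3 l ≤ 1 → p ∈ PU d) ∧ f = MvPolynomial.C p * (l.map (es (xx N))).prod}

/-- the partition `(m, 2^b, 1^(n-m-2b))` -/
def lvP (n m b : ℕ) (h1 : 1 ≤ m) (h2 : m + 2 * b ≤ n) : n.Partition where
  parts := m ::ₘ (Multiset.replicate b 2 + Multiset.replicate (n - m - 2 * b) 1)
  parts_pos := by
    intro i hi
    rw [Multiset.mem_cons, Multiset.mem_add] at hi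
    rcases hi with rfl | hi | hi
    · omega
    · rw [Multiset.eq_of_mem_replicate hi]; omega
    · rw [Multiset.eq_of_mem_replicate hi]; omega
  parts_sum := by
    rw [Multiset.sum_cons, Multiset.sum_add, Multiset.sum_replicate, Multiset.sum_replicate,
      smul_eq_mul, smul_eq_mul]
    omega

/-- the partition `(2^b, 1^(n-2b))` -/
def twP (n b : ℕ) (h2 : 2 * b ≤ n) : n.Partition where
  parts := Multiset.replicate b 2 + Multiset.replicate (n - 2 * b) 1
  parts_pos := by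
    intro i hi
    rw [Multiset.mem_add] at hi
    rcases hi with hi | hi
    · rw [Multiset.eq_of_mem_replicate hi]; omega
    · rw [Multiset.eq_of_mem_replicate hi]; omega
  parts_sum := by
    rw [Multiset.sum_add, Multiset.sum_replicate, Multiset.sum_replicate,
      smul_eq_mul, smul_eq_mul]
    omega

/-- generating function of the coefficients of the `(m, 2^b, 1^*)` -/
def AA (n : ℕ) (a : n.Partition → ℂ) (m : ℕ) (s1 s2 : ℂ) : ℂ :=
  ∑ b ∈ range (n + 1), if h : 1 ≤ m ∧ m + 2 * b ≤ n then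
    a (lvP n m b h.1 h.2) * s1 ^ (n - m - 2 * b) * s2 ^ b else 0

end Pool.Agent.LV2
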