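import Pool.Agent.Lib.MP_263316_co.LV2.Spec

set_option autoImplicit false

namespace Pool.Agent.LV2

open Finset Pool.Agent.SWC Pool.Agent.SWK Pool.Agent.HOOK

namespace ERECAux

lemma dne {v : ℂ} (hv : Gen v) : v - v⁻¹ ≠ 0 := by
  intro h
  have h1 : v = v⁻¹ := sub_eq_zero.mp h
  have h2 : v ^ 2 = 1 := by
    rw [pow_two]
    nth_rewrite 2 [h1]
    exact mul_inv_cancel₀ hv.1
  exact hv.2 2 (by norm_num) h2

lemma brid {v : ℂ} (hv : Gen v) (x y : ℤ) :
    br v x * br v y - br v (x - 1) * br v (y + 1) = br v (y - x + 1) := by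
  have h0 := hv.1
  have hd := dne hv
  have ha : v ^ x ≠ 0 := zpow_ne_zero _ h0
  have hb : v ^ y ≠ 0 := zpow_ne_zero _ h0
  unfold br
  rw [zpow_neg, zpow_neg, zpow_neg, zpow_neg, zpow_neg, zpow_sub_one₀ h0, zpow_add_one₀ h0,
    zpow_add_one₀ h0, zpow_sub₀ h0, div_mul_div_comm, div_mul_div_comm, ← sub_div,
    div_eq_div_iff (mul_ne_zero hd hd) hd]
  generalize v ^ x = a at *
  generalize v ^ y = b at *
  field_simp
  ring

lemma br0 (v : ℂ) : br v 0 = 0 := by
  unfold br
  simp

lemma ccm (x y : ℂ) : cc (x * y) = cc x * cc y := by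
  unfold cc
  rw [map_mul, map_mul]

lemma cca (x y : ℂ) : cc (x + y) = cc x + cc y := by
  unfold cc
  rw [map_add, map_add]

lemma cc0 : cc 0 = 0 := by
  unfold cc
  rw [map_zero, map_zero]

lemma D0 {v : ℂ} {l : ℕ → ℕ} {r i : ℕ} {D : ℕ → Polynomial ℂ} {μ : ℂ}
    (hD : DP v l r i D μ)
    (a : ℕ) (ha : a < r + 4 ∨ (a - 1) - l (a - 1) < 2 * r + 1) : D a = 0 := by
  ext s
  rw [Polynomial.coeff_zero]
  by_contra h
  have h1 := hD.1 a s h
  omega

end ERECAux

open ERECAux in
theorem tEREC : S_SCM → S_SYS → S_BKF → S_EREC := by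
  intro hSCM hSYS hBKF v l n r hv hA hT hr i hi hin D μ hD
  obtain ⟨_, s2, _, _, _, _, _, s8, s9, s10⟩ := hSCM v hv
  obtain ⟨b1, b2, b3, b4, _, _, _, _⟩ := hBKF v hv
  have hr' : r = 0 ∨ r = 1 := by omega
  refine ⟨?_, ?_⟩
  · intro a b hab hai
    rcases hr' with rfl | rfl
    · have h := hD.2.2.2 a b 1 hab hai le_rfl (by omega)
      simpa [ED] using h
    · obtain ⟨q1, q2, q3⟩ := hab
      by_cases hb : 2 ≤ b
      · have ha : 2 ≤ a := by omega
        have h1 := hD.2.2.2 a b 1 ⟨q1, q2, q3⟩ hai le_rfl (by omega)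
        have h2 := hD.2.2.2 a b 2 ⟨q1, q2, q3⟩ hai (by omega) (by omega)
        have key : YY v 1 (ED v 1 D μ a) (ED v 1 D μ b) a b =
            YY v ((1 : ℕ) : ℤ) (D a) (D b) a b + E1 * YY v ((2 : ℕ) : ℤ) (D a) (D b) a b +
              cc (br v ((a - b : ℕ) : ℤ)) * cc μ := by
          have hc : ((a - b : ℕ) : ℤ) = (a : ℤ) - 2 - ((b : ℤ) - 1) + 1 := by
            rw [Nat.cast_sub q2]; ring
          have hid := brid hv ((b : ℤ) - 1) ((a : ℤ) - 2)
          rw [hc, ← hid]
          have e1 : ((b : ℤ) - 1 - 1) = (b : ℤ) - 2 := by ring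
          have e2 : ((a : ℤ) - 2 + 1) = (a : ℤ) - 1 := by ring
          have e3 : ((a : ℤ) - 1 - 1) = (a : ℤ) - 2 := by ring
          rw [e1, e2]
          unfold YY ED
          rw [if_neg one_ne_zero, if_pos ha, if_neg one_ne_zero, if_pos hb]
          rw [b1, b1, b3, b3, (b4 _ _).1, (b4 _ _).1, e1, e3]
          have e4 : cc (br v ((b : ℤ) - 1) * br v ((a : ℤ) - 2) -
              br v ((b : ℤ) - 2) * br v ((a : ℤ) - 1)) =
              cc (br v ((b : ℤ) - 1)) * cc (br v ((a : ℤ) - 2)) -
              cc (br v ((b : ℤ) - 2)) * cc (br v ((a : ℤ) - 1)) := by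
            rw [← ccm, ← ccm, eq_sub_iff_add_eq, ← cca, sub_add_cancel]
          rw [e4, ccm, ccm, ccm, ccm]
          push_cast
          ring
        rw [key]
        have hμ := (s8 _ _ hD.2.2.1)
        refine add_mem (add_mem ?_ ?_) ?_
        · exact h1
        · have h3 := (s10 _ _ h2).1
          rwa [(s2 _ (EL l i + i + a + b + 1) (by omega)).2.1] at h3
        · have h3 := s9 _ (a - b) _ hμ
          rwa [(s2 _ (EL l i + i + a + b + 1) (by omega)).2.1] at h3
      · have hb1 : b = 1 := by omega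
        subst hb1
        have hDa : D a = 0 := D0 hD a (Or.inr (by omega))
        have hz : YY v 1 (ED v 1 D μ a) (ED v 1 D μ 1) a ((1 : ℕ) : ℤ) = 0 := by
          unfold YY ED
          rw [if_neg one_ne_zero, if_neg one_ne_zero, if_neg (by norm_num : ¬ 2 ≤ 1),
            (b4 0 _).2, sub_zero, hDa, mul_zero, zero_add]
          split_ifs with h2
          · rw [(b4 _ _).1]
            have : (((1 : ℕ) : ℤ) - 1) = 0 := by norm_num
            rw [this, br0, mul_zero, cc0]
          · exact (b4 0 _).2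
        rw [hz]
        exact zero_mem _
  · intro hlt D' μ' h1 h2 h3
    obtain ⟨_, _, _, _, _, _, d2, hlt2, hle⟩ := hSYS v l n r hv hA hT i hi hlt
    have hcast : (((i - l i : ℕ)) : ℤ) = (i : ℤ) - l i := Nat.cast_sub hle
    rcases hr' with rfl | rfl
    · refine ⟨?_, ?_, ?_⟩
      · intro a ha
        simp only [ED, if_true]
        exact h1 a ha
      · simp only [ED, rh, if_true]
        rw [h2]
        simp only [mul_zero, Nat.sub_zero]
        rw [hcast]
      · simp only [rh, if_true]
        exact h3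
    · have hp : 1 ≤ i - l i := d2.1
      refine ⟨?_, ?_, ?_⟩
      · intro a ha
        unfold ED
        rw [if_neg one_ne_zero, if_neg one_ne_zero]
        split_ifs with h4
        · rw [h1 a ha, h3]
          simp only [map_mul]
          ring
        · rw [mul_zero]
      · have hid := brid hv ((l i : ℤ) - 1) ((i : ℤ) - 2)
        have e1 : ((l i : ℤ) - 1 - 1) = (l i : ℤ) - 2 := by ring
        have e2 : ((i : ℤ) - 2 + 1) = (i : ℤ) - 1 := by ring
        have e3 : ((i : ℤ) - 2 - ((l i : ℤ) - 1) + 1) = (i : ℤ) - l i := by ring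
        rw [e1, e2, e3] at hid
        have e4 : (((i + 1 : ℕ) : ℤ) - 2) = (i : ℤ) - 1 := by push_cast; ring
        have hEi : ED v 1 D μ i =
            (1 + Polynomial.X) * D i + Polynomial.C (br v ((i : ℤ) - 2) * μ) := by
          unfold ED
          rw [if_neg one_ne_zero, if_pos (by omega)]
        have hEi1 : ED v 1 D' μ' (i + 1) =
            (1 + Polynomial.X) * D' (i + 1) + Polynomial.C (br v ((i : ℤ) - 1) * μ') := by
          unfold ED
          rw [if_neg one_ne_zero, if_pos (by omega), e4]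
        have hrh : rh 1 μ = -μ := by
          unfold rh
          rw [if_neg one_ne_zero]
        have hC : Polynomial.C (br v ((i : ℤ) - l i) * μ) =
            Polynomial.C (br v ((l i : ℤ) - 1)) * Polynomial.C (br v ((i : ℤ) - 2) * μ) -
            Polynomial.C (br v ((i : ℤ) - 1) * (br v ((l i : ℤ) - 2) * μ)) := by
          rw [← hid, ← map_mul, ← map_sub]
          congr 1
          ring
        have hneg : Polynomial.C (br v ((i : ℤ) - l i) * -μ) =
            -Polynomial.C (br v ((i : ℤ) - l i) * μ) := by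
          rw [← map_neg]
          congr 1
          ring
        rw [hEi1, hEi, hrh, h2, h3, hneg, hC]
        by_cases hp2 : 2 ≤ i - l i
        · have hEp : ED v 1 D μ (i - l i) = (1 + Polynomial.X) * D (i - l i) +
              Polynomial.C (br v ((i : ℤ) - l i - 2) * μ) := by
            unfold ED
            rw [if_neg one_ne_zero, if_pos hp2, hcast]
          have hc2 : ((i - l i - 2 * 1 : ℕ) : ℤ) = (i : ℤ) - l i - 2 := by omega
          rw [hEp, hc2]
          ring
        · have hp1 : i - l i = 1 := by omega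
          have hEp : ED v 1 D μ (i - l i) = 0 := by
            unfold ED
            rw [if_neg one_ne_zero, if_neg hp2]
          have hDp : D (i - l i) = 0 := D0 hD _ (Or.inl (by omega))
          have hc2 : ((i - l i - 2 * 1 : ℕ) : ℤ) = 0 := by omega
          rw [hEp, hDp, hc2, br0, zero_mul, map_zero]
          ring
      · unfold rh
        rw [if_neg one_ne_zero, if_neg one_ne_zero, h3]
        ring

end Pool.Agent.LV2
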