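import Pool.Agent.Lib.MP_263316_co.LV2.Spec

/-!
MP_263316_co, project LV2: from the cone `SC` to the cone `PU` (module EXT).
-/

set_option autoImplicit false

namespace Pool.Agent.LV2

open Finset Pool.Agent.SWC Pool.Agent.SWK Pool.Agent.HOOK

namespace EXTAux

theorem repr (v : ℂ) (E : ℕ) (x : ℂ) (hx : x ∈ SC v E) :
    ∃ s : Multiset ℕ, (∀ m ∈ s, 1 ≤ m ∧ (m + 1 + E) % 2 = 0) ∧
      x = (s.map (fun m : ℕ => br v (m : ℤ))).sum := by
  unfold SC at hx
  induction hx using AddSubmonoid.closure_induction with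
  | mem z hz =>
    obtain ⟨m, hm, rfl⟩ := hz
    rcases Nat.eq_zero_or_pos m with h0 | h0
    · subst h0
      refine ⟨0, by simp, ?_⟩
      simp [br]
    · refine ⟨{m}, ?_, by simp⟩
      intro k hk
      rw [Multiset.mem_singleton] at hk
      subst hk
      exact ⟨h0, hm⟩
  | zero => exact ⟨0, by simp, by simp⟩
  | add x y _ _ h1 h2 =>
    obtain ⟨s, hs, rfl⟩ := h1
    obtain ⟨t, ht, rfl⟩ := h2
    refine ⟨s + t, ?_, by rw [Multiset.map_add, Multiset.sum_add]⟩
    intro m hm
    rcases Multiset.mem_add.mp hm with h | h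
    · exact hs m h
    · exact ht m h

/-- the polynomial of `v^(M+E) [m]` -/
noncomputable def tp (M E m : ℕ) : Polynomial ℤ :=
  Polynomial.X ^ (M + E + 1 - m) * qn ((Polynomial.X : Polynomial ℤ) ^ 2) m

theorem aeval_tp {v : ℂ} (h0 : v ≠ 0) (h1 : v ^ 2 - 1 ≠ 0) {M E m : ℕ} (hM : m ≤ M) :
    Polynomial.aeval v (tp M E m) = v ^ (M + E) * br v (m : ℤ) := by
  have e1 : Polynomial.aeval v (qn ((Polynomial.X : Polynomial ℤ) ^ 2) m) = qn (v ^ 2) m := by
    unfold qn
    rw [map_sum]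
    simp
  have e2 : qn (v ^ 2) m * (v ^ 2 - 1) = (v ^ 2) ^ m - 1 := geom_sum_mul (v ^ 2) m
  obtain ⟨k, hk⟩ : ∃ k, M + E + 1 - m = k := ⟨_, rfl⟩
  have hk2 : M + E + 1 = k + m := by omega
  unfold tp
  rw [map_mul, map_pow, Polynomial.aeval_X, e1, hk]
  have e3 : v ^ (M + E) * v = v ^ k * v ^ m := by rw [← pow_succ, hk2, pow_add]
  have hA : v ^ m ≠ 0 := pow_ne_zero _ h0
  have e4 : qn (v ^ 2) m = ((v ^ m) ^ 2 - 1) / (v ^ 2 - 1) := by
    rw [eq_div_iff h1, e2, ← pow_mul, ← pow_mul, mul_comm 2 m]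
  have e5 : br v (m : ℤ) = v * (v ^ m - (v ^ m)⁻¹) / (v ^ 2 - 1) := by
    unfold br
    rw [zpow_neg, zpow_natCast]
    have hw : v - v⁻¹ = (v ^ 2 - 1) / v := by
      field_simp
    rw [hw, div_div_eq_mul_div, mul_comm]
  rw [e4, e5, mul_div_assoc', mul_div_assoc', ← mul_assoc, e3]
  congr 1
  field_simp

theorem tp_eq (M E m : ℕ) : tp M E m =
    ∑ i ∈ range m, (Polynomial.X : Polynomial ℤ) ^ (M + E + 1 - m + 2 * i) := by
  unfold tp qn
  rw [mul_sum]
  refine sum_congr rfl fun i _ => ?_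
  rw [← pow_mul, ← pow_add]

theorem tp_nonneg (M E m k : ℕ) : 0 ≤ (tp M E m).coeff k := by
  rw [tp_eq, Polynomial.finsetSum_coeff]
  refine sum_nonneg fun i _ => ?_
  rw [Polynomial.coeff_X_pow]
  split_ifs <;> norm_num

theorem tp_pos {M E m : ℕ} (hm : 1 ≤ m) : 1 ≤ (tp M E m).coeff (M + E + 1 - m) := by
  rw [tp_eq, Polynomial.finsetSum_coeff]
  have h := single_le_sum (s := range m)
    (f := fun i => ((Polynomial.X : Polynomial ℤ) ^ (M + E + 1 - m + 2 * i)).coeff
      (M + E + 1 - m)) (fun i _ => by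
        simp only [Polynomial.coeff_X_pow]
        split_ifs <;> norm_num) (mem_range.mpr hm)
  refine le_trans ?_ h
  simp [Polynomial.coeff_X_pow]

theorem tp_exp {M E m : ℕ} (h1 : m ≤ E + 1) (h2 : (m + 1 + E) % 2 = 0) :
    tp M E m = Polynomial.X ^ M * Polynomial.expand ℤ 2
      (Polynomial.X ^ ((E + 1 - m) / 2) * qn (Polynomial.X : Polynomial ℤ) m) := by
  have e1 : Polynomial.expand ℤ 2 (qn (Polynomial.X : Polynomial ℤ) m) =
      qn ((Polynomial.X : Polynomial ℤ) ^ 2) m := by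
    unfold qn
    rw [map_sum]
    simp
  rw [map_mul, e1, map_pow, Polynomial.expand_X, ← pow_mul, ← mul_assoc, ← pow_add]
  unfold tp
  have e2 : M + E + 1 - m = M + 2 * ((E + 1 - m) / 2) := by omega
  rw [e2]

theorem coeff_sum (s : Multiset ℕ) (f : ℕ → Polynomial ℤ) (k : ℕ) :
    ((s.map f).sum).coeff k = (s.map (fun m => (f m).coeff k)).sum := by
  induction s using Multiset.induction_on with
  | empty => simp
  | cons a s ih => simp only [Multiset.map_cons, Multiset.sum_cons, Polynomial.coeff_add, ih]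

theorem aeval_sum (v : ℂ) (s : Multiset ℕ) (f : ℕ → Polynomial ℤ) (g : ℕ → ℂ) (c : ℂ)
    (h : ∀ m ∈ s, Polynomial.aeval v (f m) = c * g m) :
    Polynomial.aeval v ((s.map f).sum) = c * (s.map g).sum := by
  induction s using Multiset.induction_on with
  | empty => simp
  | cons a s ih =>
    rw [Multiset.map_cons, Multiset.sum_cons, Multiset.map_cons, Multiset.sum_cons, map_add,
      mul_add, h a (Multiset.mem_cons_self a s),
      ih fun m hm => h m (Multiset.mem_cons_of_mem hm)]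

theorem exp_sum (M : ℕ) (s : Multiset ℕ) (f g : ℕ → Polynomial ℤ)
    (h : ∀ m ∈ s, f m = Polynomial.X ^ M * Polynomial.expand ℤ 2 (g m)) :
    (s.map f).sum = Polynomial.X ^ M * Polynomial.expand ℤ 2 ((s.map g).sum) := by
  induction s using Multiset.induction_on with
  | empty => simp
  | cons a s ih =>
    rw [Multiset.map_cons, Multiset.sum_cons, Multiset.map_cons, Multiset.sum_cons, map_add,
      mul_add, h a (Multiset.mem_cons_self a s),
      ih fun m hm => h m (Multiset.mem_cons_of_mem hm)]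

end EXTAux

open EXTAux in
theorem tEXT : S_EXT := by
  intro v hinj E p hp
  have h0 : v ≠ 0 := by
    intro h
    have h2 : Polynomial.aeval v (Polynomial.X : Polynomial ℤ) =
        Polynomial.aeval v (0 : Polynomial ℤ) := by
      rw [Polynomial.aeval_X, map_zero, h]
    exact Polynomial.X_ne_zero (hinj h2)
  have h1 : v ^ 2 - 1 ≠ 0 := by
    intro h
    have h2 : Polynomial.aeval v ((Polynomial.X : Polynomial ℤ) ^ 2 - 1) =
        Polynomial.aeval v (0 : Polynomial ℤ) := by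
      rw [map_sub, map_pow, Polynomial.aeval_X, map_one, map_zero, h]
    have h3 := congrArg (fun r : Polynomial ℤ => r.coeff 2) (hinj h2)
    simp [Polynomial.coeff_X_pow, Polynomial.coeff_one] at h3
  obtain ⟨s, hs, hx⟩ := repr v E _ hp
  obtain ⟨M, hM⟩ : ∃ M, ∀ m ∈ s, m ≤ M := ⟨s.sum, fun m hm => Multiset.le_sum_of_mem hm⟩
  have key : Polynomial.X ^ M * Polynomial.expand ℤ 2 p = (s.map (tp M E)).sum := by
    apply hinj
    rw [aeval_sum v s (tp M E) (fun m : ℕ => br v (m : ℤ)) (v ^ (M + E))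
      (fun m hm => aeval_tp h0 h1 (hM m hm)), ← hx, map_mul, map_pow, Polynomial.aeval_X,
      Polynomial.expand_aeval, ← mul_assoc]
    congr 1
    rw [zpow_neg, zpow_natCast, pow_add, mul_assoc, mul_inv_cancel₀ (pow_ne_zero _ h0), mul_one]
  have hle : ∀ m ∈ s, m ≤ E + 1 := by
    intro m hm
    by_contra hlt
    push Not at hlt
    have h3 := congrArg (fun r : Polynomial ℤ => r.coeff (M + E + 1 - m)) key
    rw [coeff_sum, Polynomial.coeff_X_pow_mul', if_neg (by have := hM m hm; omega)] at h3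
    have h4 : (tp M E m).coeff (M + E + 1 - m) ≤
        (s.map (fun k => (tp M E k).coeff (M + E + 1 - m))).sum := by
      apply Multiset.single_le_sum
      · intro x hx
        obtain ⟨k, _, rfl⟩ := Multiset.mem_map.mp hx
        exact tp_nonneg _ _ _ _
      · exact Multiset.mem_map.mpr ⟨m, hm, rfl⟩
    have h5 := tp_pos (M := M) (E := E) (hs m hm).1
    omega
  have key2 := exp_sum M s (tp M E)
    (fun m => Polynomial.X ^ ((E + 1 - m) / 2) * qn (Polynomial.X : Polynomial ℤ) m)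
    (fun m hm => tp_exp (hle m hm) (hs m hm).2)
  rw [key2] at key
  have key3 := Polynomial.expand_injective (R := ℤ) (n := 2) (by norm_num)
    (mul_left_cancel₀ (pow_ne_zero M Polynomial.X_ne_zero) key)
  rw [key3]
  apply AddSubmonoid.multiset_sum_mem
  intro x hx
  obtain ⟨m, hm, rfl⟩ := Multiset.mem_map.mp hx
  refine AddSubmonoid.subset_closure ⟨(E + 1 - m) / 2, m, ?_, rfl⟩
  have a1 := hle m hm
  have a2 := (hs m hm).2
  omega

end Pool.Agent.LV2
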