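import Pool.Agent.Lib.MP_263316_co.LV2.Spec

/-!
MP_263316_co, project LV2: the first order system.
-/

set_option autoImplicit false

namespace Pool.Agent.LV2

open Finset Pool.Agent.SWC Pool.Agent.SWK Pool.Agent.HOOK

private theorem SYS_le {l : ℕ → ℕ} {n : ℕ} (h : Adm l n) (w : ℕ) (hw : w < n) : l w ≤ w := by
  induction w with
  | zero => exact le_of_eq h.1
  | succ w ih =>
    have h1 := (h.2 w hw).2
    have h2 := ih (by omega)
    omega

private theorem SYS_mono {l : ℕ → ℕ} {n : ℕ} (h : Adm l n) (w w' : ℕ) (hww : w ≤ w')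
    (hw : w' < n) : w - l w ≤ w' - l w' := by
  induction w', hww using Nat.le_induction with
  | base => exact le_rfl
  | succ w' _ ih =>
    have h1 := (h.2 w' hw).2
    have h2 := ih (by omega)
    omega

private theorem SYS_ge {l : ℕ → ℕ} {n r : ℕ} (h : Adm l n) (ht : Tri l r) (w : ℕ)
    (hr : r + 1 ≤ w) (hw : w < n) : r ≤ w - l w := by
  have h1 := SYS_mono h (r + 1) w hr hw
  have h2 := ht.1 (r + 1) (by omega) le_rfl
  omega

theorem tSYS : S_REC → S_ZV → S_SYS := by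
  intro hREC hZV v l n r hv hA hT i hi hin
  obtain ⟨h1, h2, h3, -, h5⟩ := hREC v l i
  have hge : r ≤ i - l i := SYS_ge hA hT i (by omega) hin
  have hle : l i ≤ i := SYS_le hA i hin
  have hpos : 1 ≤ l i := by
    have h6 := (hA.2 (i - 1) (by omega)).1
    rwa [Nat.sub_add_cancel (by omega)] at h6
  have hmi : (i - 1) - l (i - 1) ≤ i - l i := SYS_mono hA (i - 1) i (by omega) hin
  have hD : ∀ b, Dom l r (i + 1) b → b ≤ i → Dom l r i b ∧ Dom l r b (i - l i) := by
    intro b hb hbi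
    obtain ⟨hb1, hb2, hb3⟩ := hb
    rw [Nat.add_sub_cancel] at hb3
    refine ⟨⟨hb1, hbi, hmi.trans hb3⟩, ⟨hge, hb3, ?_⟩⟩
    exact SYS_mono hA (b - 1) i (by omega) hin
  have hDi : Dom l r i i := ⟨by omega, le_rfl, by omega⟩
  have hDp : Dom l r i (i - l i) := ⟨hge, Nat.sub_le _ _, hmi⟩
  have hz : ∀ a b, Dom l r a b → a ≤ i → zp v l i a b = 0 ∧ zn v l i a b = 0 :=
    hZV v l n r hv hA hT i hi hin.le
  refine ⟨fun a b hab ha => ?_, fun b hb hbi => ?_, ?_, fun a => (h5 a).2, hD, hDi, hDp,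
    by omega, hle⟩
  · obtain ⟨-, -, h7, h8⟩ := h1 a b ha
    obtain ⟨h9, h10⟩ := hz a b hab ha
    rw [h9, mul_zero, add_zero] at h7
    rw [h10, mul_zero, add_zero] at h8
    exact ⟨h7, h8⟩
  · obtain ⟨-, -, h7, h8⟩ := h2 b hbi
    obtain ⟨h9, h10⟩ := hz i b (hD b hb hbi).1 le_rfl
    rw [h9, mul_zero, add_zero] at h7
    rw [h10, mul_zero, add_zero] at h8
    exact ⟨h7, h8⟩
  · obtain ⟨-, h7⟩ := h3
    rw [(hz i i hDi le_rfl).1, mul_zero, add_zero] at h7
    exact h7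

end Pool.Agent.LV2
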