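import Pool.Agent.Lib.MP_263316_co.LV2.Def

/-!
MP_263316_co, project LV2 (helper30): all coefficients of `e_μ` with at most one part larger than
TWO, for all natural unit interval graphs. Specification. All definitions are in Def.lean (and
Base.lean, HOOK/Def.lean, SWK/Spec.lean).

NOTATION in the docstrings. `{n} = br v n` for `n ∈ ℤ`, `q = v^2`. `l i` the left degree of the
vertex `i`, `p_i = i - l i`; `K(i;a,b) = (Kp, Kn)` the table; `z` = part of degree 0 in `ω`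
(`zp`, `zn`), `k` = part of degree 1 (`kp`, `kn`); `e1, e2` are `E1, E2 : QQ`, `s1, s2` are
`X 0, X 1 : R2`; `E_i = EL l i` = number of edges of the initial segment with `i` vertices;
`S(i) = kp i i i`.
Identities for `{n}` (all follow from the definition by `field_simp; ring` after writing
`v^(a+b) = v^a v^b` in `ℤ`-powers, `v ≠ 0`, `v ≠ v⁻¹`):
(b1) `{-n} = -{n}`, `{0} = 0`, `{1} = 1`, `{2} = v + v⁻¹`; (b2) `{2} {n} = {n+1} + {n-1}`;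
(b3) `{x} {y} - {x+1} {y-1} = {x-y+1}`; (b4) `{x-1} {y} - {x-2} {y+1} = {y-x+2}`.
-/

set_option autoImplicit false

namespace Pool.Agent.LV2

open Finset Pool.Agent.SWC Pool.Agent.SWK Pool.Agent.HOOK

/-! ## Part G: graphs -/

/-- TASK PSS. `μ = aL m D t`. Every pair `(T, T')` for `insert t D` is one of
(i) a pair for `D` (`t` in neither set), (ii) `(insert t T, T')`, (iii) `(T, insert t T')` with
`(T, T')` a pair for `D`. Write `b1 = aL m T t`, `b2 = aL m T' t`; both are `0` or `1`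
(`HOOK.aL_ind_le`), `b1 = 0` iff `T` is disjoint from `NL m D t` (`HOOK.aL_disj`), and
`aL m ((D \ T) \ T') t = μ - b1 - b2` (`HOOK.aL_add` twice).
(i) `ea (insert t D) T = ea D T + b1`, `ea (insert t D \ T) T' = ea (insert t (D \ T)) T' =
ea (D \ T) T' + b2` (`HOOK.ea_insert`), `wo` gets the factor `qn q (μ-b1-b2) + ω q^(μ-b1-b2)`
(`wo` of `insert t C`, `aL` of the old vertices does not change: `HOOK.aL_insert_lt`,
`aL_insert_self`), and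
`q^(b1+b2) (qn q (μ-b1-b2) + ω q^(μ-b1-b2)) = qn q μ + ω q^μ - b1 - b2 - (q-1) b1 b2`
(`qn q 1 = 1`, `qn q 2 = 1 + q`, `qn q μ = qn q j + q^j qn q (μ-j)`).
(ii) possible iff `b1 = 0` (`HOOK.ind_insert`); `ea (insert t D) (insert t T) = ea D T`, the rest is
`(insert t D) \ (insert t T) = D \ T` (`HOOK.ea_insert_insert`, `insert_sdiff_insert'`); factor `y1`.
(iii) possible iff `b2 = 0`; `ea (insert t D) T = ea D T + b1`, `insert t D \ T = insert t (D \ T)`,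
`ea (insert t (D \ T)) (insert t T') = ea (D \ T) T'`; factor `y2 q^b1`.
Use `Finset.sum_powerset_insert` for both sums. -/
def S_PSS : Prop := ∀ (R : Type) [CommRing R] (m : ℕ → ℕ) (q ω y1 y2 : R) (D : Finset ℕ) (t : ℕ),
  (∀ u ∈ D, u < t) → ∀ c : Finset ℕ → Finset ℕ → R,
  PS m q ω y1 y2 (insert t D) c = PS m q ω y1 y2 D (fun T T' =>
    (qn q (aL m D t) + ω * q ^ aL m D t - (aL m T t : R) - (aL m T' t : R) -
      (q - 1) * (aL m T t : R) * (aL m T' t : R)) * c T T' +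
    (if Disjoint T (NL m D t) then y1 * c (insert t T) T' else 0) +
    (if Disjoint T' (NL m D t) then y2 * q ^ aL m T t * c T (insert t T') else 0))

/-- TASK COMB. From `S_PSS`, comparing the summands for each pair `(T, T')` (`T ⊆ D` stable,
`T' ⊆ D \ T` stable; `b1, b2 ∈ {0, 1}` as in PSS; a sum `PS` is additive and linear in `c`, and
depends only on the values of `c` at these pairs; `t ∉ T, T'`). Write `N = NL m D t`,
`z = qn q μ + ω q^μ`, and `u1 L = cu y1 L T`, `u2 L = cu y2 L T'`, `g L = cb q L T`. For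
`L ⊆ N`: if `b1 = 0` then `T` is disjoint from `L`, so `u1 L = y1` and `g L = 1`; if `b2 = 0` then
`u2 L = y2`. Also `cu y1 (insert t L) T = u1 L`, `cu y1 (insert t L) (insert t T) = -1`,
`cb q (insert t L) T = g L`, `cb q (insert t L) (insert t T) = q`, `c = 1` for `G0`.
`G0`: `z - b1 - b2 - (q-1) b1 b2 + y1 [b1=0] + y2 q^b1 [b2=0] = z + u1 N + g N u2 N`, as
`g N = q^b1`, `u1 N = y1 [b1=0] - b1`, `u2 N = y2 [b2=0] - b2`, `q^b1 b2 = b2 + (q-1) b1 b2`.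
`G1`: `(z - b1 - b2 - (q-1) b1 b2) u1 M - y1 [b1=0] + y2 q^b1 [b2=0] u1 M =
(z - 1) u1 M + u1 M g N u2 N`: the difference is `u1 M (1 - b1) - y1 [b1=0] = 0`.
`G2`: `(z - ..) g M u2 M + y1 [b1=0] q u2 M - y2 q^b1 [b2=0] g M = (z-1) g M u2 M + q g M u2 M u1 N`.
`G12`: `(z - ..) u1 L g M u2 M - y1 [b1=0] q u2 M - y2 q^b1 [b2=0] u1 L g M =
(z - 1 - q) u1 L g M u2 M`. `G21`: the same with `g L u2 L u1 M`.
In each case check the four cases `b1, b2 ∈ {0, 1}` (all were verified). The last line: the empty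
set is disjoint from everything (`cu y1 ∅ T = y1`, `cb q ∅ T = 1`); for `D = ∅` the only pair is
`(∅, ∅)` with weight 1. -/
def S_COMB : Prop := ∀ (R : Type) [CommRing R] (m : ℕ → ℕ) (q ω y1 y2 : R),
  (∀ (D : Finset ℕ) (t : ℕ), (∀ u ∈ D, u < t) → ∀ L M : Finset ℕ, L ⊆ NL m D t → M ⊆ NL m D t →
    G0 m q ω y1 y2 (insert t D) = (qn q (aL m D t) + ω * q ^ aL m D t) * G0 m q ω y1 y2 D +
      G1 m q ω y1 y2 D (NL m D t) + G2 m q ω y1 y2 D (NL m D t) ∧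
    G1 m q ω y1 y2 (insert t D) (insert t M) =
      (qn q (aL m D t) + ω * q ^ aL m D t - 1) * G1 m q ω y1 y2 D M +
        G12 m q ω y1 y2 D M (NL m D t) ∧
    G2 m q ω y1 y2 (insert t D) (insert t M) =
      (qn q (aL m D t) + ω * q ^ aL m D t - 1) * G2 m q ω y1 y2 D M +
        q * G21 m q ω y1 y2 D M (NL m D t) ∧
    G12 m q ω y1 y2 (insert t D) (insert t L) (insert t M) =
      (qn q (aL m D t) + ω * q ^ aL m D t - 1 - q) * G12 m q ω y1 y2 D L M ∧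
    G21 m q ω y1 y2 (insert t D) (insert t L) (insert t M) =
      (qn q (aL m D t) + ω * q ^ aL m D t - 1 - q) * G21 m q ω y1 y2 D L M) ∧
  (∀ D M : Finset ℕ, G12 m q ω y1 y2 D ∅ M = y1 * G2 m q ω y1 y2 D M ∧
    G21 m q ω y1 y2 D ∅ M = y2 * G1 m q ω y1 y2 D M ∧
    G1 m q ω y1 y2 D ∅ = y1 * G0 m q ω y1 y2 D ∧ G2 m q ω y1 y2 D ∅ = y2 * G0 m q ω y1 y2 D) ∧
  G0 m q ω y1 y2 ∅ = 1

/-- TASK LINK. Induction on `i` (all statements together, for all `a`, `b`). Let `l = ld g i`,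
`p = i - l`; `range (i+1) = insert i (range i)`; for `0 < i` `NL g (range i) i = Ico p i` and
`1 ≤ l` (`HOOK.NL_range`), for `i = 0` `l = 0` and `NL = ∅ = Ico 0 0`; `aL g (range i) i = l`;
`Ico b (i+1) = insert i (Ico b i)` for `b ≤ i`; `En g (i+1) = En g i + l`. The first neighbours are
increasing: `(i-1) - ld g (i-1) ≤ i - l` (`g` monotone), so the condition at `i+1` (`p ≤ b`) implies
the one at `i`, and `Ico b i ⊆ NL`. In `R`: with `z = qn q l + ω q^l`, `q = v^2`: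
`z = v^(l-1) bz(l)`, `z - 1 = v^l bz(l-1)`, `z - 1 - q = v^(l+1) bz(l-2)`
(from `qn q l = v^(l-1) {l}`, `{l} v^(l-1) - 1 = v^l {l-1}`, `v^l {l-1} - v^2 = v^(l+1) {l-2}`).
Use `S_COMB`. `G0`: `v (y1+y2) = e1`, `v (1+v^2) y1 y2 = {2} e2`.
`G1(i+1; Ico b (i+1))`, `b ≤ i`: `(z-1) G1(i; Ico b i) + G12(i; Ico b i, Ico p i)`, and
`G12(i; Ico b i, Ico p i) = v^(E_i+i-b-p+1) y1 (y2 Kp + v^2 y1 y2 Kn)(i;b,p)` with `i - p = l`,
`v^2 y1 y2 = e2`: the sum is `v^(E_(i+1)-b+1) [y1 (bz(l-1) Kp(i;i,b) + e2 Kn(i;b,p)) +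
y1 y2 (bz(l-1) Kn(i;i,b) + Kp(i;b,p))]`, the entries of `K(i+1;i+1,b)`. `G2` the same
(`q G21 = v^(E_(i+1)-b+1) (v^2 y1 y2 Kp + y2 e2 Kn)(i;b,p)`).
`G1(i+1;∅) = y1 G0`, `G2(i+1;∅) = y2 G0` (`K(i+1;i+1,i+1).2 = 0`).
`G12, G21` for `a ≤ i`: factor `z-1-q = v^(l+1) bz(l-2)`. For `a = i+1`: `Ico a (i+1) = ∅`,
`G12(∅, M) = y1 G2(M)`, `G21(∅, M) = y2 G1(M)`. Base `i = 0`: all sums from `G0 ∅ = 1`,
`K 0 = (v⁻¹, 0)`. -/
def S_LINK : Prop := ∀ (R : Type) [CommRing R] [Algebra ℂ R] (v : ℂ), v ≠ 0 → v ^ 2 ≠ 1 →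
  ∀ (g : ℕ → ℕ), Monotone g → ∀ n : ℕ, Cn g n → ∀ (ω y1 y2 q e1 e2 : R),
  q = algebraMap ℂ R (v ^ 2) → e1 = algebraMap ℂ R v * (y1 + y2) →
  e2 = algebraMap ℂ R (v ^ 2) * (y1 * y2) → ∀ i : ℕ, i ≤ n →
  G0 g q ω y1 y2 (range i) = algebraMap ℂ R (v ^ ((En g i : ℤ) + 1 - i)) *
    (K v e1 e2 ω (ld g) i i i).1 ∧
  (∀ b, b ≤ i → (i - 1) - ld g (i - 1) ≤ b →
    G1 g q ω y1 y2 (range i) (Ico b i) = algebraMap ℂ R (v ^ ((En g i : ℤ) - b + 1)) *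
      (y1 * (K v e1 e2 ω (ld g) i i b).1 + y1 * y2 * (K v e1 e2 ω (ld g) i i b).2) ∧
    G2 g q ω y1 y2 (range i) (Ico b i) = algebraMap ℂ R (v ^ ((En g i : ℤ) - b + 1)) *
      (y2 * (K v e1 e2 ω (ld g) i i b).1 + q * y1 * y2 * (K v e1 e2 ω (ld g) i i b).2) ∧
    ∀ a, b ≤ a → a ≤ i →
      G12 g q ω y1 y2 (range i) (Ico a i) (Ico b i) =
        algebraMap ℂ R (v ^ ((En g i : ℤ) + i - a - b + 1)) * (y1 *
          (y2 * (K v e1 e2 ω (ld g) i a b).1 + q * y1 * y2 * (K v e1 e2 ω (ld g) i a b).2)) ∧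
      G21 g q ω y1 y2 (range i) (Ico a i) (Ico b i) =
        algebraMap ℂ R (v ^ ((En g i : ℤ) + i - a - b + 1)) * (y2 *
          (y1 * (K v e1 e2 ω (ld g) i a b).1 + y1 * y2 * (K v e1 e2 ω (ld g) i a b).2)))

/-- TASK SK. `R' = Polynomial (Polynomial ℂ)` (outer variable `ω = X`, inner variable `X`),
`y1 = C (C (α / v) * X)`, `y2 = C (C (β / v) * X)`; then `e1 = C (C (α+β) * X)`,
`e2 = C (C (α β) * X^2)` in `S_LINK` (`G0`, `i = n`).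
(a) For a ring homomorphism `φ` over `ℂ` (an `AlgHom ℂ`), `φ` of the components of
`K v e1 e2 ω l i a b` are those of `K v (φ e1) (φ e2) (φ ω) l i a b` (induction on `i`). Take `φ :
Polynomial QQ → R'` the map on coefficients of `QQ → Polynomial ℂ`, the map on coefficients of
`MvPolynomial.aeval ![α+β, α β] : R2 → ℂ` (`Polynomial.mapAlgHom`). So the coefficient of `ω^1 X^k` of
`K(n;n,n).1` over `R'` is `eval ((SF v (ld g) n).coeff k)`.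
(b) In `G0` (the plain sum over pairs `(T, T')`), the coefficient of `ω^1` of `wo g q ω C`,
`C = (D \ T) \ T'`, is `Pm g q C` if `C ≠ ∅` (the factor of the minimum of `C` is
`qn q 0 + ω q^0 = ω`, the other factors have the constant coefficient `qn q (aL g C v)`; compare
`HOOK.Pm_eq`, `aL_min`), and `0` if `C = ∅` (`wo = 1`). The weight `y1^|T| y2^|T'|` is
`C (C (α^|T| β^|T'| v^(-|T|-|T'|)) X^(|T|+|T'|))`. So the coefficient of `ω^1 X^k` of `G0` is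
`v^(-k) s2k(k)` if `k < n` (then `C ≠ ∅` as `|C| = n - k`), and `0` if `k ≥ n` (then `C = ∅`).
With `q = C (C (v^2))`. Compare coefficients and multiply by `v^k`. -/
def S_SK : Prop := ∀ v : ℂ, Gen v → ∀ (g : ℕ → ℕ), Monotone g → ∀ n : ℕ, Cn g n →
  ∀ (α β : ℂ) (k : ℕ),
  (if k < n then s2k g (v ^ 2) α β (range n) k else 0) =
    v ^ ((En g n : ℤ) + 1 - n + k) *
      MvPolynomial.eval ![α + β, α * β] ((SF v (ld g) n).coeff k)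

/-! ## Part F: symmetric functions -/

/-- TASK XR. `S_SPL` twice (`yal` is a double `Fin.cons`): `XX = ∑_T (α X)^|T| q^(ea U T)
∑_(T' ⊆ U \ T) (β X)^|T'| q^(ea (U \ T) T') XX(x; (U \ T) \ T')` with
`XX g (C q) (C ∘ x) V = C (XX g q x V)` (`Z_map`, compare `coeff_XX` in HOOK/REL.lean). Coefficient of
`X^k`: the pairs with `|T| + |T'| = k`; then `|V| = m`, `V = (U \ T) \ T'`, and `HOOK.onepart`
gives `XX g q x V = qn q m * Pm g q V * (-1)`. -/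
def S_XR : Prop := ∀ (g : ℕ → ℕ), Monotone g → ∀ (q : ℂ), q ≠ 0 → q ≠ 1 →
  ∀ (N : ℕ) (x : Fin N → ℂ) (m : ℕ), 1 ≤ m →
  (∀ d, es x d = if d = 0 then 1 else if d = m then -1 else 0) →
  ∀ (U : Finset ℕ) (k : ℕ), U.card = m + k → ∀ α β : ℂ,
  (XX g (Polynomial.C q) (yal α β x) U).coeff k = - (qn q m * s2k g q α β U k)

/-- TASK PART3. The product over the parts of `μ` is zero unless all parts are in
`{1, 2, m, m+1, m+2}`; let `j` be the number of parts in `{m, m+1, m+2}`. A part `d ≤ 2` contributes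
`s_d X^d`, a part `m + i` contributes `-s_i X^i` (`s_0 = 1`), so the product is a constant times
`X^(n - j m)`; for the coefficient of `X^k`, `k = n - m`, only `j = 1` counts (`m ≥ 3`): these are
the partitions `lvP n (m+i) b`, `i = 0, 1, 2`, `b ≥ 0`, with product
`- s_i s1^(n-m-i-2b) s2^b X^k`. Suggested: show for a multiset `λ` with entries in
`{1, 2, m, m+1, m+2}` the form `replicate x 1 + replicate b 2 + replicate c0 m + ...`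
(compare `HOOK.parts_prod`, `hook_sum` in HOOK/ALPH.lean). -/
def S_PART3 : Prop := ∀ (n m k : ℕ), 3 ≤ m → n = m + k → ∀ (s1 s2 : ℂ) (F : ℕ → Polynomial ℂ),
  F 1 = Polynomial.C s1 * Polynomial.X → F 2 = Polynomial.C s2 * Polynomial.X ^ 2 → F m = -1 →
  F (m + 1) = -(Polynomial.C s1 * Polynomial.X) →
  F (m + 2) = -(Polynomial.C s2 * Polynomial.X ^ 2) →
  (∀ d, 0 < d → d ≠ 1 → d ≠ 2 → d ≠ m → d ≠ m + 1 → d ≠ m + 2 → F d = 0) →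
  ∀ a : n.Partition → ℂ,
  (∑ μ : n.Partition, Polynomial.C (a μ) * (μ.parts.map F).prod).coeff k =
    -(AA n a m s1 s2 + s1 * AA n a (m + 1) s1 s2 + s2 * AA n a (m + 2) s1 s2)

/-- TASK REL3. As `hook_rel` in HOOK/REL.lean. `N = N' + 2`, `k = n - m`, `x : Fin N' → ℂ` from
`HOOK.exists_alph N' m` (`m ≤ n ≤ N'`). The image of the expansion of `XX` under `AN N → Polynomial ℂ`,
`qq N ↦ C q`, `xx N ↦ yal α β x` (`eval_XX` in HOOK/REL.lean is private: copy it), is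
`∑ C (a' μ) ∏ es (yal α β x)`, and `es (yal α β x) d = C (es x d) + C (α+β) X C (es x (d-1)) +
C (αβ) X^2 C (es x (d-2))` (`S_ESZ` twice), so `F = es (yal α β x)` satisfies the hypotheses of
`S_PART3` with `s1 = α+β`, `s2 = αβ` (`m ≥ 3`). Compare with `S_XR`. -/
def S_REL3 : Prop := ∀ (g : ℕ → ℕ), Monotone g → ∀ (N n : ℕ) (U : Finset ℕ), U.card = n →
  n + 2 ≤ N → ∀ (a : n.Partition → Polynomial ℤ),
  XX g (qq N) (xx N) U = ∑ μ : n.Partition, MvPolynomial.C (a μ) *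
    (μ.parts.map (es (xx N))).prod →
  ∀ (q : ℂ), q ≠ 0 → q ≠ 1 → ∀ m, 3 ≤ m → m ≤ n → ∀ α β : ℂ,
  AA n (fun μ => Polynomial.aeval q (a μ)) m (α + β) (α * β) +
    (α + β) * AA n (fun μ => Polynomial.aeval q (a μ)) (m + 1) (α + β) (α * β) +
    α * β * AA n (fun μ => Polynomial.aeval q (a μ)) (m + 2) (α + β) (α * β) =
  qn q m * s2k g q α β U (n - m)

/-- TASK TWO. Evaluate at the alphabet `α, β, 0, ..., 0 : Fin N → ℂ`. By `S_SPL` twice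
`XX = ∑_(T, T') α^|T| β^|T'| q^.. XX(0; (U \ T) \ T')`, and `XX` at the zero alphabet is 0 for a
nonempty set (`Z_vertex` / `Z_zero` in Base.lean, or `S_ESZ` part 3 after removing the letters one by
one) ; if `(U \ T) \ T' = ∅` then `U = T ∪ T'` with `T`, `T'` stable: impossible for a triangle
`x < y < z ≤ g x` (`z ≤ g x ≤ g y`, `y ≤ g x`; two of the three vertices are in the same stable
set). So `XX = 0`. Partition side: `es` of the alphabet is `1, α+β, αβ, 0, ...`, so the sum is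
`∑_b a'(twP n b) (α+β)^(n-2b) (αβ)^b = 0` for all `α, β`. For every `s ∈ ℂ` there are `α, β` with
`α + β = 1`, `αβ = s` (square root of `1 - 4 s`), so the polynomial `∑_b a'(twP n b) X^b` vanishes
identically (`Polynomial.funext`), and all `a'(twP n b) = 0`. (`a' μ = aeval q (a μ)`.) -/
def S_TWO : Prop := ∀ (g : ℕ → ℕ), Monotone g → ∀ (N n : ℕ) (U : Finset ℕ), U.card = n →
  n + 2 ≤ N → (∃ x ∈ U, ∃ y ∈ U, ∃ z ∈ U, x < y ∧ y < z ∧ z ≤ g x) →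
  ∀ (a : n.Partition → Polynomial ℤ),
  XX g (qq N) (xx N) U = ∑ μ : n.Partition, MvPolynomial.C (a μ) *
    (μ.parts.map (es (xx N))).prod →
  ∀ (q : ℂ) (b : ℕ) (h : 2 * b ≤ n), Polynomial.aeval q (a (twP n b h)) = 0

/-- TASK REAL. `g u = ((range n).filter (fun v => v - l v ≤ u)).sup id`; monotone (the filter
grows). `l j ≤ j` for `j < n`, and `v - l v` is nondecreasing for `v < n` (`l (v+1) ≤ l v + 1`). For
`u < v < n`: `v ≤ g u` iff `v - l v ≤ u` (if `v ≤ g u`, `0 < v`, then some `w` in the filter has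
`v ≤ w`). So `ld g j = #{u < j : j - l j ≤ u} = l j`. -/
def S_REAL : Prop := ∀ (l : ℕ → ℕ) (n : ℕ), Adm l n → ∃ g : ℕ → ℕ, Monotone g ∧
  (∀ j, j < n → ld g j = l j) ∧ Cn g n

/-- TASK ADM. `HOOK.NL_range`: for `0 < w < n` the left neighbours of `w` are
`Ico (w - ld g w) w` and `1 ≤ ld g w`. `ld g (j+1) ≤ ld g j + 1`: the left neighbours of `j+1` other
than `j` are left neighbours of `j`. `EL (ld g) n = eE g (range n)`: compare `HOOK.eE_Ez`. -/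
def S_ADM : Prop := ∀ (g : ℕ → ℕ), Monotone g → ∀ n : ℕ, Cn g n → Adm (ld g) n ∧
  (∀ u w, u < w → w < n → (w ≤ g u ↔ w - ld g w ≤ u)) ∧ EL (ld g) n = eE g (range n) ∧
  En g n = EL (ld g) n

/-- TASK KC. Induction on `i` for all `a`, `b` (unfold `K` once). -/
def S_KC : Prop := ∀ (R : Type) [CommRing R] [Algebra ℂ R] (v : ℂ) (e1 e2 ω : R)
  (l l' : ℕ → ℕ) (i : ℕ), (∀ j, j < i → l j = l' j) → ∀ a b,
  K v e1 e2 ω l i a b = K v e1 e2 ω l' i a b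

/-- TASK REVG (reversed graph). `g` from `S_REAL`, `M = n - 1`, `g'` from `S_REVm`,
`S_REVX` with `U = range n` (`(range n).image (fun u => M - u) = range n`). For `u < v < n`:
`v ≤ g' u` iff `M - u ≤ g (M - v)` iff `(M - u) - l (M - u) ≤ M - v` (`S_ADM`). So
`ld g' j = #{u < j : M - u ≤ g (M - j)} = rv n l j` (`w = M - u` runs over `M - j < w ≤ M`).
`Cn g' n`: `j ≤ g' (j-1)` iff `M - j + 1 ≤ g (M - j)`. `Adm (rv n l) n` from `S_ADM` for `g'` (only the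
values at `j < n` matter), `EL` is the number of edges (`eE`, third part of `S_REVX` and `S_ADM`). -/
def S_REVG : Prop := ∀ (l : ℕ → ℕ) (n : ℕ), 1 ≤ n → Adm l n → Adm (rv n l) n ∧
  EL (rv n l) n = EL l n ∧ ∃ g g' : ℕ → ℕ, Monotone g ∧ Monotone g' ∧ Cn g n ∧ Cn g' n ∧
  (∀ j, j < n → ld g j = l j) ∧ (∀ j, j < n → ld g' j = rv n l j) ∧
  ∀ (R : Type) [CommRing R] (N : ℕ) (q : R) (x : Fin N → R),
    XX g' q (fun k => x (Fin.rev k)) (range n) = XX g q x (range n)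

/-- TASK REVL. Graphs from `S_REVG`. Let `q = v^2` (`≠ 0, 1`), `k < n`, `m = n - k ≥ 1`, `x : Fin m → ℂ`
from `HOOK.exists_alph m m`. For every alphabet `y` over `Polynomial ℂ`:
`XX g' (C q) (y ∘ rev) = XX g' (C q) y`, since the values at every `t ∈ ℂ` agree
(`Polynomial.funext`, `Z_map`, `HOOK.XX_perm` with `σ = Fin.revPerm` over the field `ℂ`). Hence
`XX g' (C q) y = XX g (C q) y` for `y = yal α β x`, and `S_XR` for both graphs gives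
`qn q m * s2k g' = qn q m * s2k g`; `qn q m ≠ 0` because `(q - 1) qn q m = q^m - 1 = v^(2m) - 1 ≠ 0`.
So the left-hand sides of `S_SK` agree for `g` and `g'` for all `k` (zero for `k ≥ n`), the powers
of `v` too (`En`, `EL` by `S_ADM`, equal), hence `eval ![α+β, αβ]` of the coefficients of
`SF v (ld g') n` and `SF v (ld g) n` agree for all `α, β`. Every `(s1, s2)` is of the form
`(α+β, αβ)` (square root of `s1^2 - 4 s2`), so the coefficients agree (`MvPolynomial.funext`).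
`SF v (ld g) n = SF v l n` by `S_KC` (`SF = kp n n n` depends only on `K (n) n n`). -/
def S_REVL : Prop := ∀ v : ℂ, Gen v → ∀ (l : ℕ → ℕ) (n : ℕ), 1 ≤ n → Adm l n →
  Adm (rv n l) n ∧ EL (rv n l) n = EL l n ∧ SF v (rv n l) n = SF v l n

/-- TASK RVC (combinatorics of `rv`). `w - l w` is nondecreasing for `w < n` and `l w ≥ 1` for
`0 < w < n`. (1) `n = c + 2`, `l c = 1`, `l (c+1) = 2`, triangle `r, r+1, r+2`, `r + 3 ≤ c`:
`rv 0 = 0`, `rv 1 = 1` (`w = n-1`), `rv 2 = 2` (`w ∈ {c, c+1}`, both have first neighbour `c - 1`),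
`rv 3 = 1` (`w = c - 1` counts, `w = c, c+1` do not), and `rv j ≥ 2` for `j = n - 1 - r` (`w = r+1` and
`w = r+2` have first neighbour `r`), `3 < j < n`.
(2) `Tri l r`, `2 ≤ r`, `r + 2 < n`: `rv (n-1) = #{w > 0 : w - l w ≤ 0} = 1` (`w = 1` only, the first
neighbours of `2, 3, ...` are at least `1`), `rv (n-2) = #{w > 1 : w - l w ≤ 1} = 1` (`w = 2` only, as
`l 3 = 1`), and `rv (n-1-r) ≥ 2`. -/
def S_RVC : Prop := ∀ (l : ℕ → ℕ) (n r : ℕ), Adm l n → Tri l r → r + 2 < n →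
  (∀ c, n = c + 2 → r + 3 ≤ c → l c = 1 → l (c + 1) = 2 → rv n l 0 = 0 ∧ rv n l 1 = 1 ∧
    rv n l 2 = 2 ∧ rv n l 3 = 1 ∧ ∃ j, 3 < j ∧ j < n ∧ 2 ≤ rv n l j) ∧
  (2 ≤ r → rv n l (n - 1) = 1 ∧ rv n l (n - 2) = 1 ∧ ∃ j, j < n ∧ 2 ≤ rv n l j)

/-- TASK TRIE. The first `j` with `2 ≤ l j`: `j ≥ 2` (`l 0 = 0`, `l 1 ≤ 1`), `l j ≤ l (j-1) + 1 = 2`,
`l i = 1` for `1 ≤ i < j`; `r = j - 2`. -/
def S_TRIE : Prop := ∀ (l : ℕ → ℕ) (n : ℕ), Adm l n → (∃ j, j < n ∧ 2 ≤ l j) →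
  ∃ r, r + 2 < n ∧ Tri l r

/-- TASK EXT. `X`-injective: `v` transcendental. (1) Every `x ∈ SC v E` is
`∑_(m ∈ s) {m}` for a multiset `s` of positive numbers `m` with `m + 1 + E` even (closure induction;
`{0} = 0`). (2) Choose `M` with `M ≥ m` for all `m ∈ s`. `v^(M+E) {m} = aeval v (X^(M+E+1-m)
(1 + X^2 + ... + X^(2(m-1))))` (`{m} = v^(1-m) (1 + v^2 + ... + v^(2m-2))`). Multiplying the
hypothesis by `v^(M+E)` gives the identity of integer polynomials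
`X^M p(X^2) = ∑_(m ∈ s) X^(M+E+1-m) qn (X^2) m` (`p(X^2) = p.comp (X^2)` or `expand 2`).
(3) All `m ∈ s` satisfy `m ≤ E + 1`: otherwise take the largest `m > E + 1` in `s`; the
coefficient of `X^(M+E+1-m)`, `M+E+1-m < M`, is positive on the right (all terms are nonnegative) and
zero on the left. (4) So `m = E + 1 - 2 i`, `X^(M+E+1-m) = X^M X^(2i)`, cancel `X^M` and compare:
`p(X^2) = ∑ (X^2)^i qn (X^2) m`, so `p = ∑ X^i qn X m ∈ PU E`. -/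
def S_EXT : Prop := ∀ v : ℂ, Function.Injective (Polynomial.aeval v : Polynomial ℤ → ℂ) →
  ∀ (E : ℕ) (p : Polynomial ℤ), v ^ (-(E : ℤ)) * Polynomial.aeval (v ^ 2) p ∈ SC v E → p ∈ PU E

/-- TASK CLS. Split `μ.parts` in the parts `≥ 3` (none or one, `m`), the parts equal to 2 (`b`) and
the parts equal to 1; the number of ones is determined by the sum. (Compare `HOOK.big_le` in
HOOK/CONN.lean.) -/
def S_CLS : Prop := ∀ (n : ℕ) (μ : n.Partition), big3 μ.parts ≤ 1 →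
  (∃ (b : ℕ) (h : 2 * b ≤ n), μ = twP n b h) ∨
  ∃ (m b : ℕ) (_ : 3 ≤ m) (h1 : 1 ≤ m) (h2 : m + 2 * b ≤ n), μ = lvP n m b h1 h2

/-- TASK AUQ. Let `A` be as in `Pos`. (1) For `m ≥ 3` and all `s1, s2`:
`eval ![s1, s2] (A m) = AA n a m s1 s2`, by downward induction on `m` (for `m > n` both are 0: the
condition in `AA` fails; step: both satisfy the same relation, evaluate the one of `A`). (2) Hence
`A m = ∑_b C (a (lvP n m b)) X0^(n-m-2b) X1^b` (sum over `b` with `m + 2b ≤ n`; `MvPolynomial.funext`),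
and the coefficient of `X0^(n-m-2b) X1^b` is `a (lvP n m b)` (different `b` give different
monomials). (3) The coefficients of an element of `C2 v d` are in `SC v d` (closure induction: a
generator has one coefficient `{m}`). -/
def S_AUQ : Prop := ∀ (v : ℂ) (n d : ℕ) (s : QQ), Pos v n d s → ∀ a : n.Partition → ℂ,
  (∀ m, 3 ≤ m → m ≤ n → ∀ s1 s2 : ℂ, AA n a m s1 s2 + s1 * AA n a (m + 1) s1 s2 +
    s2 * AA n a (m + 2) s1 s2 = br v m * MvPolynomial.eval ![s1, s2] (s.coeff (n - m))) →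
  ∀ (m b : ℕ) (_ : 3 ≤ m) (h1 : 1 ≤ m) (h2 : m + 2 * b ≤ n), a (lvP n m b h1 h2) ∈ SC v d

/-! ## Part K: the first order system -/

/-- TASK REC. `KF v l i a b = K v (C E1) (C E2) X l i a b`; unfold `K` once, `bz v X m =
C (cc {m}) + C (cc (v^(m+1))) * X` (the algebra map of `ℂ` into `Polynomial QQ` is `C ∘ cc`), and take
the coefficients 0 and 1 (`Polynomial.mul_coeff_zero`, `coeff_C_mul`, `coeff_X_mul`, ...). Last
part: induction on `i` (`K (i+1) a a` is in the first or in the third case). -/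
def S_REC : Prop := ∀ (v : ℂ) (l : ℕ → ℕ) (i : ℕ),
  (∀ a b, a ≤ i →
    zp v l (i + 1) a b = cc (br v ((l i : ℤ) - 2)) * zp v l i a b ∧
    zn v l (i + 1) a b = cc (br v ((l i : ℤ) - 2)) * zn v l i a b ∧
    kp v l (i + 1) a b = cc (br v ((l i : ℤ) - 2)) * kp v l i a b +
      cc (v ^ ((l i : ℤ) - 1)) * zp v l i a b ∧
    kn v l (i + 1) a b = cc (br v ((l i : ℤ) - 2)) * kn v l i a b +
      cc (v ^ ((l i : ℤ) - 1)) * zn v l i a b) ∧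
  (∀ b, b ≤ i →
    zp v l (i + 1) (i + 1) b = cc (br v ((l i : ℤ) - 1)) * zp v l i i b +
      E2 * zn v l i b (i - l i) ∧
    zn v l (i + 1) (i + 1) b = cc (br v ((l i : ℤ) - 1)) * zn v l i i b +
      zp v l i b (i - l i) ∧
    kp v l (i + 1) (i + 1) b = cc (br v ((l i : ℤ) - 1)) * kp v l i i b +
      cc (v ^ (l i : ℤ)) * zp v l i i b + E2 * kn v l i b (i - l i) ∧
    kn v l (i + 1) (i + 1) b = cc (br v ((l i : ℤ) - 1)) * kn v l i i b +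
      cc (v ^ (l i : ℤ)) * zn v l i i b + kp v l i b (i - l i)) ∧
  (zp v l (i + 1) (i + 1) (i + 1) = cc (br v (l i : ℤ)) * zp v l i i i +
      E1 * zp v l i i (i - l i) + cc (br v 2) * E2 * zn v l i i (i - l i) ∧
    kp v l (i + 1) (i + 1) (i + 1) = cc (br v (l i : ℤ)) * kp v l i i i +
      cc (v ^ ((l i : ℤ) + 1)) * zp v l i i i +
      E1 * kp v l i i (i - l i) + cc (br v 2) * E2 * kn v l i i (i - l i)) ∧
  (∀ a b, zp v l 0 a b = cc v⁻¹ ∧ zn v l 0 a b = 0 ∧ kp v l 0 a b = 0 ∧ kn v l 0 a b = 0) ∧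
  (∀ a, zn v l i a a = 0 ∧ kn v l i a a = 0)

/-- TASK ZV (the zeroth order parts vanish). Let `l j = 1` for `1 ≤ j ≤ r+1`.
(1) Path: `T(j) := zp(j;j,j) + e1 zp(j;j,j-1) + {2} e2 zn(j;j,j-1) + e2 zp(j;j-1,j-1) = 0` for
`1 ≤ j ≤ r+2`. `j = 1`: `zp(1;1,1) = e1 v⁻¹`, `zp(1;1,0) = -v⁻¹`, `zn(1;1,0) = v⁻¹`,
`zp(1;0,0) = -{2} v⁻¹` (`l 0 = 0`). Step (`l j = 1`, `{1} = 1`, `{0} = 0`, `{-1} = -1`):
`zp(j+1;j+1,j+1) = zp(j;j,j) + e1 zp(j;j,j-1) + {2} e2 zn(j;j,j-1)`, `zp(j+1;j+1,j) = e2 zn(j;j,j-1)`,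
`zn(j+1;j+1,j) = zp(j;j,j-1)`, `zp(j+1;j,j) = -zp(j;j,j)`; so `T(j+1) - T(j) = e2 (e1 zn(j;j,j-1) +
{2} zp(j;j,j-1) - zp(j;j,j) - zp(j;j-1,j-1))`, and this is 0 by the identity
(ID0) `zp(d;d,d) = {2} zp(d;d,d-1) + e1 zn(d;d,d-1) - zp(d;d-1,d-1)` (`d ≥ 1`), which follows from
`S_REC` and `{2}{l-1} = {l} + {l-2}`, `zn(i;i,i) = 0`.
(2) `i = r + 3` (`l (r+2) = 2`, first neighbour `r`): for `a ≤ r+2` the factor is `{0} = 0`. For
`a = r+3` put `i = r+2`, `j = r+1`; the values needed are (`{1} = 1`)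
`zp(i;i,b) + e2 zn(i;b,r)` and `zn(i;i,b) + zp(i;b,r)` for `b = r, r+1, r+2`, which vanish because
`zp(i;i,i-2) = e2 zn(j;j-1,j-1) = 0`, `zn(i;i,i-2) = zp(j;j-1,j-1) = -zp(i;i-2,i-2)`,
`zp(i;i,i-1) = e2 zn(j;j,j-1) = -e2 zn(i;i-1,i-2)`, `zn(i;i,i-1) = zp(j;j,j-1) = -zp(i;i-1,i-2)`,
`zn(i;a,a) = 0`, and `zp(i;i,i) = -e2 zn(i;i,i-2)` which is `T(j) = 0`. Finally `a = b = r+3`:
`{2} zp(i;i,i) + e1 zp(i;i,r) + {2} e2 zn(i;i,r) = 0` by the same values.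
(3) Induction on `i ≥ r+3` with `S_REC`, using: `w - l w` is nondecreasing for `w < n` and `≥ r` for
`r + 1 ≤ w`; so `Dom` at `(i+1, b)`, `b ≤ i`, gives `Dom` at `(i, b)`, `(b, p_i)`, and
`(i, p_i)`, `(i, i)` are in `Dom`. -/
def S_ZV : Prop := ∀ (v : ℂ) (l : ℕ → ℕ) (n r : ℕ), Gen v → Adm l n → Tri l r →
  ∀ i, r + 3 ≤ i → i ≤ n → ∀ a b, Dom l r a b → a ≤ i → zp v l i a b = 0 ∧ zn v l i a b = 0

/-- TASK SYS. `S_REC` and `S_ZV`. Facts on `Dom` for `r + 3 ≤ i < n` (`w - l w` is nondecreasing for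
`w < n`, and `r ≤ w - l w` for `r + 1 ≤ w < n` since it is `r` for `w = r+1`): `Dom l r (i+1) b`, `b ≤ i`
imply `Dom l r i b` and `Dom l r b (i - l i)`; `Dom l r i i`, `Dom l r i (i - l i)` hold. These four
facts are also part of the statement. -/
def S_SYS : Prop := ∀ (v : ℂ) (l : ℕ → ℕ) (n r : ℕ), Gen v → Adm l n → Tri l r →
  ∀ i, r + 3 ≤ i → i < n →
  (∀ a b, Dom l r a b → a ≤ i →
    kp v l (i + 1) a b = cc (br v ((l i : ℤ) - 2)) * kp v l i a b ∧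
    kn v l (i + 1) a b = cc (br v ((l i : ℤ) - 2)) * kn v l i a b) ∧
  (∀ b, Dom l r (i + 1) b → b ≤ i →
    kp v l (i + 1) (i + 1) b = cc (br v ((l i : ℤ) - 1)) * kp v l i i b +
      E2 * kn v l i b (i - l i) ∧
    kn v l (i + 1) (i + 1) b = cc (br v ((l i : ℤ) - 1)) * kn v l i i b +
      kp v l i b (i - l i)) ∧
  kp v l (i + 1) (i + 1) (i + 1) = cc (br v (l i : ℤ)) * kp v l i i i +
    E1 * kp v l i i (i - l i) + cc (br v 2) * E2 * kn v l i i (i - l i) ∧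
  (∀ a, kn v l i a a = 0) ∧
  (∀ b, Dom l r (i + 1) b → b ≤ i → Dom l r i b ∧ Dom l r b (i - l i)) ∧
  Dom l r i i ∧ Dom l r i (i - l i) ∧ i - l i < i ∧ l i ≤ i

/-- TASK ID. `l = l i`; by `S_REC` (with `zn(i;i,i) = kn(i;i,i) = 0`) the right-hand side is
`({2}{l-1} - {l-2}) kp(i;i,i) + ({2} v^l - v^(l-1)) zp(i;i,i) + {2} e2 kn(i;i,p) + e1 kp(i;i,p)`,
`p = i - l`, and `{2}{l-1} = {l} + {l-2}`, `{2} v^l = v^(l+1) + v^(l-1)`. -/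
def S_ID : Prop := ∀ (v : ℂ) (l : ℕ → ℕ), Gen v → ∀ i : ℕ,
  kp v l (i + 1) (i + 1) (i + 1) = cc (br v 2) * kp v l (i + 1) (i + 1) i +
    E1 * kn v l (i + 1) (i + 1) i - kp v l (i + 1) i i

/-- TASK BLK. All from `S_SYS` at `i = c` (`l c = 1`: `{1} = 1`, `{0} = 0`, `{-1} = -1`,
`c - l c = c - 1`) and at `i = c + 1`.
At `c + 1`: `kp(c+1;a,b) = -kp(c;a,b)`, `kn` the same, for `a ≤ c`; for `b ∈ {c-1, c}`
`kp(c+1;c+1,b) = e2 kn(c;b,c-1)`, `kn(c+1;c+1,b) = kp(c;b,c-1)`;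
`kp(c+1;c+1,c+1) = kp(c;c,c) + e1 kp(c;c,c-1) + {2} e2 kn(c;c,c-1)`; `kn(_;a,a) = 0`.
(1) `BS (c+1) = BS c`: the difference is `e2 (e1 kn(c;c,c-1) + {2} kp(c;c,c-1) - kp(c;c,c) -
kp(c;c-1,c-1)) = 0` by `S_ID` for `i = c - 1`.
(2) strip, `l (c+1) = 1`: `kp(c+2;c+2,c+2) = kp(c+1;c+1,c+1) + e1 e2 kn(c;c,c-1) +
{2} e2 kp(c;c,c-1)`, and `S_ID` for `i = c - 1` again.
(3) `l (c+1) = 2` (first neighbour `c - 1`, `{0}`, `{1}`, `{2}`): for `a ≤ c+1` zero. `a = c + 2`: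
`kp(c+2;c+2,b) = kp(c+1;c+1,b) + e2 kn(c+1;b,c-1)`, `kn(c+2;c+2,b) = kn(c+1;c+1,b) + kp(c+1;b,c-1)`:
`b = c-1`: `e2 kn(c;c-1,c-1) + 0 = 0` and `kp(c;c-1,c-1) - kp(c;c-1,c-1) = 0`; `b = c`:
`e2 kn(c;c,c-1) - e2 kn(c;c,c-1) = 0` and `kp(c;c,c-1) - kp(c;c,c-1) = 0`; `b = c+1`:
`kp(c+1;c+1,c+1) + e2 kn(c+1;c+1,c-1) = .. + e2 kp(c;c-1,c-1) = BS c` and
`0 + kp(c+1;c+1,c-1) = e2 kn(c;c-1,c-1) = 0`. `a = b = c+2`: `{2} kp(c+1;c+1,c+1) +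
e1 kp(c+1;c+1,c-1) + {2} e2 kn(c+1;c+1,c-1) = {2} BS c`. -/
def S_BLK : Prop := ∀ (v : ℂ) (l : ℕ → ℕ) (n r : ℕ), Gen v → Adm l n → Tri l r →
  ∀ c, r + 3 ≤ c → c < n → l c = 1 →
  (BS v l (c + 1) = BS v l c ∧
    kp v l (c + 1) (c + 1) (c + 1) = kp v l c c c + E1 * kp v l c c (c - 1) +
      cc (br v 2) * E2 * kn v l c c (c - 1) ∧
    kp v l (c + 1) (c + 1) c = E2 * kn v l c c (c - 1) ∧
    kn v l (c + 1) (c + 1) c = kp v l c c (c - 1)) ∧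
  (c + 1 < n → l (c + 1) = 1 →
    kp v l (c + 2) (c + 2) (c + 2) = E2 * kp v l c c c + BS v l c) ∧
  (c + 1 < n → l (c + 1) = 2 →
    kp v l (c + 2) (c + 2) (c + 2) = cc (br v 2) * BS v l c ∧
    kp v l (c + 2) (c + 2) (c + 1) = BS v l c ∧ kn v l (c + 2) (c + 2) (c + 1) = 0 ∧
    kn v l (c + 2) (c + 2) (c + 2) = 0 ∧
    (∀ a b, c - 1 ≤ b → b ≤ a → a ≤ c + 2 → (a ≤ c + 1 ∨ b ≤ c) →
      kp v l (c + 2) a b = 0 ∧ kn v l (c + 2) a b = 0))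

/-! ## Part C: cones -/

/-- TASK SCM. (1) `{m}{m'} = ∑_(r < min m m') {m + m' - 1 - 2 r}` (induction on the smaller one
with (b2), or `(v - v⁻¹)^2` times both sides); the parities fit. Closure induction twice.
(2) `CQ v d` depends only on `d % 2`. (3) products in `CQ`: the generators multiply to
`cc({m}{m'}) E1^(a+a') E2^(b+b')`, and (1). (4) generators. (5) `x ∈ SC v d'` gives
`cc x * E1^a * E2^b ∈ CQ v (d' + a)`. -/
def S_SCM : Prop := ∀ v : ℂ, Gen v →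
  (∀ (d d' : ℕ) (x y : ℂ), x ∈ SC v d → y ∈ SC v d' → x * y ∈ SC v (d + d')) ∧
  (∀ d d' : ℕ, d % 2 = d' % 2 → SC v d = SC v d' ∧ CQ v d = CQ v d' ∧ C2 v d = C2 v d') ∧
  (∀ (d d' : ℕ) (x y : QQ), x ∈ CQ v d → y ∈ CQ v d' → x * y ∈ CQ v (d + d')) ∧
  (∀ m : ℕ, br v m ∈ SC v (m + 1) ∧ cc (br v m) ∈ CQ v (m + 1)) ∧
  (1 : QQ) ∈ CQ v 0 ∧ E1 ∈ CQ v 1 ∧ E2 ∈ CQ v 0 ∧
  (∀ (d : ℕ) (x : ℂ), x ∈ SC v d → cc x ∈ CQ v d) ∧
  (∀ (d m : ℕ) (x : QQ), x ∈ CQ v d → cc (br v m) * x ∈ CQ v (d + m + 1)) ∧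
  (∀ (d : ℕ) (x : QQ), x ∈ CQ v d → E1 * x ∈ CQ v (d + 1) ∧ E2 * x ∈ CQ v d)

/-- TASK INB (inside a block after a cut). First `l (c+1) = 2` (`2 ≤ l (c+1) ≤ l c + 1`), so
`EL l (c+2) = EL l c + 3`. Induction on `i ≥ c + 2`. Base: `S_BLK` (3): `U = {2}` for
`(c+2, c+2)`, `U = 1` for `(c+2, c+1)`, otherwise 0. Step `i → i+1`, `l = l i ≥ 2`: `S_SYS`; the pairs
`(i, b)`, `(b, p_i)`, `(i, p_i)` again satisfy the conditions: `p_i ≥ p_(c+1) = c - 1` (`w - l w` is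
nondecreasing), `(b-1) - l (b-1) ≤ p_i ≤ b`, and they are in `Dom` because `r + 2 ≤ c - 1`. New
`U`: `{l-2} U`; `{l-1} U(i,b) + e2 U'(b,p)` and `{l-1} U'(i,b) + U(b,p)`; `{l} U(i,i) + e1 U(i,p) +
{2} e2 U'(i,p)`; all in the cone by `S_SCM` (`EL l (i+1) = EL l i + l`; parities modulo 2). -/
def S_INB : Prop := ∀ (v : ℂ) (l : ℕ → ℕ) (n r : ℕ), Gen v → Adm l n → Tri l r →
  ∀ c, r + 3 ≤ c → l c = 1 → ∀ i, c + 2 ≤ i → i ≤ n → (∀ j, c < j → j < i → 2 ≤ l j) →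
  ∀ a b, c - 1 ≤ b → b ≤ a → a ≤ i → (a - 1) - l (a - 1) ≤ b →
  ∃ U U' : QQ, U ∈ CQ v (EL l i + i + a + b + EL l c + c) ∧
    U' ∈ CQ v (EL l i + i + a + b + EL l c + c) ∧
    kp v l i a b = BS v l c * U ∧ kn v l i a b = BS v l c * U'

/-- TASK BETA. Strong induction on `i`, all four claims together. `i = c`: `U = 1`. `i > c`: let `c'`
be the largest index in `[c, i)` with `l c' = 1` (`c` is one). (A) `c' = i - 1`: by `S_BLK` (1) at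
`i - 1` (`≥ c`, `< n`): `BS i = BS (i-1)`; if some `j` with `c < j < i` has `2 ≤ l j`, then `j < i - 1`,
and `kp(i;i,i)`, `kp(i;i,i-1)`, `kn(i;i,i-1)` are positive combinations of `kp(i-1;i-1,i-1)`,
`kp(i-1;i-1,i-2)`, `kn(i-1;i-1,i-2)`, to which the induction hypothesis applies; `EL l i =
EL l (i-1) + 1`. (B) `c' ≤ i - 2`: `2 ≤ l j` for `c' < j < i` (`l j ≥ 1` by `Adm` and `≠ 1`);
`S_INB` for `c'` and the pairs `(i,i)`, `(i,i-1)`, `(i-1,i-1)` (first neighbour of `i-1`, `i-2` is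
`≤ i - 1`): all are in `BS c' * cone`, so is `BS i` (definition of `BS`), and `BS c' = BS c * cone` by
induction (`c' < i`). Parities modulo 2 (`S_SCM`). -/
def S_BETA : Prop := ∀ (v : ℂ) (l : ℕ → ℕ) (n r : ℕ), Gen v → Adm l n → Tri l r →
  ∀ c, r + 3 ≤ c → l c = 1 → ∀ i, c ≤ i → i ≤ n →
  (∃ U ∈ CQ v (EL l i + i + EL l c + c), BS v l i = BS v l c * U) ∧
  ((∃ j, c < j ∧ j < i ∧ 2 ≤ l j) →
    (∃ U ∈ CQ v (EL l i + i + EL l c + c), kp v l i i i = BS v l c * U) ∧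
    (∃ U ∈ CQ v (EL l i + i + EL l c + c + 1), kp v l i i (i - 1) = BS v l c * U) ∧
    (∃ U ∈ CQ v (EL l i + i + EL l c + c + 1), kn v l i i (i - 1) = BS v l c * U))

/-- TASK TB2 (table at `i = 2`; `l 0 = 0`, `l 1 = 1`). `S_REC` for `i = 0`: `zp(1;0,0) = {-2}/v`,
`kp(1;0,0) = v^(-2)`, `zp(1;1,0) = -1/v`, `zn(1;1,0) = 1/v`, `kp(1;1,0) = 1/v`, `kn(1;1,0) = 0`,
`zp(1;1,1) = e1/v`, `kp(1;1,1) = 1`; `S_REC` for `i = 1` (`{l-2} = {-1} = -1`, `{l-1} = {0} = 0`,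
first neighbour 0). -/
def S_TB2 : Prop := ∀ (v : ℂ) (l : ℕ → ℕ), Gen v → l 0 = 0 → l 1 = 1 →
  (zp v l 2 0 0 = cc (br v 2 * v⁻¹) ∧ zp v l 2 1 0 = cc v⁻¹ ∧ zp v l 2 1 1 = -(cc v⁻¹ * E1) ∧
    zp v l 2 2 0 = 0 ∧ zp v l 2 2 1 = cc v⁻¹ * E2 ∧ zp v l 2 2 2 = cc (br v 2 * v⁻¹) * E2) ∧
  (zn v l 2 1 0 = -cc v⁻¹ ∧ zn v l 2 2 0 = -cc (br v 2 * v⁻¹) ∧ zn v l 2 2 1 = -cc v⁻¹) ∧
  (kp v l 2 0 0 = cc (-1 - 2 * v⁻¹ ^ 2) ∧ kp v l 2 1 0 = cc (-2 * v⁻¹) ∧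
    kp v l 2 1 1 = -1 + cc v⁻¹ * E1 ∧ kp v l 2 2 0 = -1 ∧ kp v l 2 2 1 = E1 ∧
    kp v l 2 2 2 = 1 + cc (br v 2) * E1) ∧
  (kn v l 2 1 0 = cc v⁻¹ ∧ kn v l 2 2 0 = cc (1 + v⁻¹ ^ 2) ∧ kn v l 2 2 1 = cc v⁻¹)

/-- TASK INI1 (table at `i = 3`, `l 2 = 2`, first neighbour 0, `{l-2} = 0`, `{l-1} = 1`). From
`S_REC` for `i = 2` and `S_TB2`: for `a ≤ 2` `kp(3;a,b) = v zp(2;a,b)`, `kn(3;a,b) = v zn(2;a,b)`;
`kp(3;3,b) = kp(2;2,b) + v^2 zp(2;2,b) + e2 kn(2;b,0)`, `kn(3;3,b) = kn(2;2,b) + v^2 zn(2;2,b) +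
kp(2;b,0)`, `kp(3;3,3) = {2} kp(2;2,2) + v^3 zp(2;2,2) + e1 kp(2;2,0) + {2} e2 kn(2;2,0) =
{2} + {3} e1 + {2}{3} e2`; `kp(3;3,2) = 1 + {2} e1 + {2}^2 e2`, `kn(3;3,2) = -1`, `kp(3;3,1) =
e1 + {2} e2`, `kn(3;3,1) = -{2}`, `kp(3;3,0) = -1`, `kn(3;3,0) = -{3}`; `kn(3;a,a) = 0`. Compare with
`kappa`. `BS 3 = {2} + ({3}+1) e1 + {2}({3}-1) e2 + {2} e1^2 + {2}^2 e1 e2 + {2} e2^2 = {2} F4`. -/
def S_INI1 : Prop := ∀ (v : ℂ) (l : ℕ → ℕ), Gen v → l 0 = 0 → l 1 = 1 → l 2 = 2 →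
  (∀ a b : ℕ, b ≤ a → a ≤ 3 → kp v l 3 a b = kappa v a b ∧
    kn v l 3 a b = -cc (br v ((a : ℤ) - b))) ∧ BS v l 3 = cc (br v 2) * F4 v

/-- TASK INI2 (table at `i = 4`, `l 2 = 1`, `l 3 = 2`, `1 ≤ b ≤ a ≤ 4`). First the table at `i = 3`
from `S_REC` for `i = 2` and `S_TB2` (`{l-2} = -1`, `{l-1} = 0`, first neighbour 1):
`zp(3;a,b) = -zp(2;a,b)`, `kp(3;a,b) = -kp(2;a,b) + zp(2;a,b)`, the same for `zn`, `kn`, for `a ≤ 2`;
`zp(3;3,b) = e2 zn(2;b,1)`, `zn(3;3,b) = zp(2;b,1)`, `kp(3;3,b) = v zp(2;2,b) + e2 kn(2;b,1)`,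
`kn(3;3,b) = v zn(2;2,b) + kp(2;b,1)` for `b = 1, 2`; `zp(3;3,3) = zp(2;2,2) + e1 zp(2;2,1) +
{2} e2 zn(2;2,1)`, `kp(3;3,3) = kp(2;2,2) + v^2 zp(2;2,2) + e1 kp(2;2,1) + {2} e2 kn(2;2,1)`. Then
`S_REC` for `i = 3` (`{l-2} = 0`, `{l-1} = 1`, first neighbour 1): for `a ≤ 3` `kp(4;a,b) = v zp(3;a,b)`;
`kp(4;4,b) = kp(3;3,b) + v^2 zp(3;3,b) + e2 kn(3;b,1)`, .... Compare with `hp`, `hn` for `E(4) = {2}`,
`E(3) = 1`, `E(2) = E(1) = 0`, `ρ = -1` (`bk` of a constant `z` at `n` is `z {n}`). Verified by computer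
algebra. -/
def S_INI2 : Prop := ∀ (v : ℂ) (l : ℕ → ℕ), Gen v → l 0 = 0 → l 1 = 1 → l 2 = 1 → l 3 = 2 →
  ∀ a b : ℕ, 1 ≤ b → b ≤ a → a ≤ 4 →
    kp v l 4 a b = hp v (ED v 1 (fun _ => 0) 1 a) (ED v 1 (fun _ => 0) 1 b) (-1) a b ∧
    kn v l 4 a b = hn v (ED v 1 (fun _ => 0) 1 a) (ED v 1 (fun _ => 0) 1 b) (-1) a b

/-- TASK VP. Let `n = c + 2` and `l' = l` on `j < c`, `l' c = 1`, `l' (c+1) = 2`: `Adm l' n`,
`Tri l' r`. By `S_BLK` (3) for `l'` (and `S_KC`: the table at level `c` only depends on `l j`, `j < c`):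
`SF v l' n = kp(n;n,n) = {2} BS v l' c = {2} BS v l c`, and `EL l' n = EL l c + 3`. By `S_REVL`
`l'' = rv n l'` has `SF v l'' n = SF v l' n`, `EL l'' n = EL l' n`, `Adm l'' n`; by `S_RVC` (1)
`l'' = 0, 1, 2, 1, ...` and `2 ≤ l'' j` for some `3 < j < n`, so `Tri l'' 0`, and `S_BETA` for `l''`,
`r = 0`, `c = 3`, `i = n` gives `SF v l'' n = BS v l'' 3 * U = {2} F4 U` (`S_INI1`),
`U ∈ CQ v (EL l' n + n + 3 + 3)`. Cancel `cc {2} ≠ 0` (`QQ` is a domain; `{2} = v + v⁻¹ ≠ 0` as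
`v^4 ≠ 1`). The parity is `EL l c + 3 + c + 2 + 6`. -/
def S_VP : Prop := ∀ (v : ℂ) (l : ℕ → ℕ) (c r : ℕ), Gen v → Adm l c → Tri l r → r + 3 ≤ c →
  ∃ V ∈ CQ v (EL l c + c + 1), BS v l c = F4 v * V

/-! ## Part B: the first block -/

/-- TASK BKF (facts on `bk`, `eta`). `bk` is a `Polynomial.sum`, linear in `E`
(`Polynomial.sum_add_index`, `sum_C_index`, ...; or first prove `bk v E n =
∑ s ∈ range N, cc (E.coeff s * {n-s}) E1^s` for `N > natDegree E`). (3) from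
`((1+X) E)_s = E_s + E_(s-1)` (or check for `E = C z X^s`). (5) (b4) for every `s` (`y = n - s`).
(6) (b2). (7) by linearity for `E = X^s`, with `m = n - s`: `eta` of `X^s` at `n` is
`E1^s ({m-3} + {m-2} e1 + {m-1} e2)`, and `{m-1} + {m} e1 + {m+1} e2 + e1 ({m-2} + {m-1} e1 + {m} e2) +
e2 ({m-3} + {m-2} e1 + {m-1} e2) = {m-1} F4` by (b2) and `{m+1} + {m-3} = (v^2 + v^(-2)) {m-1}`.
(8) positivity: by linearity `E = C z X^s` with `z ∈ SC v d`, `s ≤ n` natural: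
`cc (z {n-s}) e1^s ∈ CQ v (d + (n-s+1) + s)`; sum over `s` (`S_SCM`). -/
def S_BKF : Prop := ∀ v : ℂ, Gen v →
  (∀ (E E' : Polynomial ℂ) (n : ℤ), bk v (E + E') n = bk v E n + bk v E' n) ∧
  (∀ (z : ℂ) (E : Polynomial ℂ) (n : ℤ), bk v (Polynomial.C z * E) n = cc z * bk v E n) ∧
  (∀ (E : Polynomial ℂ) (n : ℤ),
    bk v ((1 + Polynomial.X) * E) n = bk v E n + E1 * bk v E (n - 1)) ∧
  (∀ (z : ℂ) (n : ℤ), bk v (Polynomial.C z) n = cc (z * br v n) ∧ bk v 0 n = 0) ∧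
  (∀ (E : Polynomial ℂ) (x n : ℤ), cc (br v (x - 1)) * bk v E n -
    cc (br v (x - 2)) * bk v E (n + 1) = bk v E (n - x + 2)) ∧
  (∀ (E : Polynomial ℂ) (n : ℤ), bk v E (n + 1) + bk v E (n - 1) = cc (br v 2) * bk v E n) ∧
  (∀ (E : Polynomial ℂ) (n : ℤ), F4 v * bk v E (n - 1) =
    eta v ((1 + Polynomial.X) * E) (n + 2) + E2 * eta v E n) ∧
  (∀ (E : Polynomial ℂ) (n d : ℕ), (∀ s, E.coeff s ∈ SC v d) → (∀ s, E.coeff s ≠ 0 → s ≤ n) →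
    bk v E n ∈ CQ v (d + n + 1))

/-- TASK STEPK (the step of the decomposition; pure algebra). `l = l i`, `p = i - l i` (as integers
`p = i - l`). By `S_SYS` the new values are `K' = {l-2} K` for `a ≤ i` (clear: everything is
linear, `eta`, `hp`, `hn` are linear in `E`, `E'`, `ρ`).
(a) `a = i+1`, `b ≤ i`, first component: `{l-1} [F P(i,b) + η(E_i,b+2) + η((1+X)E_b,i) + ρ κ(i,b)] +
e2 [F Q(b,p) + η(E_b,p) - η(E_p,b) - {b-p} ρ]`; target `F P'(i+1,b) + η(E'_(i+1),b+2) +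
η((1+X)E'_b,i+1) + ρ' κ(i+1,b)`. Use `{l-1} η((1+X)E_b,i) - {l-2} η((1+X)E_b,i+1) =
η((1+X)E_b,p+2)` (`S_BKF` (5)), `η((1+X)E_b,p+2) + e2 η(E_b,p) = F bk E_b (p-1)` and the same for
`(E_p, b)` (`S_BKF` (7)); the difference gives `F YY 1`. The `ρ` terms:
`{l-1} κ(i,b) - {l-2} κ(i+1,b) - e2 {b-p} - {p} ({b-1} + {b} e1 + {b+1} e2) = 0`, by
`{l-1}{i-2} - {l-2}{i-1} = {p}`, `{l-1}{i-1} - {l-2}{i} = {p+1}` (b4) and
`{b}{p+1} - {b+1}{p} = {b-p}` (b3).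
(b) second component: `{l-1} [F Q(i,b) + η(E_i,b) - η(E_b,i) - {i-b} ρ] + F P(b,p) + η(E_b,p+2) +
η((1+X)E_p,b) + ρ κ(b,p)`; target `F Q'(i+1,b) + η(E'_(i+1),b) - η(E'_b,i+1) - {i+1-b} ρ'`; `η` terms by
`S_BKF` (5), the `ρ` terms: `-{p-b+2} + {b-2}({p-1} + {p} e1) + {b-1}{p} e2 - {p} ({b-3} + {b-2} e1 +
{b-1} e2) = 0` by `{p-1}{b-2} - {p}{b-3} = {p-b+2}` (b3).
(c) `a = b = i+1`: `{l} [..(i,i)] + e1 [..(i,p)] + {2} e2 [..(i,p)]`, target with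
`E'_(i+1) = {l-1} E_i + (1+X) E_p + {p} ρ`. `E_i` terms: `{l} [η(E,i+2) + η((1+X)E,i)] -
{l-1} [η(E,i+3) + η((1+X)E,i+1)] + e1 η(E,p+2) + {2} e2 η(E,p)`
`= η(E,p+3) + η((1+X)E,p+1) + e1 η(E,p+2) + {2} e2 η(E,p)` (`S_BKF` (5) with `x = l + 1`)
`= {2} (η(E,p+2) + e1 η(E,p+1) + e2 η(E,p)) = {2} F bk E (p-1)` (`S_BKF` (6) for `η`, (3), (7)).
`E_p` terms: `e1 η((1+X)E,i) - {2} e2 η(E,i) - η((1+X)E,i+3) - η((1+X)^2 E,i+1) =
-{2} F bk E (i-1)`. `ρ` terms: `{l} κ(i,i) + e1 κ(i,p) - {2} e2 {i-p} - {l-2} κ(i+1,i+1) -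
{p} (η_(i+3) + η_(i+1) + e1 η_i) = 0` with `η_n = {n-3} + {n-2} e1 + {n-1} e2` (an identity for each of
`1, e1, e2, e1^2, e1 e2`; write `{n}` by its definition, `p = i - l`). The second component is 0. -/
def S_STEPK : Prop := ∀ (v : ℂ) (l : ℕ → ℕ) (n r : ℕ), Gen v → Adm l n → Tri l r →
  ∀ i, r + 3 ≤ i → i < n → ∀ (E E' : ℕ → Polynomial ℂ) (ρ ρ' : ℂ) (P Q P' Q' : ℕ → ℕ → QQ),
  (∀ a b, Dom l r a b → a ≤ i → kp v l i a b = F4 v * P a b + hp v (E a) (E b) ρ a b ∧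
    kn v l i a b = F4 v * Q a b + hn v (E a) (E b) ρ a b) →
  (∀ a, a ≤ i → E' a = Polynomial.C (br v ((l i : ℤ) - 2)) * E a) →
  E' (i + 1) = Polynomial.C (br v ((l i : ℤ) - 1)) * E i +
    (1 + Polynomial.X) * E (i - l i) + Polynomial.C (br v ((i : ℤ) - l i) * ρ) →
  ρ' = br v ((l i : ℤ) - 2) * ρ →
  (∀ a b, a ≤ i → P' a b = cc (br v ((l i : ℤ) - 2)) * P a b ∧
    Q' a b = cc (br v ((l i : ℤ) - 2)) * Q a b) →
  (∀ b, b ≤ i → P' (i + 1) b = cc (br v ((l i : ℤ) - 1)) * P i b + E2 * Q b (i - l i) +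
      YY v 1 (E b) (E (i - l i)) b ((i : ℤ) - l i) ∧
    Q' (i + 1) b = cc (br v ((l i : ℤ) - 1)) * Q i b + P b (i - l i)) →
  P' (i + 1) (i + 1) = cc (br v (l i : ℤ)) * P i i + E1 * P i (i - l i) +
    cc (br v 2) * E2 * Q i (i - l i) +
    cc (br v 2) * YY v 1 (E i) (E (i - l i)) i ((i : ℤ) - l i) →
  Q' (i + 1) (i + 1) = 0 →
  ∀ a b, Dom l r a b → a ≤ i + 1 →
    kp v l (i + 1) a b = F4 v * P' a b + hp v (E' a) (E' b) ρ' a b ∧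
    kn v l (i + 1) a b = F4 v * Q' a b + hn v (E' a) (E' b) ρ' a b

/-- TASK DPOS (positivity step for the table `D`). `l = l i ≥ 2`, `p = i - l`. (1) support: the new
`D' (i+1)`: a nonzero coefficient comes from `D i` (`s = 0` or `s + 3 ≤ p_(i-1) ≤ p_i = p`), from
`(1+X) D p` (then `p ≥ r + 4`, `t = 0` or `t + 3 ≤ p_(p-1) ≤ p - 1`, `s ∈ {t, t+1}`, so `s = 0` or
`s + 3 ≤ p`, using `p ≥ 4`), or from the constant (nonzero only if `p ≥ 2r + 1`); `i + 1 ≥ r + 4`.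
(2), (3) `S_SCM` (products of cones), `EL l (i+1) = EL l i + l`; parities modulo 2.
(4) `a ≤ i`: factor `{l-2}`, `l ≥ 2`. `a = b = i+1`: 0. `a = i+1`, `b ≤ i` (`p ≤ b`):
`YY s (D'(i+1)) (D' b) = {l-1} YY s (D i) (D b) i b + bk (D b) (p+2-s) + bk ((1+X) D p) (b-s) +
cc ({(p-2r)_+} {b-s} μ)` by `S_BKF` (5): `{l-1} bk (D b) (i-s) - {l-2} bk (D b) (i+1-s) =
bk (D b) (i-s-l+2)`. Each term is in the cone: `D b` has its coefficients at `t = 0` or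
`t ≤ p_(b-1) - 3 ≤ p`, so `t ≤ p + 2 - s` (`s ≤ 2`); `(1+X) D p` is nonzero only if `p ≥ r + 4` and has
its coefficients at `t ≤ max 1 (p - 3) ≤ b - s`; the last term is nonzero only if
`b ≥ p ≥ 2r + 1 ≥ s`. `S_BKF` (8), `S_SYS` for `Dom`. -/
def S_DPOS : Prop := ∀ (v : ℂ) (l : ℕ → ℕ) (n r : ℕ), Gen v → Adm l n → Tri l r → r ≤ 1 →
  ∀ i, r + 3 ≤ i → i < n → 2 ≤ l i → ∀ (D D' : ℕ → Polynomial ℂ) (μ μ' : ℂ), DP v l r i D μ →
  (∀ a, a ≤ i → D' a = Polynomial.C (br v ((l i : ℤ) - 2)) * D a) →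
  D' (i + 1) = Polynomial.C (br v ((l i : ℤ) - 1)) * D i +
    (1 + Polynomial.X) * D (i - l i) + Polynomial.C (br v ((i - l i - 2 * r : ℕ) : ℤ) * μ) →
  (∀ a, i + 1 < a → D' a = 0) → μ' = br v ((l i : ℤ) - 2) * μ → DP v l r (i + 1) D' μ'

/-- TASK EREC. `p = i - l i`. `r = 0`: `ED = D`, `rh = μ`, all claims are immediate
(`i - l i - 2 * 0`). `r = 1` (`i ≥ 4`): `ED a = (1+X) D a + {a-2} μ` for `a ≥ 2`, `ED 1 = 0`;
`rh = -μ`; `D a = 0` for `a ≤ 4` (`DP` (1)). (1) clear (`{l-2}` factor, `μ' = {l-2} μ`). (2) `p ≥ r = 1`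
(`Dom l r i p`). If `p ≥ 2`: the difference of both sides is
`({i-1}{l-2} - {l-1}{i-2} + {p}) μ + (1+X) ({p-2} - {p-2}) μ = 0`, using (b4) `{l-1}{i-2} -
{l-2}{i-1} = {i-l}`; if `p = 1`: `D 1 = 0`, `ED 1 = 0`, `{1 - 2}` truncated is `{0} = 0`, the same
identity. (3) `r = 1`, `Dom l 1 a b`, `b ≥ 2`: `YY 1 (ED a) (ED b) a b = YY 1 (D a) (D b) a b +
e1 YY 2 (D a) (D b) a b + cc ({a-b} μ)`, since `bk ((1+X) D) n = bk D n + e1 bk D (n-1)` and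
`{a-2}{b-1} - {b-2}{a-1} = {a-b}` (b3). `b = 1`: `(a-1) - l (a-1) ≤ 1`, so `D a = 0` by `DP` (1),
`ED 1 = 0`, and `YY = bk (C ({a-2} μ)) 0 - 0 = cc (.. * {0}) = 0` (or `a = 1`: 0). -/
def S_EREC : Prop := ∀ (v : ℂ) (l : ℕ → ℕ) (n r : ℕ), Gen v → Adm l n → Tri l r → r ≤ 1 →
  ∀ i, r + 3 ≤ i → i ≤ n → ∀ (D : ℕ → Polynomial ℂ) (μ : ℂ), DP v l r i D μ →
  (∀ a b, Dom l r a b → a ≤ i →
    YY v 1 (ED v r D μ a) (ED v r D μ b) a b ∈ CQ v (EL l i + i + a + b + 1)) ∧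
  (i < n → ∀ (D' : ℕ → Polynomial ℂ) (μ' : ℂ),
    (∀ a, a ≤ i → D' a = Polynomial.C (br v ((l i : ℤ) - 2)) * D a) →
    D' (i + 1) = Polynomial.C (br v ((l i : ℤ) - 1)) * D i +
      (1 + Polynomial.X) * D (i - l i) + Polynomial.C (br v ((i - l i - 2 * r : ℕ) : ℤ) * μ) →
    μ' = br v ((l i : ℤ) - 2) * μ →
    (∀ a, a ≤ i → ED v r D' μ' a = Polynomial.C (br v ((l i : ℤ) - 2)) * ED v r D μ a) ∧
    ED v r D' μ' (i + 1) = Polynomial.C (br v ((l i : ℤ) - 1)) * ED v r D μ i +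
      (1 + Polynomial.X) * ED v r D μ (i - l i) +
      Polynomial.C (br v ((i : ℤ) - l i) * rh r μ) ∧
    rh r μ' = br v ((l i : ℤ) - 2) * rh r μ)

/-- TASK BLOCK. Induction on `i ≥ r + 3`. Base: `D = 0`, `μ = 1`, `P = Q = 0`, `S_INI1`, `S_INI2` (for `r = 0`:
`hp v 0 0 1 a b = kappa v a b`, `hn v 0 0 1 a b = -cc {a-b}`; `Adm`, `Tri` give `l 0 = 0`, `l 1 = 1`,
and `l 2 = 2`, resp. `l 2 = 1`, `l 3 = 2`; `Dom` gives `r ≤ b`), `EL l 3 = 3` resp. `EL l 4 = 4`,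
`1 = {1} ∈ SC v 6` resp. `SC v 8`. Step: define `D' a = {l-2} D a` for `a ≤ i`, `D' (i+1)` by the
formula in `S_DPOS`, `D' a = 0` for `a > i+1`, and `P'`, `Q'` by the formulas in `S_STEPK` with
`E = ED v r D μ`. `S_EREC` (recursion of `ED`, positivity of `YY 1`), `S_STEPK`, `S_DPOS`, `S_SCM`,
`S_SYS` (facts on `Dom`). -/
def S_BLOCK : Prop := ∀ (v : ℂ) (l : ℕ → ℕ) (n r : ℕ), Gen v → Adm l n → Tri l r → r ≤ 1 →
  ∀ i, r + 3 ≤ i → i ≤ n → (∀ j, r + 2 ≤ j → j < i → 2 ≤ l j) →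
  ∃ (D : ℕ → Polynomial ℂ) (μ : ℂ) (P Q : ℕ → ℕ → QQ), DP v l r i D μ ∧
  (∀ a b, Dom l r a b → a ≤ i → P a b ∈ CQ v (EL l i + i + a + b + 1) ∧
    Q a b ∈ CQ v (EL l i + i + a + b + 1)) ∧
  (∀ a b, Dom l r a b → a ≤ i →
    kp v l i a b = F4 v * P a b + hp v (ED v r D μ a) (ED v r D μ b) (rh r μ) a b ∧
    kn v l i a b = F4 v * Q a b + hn v (ED v r D μ a) (ED v r D μ b) (rh r μ) a b)

/-! ## Part P: positivity of the coefficients -/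

/-- TASK POSF. (1) `U_M := U.coeff (n - M)` for `M ≤ n`, `0` for `M > n`;
`A m = {m} U_m + {m-1} s1 U_(m+1) + {m-2} s2 U_(m+2)` for `m ≥ 3`, `A m = 0` for `m < 3`. The
coefficient of `F4 U` at `n - m` is `U_m + {2} s1 U_(m+1) + (s1^2 + (v^2+v^(-2)) s2) U_(m+2) +
{2} s1 s2 U_(m+3) + s2^2 U_(m+4)`, and the relation holds by (b2) and
`{m-2} + {m+2} = (v^2 + v^(-2)) {m}`. `U.coeff k ∈ C2 v (d' + k)` for `U ∈ CQ v d'` (closure
induction; the generator is `C (C {m} X0^a X1^b) X^(a+2b)`), so `A m ∈ C2 v (d' + n + 1)`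
(`C {j} * x ∈ C2 v (e + j + 1)` for `x ∈ C2 v e`). (2) add the `A`. (3) `A' m = X1 * A m` (for
`m ≤ n`; `0` above): the coefficient of `E2 s` at `n + 2 - m` is `X1 * s.coeff (n - m)` for `m ≤ n`,
and `0` for `m = n+1, n+2`. (4) parity. -/
def S_POSF : Prop := ∀ v : ℂ, Gen v →
  (∀ (n d : ℕ) (U : QQ), U ∈ CQ v (d + n + 1) → Pos v n d (F4 v * U)) ∧
  (∀ (n d : ℕ) (s s' : QQ), Pos v n d s → Pos v n d s' → Pos v n d (s + s')) ∧
  (∀ (n d d' : ℕ) (s : QQ), Pos v n d s → d % 2 = d' % 2 → Pos v (n + 2) d' (E2 * s)) ∧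
  (∀ (n d d' : ℕ) (s : QQ), Pos v n d s → d % 2 = d' % 2 → Pos v n d' s)

/-- TASK RELB (the relation for the boundary part, `AB` in Def.lean). Both sides are additive in
`(E, ρ)`; it suffices to treat `E = C z X^s`, `ρ = 0` and `E = 0`. Let `j = n - s` (`s ≤ n`; for
`s > n - m` everything at level `m` is 0). By definition `hp v E E 0 n n = z e1^s ({j-1} + {j} e1 +
{j+1} e2 + {j-3} + {j-2} e1 + {j-1} e2 + {j-4} e1 + {j-3} e1^2 + {j-2} e1 e2)`, and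
`AB j = z s1^s {j} ({j-1} + {j-3})`, `AB (j-1) = z s1^(s+1) {j-2} {j-3}`. Levels: `m = j`:
`{j} ({j-1} + {j-3})`; `m = j-1`: `{j-2}{j-3} + {j} ({j-1} + {j-3}) = {j-1} ({j} + {j-2} + {j-4})`;
`m = j-2`: `s1^2 {j-2}{j-3} + s2 {j} ({j-1} + {j-3}) = {j-2} (s2 ({j+1} + {j-1}) + s1^2 {j-3})`;
`m = j-3`: `s1 s2 {j-2}{j-3}`; all by (b2). `ρ`: `kappa v n n = {n-1}{n-2} + {n}{n-2} e1 +
{n}{n-1} e2`, `AB n = ρ {n}{n-1}{n-2}`. -/
def S_RELB : Prop := ∀ v : ℂ, Gen v → ∀ (n : ℕ) (E : Polynomial ℂ) (ρ : ℂ) (m : ℕ), 3 ≤ m →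
  m ≤ n → AB v n E ρ m + MvPolynomial.X 0 * AB v n E ρ (m + 1) +
    MvPolynomial.X 1 * AB v n E ρ (m + 2) =
  MvPolynomial.C (br v m) * (hp v E E ρ n n).coeff (n - m)

/-- TASK POSB. `A = AB v n E ρ` and `S_RELB`; membership in `C2 v d`: a scalar in `SC v d` times
`X0^k`. (I) clear (`{m-3}`, `m ≥ 3`). (II) `E = (1+X) D + {n-2} μ`, `ρ = -μ`: the part of `(1+X) D` as
in (I) (its coefficients are in `SC`); the part of `μ`: at `m = n`: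
`μ {n} ({n-2} ({n-1} + {n-3}) - {n-1}{n-2}) = μ {n}{n-2}{n-3}`; at `m = n-1`: `μ {n-2}{n-2}{n-3}`
(`E.coeff 0 * {m-1} * {m-2}`). (III) `n ≥ 5`, `ρ = μ`: the part of `(1+X)^2 D` as in (I). The
part of `μ`, `E_0 = {n-4} - {n-2}`, `E_1 = {n-4}`: at `m = n`: `{n} ({n-1}+{n-3}) ({n-4}-{n-2}) +
{n}{n-1}{n-2} = {n}{n-2}{n-5}`; at `m = n-1` (if `n ≥ 4`):
`{n-4}{n-1}({n-2}+{n-4}) + ({n-4}-{n-2}){n-2}{n-3} = {n-3} (2 {n-4}{n-2} - {2}^2)`, and with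
`{n-4}{n-2} = {3} + ∑_(0 < i < n-4) {3+2i}` (for `n ≥ 5`) and `{2}^2 = {3} + 1` this is
`2 {n-3} ({n-4}{n-2} - {3}) + {n-3} ({3} - 1)`, `{n-3}({3} - 1) = {n-1} + {n-5}`
(`{k}{3} = {k+2} + {k} + {k-2}`); at `m = n-2` (only if `n ≥ 5`): `{n-4}{n-3}{n-4}`. Other `m`: 0. -/
def S_POSB : Prop := ∀ v : ℂ, Gen v → ∀ (n d : ℕ), 3 ≤ n → ∀ (D : Polynomial ℂ) (μ : ℂ),
  (∀ s, D.coeff s ∈ SC v (d + 1)) → μ ∈ SC v (d + n) →
  Pos v n d (hp v D D μ n n) ∧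
  Pos v n d (hp v ((1 + Polynomial.X) * D + Polynomial.C (br v ((n : ℤ) - 2) * μ))
    ((1 + Polynomial.X) * D + Polynomial.C (br v ((n : ℤ) - 2) * μ)) (-μ) n n) ∧
  (5 ≤ n → Pos v n d (hp v
    ((1 + Polynomial.X) ^ 2 * D +
      Polynomial.C ((br v ((n : ℤ) - 4) - br v ((n : ℤ) - 2)) * μ) +
      Polynomial.C (br v ((n : ℤ) - 4) * μ) * Polynomial.X)
    ((1 + Polynomial.X) ^ 2 * D +
      Polynomial.C ((br v ((n : ℤ) - 4) - br v ((n : ℤ) - 2)) * μ) +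
      Polynomial.C (br v ((n : ℤ) - 4) * μ) * Polynomial.X) μ n n))

/-- TASK POS1 (one block, `r ≤ 1`, at most one further pendant vertex). `d` = end of the block:
`2 ≤ l j` for `r + 2 ≤ j < d`. `n = d`: `S_BLOCK` at `i = n`, `(a,b) = (n,n)`:
`SF = F4 P + hp (ED n) (ED n) (rh r μ) n n`; `S_POSF` (1), (2) and `S_POSB` (I) for `r = 0`
(`ED = D`), (II) for `r = 1` (`ED n = (1+X) D n + {n-2} μ`, `rh = -μ`). Parities: `D n` has coefficients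
in `SC v (EL l n + n + n + 1)`, `μ ∈ SC v (EL l n + n)`, `P ∈ CQ v (EL l n + n + n + n + 1)`.
`n = d + 1`, `l d = 1`: `S_BLOCK` at `i = d`, then `S_STEPK` (`{l-2} = {-1} = -1`, `{l-1} = {0} = 0`,
`d - l d = d - 1`) with `E = ED v r D μ`, `E' a = -E a` for `a ≤ d`,
`E' (d+1) = (1+X) ED (d-1) + {d-1} rh`, `ρ' = -rh`: `SF = F4 P'(n,n) + hp (E' n) (E' n) ρ' n n`,
`P'(n,n) = P(d,d) + e1 P(d,d-1) + {2} e2 Q(d,d-1) + {2} YY 1 (ED d) (ED (d-1)) d (d-1)` in the cone by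
`S_EREC`. `r = 0`: `E' n = (1+X) D (d-1) + {n-2} μ`, `ρ' = -μ`: (II). `r = 1` (`d ≥ 4`, `n ≥ 5`):
`E' n = (1+X) ((1+X) D (d-1) + {d-3} μ) - {d-1} μ = (1+X)^2 D (d-1) + ({n-4} - {n-2}) μ +
{n-4} μ X`, `ρ' = μ`: (III). `EL l n = EL l d + 1`. -/
def S_POS1 : Prop := ∀ (v : ℂ) (l : ℕ → ℕ) (n r d : ℕ), Gen v → Adm l n → Tri l r → r ≤ 1 →
  r + 3 ≤ d → (∀ j, r + 2 ≤ j → j < d → 2 ≤ l j) → (n = d ∨ (n = d + 1 ∧ l d = 1)) →
  Pos v n (EL l n) (SF v l n)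

/-- TASK POS (main induction). Strong induction on `n`. `S_TRIE` gives `r`. Case 1: there are
`c`, `j` with `r + 3 ≤ c < j < n`, `l c = 1`, `2 ≤ l j`: `S_BETA` (`i = n`) and `S_VP` for the prefix `c`
(`Adm l c`): `SF = BS c * U = F4 V U`, `V U ∈ CQ v ((EL l c + c + 1) + (EL l n + n + EL l c + c))`,
`S_POSF` (1). Case 2: otherwise let `d` be the smallest index `≥ r + 3` with `l d = 1`, `d < n`, if
there is one, otherwise `d = n`: `2 ≤ l j` for `r + 2 ≤ j < d`, and `l j = 1` for `d ≤ j < n`.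
2a: `n ≥ d + 2`: `l (n-2) = l (n-1) = 1`, `n - 2 ≥ r + 3`: `S_BLK` (2) at `c = n - 2`:
`SF v l n = E2 SF v l (n-2) + BS v l (n-2)`; `Pos` for `n - 2` by induction (`Adm l (n-2)`, the triangle is
in the prefix, `EL l n = EL l (n-2) + 2`) with `S_POSF` (3), and `BS = F4 V` (`S_VP`), `S_POSF` (1)
(`V ∈ CQ v (EL l (n-2) + (n-2) + 1)`). 2b: `n ≤ d + 1`, `r ≤ 1`: `S_POS1`. 2c: `n ≤ d + 1`, `r ≥ 2`:
`l' = rv n l` (`S_REVL`, `S_RVC` (2)): `l' (n-1) = l' (n-2) = 1`, `SF`, `EL` equal, `Adm l' n` and a triangle;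
`S_TRIE` for `l'` gives `r'` with `r' + 2 < n`, `l' (r'+2) = 2`, so `r' + 2 < n - 2`, and `S_BLK` (2) at
`c = n - 2` for `l'` as in 2a (the induction hypothesis is for all `l`). -/
def S_POS : Prop := ∀ (v : ℂ) (l : ℕ → ℕ) (n : ℕ), Gen v → Adm l n → (∃ j, j < n ∧ 2 ≤ l j) →
  Pos v n (EL l n) (SF v l n)

/-! ## Part U: assembly -/

/-- TASK GOOD. As in FIN.lean (`hFIN`): for `n ≥ 1` `XX (range n) = ∑_j FF (range n) (n-1) j`, and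
`FF = TT (eh 0)` with `s = 0`, `t = n - 1`; `S_MAIN` with `c = 0`, `S_Msum`. `n = 0`: `XX = 1`. -/
def S_GOOD : Prop := ∀ (N n : ℕ) (g : ℕ → ℕ), Monotone g → Good g (range n) →
  XX g (qq N) (xx N) (range n) ∈ Cone N n (eE g (range n))

/-- TASK CONN3. `v` from `HOOK.exists_tr`; `Gen v` (`v^k = 1` or `v = 0` contradicts the
injectivity), `q = v^2 ≠ 0, 1`. Let `a` be the expansion (`HOOK.exists_exp`, `XX_symm`, `XX_hom` as in
`conn_HC`, HOOK/CONN.lean). For `μ` with `big3 μ.parts ≤ 1` show `a μ ∈ PU (eE g (range n))`, `S_CLS`: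
`μ = twP n b`: `aeval q (a μ) = 0` by `S_TWO` (the triangle: `ld g j ≥ 2`, take `j - 2 < j - 1 < j`,
`j ≤ g (j - 2)` since the left neighbours of `j` are `Ico (j - ld g j) j`), and `p ↦ aeval (v^2) p` is
injective (`aeval (v^2) p = aeval v (p.comp (X^2))`, or `expand`), so `a μ = 0`.
`μ = lvP n m b`: put `a' μ = v^(-E) aeval q (a μ)`, `E = EL (ld g) n = En g n = eE g (range n)`
(`S_ADM`). `S_REL3` and `S_SK` (`k = n - m < n`) give the hypothesis of `S_AUQ` with `s = SF v (ld g) n`: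
`v^(-E) qn q m v^(E+1-n+(n-m)) = v^(1-m) qn q m = {m}`, and every `(s1, s2)` is `(α+β, αβ)` (square root of
`s1^2 - 4 s2`); `AA` is linear in `a`. `S_POS` for `ld g`. Then `a' (lvP n m b) ∈ SC v E`, and
`S_EXT`. Finally `XX = ∑ C (a μ) ∏ es` is in `HC3` (generators `μ.parts`, `a μ`). -/
def S_CONN3 : Prop := ∀ (g : ℕ → ℕ), Monotone g → ∀ n : ℕ, Cn g n → (∃ j, j < n ∧ 2 ≤ ld g j) →
  ∀ N, n + 2 ≤ N → XX g (qq N) (xx N) (range n) ∈ HC3 N n (eE g (range n))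

/-- TASK DROP. `φ : AN (N+1) →+* AN N` with `φ (C p) = C p`, `φ (xx 0) = 0`, `φ (xx k.succ) = xx k`
(`MvPolynomial.eval₂Hom MvPolynomial.C (Fin.cons 0 (xx N))`). `φ (XX ..(N+1)) = XX g (qq N)
(Fin.cons 0 (xx N)) U` (`Z_map`) `= XX g (qq N) (xx N) U` (`S_SPL`: only `T = ∅` contributes, `ea U ∅ = 0`).
`φ (es (xx (N+1)) k) = es (xx N) k` (`HOOK.es_map`, `S_ESZ` with `x 0 = 0`). Closure induction. -/
def S_DROP : Prop := ∀ (N n d : ℕ) (g : ℕ → ℕ) (U : Finset ℕ),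
  XX g (qq (N + 1)) (xx (N + 1)) U ∈ HC3 (N + 1) n d → XX g (qq N) (xx N) U ∈ HC3 N n d

end Pool.Agent.LV2
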