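import Pool.Agent.Lib.MP_263316_co.LV2.Spec

/-!
MP_263316_co, project LV2, task TWO: the coefficients of the partitions `(2^b, 1^(n-2b))` of a graph
with a triangle are zero.
-/

set_option autoImplicit false

namespace Pool.Agent.LV2

open Finset Pool.Agent.SWC Pool.Agent.SWK Pool.Agent.HOOK

namespace TWOAux

theorem eval_XX (N : ℕ) (g : ℕ → ℕ) (U : Finset ℕ) (q : ℂ) {A : Type} [CommRing A]
    (ι : ℂ →+* A) (x : Fin N → A) (n : ℕ) (a : n.Partition → Polynomial ℤ)
    (ha : XX g (qq N) (xx N) U =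
      ∑ μ : n.Partition, MvPolynomial.C (a μ) * (μ.parts.map (es (xx N))).prod) :
    XX g (ι q) x U = ∑ μ : n.Partition, ι (Polynomial.aeval q (a μ)) *
      (μ.parts.map (es x)).prod := by
  set ψ : Polynomial ℤ →+* A := ι.comp (Polynomial.aeval q : Polynomial ℤ →ₐ[ℤ] ℂ).toRingHom
    with hψ
  set φ : AN N →+* A := MvPolynomial.eval₂Hom ψ x with hφ
  have h1 : φ (XX g (qq N) (xx N) U) = XX g (ι q) x U := by
    have h := Z_map φ g (qq N) U (fun _ k => xx N k)
    have e1 : φ (qq N) = ι q := by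
      rw [hφ, qq, MvPolynomial.coe_eval₂Hom, MvPolynomial.eval₂_C, hψ]
      change ι (Polynomial.aeval q Polynomial.X) = ι q
      rw [Polynomial.aeval_X]
    have e2 : ∀ k, φ (xx N k) = x k := fun k => by
      rw [hφ, xx, MvPolynomial.coe_eval₂Hom, MvPolynomial.eval₂_X]
    unfold XX
    rw [h, e1]
    simp only [e2]
  rw [← h1, ha, map_sum]
  refine Finset.sum_congr rfl fun μ _ => ?_
  rw [map_mul, map_multiset_prod, Multiset.map_map]
  congr 1
  · rw [hφ, MvPolynomial.coe_eval₂Hom, MvPolynomial.eval₂_C, hψ]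
    rfl
  · refine congrArg Multiset.prod (Multiset.map_congr rfl fun d _ => ?_)
    rw [Function.comp_apply, es_map]
    congr 1
    funext k
    rw [hφ, xx, MvPolynomial.coe_eval₂Hom, MvPolynomial.eval₂_X]

/-- the alphabet `α, β, 0, ..., 0` -/
noncomputable def al (α β : ℂ) (N : ℕ) : Fin (N + 2) → ℂ :=
  Fin.cons α (Fin.cons β (fun _ => 0))

theorem al_zero (α β : ℂ) (N : ℕ) : al α β N 0 = α := rfl

theorem al_succ (α β : ℂ) (N : ℕ) : (fun k : Fin (N + 1) => al α β N k.succ) =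
    Fin.cons β (fun _ => 0) := by
  funext k; rfl

theorem al_succ2 (β : ℂ) (N : ℕ) : (fun k : Fin N => (Fin.cons β (fun _ => 0) :
    Fin (N + 1) → ℂ) k.succ) = fun _ => 0 := by
  funext k; rfl

theorem es_step (hESZ : S_ESZ) {N : ℕ} (x : Fin (N + 1) → ℂ) (d : ℕ) :
    es x (d + 1) = es (fun k => x k.succ) (d + 1) + x 0 * es (fun k => x k.succ) d := by
  have h := hESZ.1 ℂ N x ((d : ℤ) + 1)
  unfold esz at h
  rw [if_neg (by omega), if_neg (by omega), if_neg (by omega),
    show ((d : ℤ) + 1).toNat = d + 1 by omega, show ((d : ℤ) + 1 - 1).toNat = d by omega] at h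
  exact h

theorem es_zero' {N : ℕ} (x : Fin N → ℂ) : es x 0 = 1 := by
  simp [es]

theorem es_c0 (hESZ : S_ESZ) (β : ℂ) (N d : ℕ) :
    es (Fin.cons β (fun _ => 0) : Fin (N + 1) → ℂ) (d + 1) = if d = 0 then β else 0 := by
  rw [es_step hESZ, al_succ2, es_nil, es_nil, Fin.cons_zero, if_neg (Nat.succ_ne_zero d)]
  by_cases h : d = 0
  · rw [if_pos h, if_pos h]; ring
  · rw [if_neg h, if_neg h]; ring

theorem es_c1 (hESZ : S_ESZ) (β : ℂ) (N : ℕ) :
    es (Fin.cons β (fun _ => 0) : Fin (N + 1) → ℂ) 1 = β := by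
  have h := es_c0 hESZ β N 0
  rw [if_pos rfl] at h
  exact h

theorem es_al1 (hESZ : S_ESZ) (α β : ℂ) (N : ℕ) : es (al α β N) 1 = α + β := by
  have h := es_step hESZ (al α β N) 0
  rw [al_succ, al_zero, es_zero'] at h
  have h2 : es (al α β N) (0 + 1) = α + β := by
    rw [h, show (0 : ℕ) + 1 = 1 from rfl, es_c1 hESZ]
    ring
  exact h2

theorem es_al2 (hESZ : S_ESZ) (α β : ℂ) (N : ℕ) : es (al α β N) 2 = α * β := by
  have h := es_step hESZ (al α β N) 1
  rw [al_succ, es_c0 hESZ, if_neg one_ne_zero, al_zero, es_c1 hESZ, zero_add] at h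
  exact h

theorem es_al3 (hESZ : S_ESZ) (α β : ℂ) (N d : ℕ) (hd : 3 ≤ d) : es (al α β N) d = 0 := by
  obtain ⟨e, rfl⟩ : ∃ e, d = e + 1 + 1 := ⟨d - 2, by omega⟩
  rw [es_step hESZ, al_succ, es_c0 hESZ, es_c0 hESZ, if_neg (by omega), if_neg (by omega)]
  ring

theorem XX_nil (g : ℕ → ℕ) (q : ℂ) (N : ℕ) (V : Finset ℕ) (hV : V.Nonempty) :
    XX g q (fun _ : Fin N => (0 : ℂ)) V = 0 := by
  obtain ⟨v, hv⟩ := hV
  exact Z_zero hv (fun _ => rfl)

theorem XX_al (hSPL : S_SPL) (g : ℕ → ℕ) (q α β : ℂ) (N : ℕ) (U : Finset ℕ)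
    (hU : ∀ T T' : Finset ℕ, ind g T → ind g T' → ((U \ T) \ T').Nonempty) :
    XX g q (al α β N) U = 0 := by
  rw [hSPL ℂ (N + 1) g q (al α β N) U]
  refine Finset.sum_eq_zero fun T hT => ?_
  rw [Finset.mem_filter] at hT
  rw [al_succ, hSPL ℂ N g q _ (U \ T)]
  refine mul_eq_zero_of_right _ (Finset.sum_eq_zero fun T' hT' => ?_)
  rw [Finset.mem_filter] at hT'
  rw [al_succ2, XX_nil g q N _ (hU T T' hT.2 hT'.2), mul_zero]

theorem tri (g : ℕ → ℕ) (hg : Monotone g) (U : Finset ℕ)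
    (h : ∃ x ∈ U, ∃ y ∈ U, ∃ z ∈ U, x < y ∧ y < z ∧ z ≤ g x)
    (T T' : Finset ℕ) (hT : ind g T) (hT' : ind g T') : ((U \ T) \ T').Nonempty := by
  obtain ⟨x, hx, y, hy, z, hz, hxy, hyz, hzx⟩ := h
  by_contra hne
  rw [Finset.not_nonempty_iff_eq_empty] at hne
  have key : ∀ u ∈ U, u ∈ T ∨ u ∈ T' := by
    intro u hu
    by_contra hc
    rw [not_or] at hc
    have : u ∈ ((U \ T) \ T') := by
      rw [Finset.mem_sdiff, Finset.mem_sdiff]
      exact ⟨⟨hu, hc.1⟩, hc.2⟩
    rw [hne] at this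
    exact Finset.notMem_empty u this
  have e1 : x < y ∧ y ≤ g x := ⟨hxy, by omega⟩
  have e2 : x < z ∧ z ≤ g x := ⟨by omega, hzx⟩
  have e3 : y < z ∧ z ≤ g y := ⟨hyz, le_trans hzx (hg (le_of_lt hxy))⟩
  rcases key x hx with h1 | h1 <;> rcases key y hy with h2 | h2 <;>
    rcases key z hz with h3 | h3
  · exact hT x h1 y h2 e1
  · exact hT x h1 y h2 e1
  · exact hT x h1 z h3 e2
  · exact hT' y h2 z h3 e3
  · exact hT y h2 z h3 e3
  · exact hT' x h1 z h3 e2
  · exact hT' x h1 y h2 e1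
  · exact hT' x h1 y h2 e1

theorem parts_two (s : Multiset ℕ) (h : ∀ p ∈ s, p = 1 ∨ p = 2) :
    s = Multiset.replicate (s.count 2) 2 + Multiset.replicate (s.count 1) 1 := by
  ext d
  rw [Multiset.count_add, Multiset.count_replicate, Multiset.count_replicate]
  by_cases h1 : d = 1
  · subst h1; simp
  · by_cases h2 : d = 2
    · subst h2; simp
    · rw [if_neg (fun e => h2 e.symm), if_neg (fun e => h1 e.symm), add_zero]
      exact Multiset.count_eq_zero.mpr fun hd => (h d hd).elim h1 h2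

theorem part_eq {n : ℕ} (μ : n.Partition) (h : ∀ p ∈ μ.parts, p = 1 ∨ p = 2) :
    ∃ (b : ℕ) (hb : 2 * b ≤ n), μ = twP n b hb := by
  have h1 := parts_two μ.parts h
  have h2 : 2 * μ.parts.count 2 + μ.parts.count 1 = n := by
    have h3 := μ.parts_sum
    rw [h1, Multiset.sum_add, Multiset.sum_replicate, Multiset.sum_replicate, smul_eq_mul,
      smul_eq_mul] at h3
    omega
  refine ⟨μ.parts.count 2, by omega, Nat.Partition.ext ?_⟩
  have h4 : n - 2 * μ.parts.count 2 = μ.parts.count 1 := by omega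
  change μ.parts = Multiset.replicate (μ.parts.count 2) 2 +
    Multiset.replicate (n - 2 * μ.parts.count 2) 1
  rw [h4]
  exact h1

/-- total version of `twP` -/
def tw (n b : ℕ) : n.Partition := if h : 2 * b ≤ n then twP n b h else twP n 0 (Nat.zero_le n)

theorem tw_eq {n b : ℕ} (h : 2 * b ≤ n) : tw n b = twP n b h := dif_pos h

theorem tw_inj (n : ℕ) : Set.InjOn (tw n) (Finset.range (n / 2 + 1) : Finset ℕ) := by
  intro b hb c hc h
  rw [Finset.mem_coe, Finset.mem_range] at hb hc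
  have hb' : 2 * b ≤ n := by omega
  have hc' : 2 * c ≤ n := by omega
  rw [tw_eq hb', tw_eq hc'] at h
  have h2 : (Multiset.replicate b 2 + Multiset.replicate (n - 2 * b) 1).count 2 =
      (Multiset.replicate c 2 + Multiset.replicate (n - 2 * c) 1).count 2 :=
    congrArg (fun p : n.Partition => p.parts.count 2) h
  rw [Multiset.count_add, Multiset.count_add, Multiset.count_replicate, Multiset.count_replicate,
    Multiset.count_replicate, Multiset.count_replicate, if_pos rfl, if_pos rfl,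
    if_neg (by omega), if_neg (by omega)] at h2
  omega

theorem sum_two (n : ℕ) (s : ℂ) (F : ℕ → ℂ) (h1 : F 1 = 1) (h2 : F 2 = s)
    (h3 : ∀ d, 3 ≤ d → F d = 0) (a : n.Partition → ℂ) :
    ∑ μ : n.Partition, a μ * (μ.parts.map F).prod =
      ∑ b ∈ Finset.range (n / 2 + 1), a (tw n b) * s ^ b := by
  symm
  refine Finset.sum_of_injOn (tw n) (tw_inj n) (fun _ _ => Finset.mem_coe.mpr (Finset.mem_univ _))
    (fun μ _ hμ => ?_) (fun b hb => ?_)
  · have hex : ∃ p ∈ μ.parts, 3 ≤ p := by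
      by_contra hc
      push Not at hc
      obtain ⟨b, hb, he⟩ := part_eq μ (fun p hp => by
        have h4 := hc p hp
        have h5 := μ.parts_pos hp
        omega)
      apply hμ
      refine ⟨b, Finset.mem_coe.mpr (Finset.mem_range.mpr (by omega)), ?_⟩
      rw [tw_eq hb, he]
    obtain ⟨p, hp, hp3⟩ := hex
    rw [Multiset.prod_eq_zero (Multiset.mem_map.mpr ⟨p, hp, h3 p hp3⟩), mul_zero]
  · rw [Finset.mem_range] at hb
    have hb' : 2 * b ≤ n := by omega
    rw [tw_eq hb']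
    have h4 : ((twP n b hb').parts.map F).prod = s ^ b := by
      change ((Multiset.replicate b 2 + Multiset.replicate (n - 2 * b) 1).map F).prod = s ^ b
      rw [Multiset.map_add, Multiset.map_replicate, Multiset.map_replicate, Multiset.prod_add,
        Multiset.prod_replicate, Multiset.prod_replicate, h1, h2, one_pow, mul_one]
    rw [h4]

theorem roots (s : ℂ) : ∃ α β : ℂ, α + β = 1 ∧ α * β = s := by
  obtain ⟨r, hr⟩ := IsAlgClosed.exists_pow_nat_eq (1 - 4 * s) (n := 2) (by norm_num)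
  refine ⟨(1 + r) / 2, (1 - r) / 2, by ring, ?_⟩
  linear_combination (-1 / 4 : ℂ) * hr

theorem coeffs_zero (n : ℕ) (c : ℕ → ℂ)
    (h : ∀ s : ℂ, ∑ b ∈ Finset.range (n / 2 + 1), c b * s ^ b = 0) :
    ∀ b, 2 * b ≤ n → c b = 0 := by
  intro b hb
  have h1 : (∑ b ∈ Finset.range (n / 2 + 1), Polynomial.C (c b) * Polynomial.X ^ b :
      Polynomial ℂ) = 0 := by
    refine Polynomial.funext fun s => ?_
    rw [Polynomial.eval_finsetSum, Polynomial.eval_zero, ← h s]
    refine Finset.sum_congr rfl fun b _ => ?_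
    rw [Polynomial.eval_mul, Polynomial.eval_C, Polynomial.eval_pow, Polynomial.eval_X]
  have h2 := congrArg (fun p : Polynomial ℂ => p.coeff b) h1
  simp only [Polynomial.finsetSum_coeff, Polynomial.coeff_C_mul, Polynomial.coeff_X_pow,
    Polynomial.coeff_zero] at h2
  rw [Finset.sum_eq_single b] at h2
  · rw [if_pos rfl, mul_one] at h2
    exact h2
  · intro c' _ hne
    rw [if_neg (fun e => hne e.symm), mul_zero]
  · intro hne
    exact absurd (Finset.mem_range.mpr (by omega)) hne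

end TWOAux

open TWOAux in
/-- TASK TWO -/
theorem tTWO : S_SPL → S_ESZ → S_TWO := by
  intro hSPL hESZ g hg N n U _ hN htri a ha q b hb
  obtain ⟨N', rfl⟩ : ∃ N', N = N' + 2 := ⟨N - 2, by omega⟩
  have hz := coeffs_zero n (fun b => Polynomial.aeval q (a (tw n b))) (fun s => by
    obtain ⟨α, β, h1, h2⟩ := roots s
    have h3 := eval_XX (N' + 2) g U q (RingHom.id ℂ) (al α β N') n a ha
    rw [RingHom.id_apply, XX_al hSPL g q α β N' U (tri g hg U htri)] at h3
    simp only [RingHom.id_apply] at h3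
    rw [sum_two n s (es (al α β N')) (by rw [es_al1 hESZ, h1]) (by rw [es_al2 hESZ, h2])
      (es_al3 hESZ α β N')] at h3
    exact h3.symm) b hb
  rw [tw_eq hb] at hz
  exact hz

end Pool.Agent.LV2
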